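import Pool.Agent.H120R2.GS.Stubs

set_option autoImplicit false

open Finset

namespace Pool.Agent.H120R2.GS.ABSh

theorem lst_small {n : ℕ} (h : n ≤ 1) : lst n = 0 := by
  rw [lst, dif_pos h]

theorem lst_big {n : ℕ} (h : 1 < n) : lst n = 1 + lst (Nat.log 2 n) := by
  rw [lst, dif_neg (by omega)]

theorem lst_mono : ∀ b a : ℕ, a ≤ b → lst a ≤ lst b := by
  intro b
  induction b using Nat.strong_induction_on with
  | _ b ih =>
    intro a hab
    rcases Nat.lt_or_ge 1 a with ha | ha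
    · rw [lst_big ha, lst_big (lt_of_lt_of_le ha hab)]
      have := ih (Nat.log 2 b) (Nat.log_lt_self 2 (by omega)) (Nat.log 2 a)
        (Nat.log_mono_right hab)
      omega
    · rw [lst_small ha]
      exact Nat.zero_le _

theorem lst_two_pow {q : ℕ} (hq : 1 ≤ q) : lst (2 ^ q) = 1 + lst q := by
  have h : 1 < 2 ^ q := Nat.one_lt_two_pow (by omega)
  rw [lst_big h, Nat.log_pow (by norm_num)]

theorem combine {m : ℕ} (Z : Finset (Fin m)) (y : Fin m → ℝ) (hZ : ∀ i ∈ Z, y i = 0)
    (e : Fin Z.card ≃ Z) (ε' : Fin Z.card → ℝ) {V : Type} [AddCommGroup V] [Module ℂ V]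
    (B : Fin m → V) :
    ∑ i, (((if h : i ∈ Z then ε' (e.symm ⟨i, h⟩) else y i : ℝ)) : ℂ) • B i =
      ∑ i, ((y i : ℝ) : ℂ) • B i + ∑ k, ((ε' k : ℝ) : ℂ) • B (e k) := by
  classical
  have h1 : ∑ k, ((ε' k : ℝ) : ℂ) • B (e k) =
      ∑ i, (if h : i ∈ Z then ((ε' (e.symm ⟨i, h⟩) : ℝ) : ℂ) • B i else 0) := by
    have h2 : ∑ k, ((ε' k : ℝ) : ℂ) • B (e k) =
        ∑ x : Z, ((ε' (e.symm x) : ℝ) : ℂ) • B x := by
      rw [← Equiv.sum_comp e (fun x : Z => ((ε' (e.symm x) : ℝ) : ℂ) • B x)]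
      apply Finset.sum_congr rfl
      intro k _
      rw [Equiv.symm_apply_apply]
    rw [h2]
    have h3 := Finset.sum_coe_sort Z
      (fun i => if h : i ∈ Z then ((ε' (e.symm ⟨i, h⟩) : ℝ) : ℂ) • B i else 0)
    rw [← Finset.sum_subset (Finset.subset_univ Z) (f := fun i =>
      if h : i ∈ Z then ((ε' (e.symm ⟨i, h⟩) : ℝ) : ℂ) • B i else 0)
      (fun i _ hi => dif_neg hi), ← h3]
    apply Finset.sum_congr rfl
    intro x _
    rw [dif_pos x.2]
  rw [h1, ← Finset.sum_add_distrib]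
  apply Finset.sum_congr rfl
  intro i _
  by_cases h : i ∈ Z
  · rw [dif_pos h, dif_pos h, hZ i h]
    simp
  · rw [dif_neg h, dif_neg h, add_zero]

theorem sum_sub {m : ℕ} (Z : Finset (Fin m)) (e : Fin Z.card ≃ Z) (f : Fin m → ℝ)
    (hf : ∀ i, 0 ≤ f i) : ∑ k, f (e k) ≤ ∑ i, f i := by
  have h2 : ∑ k, f (e k) = ∑ x : Z, f x := Equiv.sum_comp e (fun x : Z => f x)
  rw [h2, Finset.sum_coe_sort Z f]
  exact Finset.sum_le_sum_of_subset_of_nonneg (Finset.subset_univ _) (fun i _ _ => hf i)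

end Pool.Agent.H120R2.GS.ABSh

namespace Pool.Agent.H120R2.GS

open ABSh in
theorem T_ABS : P_PC → P_ABS := by
  intro hPC n ι _ _ d A hι hd hA hV
  have hs0 : 0 ≤ √(n : ℝ) := Real.sqrt_nonneg _
  -- the claim
  have claim : ∀ m : ℕ, 1 ≤ m → m ≤ n → ∀ A : Fin m → (j : ι) → Op (d j),
      (∀ i j, ‖A i j‖ ≤ 1) →
      (∀ j (u v : E (d j)), ‖u‖ ≤ 1 → ‖v‖ ≤ 1 → ∑ i, ‖inner ℂ v (A i j u)‖ ^ 2 ≤ (n : ℝ) / d j) →
      ∃ ε : Fin m → ℝ, (∀ i, ε i = 1 ∨ ε i = -1) ∧
        ∀ j, ‖∑ i, ((ε i : ℝ) : ℂ) • A i j‖ ≤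
          (28 * (1 + (lst n : ℝ) - lst (n / m)) + 2) * √n := by
    intro m
    induction m using Nat.strong_induction_on with
    | _ m ih =>
      intro hm1 hmn A hA hV
      have hlm : (lst (n / m) : ℝ) ≤ lst n := by
        exact_mod_cast lst_mono n (n / m) (Nat.div_le_self _ _)
      obtain ⟨y, hy, hyn, hyz⟩ := hPC n m ι d A hm1 hmn hι hd hA hV
      set Z := Finset.univ.filter (fun i => y i = 0) with hZ
      have hZ0 : ∀ i ∈ Z, y i = 0 := fun i hi => (Finset.mem_filter.mp hi).2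
      have hZ1 : ∀ i, i ∉ Z → y i = 1 ∨ y i = -1 := by
        intro i hi
        rcases hy i with h | h
        · exact absurd (show i ∈ Z by rw [hZ]; exact Finset.mem_filter.mpr ⟨Finset.mem_univ i, h⟩) hi
        · exact h
      have e : Fin Z.card ≃ Z := (Z.equivFin).symm
      have key : ∀ ε' : Fin Z.card → ℝ, (∀ k, ε' k = 1 ∨ ε' k = -1) → ∀ c : ℝ,
          (∀ j, ‖∑ k, ((ε' k : ℝ) : ℂ) • A (e k) j‖ ≤ c) →
          28 * √(n : ℝ) + c ≤ (28 * (1 + (lst n : ℝ) - lst (n / m)) + 2) * √n →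
          ∃ ε : Fin m → ℝ, (∀ i, ε i = 1 ∨ ε i = -1) ∧
            ∀ j, ‖∑ i, ((ε i : ℝ) : ℂ) • A i j‖ ≤
              (28 * (1 + (lst n : ℝ) - lst (n / m)) + 2) * √n := by
        intro ε' hε' c hc hle
        refine ⟨fun i => if h : i ∈ Z then ε' (e.symm ⟨i, h⟩) else y i, ?_, ?_⟩
        · intro i
          by_cases h : i ∈ Z
          · simp only [dif_pos h]
            exact hε' _
          · simp only [dif_neg h]
            exact hZ1 i h
        · intro j
          have h1 := combine Z y hZ0 e ε' (fun i => A i j)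
          rw [h1]
          exact le_trans (norm_add_le _ _) (le_trans (add_le_add (hyn j) (hc j)) hle)
      rcases Nat.eq_zero_or_pos Z.card with hz0 | hzpos
      · -- everything is coloured
        refine key (fun _ => 1) (fun _ => Or.inl rfl) 0 ?_ ?_
        · intro j
          have : (Finset.univ : Finset (Fin Z.card)) = ∅ := by
            rw [← Finset.card_eq_zero, Finset.card_univ, Fintype.card_fin, hz0]
          rw [this, Finset.sum_empty, norm_zero]
        · nlinarith
      rcases hyz with hz | hz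
      · -- recursion
        have hq1 : 1 ≤ n / m := (Nat.one_le_div_iff (by omega)).mpr hmn
        have h2q : 2 ≤ 2 ^ (n / m) := by
          calc 2 = 2 ^ 1 := by norm_num
            _ ≤ 2 ^ (n / m) := Nat.pow_le_pow_right (by norm_num) hq1
        have hzm : Z.card < m := by nlinarith
        have hnz : 2 ^ (n / m) ≤ n / Z.card := by
          rw [Nat.le_div_iff_mul_le hzpos, mul_comm]
          exact le_trans hz hmn
        have hl : 1 + lst (n / m) ≤ lst (n / Z.card) := by
          rw [← lst_two_pow hq1]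
          exact lst_mono _ _ hnz
        have hlR : 1 + (lst (n / m) : ℝ) ≤ lst (n / Z.card) := by exact_mod_cast hl
        obtain ⟨ε', hε', hb⟩ := ih Z.card hzm hzpos (by omega) (fun k => A (e k))
          (fun i j => hA _ j) (by
            intro j u v hu hv
            exact le_trans (sum_sub Z e (fun i => ‖inner ℂ v (A i j u)‖ ^ 2)
              (fun i => by positivity)) (hV j u v hu hv))
        refine key ε' hε' _ hb ?_
        nlinarith
      · -- the last stage
        refine key (fun _ => 1) (fun _ => Or.inl rfl) (Z.card : ℝ) ?_ ?_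
        · intro j
          refine le_trans (norm_sum_le _ _) ?_
          calc ∑ k : Fin Z.card, ‖(((1 : ℝ)) : ℂ) • A (e k) j‖ ≤ ∑ k : Fin Z.card, (1 : ℝ) := by
                apply Finset.sum_le_sum
                intro k _
                rw [Complex.ofReal_one, one_smul]
                exact hA _ j
            _ = Z.card := by simp
        · have h1 : (Z.card : ℝ) ≤ 2 * √(n : ℝ) := by
            have h2 : (Z.card : ℝ) ^ 2 ≤ 3 * n := by
              have h3 : (Z.card : ℝ) ^ 2 ≤ 3 * m := by exact_mod_cast hz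
              have h4 : (m : ℝ) ≤ n := by exact_mod_cast hmn
              linarith
            have h5 : √(n : ℝ) ^ 2 = n := Real.sq_sqrt (Nat.cast_nonneg _)
            have h6 : (0 : ℝ) ≤ Z.card := Nat.cast_nonneg _
            nlinarith
          nlinarith
  rcases Nat.eq_zero_or_pos n with hn0 | hnpos
  · subst hn0
    refine ⟨fun _ => 1, fun _ => Or.inl rfl, ?_⟩
    intro j
    simp
  · obtain ⟨ε, hε, hb⟩ := claim n hnpos le_rfl A hA hV
    refine ⟨ε, hε, fun j => le_trans (hb j) ?_⟩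
    have h1 : lst (n / n) = 0 := lst_small (by rw [Nat.div_self hnpos])
    rw [h1]
    have h2 : (0 : ℝ) ≤ lst n := Nat.cast_nonneg _
    apply mul_le_mul_of_nonneg_right _ hs0
    push_cast
    linarith

end Pool.Agent.H120R2.GS
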