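import Pool.Agent.H120R2.GS.Stubs2
import Pool.Agent.H120R2.GS.ABS

set_option autoImplicit false

open Finset

namespace Pool.Agent.H120R2.GS

theorem T_ABS2 : P_PC2 → P_ABS2 := by
  rintro ⟨C0, hC0, hPC⟩
  obtain ⟨θ, hθ⟩ : ∃ θ : ℝ, θ = (1 / 2 : ℝ) ^ ((1 : ℝ) / 16) := ⟨_, rfl⟩
  have hθ0 : 0 ≤ θ := by rw [hθ]; positivity
  have hθ1 : θ < 1 := by
    rw [hθ]
    exact Real.rpow_lt_one (by norm_num) (by norm_num) (by norm_num)
  obtain ⟨C1, hC1⟩ : ∃ C1 : ℝ, C1 = C0 / (1 - θ) := ⟨_, rfl⟩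
  have h1θ : 0 < 1 - θ := by linarith
  have hCC : C0 + θ * C1 = C1 := by
    have h : C1 * (1 - θ) = C0 := by rw [hC1]; field_simp
    linarith
  have hC1pos : 0 < C1 := by rw [hC1]; positivity
  have hC01 : C0 ≤ C1 := by
    have : 0 ≤ θ * C1 := by positivity
    linarith
  refine ⟨C1, hC1pos, ?_⟩
  intro n ι _ _ d A hι hd hA hV
  have hs0 : 0 ≤ √(n : ℝ) := Real.sqrt_nonneg _
  -- the claim
  have claim : ∀ m : ℕ, 1 ≤ m → m ≤ n → ∀ A : Fin m → (j : ι) → Op (d j),
      (∀ i j, ‖A i j‖ ≤ 1) →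
      (∀ j, CovO (fun i => A i j) ((n : ℝ) / d j)) →
      ∃ ε : Fin m → ℝ, (∀ i, ε i = 1 ∨ ε i = -1) ∧
        ∀ j, ‖∑ i, ((ε i : ℝ) : ℂ) • A i j‖ ≤ C1 * √n * ((m : ℝ) / n) ^ ((1 : ℝ) / 16) := by
    intro m
    induction m using Nat.strong_induction_on with
    | _ m ih =>
      intro hm1 hmn A hA hV
      obtain ⟨y, hy, hyn, hyz⟩ := hPC n m ι d A hm1 hmn hι hd hA hV
      set Z := Finset.univ.filter (fun i => y i = 0) with hZ
      have hZ0 : ∀ i ∈ Z, y i = 0 := fun i hi => (Finset.mem_filter.mp hi).2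
      have hZ1 : ∀ i, i ∉ Z → y i = 1 ∨ y i = -1 := by
        intro i hi
        rcases hy i with h | h
        · exact absurd (show i ∈ Z by rw [hZ]; exact Finset.mem_filter.mpr ⟨Finset.mem_univ i, h⟩) hi
        · exact h
      have e : Fin Z.card ≃ Z := (Z.equivFin).symm
      have hr0 : 0 ≤ ((m : ℝ) / n) ^ ((1 : ℝ) / 16) := by positivity
      have key : ∀ ε' : Fin Z.card → ℝ, (∀ k, ε' k = 1 ∨ ε' k = -1) → ∀ c : ℝ,
          (∀ j, ‖∑ k, ((ε' k : ℝ) : ℂ) • A (e k) j‖ ≤ c) →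
          C0 * √n * ((m : ℝ) / n) ^ ((1 : ℝ) / 16) + c ≤
            C1 * √n * ((m : ℝ) / n) ^ ((1 : ℝ) / 16) →
          ∃ ε : Fin m → ℝ, (∀ i, ε i = 1 ∨ ε i = -1) ∧
            ∀ j, ‖∑ i, ((ε i : ℝ) : ℂ) • A i j‖ ≤
              C1 * √n * ((m : ℝ) / n) ^ ((1 : ℝ) / 16) := by
        intro ε' hε' c hc hle
        refine ⟨fun i => if h : i ∈ Z then ε' (e.symm ⟨i, h⟩) else y i, ?_, ?_⟩
        · intro i
          by_cases h : i ∈ Z
          · simp only [dif_pos h]
            exact hε' _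
          · simp only [dif_neg h]
            exact hZ1 i h
        · intro j
          have h1 := ABSh.combine Z y hZ0 e ε' (fun i => A i j)
          rw [h1]
          exact le_trans (norm_add_le _ _) (le_trans (add_le_add (hyn j) (hc j)) hle)
      rcases Nat.eq_zero_or_pos Z.card with hz0 | hzpos
      · -- everything is coloured
        refine key (fun _ => 1) (fun _ => Or.inl rfl) 0 ?_ ?_
        · intro j
          have : (Finset.univ : Finset (Fin Z.card)) = ∅ := by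
            rw [← Finset.card_eq_zero, Finset.card_univ, Fintype.card_fin, hz0]
          rw [this, Finset.sum_empty, norm_zero]
        · rw [add_zero]
          exact mul_le_mul_of_nonneg_right (mul_le_mul_of_nonneg_right hC01 hs0) hr0
      · -- recursion
        obtain ⟨ε', hε', hb⟩ := ih Z.card (by omega) hzpos (by omega) (fun k => A (e k))
          (fun i j => hA _ j) (by
            intro j z
            exact le_trans (ABSh.sum_sub Z e (fun i => ‖∑ a, ∑ b, z a b * mc (A i j) a b‖ ^ 2)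
              (fun i => by positivity)) (hV j z))
        refine key ε' hε' _ hb ?_
        have h1 : ((Z.card : ℝ) / n) ^ ((1 : ℝ) / 16) ≤ θ * ((m : ℝ) / n) ^ ((1 : ℝ) / 16) := by
          rw [hθ, ← Real.mul_rpow (by norm_num) (by positivity)]
          apply Real.rpow_le_rpow (by positivity) _ (by norm_num)
          have h2 : (Z.card : ℝ) ≤ 1 / 2 * m := by
            have : (2 : ℝ) * Z.card ≤ m := by exact_mod_cast hyz
            linarith
          rw [← mul_div_assoc]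
          exact div_le_div_of_nonneg_right h2 (by positivity)
        have h2 : C1 * √n * ((Z.card : ℝ) / n) ^ ((1 : ℝ) / 16) ≤
            C1 * √n * (θ * ((m : ℝ) / n) ^ ((1 : ℝ) / 16)) :=
          mul_le_mul_of_nonneg_left h1 (by positivity)
        calc C0 * √n * ((m : ℝ) / n) ^ ((1 : ℝ) / 16) +
            C1 * √n * ((Z.card : ℝ) / n) ^ ((1 : ℝ) / 16)
            ≤ C0 * √n * ((m : ℝ) / n) ^ ((1 : ℝ) / 16) +
              C1 * √n * (θ * ((m : ℝ) / n) ^ ((1 : ℝ) / 16)) := by linarith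
          _ = (C0 + θ * C1) * √n * ((m : ℝ) / n) ^ ((1 : ℝ) / 16) := by ring
          _ = C1 * √n * ((m : ℝ) / n) ^ ((1 : ℝ) / 16) := by rw [hCC]
  rcases Nat.eq_zero_or_pos n with hn0 | hnpos
  · subst hn0
    refine ⟨fun _ => 1, fun _ => Or.inl rfl, ?_⟩
    intro j
    simp
  · obtain ⟨ε, hε, hb⟩ := claim n hnpos le_rfl A hA hV
    refine ⟨ε, hε, fun j => le_trans (hb j) (le_of_eq ?_)⟩
    have hn : (n : ℝ) ≠ 0 := by exact_mod_cast hnpos.ne'
    rw [div_self hn, Real.one_rpow, mul_one]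

end Pool.Agent.H120R2.GS
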