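import Pool.Agent.H120R2.GS.Stubs2

/-!
# APR: a priori moments from the tail bound (helper99)
-/

set_option autoImplicit false

namespace Pool.Agent.H120R2.GS

open scoped BigOperators Matrix Matrix.Norms.L2Operator

namespace APRh

theorem card (m : ℕ) : ((Finset.univ : Finset (Fin m → Bool)).card : ℝ) = 2 ^ m := by
  rw [Finset.card_univ, Fintype.card_fun, Fintype.card_bool, Fintype.card_fin]
  push_cast
  rfl

theorem exp9 (d : ℕ) : (6561 : ℝ) ^ d ≤ Real.exp (9 * d) := by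
  have h1 : (6561 : ℝ) ≤ Real.exp 9 := by
    have h2 : (2.7 : ℝ) ≤ Real.exp 1 := by
      have := Real.exp_one_gt_d9
      linarith
    have h3 : Real.exp 9 = (Real.exp 1) ^ 9 := by
      rw [← Real.exp_nat_mul]
      norm_num
    rw [h3]
    calc (6561 : ℝ) ≤ 2.7 ^ 9 := by norm_num
      _ ≤ (Real.exp 1) ^ 9 := pow_le_pow_left₀ (by norm_num) h2 9
  have h4 : Real.exp (9 * d) = (Real.exp 9) ^ d := by
    rw [← Real.exp_nat_mul]
    ring_nf
  rw [h4]
  exact pow_le_pow_left₀ (by norm_num) h1 d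

/-- the size of the terms of the tail sum -/
theorem term (d k i : ℕ) (hk : 1 ≤ k) (hkd : k ≤ d) :
    (20 * ((i : ℝ) + 2)) ^ k * (4 * 6561 ^ d * Real.exp (-(19 * ((i : ℝ) + 1) * d))) ≤
      4 * 20 ^ k * (1 / 10) ^ (i + 1) := by
  have hi : (0 : ℝ) ≤ i := Nat.cast_nonneg i
  have hk' : (1 : ℝ) ≤ k := by exact_mod_cast hk
  have hkd' : (k : ℝ) ≤ d := by exact_mod_cast hkd
  have h1 : ((i : ℝ) + 2) ^ k ≤ Real.exp (((i : ℝ) + 1) * k) := by
    have h2 : (i : ℝ) + 2 ≤ Real.exp ((i : ℝ) + 1) := by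
      have := Real.add_one_le_exp ((i : ℝ) + 1)
      linarith
    have h3 : Real.exp (((i : ℝ) + 1) * k) = (Real.exp ((i : ℝ) + 1)) ^ k := by
      rw [← Real.exp_nat_mul]
      ring_nf
    rw [h3]
    exact pow_le_pow_left₀ (by linarith) h2 k
  have h4 : (1 / 10 : ℝ) ^ (i + 1) ≥ Real.exp (-(9 * ((i : ℝ) + 1))) := by
    have h5 : Real.exp (-9) ≤ 1 / 10 := by
      rw [Real.exp_neg, inv_le_comm₀ (Real.exp_pos _) (by norm_num)]
      have := Real.add_one_le_exp (9 : ℝ)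
      linarith
    have h6 : Real.exp (-(9 * ((i : ℝ) + 1))) = (Real.exp (-9)) ^ (i + 1) := by
      rw [← Real.exp_nat_mul]
      push_cast
      ring_nf
    rw [h6]
    exact pow_le_pow_left₀ (Real.exp_pos _).le h5 (i + 1)
  calc (20 * ((i : ℝ) + 2)) ^ k * (4 * 6561 ^ d * Real.exp (-(19 * ((i : ℝ) + 1) * d)))
      = (4 * 20 ^ k) * (((i : ℝ) + 2) ^ k * (6561 ^ d * Real.exp (-(19 * ((i : ℝ) + 1) * d)))) := by
        rw [mul_pow]; ring
    _ ≤ (4 * 20 ^ k) * (Real.exp (((i : ℝ) + 1) * k) *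
          (Real.exp (9 * d) * Real.exp (-(19 * ((i : ℝ) + 1) * d)))) := by
        apply mul_le_mul_of_nonneg_left _ (by positivity)
        apply mul_le_mul h1 _ (by positivity) (Real.exp_pos _).le
        exact mul_le_mul_of_nonneg_right (exp9 d) (Real.exp_pos _).le
    _ ≤ (4 * 20 ^ k) * Real.exp (-(9 * ((i : ℝ) + 1))) := by
        apply mul_le_mul_of_nonneg_left _ (by positivity)
        rw [← Real.exp_add, ← Real.exp_add, Real.exp_le_exp]
        have h7 : (0 : ℝ) ≤ ((i : ℝ) + 1) * (d - k) := mul_nonneg (by linarith) (by linarith)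
        have h8 : (0 : ℝ) ≤ ((i : ℝ) + 1) * (d - 1) := mul_nonneg (by linarith) (by linarith)
        have h9 : (0 : ℝ) ≤ (i : ℝ) * d := mul_nonneg hi (by linarith)
        nlinarith
    _ ≤ 4 * 20 ^ k * (1 / 10) ^ (i + 1) := by
        apply mul_le_mul_of_nonneg_left h4 (by positivity)

theorem geom (I : ℕ) : ∑ i ∈ Finset.range I, (1 / 10 : ℝ) ^ (i + 1) ≤ 1 / 9 := by
  have h : ∀ I : ℕ, ∑ i ∈ Finset.range I, (1 / 10 : ℝ) ^ (i + 1) = (1 - (1 / 10) ^ I) / 9 := by
    intro I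
    induction I with
    | zero => simp
    | succ I ih =>
      rw [Finset.sum_range_succ, ih, pow_succ]
      ring
  rw [h]
  have : (0 : ℝ) ≤ (1 / 10) ^ I := by positivity
  linarith

/-- moments of a variable from its tails -/
theorem mom (m d k : ℕ) (Z : (Fin m → Bool) → ℝ) (hZ : ∀ x, 0 ≤ Z x) (hk : 1 ≤ k) (hkd : k ≤ d)
    (hT : ∀ i : ℕ, ((Finset.univ.filter (fun x => 19 * ((i : ℝ) + 1) < Z x)).card : ℝ) ≤
      4 * 6561 ^ d * 2 ^ m * Real.exp (-(19 * ((i : ℝ) + 1) * d))) :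
    ∑ x, Z x ^ k ≤ 2 ^ m * 40 ^ k := by
  classical
  -- a bound for the number of layers
  obtain ⟨I, hI⟩ : ∃ I : ℕ, ∀ x, Z x < 20 * ((I : ℝ) + 1) := by
    obtain ⟨I, hI⟩ := exists_nat_gt (∑ x, Z x)
    refine ⟨I, fun x => ?_⟩
    have h1 : Z x ≤ ∑ x, Z x := Finset.single_le_sum (fun y _ => hZ y) (Finset.mem_univ x)
    have h2 : (0 : ℝ) ≤ I := Nat.cast_nonneg I
    linarith
  have hpt : ∀ x, Z x ^ k ≤ 20 ^ k + ∑ i ∈ Finset.range I, (20 * ((i : ℝ) + 2)) ^ k *
      (if 19 * ((i : ℝ) + 1) < Z x then 1 else 0) := by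
    intro x
    have hnn : ∀ i ∈ Finset.range I, 0 ≤ (20 * ((i : ℝ) + 2)) ^ k *
        (if 19 * ((i : ℝ) + 1) < Z x then (1 : ℝ) else 0) := by
      intro i _
      have hi : (0 : ℝ) ≤ i := Nat.cast_nonneg i
      apply mul_nonneg
      · positivity
      · split_ifs <;> norm_num
    rcases lt_or_ge (Z x) 20 with h1 | h1
    · have h2 : Z x ^ k ≤ 20 ^ k := pow_le_pow_left₀ (hZ x) h1.le k
      have h3 := Finset.sum_nonneg hnn
      linarith
    · -- the layer
      set j : ℕ := ⌊Z x / 20⌋₊ with hj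
      have hj1 : (j : ℝ) ≤ Z x / 20 := Nat.floor_le (div_nonneg (hZ x) (by norm_num))
      have hj2 : Z x / 20 < j + 1 := Nat.lt_floor_add_one _
      have hj3 : 1 ≤ j := by
        rw [hj, Nat.one_le_floor_iff]
        linarith
      obtain ⟨i, hi⟩ : ∃ i, j = i + 1 := ⟨j - 1, by omega⟩
      rw [hi] at hj1 hj2
      push_cast at hj1 hj2
      have hiI : i < I := by
        have h4 := hI x
        have h5 : (i : ℝ) + 1 < I + 1 := by linarith
        have h6 : (i : ℝ) < I := by linarith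
        exact_mod_cast h6
      have h7 : Z x ^ k ≤ (20 * ((i : ℝ) + 2)) ^ k *
          (if 19 * ((i : ℝ) + 1) < Z x then (1 : ℝ) else 0) := by
        have hi0 : (0 : ℝ) ≤ i := Nat.cast_nonneg i
        rw [if_pos (by linarith), mul_one]
        exact pow_le_pow_left₀ (hZ x) (by linarith) k
      have h8 := Finset.single_le_sum hnn (Finset.mem_range.2 hiI)
      have h9 : (0 : ℝ) ≤ 20 ^ k := by positivity
      linarith
  have hp : (0 : ℝ) < 2 ^ m := by positivity
  calc ∑ x, Z x ^ k ≤ ∑ x, (20 ^ k + ∑ i ∈ Finset.range I, (20 * ((i : ℝ) + 2)) ^ k *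
        (if 19 * ((i : ℝ) + 1) < Z x then 1 else 0)) := Finset.sum_le_sum fun x _ => hpt x
    _ = 2 ^ m * 20 ^ k + ∑ i ∈ Finset.range I, (20 * ((i : ℝ) + 2)) ^ k *
        ((Finset.univ.filter (fun x => 19 * ((i : ℝ) + 1) < Z x)).card : ℝ) := by
        rw [Finset.sum_add_distrib, Finset.sum_const, nsmul_eq_mul, card, Finset.sum_comm]
        congr 1
        refine Finset.sum_congr rfl fun i _ => ?_
        rw [← Finset.mul_sum, Finset.sum_boole]
    _ ≤ 2 ^ m * 20 ^ k + ∑ i ∈ Finset.range I, 2 ^ m * (4 * 20 ^ k * (1 / 10) ^ (i + 1)) := by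
        have : ∀ i ∈ Finset.range I, (20 * ((i : ℝ) + 2)) ^ k *
            ((Finset.univ.filter (fun x => 19 * ((i : ℝ) + 1) < Z x)).card : ℝ) ≤
            2 ^ m * (4 * 20 ^ k * (1 / 10) ^ (i + 1)) := by
          intro i _
          have hi : (0 : ℝ) ≤ i := Nat.cast_nonneg i
          calc (20 * ((i : ℝ) + 2)) ^ k *
              ((Finset.univ.filter (fun x => 19 * ((i : ℝ) + 1) < Z x)).card : ℝ)
              ≤ (20 * ((i : ℝ) + 2)) ^ k *
                (4 * 6561 ^ d * 2 ^ m * Real.exp (-(19 * ((i : ℝ) + 1) * d))) :=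
                mul_le_mul_of_nonneg_left (hT i) (by positivity)
            _ = 2 ^ m * ((20 * ((i : ℝ) + 2)) ^ k *
                (4 * 6561 ^ d * Real.exp (-(19 * ((i : ℝ) + 1) * d)))) := by ring
            _ ≤ 2 ^ m * (4 * 20 ^ k * (1 / 10) ^ (i + 1)) :=
                mul_le_mul_of_nonneg_left (term d k i hk hkd) hp.le
        have := Finset.sum_le_sum this
        linarith
    _ = 2 ^ m * (20 ^ k * (1 + 4 * ∑ i ∈ Finset.range I, (1 / 10 : ℝ) ^ (i + 1))) := by
        rw [← Finset.mul_sum, ← Finset.mul_sum]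
        ring
    _ ≤ 2 ^ m * (20 ^ k * 2) := by
        apply mul_le_mul_of_nonneg_left _ hp.le
        apply mul_le_mul_of_nonneg_left _ (by positivity)
        have := geom I
        linarith
    _ ≤ 2 ^ m * (20 ^ k * 2 ^ k) := by
        apply mul_le_mul_of_nonneg_left _ hp.le
        apply mul_le_mul_of_nonneg_left _ (by positivity)
        calc (2 : ℝ) = 2 ^ 1 := (pow_one 2).symm
          _ ≤ 2 ^ k := pow_le_pow_right₀ (by norm_num) hk
    _ = 2 ^ m * 40 ^ k := by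
        rw [← mul_pow]
        norm_num

end APRh

open APRh

theorem T_APR : P_TAIL → P_APR := by
  intro hTail n m d k A hn hd hkd hA
  have hp : (0 : ℝ) < 2 ^ m := by positivity
  have hn' : (1 : ℝ) ≤ n := by exact_mod_cast hn
  have hd' : (1 : ℝ) ≤ d := by exact_mod_cast hd
  have hV : (0 : ℝ) < (n : ℝ) / d := by positivity
  rcases Nat.eq_zero_or_pos k with hk0 | hk
  · subst hk0
    unfold Av
    simp only [Nat.mul_zero, pow_zero, Finset.sum_const, nsmul_eq_mul, mul_one]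
    rw [card, div_self hp.ne']
  set Z : (Fin m → Bool) → ℝ := fun x => ‖XO A x‖ ^ 2 / (16 * n) with hZdef
  have hZ : ∀ x, 0 ≤ Z x := fun x => by
    simp only [hZdef]
    positivity
  have hT : ∀ i : ℕ, ((Finset.univ.filter (fun x => 19 * ((i : ℝ) + 1) < Z x)).card : ℝ) ≤
      4 * 6561 ^ d * 2 ^ m * Real.exp (-(19 * ((i : ℝ) + 1) * d)) := by
    intro i
    have hi : (0 : ℝ) ≤ i := Nat.cast_nonneg i
    set t : ℝ := √(16 * n * (19 * ((i : ℝ) + 1))) with ht
    have ht0 : 0 ≤ t := Real.sqrt_nonneg _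
    have ht2 : t ^ 2 = 16 * n * (19 * ((i : ℝ) + 1)) := Real.sq_sqrt (by positivity)
    have h1 := hTail m d A ((n : ℝ) / d) t hV ht0 hA
    have h2 : t ^ 2 / (16 * ((n : ℝ) / d)) = 19 * ((i : ℝ) + 1) * d := by
      rw [ht2]
      field_simp
    rw [h2] at h1
    refine le_trans ?_ h1
    have h3 : (Finset.univ.filter (fun x => 19 * ((i : ℝ) + 1) < Z x)) ⊆
        (Finset.univ.filter (fun x : Fin m → Bool =>
          t < ‖∑ i, ((sg (x i) : ℝ) : ℂ) • A i‖)) := by
      intro x hx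
      rw [Finset.mem_filter] at hx ⊢
      refine ⟨Finset.mem_univ _, ?_⟩
      have h4 := hx.2
      simp only [hZdef] at h4
      rw [lt_div_iff₀ (by positivity)] at h4
      have h5 : t ^ 2 < ‖XO A x‖ ^ 2 := by
        rw [ht2]
        linarith
      exact lt_of_pow_lt_pow_left₀ 2 (norm_nonneg _) h5
    exact_mod_cast Finset.card_le_card h3
  have hmom := mom m d k Z hZ hk hkd hT
  have hpt : ∀ x, (‖XO A x‖ + 2) ^ (2 * k) ≤ (64 * n) ^ k * Z x ^ k + 16 ^ k := by
    intro x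
    set a : ℝ := ‖XO A x‖ with ha
    have ha0 : 0 ≤ a := norm_nonneg _
    have h1 : a ^ 2 = 16 * n * Z x := by
      simp only [hZdef, ← ha]
      field_simp
    have h2 : (a + 2) ^ 2 ≤ 2 * a ^ 2 + 8 := by nlinarith [sq_nonneg (a - 2)]
    rw [pow_mul]
    have h3 : (a + 2) ^ 2 ≤ 32 * n * Z x + 8 := by
      rw [h1] at h2
      linarith
    have hZx := hZ x
    have hb : 0 ≤ 32 * (n : ℝ) * Z x := by positivity
    calc ((a + 2) ^ 2) ^ k ≤ (32 * n * Z x + 8) ^ k := pow_le_pow_left₀ (sq_nonneg _) h3 k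
      _ ≤ (64 * n * Z x) ^ k + 16 ^ k := by
          rcases le_total (32 * (n : ℝ) * Z x) 8 with h4 | h4
          · have h5 : (32 * (n : ℝ) * Z x + 8) ^ k ≤ 16 ^ k :=
              pow_le_pow_left₀ (by linarith) (by linarith) k
            have h6 : (0 : ℝ) ≤ (64 * n * Z x) ^ k := by positivity
            linarith
          · have h5 : (32 * (n : ℝ) * Z x + 8) ^ k ≤ (64 * n * Z x) ^ k :=
              pow_le_pow_left₀ (by linarith) (by linarith) k
            have h6 : (0 : ℝ) ≤ (16 : ℝ) ^ k := by positivity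
            linarith
      _ = (64 * n) ^ k * Z x ^ k + 16 ^ k := by rw [mul_pow (64 * (n : ℝ)) (Z x) k]
  unfold Av
  rw [div_le_iff₀ hp]
  calc ∑ x, (‖XO A x‖ + 2) ^ (2 * k) ≤ ∑ x, ((64 * n) ^ k * Z x ^ k + 16 ^ k) :=
        Finset.sum_le_sum fun x _ => hpt x
    _ = (64 * n) ^ k * ∑ x, Z x ^ k + 2 ^ m * 16 ^ k := by
        rw [Finset.sum_add_distrib, ← Finset.mul_sum, Finset.sum_const, nsmul_eq_mul, card]
    _ ≤ (64 * n) ^ k * (2 ^ m * 40 ^ k) + 2 ^ m * 16 ^ k := by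
        have := mul_le_mul_of_nonneg_left hmom (by positivity : (0 : ℝ) ≤ (64 * n) ^ k)
        linarith
    _ = 2 ^ m * ((2560 * n) ^ k + 16 ^ k) := by
        have : (64 * (n : ℝ)) ^ k * 40 ^ k = (2560 * n) ^ k := by
          rw [← mul_pow]
          ring_nf
        rw [← this]
        ring
    _ ≤ 2 ^ m * ((2560 * n) ^ k + (2560 * n) ^ k) := by
        apply mul_le_mul_of_nonneg_left _ hp.le
        have : (16 : ℝ) ^ k ≤ (2560 * n) ^ k := pow_le_pow_left₀ (by norm_num) (by linarith) k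
        linarith
    _ ≤ 2 ^ m * (2 ^ k * (2560 * n) ^ k) := by
        apply mul_le_mul_of_nonneg_left _ hp.le
        have h2 : (2 : ℝ) ≤ 2 ^ k := by
          calc (2 : ℝ) = 2 ^ 1 := (pow_one 2).symm
            _ ≤ 2 ^ k := pow_le_pow_right₀ (by norm_num) hk
        have h3 : (0 : ℝ) ≤ (2560 * n) ^ k := by positivity
        nlinarith
    _ = 2 ^ m * (5120 * n) ^ k := by
        rw [← mul_pow]
        ring_nf
    _ ≤ 2 ^ m * (10000 * n) ^ k := by
        apply mul_le_mul_of_nonneg_left _ hp.le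
        exact pow_le_pow_left₀ (by positivity) (by linarith) k
    _ = (10000 * n) ^ k * 2 ^ m := mul_comm _ _

end Pool.Agent.H120R2.GS
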