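import Pool.Agent.H120R2.GS.Stubs

/-!
# Cells in a ball of operators
-/

set_option autoImplicit false

namespace Pool.Agent.H120R2.GS

open scoped BigOperators

namespace CELLh

/-- matrix entry -/
noncomputable def ent {d : ℕ} (M : Op d) (a b : Fin d) : ℂ := (M (EuclideanSpace.single b 1)) a

theorem ent_sub {d : ℕ} (M M' : Op d) (a b : Fin d) : ent (M - M') a b = ent M a b - ent M' a b := by
  simp [ent]

theorem norm_ent_le {d : ℕ} (M : Op d) (a b : Fin d) : ‖ent M a b‖ ≤ ‖M‖ := by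
  unfold ent
  calc ‖(M (EuclideanSpace.single b 1)) a‖ ≤ ‖M (EuclideanSpace.single b 1)‖ :=
        PiLp.norm_apply_le _ a
    _ ≤ ‖M‖ * ‖(EuclideanSpace.single b 1 : E d)‖ := M.le_opNorm _
    _ = ‖M‖ := by simp

theorem apply_eq {d : ℕ} (M : Op d) (u : E d) (a : Fin d) : (M u) a = ∑ b, u b * ent M a b := by
  have h := (EuclideanSpace.basisFun (Fin d) ℂ).sum_repr u
  have h2 : M u = ∑ b, u b • M (EuclideanSpace.single b 1) := by
    conv_lhs => rw [← h]
    rw [map_sum]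
    apply Finset.sum_congr rfl
    intro b _
    rw [map_smul]
    simp
  rw [h2]
  simp [ent]

/-- Hilbert-Schmidt bound -/
theorem norm_le_of_ent {d : ℕ} (hd : 1 ≤ d) (W : Op d) (T : ℝ) (hT : 0 < T)
    (h : ∀ a b, ‖ent W a b‖ ^ 2 ≤ 2 * (T / d) ^ 2) : ‖W‖ ≤ 2 * T := by
  have hd' : (0 : ℝ) < d := by exact_mod_cast hd
  refine ContinuousLinearMap.opNorm_le_bound _ (by positivity) ?_
  intro u
  have h1 : ‖W u‖ ^ 2 ≤ (2 * T * ‖u‖) ^ 2 := by
    rw [EuclideanSpace.norm_sq_eq (W u)]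
    have h2 : ∀ a : Fin d, ‖(W u) a‖ ^ 2 ≤ ‖u‖ ^ 2 * (2 * T ^ 2 / d) := by
      intro a
      rw [apply_eq]
      have h3 : ‖∑ b, u b * ent W a b‖ ≤ ∑ b, ‖u b‖ * ‖ent W a b‖ := by
        refine (norm_sum_le _ _).trans (le_of_eq ?_)
        apply Finset.sum_congr rfl
        intro b _
        rw [norm_mul]
      have h4 : (∑ b, ‖u b‖ * ‖ent W a b‖) ^ 2 ≤ (∑ b, ‖u b‖ ^ 2) * ∑ b, ‖ent W a b‖ ^ 2 :=
        Finset.sum_mul_sq_le_sq_mul_sq _ _ _
      have h5 : ∑ b, ‖ent W a b‖ ^ 2 ≤ 2 * T ^ 2 / d := by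
        calc ∑ b, ‖ent W a b‖ ^ 2 ≤ ∑ _b : Fin d, 2 * (T / d) ^ 2 :=
              Finset.sum_le_sum fun b _ => h a b
          _ = 2 * T ^ 2 / d := by
              rw [Finset.sum_const, Finset.card_univ, Fintype.card_fin, nsmul_eq_mul]
              field_simp
      have h6 : ∑ b, ‖u b‖ ^ 2 = ‖u‖ ^ 2 := (EuclideanSpace.norm_sq_eq u).symm
      calc ‖∑ b, u b * ent W a b‖ ^ 2 ≤ (∑ b, ‖u b‖ * ‖ent W a b‖) ^ 2 :=
            pow_le_pow_left₀ (norm_nonneg _) h3 2
        _ ≤ (∑ b, ‖u b‖ ^ 2) * ∑ b, ‖ent W a b‖ ^ 2 := h4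
        _ ≤ ‖u‖ ^ 2 * (2 * T ^ 2 / d) := by
            rw [h6]
            exact mul_le_mul_of_nonneg_left h5 (by positivity)
    calc ∑ a, ‖(W u) a‖ ^ 2 ≤ ∑ _a : Fin d, ‖u‖ ^ 2 * (2 * T ^ 2 / d) :=
          Finset.sum_le_sum fun a _ => h2 a
      _ = 2 * T ^ 2 * ‖u‖ ^ 2 := by
          rw [Finset.sum_const, Finset.card_univ, Fintype.card_fin, nsmul_eq_mul]
          field_simp
      _ ≤ (2 * T * ‖u‖) ^ 2 := by nlinarith [sq_nonneg (T * ‖u‖)]
  exact abs_le_of_sq_le_sq' h1 (by positivity) |>.2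

/-- the shifted integer part -/
noncomputable def ip (d k : ℕ) (T x : ℝ) : ℕ := (⌊x * d / T⌋ + 2 ^ k * d).toNat

theorem ip_lt {d k : ℕ} {T x : ℝ} (hd : 1 ≤ d) (hT : 0 < T) (hx : |x| ≤ 2 ^ k * T) :
    ip d k T x < 2 ^ (k + 3) * d ∧ ((ip d k T x : ℕ) : ℤ) = ⌊x * d / T⌋ + 2 ^ k * d := by
  have hd' : (0 : ℝ) < d := by exact_mod_cast hd
  rw [abs_le] at hx
  have h1 : -((2 : ℝ) ^ k * d) ≤ x * d / T := by
    rw [le_div_iff₀ hT]
    nlinarith
  have h2 : x * d / T ≤ (2 : ℝ) ^ k * d := by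
    rw [div_le_iff₀ hT]
    nlinarith
  have h3 : -((2 : ℤ) ^ k * d) ≤ ⌊x * d / T⌋ := by
    apply Int.le_floor.2
    push_cast
    exact h1
  have h4 : ⌊x * d / T⌋ ≤ (2 : ℤ) ^ k * d := by
    have : (⌊x * d / T⌋ : ℝ) ≤ (((2 : ℤ) ^ k * d : ℤ) : ℝ) := by
      push_cast
      exact (Int.floor_le _).trans h2
    exact_mod_cast this
  have h5 : ((ip d k T x : ℕ) : ℤ) = ⌊x * d / T⌋ + 2 ^ k * d := by
    unfold ip
    rw [Int.toNat_of_nonneg (by linarith)]
  refine ⟨?_, h5⟩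
  have h6 : ((ip d k T x : ℕ) : ℤ) ≤ 2 * (2 ^ k * d) := by
    rw [h5]; linarith
  have h7 : (0 : ℤ) < 2 ^ k * d := by positivity
  have h8 : ((ip d k T x : ℕ) : ℤ) < ((2 ^ (k + 3) * d : ℕ) : ℤ) := by
    push_cast
    have : (2 : ℤ) ^ (k + 3) * d = 8 * (2 ^ k * d) := by ring
    rw [this]
    linarith
  exact_mod_cast h8

theorem close {d k : ℕ} {T x y : ℝ} (hd : 1 ≤ d) (hT : 0 < T) (hx : |x| ≤ 2 ^ k * T)
    (hy : |y| ≤ 2 ^ k * T) (h : ip d k T x = ip d k T y) : |x - y| ≤ T / d := by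
  have hd' : (0 : ℝ) < d := by exact_mod_cast hd
  have h1 := (ip_lt hd hT hx).2
  have h2 := (ip_lt hd hT hy).2
  rw [h, h2] at h1
  have h3 : ⌊x * d / T⌋ = ⌊y * d / T⌋ := by linarith
  have h4 := Int.abs_sub_lt_one_of_floor_eq_floor h3
  have h5 : x * d / T - y * d / T = (x - y) / (T / d) := by
    field_simp
  rw [h5, abs_div, abs_of_pos (div_pos hT hd'), div_lt_one (div_pos hT hd')] at h4
  exact h4.le

/-- real or imaginary part -/
def part (z : ℂ) (β : Bool) : ℝ := if β then z.re else z.im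

theorem abs_part_le (z : ℂ) (β : Bool) : |part z β| ≤ ‖z‖ := by
  unfold part
  cases β
  · simpa using Complex.abs_im_le_norm z
  · simpa using Complex.abs_re_le_norm z

open Classical in
/-- the code of an operator -/
noncomputable def code (d k : ℕ) (T : ℝ) (hK : 0 < 2 ^ (k + 3) * d) (M : Op d) :
    Fin d × Fin d × Bool → Fin (2 ^ (k + 3) * d) := fun p =>
  if h : ip d k T (part (ent M p.1 p.2.1) p.2.2) < 2 ^ (k + 3) * d then ⟨_, h⟩ else ⟨0, hK⟩

end CELLh

open CELLh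

theorem T_CELL : P_CELL := by
  intro d k T hd hT
  have hK : 0 < 2 ^ (k + 3) * d := by positivity
  refine ⟨fun M => (Fintype.equivFin (Fin d × Fin d × Bool → Fin (2 ^ (k + 3) * d))
    (code d k T hK M)).val, ?_⟩
  intro M hM
  constructor
  · have h1 := (Fintype.equivFin (Fin d × Fin d × Bool → Fin (2 ^ (k + 3) * d))
      (code d k T hK M)).isLt
    have h2 : Fintype.card (Fin d × Fin d × Bool → Fin (2 ^ (k + 3) * d)) =
        (2 ^ (k + 3) * d) ^ (2 * d ^ 2) := by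
      rw [Fintype.card_fun]
      simp only [Fintype.card_prod, Fintype.card_fin, Fintype.card_bool]
      congr 1
      ring
    exact lt_of_lt_of_eq h1 h2
  · intro M' hM' hc
    have h1 : code d k T hK M = code d k T hK M' :=
      (Fintype.equivFin _).injective (Fin.ext hc)
    apply norm_le_of_ent hd _ T hT
    intro a b
    have h2 : ∀ β, |part (ent M a b) β - part (ent M' a b) β| ≤ T / d := by
      intro β
      have hx : |part (ent M a b) β| ≤ 2 ^ k * T :=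
        (abs_part_le _ _).trans ((norm_ent_le _ _ _).trans hM)
      have hy : |part (ent M' a b) β| ≤ 2 ^ k * T :=
        (abs_part_le _ _).trans ((norm_ent_le _ _ _).trans hM')
      apply close hd hT hx hy
      have h3 := congrFun h1 (a, b, β)
      unfold code at h3
      rw [dif_pos (ip_lt hd hT hx).1, dif_pos (ip_lt hd hT hy).1] at h3
      exact congrArg Fin.val h3
    rw [ent_sub]
    have hr := h2 true
    have hi := h2 false
    simp only [part, if_true, Bool.false_eq_true, if_false] at hr hi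
    rw [Complex.sq_norm, Complex.normSq_apply, Complex.sub_re, Complex.sub_im]
    have hd' : (0 : ℝ) < d := by exact_mod_cast hd
    have hTd : 0 ≤ T / d := by positivity
    have e1 := sq_le_sq' (by linarith [abs_le.1 hr]) (abs_le.1 hr).2
    have e2 := sq_le_sq' (by linarith [abs_le.1 hi]) (abs_le.1 hi).2
    nlinarith

end Pool.Agent.H120R2.GS
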