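import Pool.Agent.H120R2.GS.Stubs2

/-!
# Task COV: Schur orthogonality, covariance form
-/

set_option autoImplicit false

namespace Pool.Agent.H120R2.GS

open scoped BigOperators Matrix Matrix.Norms.L2Operator

namespace COVh

/-- orthogonality of the functions `M · p` gives the value of the quadratic form -/
theorem quad {G κ : Type} [Fintype G] [Fintype κ] [DecidableEq κ] (M : G → κ → ℂ) (c : ℂ)
    (h : ∀ p q : κ, ∑ g, M g p * (starRingEnd ℂ) (M g q) = if p = q then c else 0)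
    (z : κ → ℂ) :
    ((∑ g, ‖∑ p, z p * M g p‖ ^ 2 : ℝ) : ℂ) = c * ((∑ p, ‖z p‖ ^ 2 : ℝ) : ℂ) := by
  have e1 : ∀ g, ((‖∑ p, z p * M g p‖ ^ 2 : ℝ) : ℂ) =
      ∑ p, ∑ q, (z p * (starRingEnd ℂ) (z q)) * (M g p * (starRingEnd ℂ) (M g q)) := by
    intro g
    rw [Complex.ofReal_pow, ← Complex.mul_conj', map_sum, Finset.sum_mul_sum]
    refine Finset.sum_congr rfl fun p _ => Finset.sum_congr rfl fun q _ => ?_
    rw [map_mul]
    ring
  rw [Complex.ofReal_sum, Finset.sum_congr rfl fun g _ => e1 g, Finset.sum_comm]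
  have e2 : ∀ p, ∑ g, ∑ q, (z p * (starRingEnd ℂ) (z q)) * (M g p * (starRingEnd ℂ) (M g q)) =
      c * ((‖z p‖ ^ 2 : ℝ) : ℂ) := by
    intro p
    rw [Finset.sum_comm]
    have e3 : ∀ q, ∑ g, (z p * (starRingEnd ℂ) (z q)) * (M g p * (starRingEnd ℂ) (M g q)) =
        (z p * (starRingEnd ℂ) (z q)) * (if p = q then c else 0) := by
      intro q
      rw [← Finset.mul_sum, h p q]
    rw [Finset.sum_congr rfl fun q _ => e3 q, Finset.sum_eq_single p]
    · rw [if_pos rfl, Complex.mul_conj', Complex.ofReal_pow, mul_comm]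
    · intro q _ hq
      rw [if_neg (Ne.symm hq), mul_zero]
    · intro hp
      exact absurd (Finset.mem_univ p) hp
  rw [Finset.sum_congr rfl fun p _ => e2 p, Complex.ofReal_sum, Finset.mul_sum]

end COVh

theorem T_COV : P_ORT → P_COV := by
  intro hO G _ _ d π hd h1 h2 z
  have key := COVh.quad (fun g (p : Fin d × Fin d) => mc (π g) p.1 p.2)
    ((Fintype.card G : ℂ) / d) (fun p q => by
      rw [hO G d π hd h1 h2 p.1 p.2 q.1 q.2]
      have e : (p.1 = q.1 ∧ p.2 = q.2) ↔ p = q := Prod.ext_iff.symm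
      by_cases hpq : p = q
      · rw [if_pos hpq, if_pos (e.2 hpq)]
      · rw [if_neg hpq, if_neg (fun h => hpq (e.1 h))]) (fun p => z p.1 p.2)
  have e1 : ∀ g, ∑ p : Fin d × Fin d, z p.1 p.2 * mc (π g) p.1 p.2 =
      ∑ a, ∑ b, z a b * mc (π g) a b := fun g =>
    Fintype.sum_prod_type (fun p : Fin d × Fin d => z p.1 p.2 * mc (π g) p.1 p.2)
  have e2 : ∑ p : Fin d × Fin d, ‖z p.1 p.2‖ ^ 2 = ∑ a, ∑ b, ‖z a b‖ ^ 2 :=
    Fintype.sum_prod_type (fun p : Fin d × Fin d => ‖z p.1 p.2‖ ^ 2)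
  simp only [e1, e2] at key
  have key' : (∑ g, ‖∑ a, ∑ b, z a b * mc (π g) a b‖ ^ 2 : ℝ) =
      (Fintype.card G : ℝ) / d * ∑ a, ∑ b, ‖z a b‖ ^ 2 := by
    apply Complex.ofReal_injective
    rw [Complex.ofReal_mul, Complex.ofReal_div, Complex.ofReal_natCast, Complex.ofReal_natCast]
    exact key
  exact key'.le

end Pool.Agent.H120R2.GS
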