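import Pool.Agent.H120R2.GS.Stubs2

/-!
# CS: covariance inequality on the cube (helper99)
-/

set_option autoImplicit false

namespace Pool.Agent.H120R2.GS

open scoped BigOperators Matrix Matrix.Norms.L2Operator

namespace CSh

theorem card (m : ℕ) : ((Finset.univ : Finset (Fin m → Bool)).card : ℝ) = 2 ^ m := by
  rw [Finset.card_univ, Fintype.card_fun, Fintype.card_bool, Fintype.card_fin]
  push_cast
  rfl

theorem sum_eq {m : ℕ} (f : (Fin m → Bool) → ℝ) : ∑ x, f x = 2 ^ m * Av f := by
  unfold Av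
  field_simp

theorem centred {m : ℕ} (f g : (Fin m → Bool) → ℝ) :
    ∑ x, (f x - Av f) * (g x - Av g) = 2 ^ m * (Av (fun x => f x * g x) - Av f * Av g) := by
  have h1 : ∀ x, (f x - Av f) * (g x - Av g) =
      f x * g x - Av f * g x - Av g * f x + Av f * Av g := fun x => by ring
  simp only [h1]
  rw [Finset.sum_add_distrib, Finset.sum_sub_distrib, Finset.sum_sub_distrib,
    ← Finset.mul_sum, ← Finset.mul_sum, Finset.sum_const, nsmul_eq_mul, card,
    sum_eq (fun x => f x * g x), sum_eq f, sum_eq g]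
  ring

end CSh

open CSh

theorem T_CS : P_CS := by
  intro m f g V W hV hW hf hg
  have hp : (0 : ℝ) < 2 ^ m := by positivity
  have h1 : ∑ x, (f x - Av f) ^ 2 ≤ 2 ^ m * V ^ 2 := by
    have := centred f f
    have e1 : ∀ x, (f x - Av f) ^ 2 = (f x - Av f) * (f x - Av f) := fun x => by ring
    have e2 : (fun x => f x * f x) = fun x => f x ^ 2 := by funext x; ring
    simp only [e1]
    rw [this, e2]
    apply mul_le_mul_of_nonneg_left _ hp.le
    nlinarith
  have h2 : ∑ x, (g x - Av g) ^ 2 ≤ 2 ^ m * W ^ 2 := by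
    have := centred g g
    have e1 : ∀ x, (g x - Av g) ^ 2 = (g x - Av g) * (g x - Av g) := fun x => by ring
    have e2 : (fun x => g x * g x) = fun x => g x ^ 2 := by funext x; ring
    simp only [e1]
    rw [this, e2]
    apply mul_le_mul_of_nonneg_left _ hp.le
    nlinarith
  have h3 : (∑ x, (f x - Av f) * (g x - Av g)) ^ 2 ≤ (2 ^ m * (V * W)) ^ 2 := by
    calc (∑ x, (f x - Av f) * (g x - Av g)) ^ 2
        ≤ (∑ x, (f x - Av f) ^ 2) * ∑ x, (g x - Av g) ^ 2 := Finset.sum_mul_sq_le_sq_mul_sq _ _ _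
      _ ≤ (2 ^ m * V ^ 2) * (2 ^ m * W ^ 2) := by
          apply mul_le_mul h1 h2
          · exact Finset.sum_nonneg fun x _ => sq_nonneg _
          · positivity
      _ = (2 ^ m * (V * W)) ^ 2 := by ring
  have h4 : ∑ x, (f x - Av f) * (g x - Av g) ≤ 2 ^ m * (V * W) :=
    abs_le_of_sq_le_sq' h3 (by positivity) |>.2
  rw [centred] at h4
  have h5 := le_of_mul_le_mul_left h4 hp
  linarith

end Pool.Agent.H120R2.GS
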