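import Pool.Agent.H120R2.GS.Stubs2

/-!
# Trace moments are almost uncorrelated
-/

set_option autoImplicit false

namespace Pool.Agent.H120R2.GS

open scoped BigOperators Matrix Matrix.Norms.L2Operator

namespace DECh

theorem Av_mono {m : ℕ} {f g : (Fin m → Bool) → ℝ} (h : ∀ x, f x ≤ g x) : Av f ≤ Av g := by
  unfold Av
  exact div_le_div_of_nonneg_right (Finset.sum_le_sum fun x _ => h x) (by positivity)

theorem Av_one {m : ℕ} : Av (fun _ : Fin m → Bool => (1 : ℝ)) = 1 := by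
  unfold Av
  rw [Finset.sum_const, Finset.card_univ, Fintype.card_fun, Fintype.card_fin, Fintype.card_bool,
    nsmul_eq_mul, mul_one]
  push_cast
  exact div_self (by positivity)

theorem nt_one {κ : Type} [Fintype κ] [DecidableEq κ] (h : Nonempty κ) :
    nt (1 : Matrix κ κ ℂ) = 1 := by
  unfold nt
  rw [Matrix.trace_one, Complex.natCast_re]
  apply div_self
  exact_mod_cast Fintype.card_ne_zero

/-- bound for the variance -/
theorem var_le (hV : P_VAR) {κ : Type} [Fintype κ] [DecidableEq κ] {m P : ℕ}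
    {A : Fin m → Matrix κ κ ℂ} {N B : ℝ} (h : Ctx m P A N B) (j : ℕ) (hj : 1 ≤ j) (hjP : j ≤ P) :
    Av (fun x => nt (SS A x ^ (2 * j)) ^ 2) - Av (fun x => nt (SS A x ^ (2 * j))) ^ 2 ≤
      (√136 * (j : ℝ) ^ 2 * B ^ j / Fintype.card κ) ^ 2 := by
  obtain ⟨hne, hm, -, hA1, hmN, hNB, hDB, hCov, hMom⟩ := h
  have hD0 : (0 : ℝ) < Fintype.card κ := by exact_mod_cast Fintype.card_pos
  have hm1 : (1 : ℝ) ≤ m := by exact_mod_cast hm
  have hN1 : (1 : ℝ) ≤ N := hm1.trans hmN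
  have hB1 : (1 : ℝ) ≤ B := hN1.trans hNB
  have hj1 : (1 : ℝ) ≤ j := by exact_mod_cast hj
  have h1 := hV κ m (2 * j) A (N / Fintype.card κ) (by omega) (by positivity) hA1 hCov
  refine h1.trans ?_
  have h2 : Av (fun x => ‖SS A x‖ ^ (2 * (2 * j) - 2)) ≤ B ^ (2 * j - 1) := by
    refine le_trans ?_ (hMom (2 * j - 1) (by omega))
    apply Av_mono
    intro x
    have e1 : 2 * (2 * j) - 2 = 2 * (2 * j - 1) := by omega
    rw [e1]
    exact pow_le_pow_left₀ (norm_nonneg _) (by linarith) _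
  have h3 : Av (fun x => (‖SS A x‖ + 2) ^ (2 * (2 * j) - 4)) ≤ B ^ (2 * j - 2) := by
    have e1 : 2 * (2 * j) - 4 = 2 * (2 * j - 2) := by omega
    rw [e1]
    exact hMom (2 * j - 2) (by omega)
  have e2 : B ^ (2 * j - 1) * B = B ^ (2 * j) := by
    rw [← pow_succ]
    congr 1
    omega
  have e3 : B ^ (2 * j - 2) * B = B ^ (2 * j - 1) := by
    rw [← pow_succ]
    congr 1
    omega
  set D : ℝ := ((Fintype.card κ : ℕ) : ℝ) with hD
  have hD2 : (0 : ℝ) < D ^ 2 := by positivity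
  have h4 : 2 * ((2 * j : ℕ) : ℝ) ^ 2 * (N / D / D) * Av (fun x => ‖SS A x‖ ^ (2 * (2 * j) - 2)) ≤
      8 * (j : ℝ) ^ 2 * B ^ (2 * j) / D ^ 2 := by
    calc 2 * ((2 * j : ℕ) : ℝ) ^ 2 * (N / D / D) * Av (fun x => ‖SS A x‖ ^ (2 * (2 * j) - 2))
        ≤ 2 * ((2 * j : ℕ) : ℝ) ^ 2 * (N / D / D) * B ^ (2 * j - 1) := by
          apply mul_le_mul_of_nonneg_left h2
          positivity
      _ ≤ 2 * ((2 * j : ℕ) : ℝ) ^ 2 * (B / D / D) * B ^ (2 * j - 1) := by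
          apply mul_le_mul_of_nonneg_right _ (by positivity)
          apply mul_le_mul_of_nonneg_left _ (by positivity)
          gcongr
      _ = 8 * (j : ℝ) ^ 2 * B ^ (2 * j) / D ^ 2 := by
          rw [← e2]
          push_cast
          field_simp
          ring
  have h5 : 8 * (m : ℝ) * ((2 * j : ℕ) : ℝ) ^ 4 * Av (fun x => (‖SS A x‖ + 2) ^ (2 * (2 * j) - 4)) ≤
      128 * (j : ℝ) ^ 4 * B ^ (2 * j) / D ^ 2 := by
    calc 8 * (m : ℝ) * ((2 * j : ℕ) : ℝ) ^ 4 * Av (fun x => (‖SS A x‖ + 2) ^ (2 * (2 * j) - 4))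
        ≤ 8 * (m : ℝ) * ((2 * j : ℕ) : ℝ) ^ 4 * B ^ (2 * j - 2) := by
          apply mul_le_mul_of_nonneg_left h3
          positivity
      _ ≤ 8 * B * ((2 * j : ℕ) : ℝ) ^ 4 * B ^ (2 * j - 2) := by
          have hmB : (m : ℝ) ≤ B := hmN.trans hNB
          gcongr
      _ = 128 * (j : ℝ) ^ 4 * B ^ (2 * j - 1) := by
          rw [← e3]
          push_cast
          ring
      _ ≤ 128 * (j : ℝ) ^ 4 * B ^ (2 * j) / D ^ 2 := by
          rw [le_div_iff₀ hD2, ← e2, mul_assoc (128 * (j : ℝ) ^ 4)]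
          apply mul_le_mul_of_nonneg_left _ (by positivity)
          apply mul_le_mul_of_nonneg_left hDB
          positivity
  have h6 : (√136 * (j : ℝ) ^ 2 * B ^ j / D) ^ 2 = 136 * (j : ℝ) ^ 4 * B ^ (2 * j) / D ^ 2 := by
    rw [div_pow, mul_pow, mul_pow, Real.sq_sqrt (by norm_num)]
    ring
  have h7 : 8 * (j : ℝ) ^ 2 * B ^ (2 * j) / D ^ 2 ≤ 8 * (j : ℝ) ^ 4 * B ^ (2 * j) / D ^ 2 := by
    have h8 : (j : ℝ) ^ 2 ≤ (j : ℝ) ^ 4 := pow_le_pow_right₀ hj1 (by norm_num)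
    gcongr
  have h9 : 8 * (j : ℝ) ^ 4 * B ^ (2 * j) / D ^ 2 + 128 * (j : ℝ) ^ 4 * B ^ (2 * j) / D ^ 2 =
      136 * (j : ℝ) ^ 4 * B ^ (2 * j) / D ^ 2 := by ring
  rw [h6]
  linarith

end DECh

open DECh in
theorem T_DEC : P_VAR → P_CS → P_DEC := by
  intro hV hC κ _ _ m P A N B h j k hjk
  have h' := h
  obtain ⟨hne, hm, -, hA1, hmN, hNB, hDB, hCov, hMom⟩ := h'
  have hD0 : (0 : ℝ) < Fintype.card κ := by exact_mod_cast Fintype.card_pos
  have hm1 : (1 : ℝ) ≤ m := by exact_mod_cast hm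
  have hN1 : (1 : ℝ) ≤ N := hm1.trans hmN
  have hB1 : (1 : ℝ) ≤ B := hN1.trans hNB
  have hB0 : (0 : ℝ) < B := by linarith
  have herr : 0 ≤ 9 * ((j : ℝ) + k) ^ 4 * B ^ (j + k) / (Fintype.card κ : ℝ) ^ 2 := by positivity
  rcases Nat.eq_zero_or_pos j with rfl | hj
  · simp only [mul_zero, pow_zero, nt_one hne, one_mul, Av_one]
    linarith
  rcases Nat.eq_zero_or_pos k with rfl | hk
  · simp only [mul_zero, pow_zero, nt_one hne, mul_one, Av_one]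
    linarith
  have h1 := hC m (fun x => nt (SS A x ^ (2 * j))) (fun x => nt (SS A x ^ (2 * k)))
    (√136 * (j : ℝ) ^ 2 * B ^ j / Fintype.card κ) (√136 * (k : ℝ) ^ 2 * B ^ k / Fintype.card κ)
    (by positivity) (by positivity) (var_le hV h j hj (by omega)) (var_le hV h k hk (by omega))
  refine h1.trans ?_
  have h2 : √136 * (j : ℝ) ^ 2 * B ^ j / Fintype.card κ *
      (√136 * (k : ℝ) ^ 2 * B ^ k / Fintype.card κ) =
      136 * ((j : ℝ) * k) ^ 2 * B ^ (j + k) / (Fintype.card κ : ℝ) ^ 2 := by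
    have h3 : √136 * √136 = (136 : ℝ) := Real.mul_self_sqrt (by norm_num)
    have h4 : √136 * (j : ℝ) ^ 2 * B ^ j / Fintype.card κ *
        (√136 * (k : ℝ) ^ 2 * B ^ k / Fintype.card κ) =
        (√136 * √136) * ((j : ℝ) * k) ^ 2 * B ^ (j + k) / (Fintype.card κ : ℝ) ^ 2 := by
      rw [pow_add]
      ring
    rw [h4, h3]
  have h5 : 136 * ((j : ℝ) * k) ^ 2 * B ^ (j + k) / (Fintype.card κ : ℝ) ^ 2 ≤
      9 * ((j : ℝ) + k) ^ 4 * B ^ (j + k) / (Fintype.card κ : ℝ) ^ 2 := by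
    have h6 : 136 * ((j : ℝ) * k) ^ 2 ≤ 9 * ((j : ℝ) + k) ^ 4 := by
      have h7 : 0 ≤ 4 * ((j : ℝ) * k) := by positivity
      have h8 : 4 * ((j : ℝ) * k) ≤ ((j : ℝ) + k) ^ 2 := by nlinarith [sq_nonneg ((j : ℝ) - k)]
      have h9 : (4 * ((j : ℝ) * k)) ^ 2 ≤ (((j : ℝ) + k) ^ 2) ^ 2 := pow_le_pow_left₀ h7 h8 2
      have h10 : (((j : ℝ) + k) ^ 2) ^ 2 = ((j : ℝ) + k) ^ 4 := by ring
      rw [h10] at h9
      nlinarith [sq_nonneg ((j : ℝ) * k)]
    gcongr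
  rw [h2]
  linarith

end Pool.Agent.H120R2.GS
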