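import Pool.Agent.H120R2.GS.Stubs2

/-!
# DIL: Hermitian dilation (helper99)
-/

set_option autoImplicit false

namespace Pool.Agent.H120R2.GS

open scoped BigOperators Matrix Matrix.Norms.L2Operator

namespace DILh

/-- the matrix of an operator -/
noncomputable def mat {d : ℕ} (T : Op d) : Matrix (Fin d) (Fin d) ℂ :=
  (Matrix.toEuclideanCLM (n := Fin d) (𝕜 := ℂ)).symm T

theorem toE_mat {d : ℕ} (T : Op d) :
    Matrix.toEuclideanCLM (n := Fin d) (𝕜 := ℂ) (mat T) = T :=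
  (Matrix.toEuclideanCLM (n := Fin d) (𝕜 := ℂ)).apply_symm_apply T

theorem norm_mat {d : ℕ} (T : Op d) : ‖mat T‖ = ‖T‖ := by
  rw [← Matrix.l2_opNorm_toEuclideanCLM, toE_mat]

theorem mat_apply {d : ℕ} (T : Op d) (a b : Fin d) : mat T a b = mc T a b := by
  unfold mc
  rw [EuclideanSpace.inner_single_left, map_one, one_mul]
  conv_rhs => rw [← toE_mat T]
  change mat T a b = (mat T *ᵥ (Pi.single b (1 : ℂ))) a
  rw [Matrix.mulVec_single_one]
  rfl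

/-- the dilation of a matrix -/
def dil {d : ℕ} (M : Matrix (Fin d) (Fin d) ℂ) : Matrix (Fin d ⊕ Fin d) (Fin d ⊕ Fin d) ℂ :=
  Matrix.fromBlocks 0 M Mᴴ 0

theorem dil_herm {d : ℕ} (M : Matrix (Fin d) (Fin d) ℂ) : (dil M).IsHermitian := by
  unfold dil Matrix.IsHermitian
  rw [Matrix.fromBlocks_conjTranspose, Matrix.conjTranspose_conjTranspose]
  simp

theorem dil_norm_le {d : ℕ} (M : Matrix (Fin d) (Fin d) ℂ) : ‖dil M‖ ≤ ‖M‖ := by
  rw [Matrix.l2_opNorm_def (dil M)]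
  apply ContinuousLinearMap.opNorm_le_bound _ (norm_nonneg _)
  intro w
  set u : EuclideanSpace ℂ (Fin d) := WithLp.toLp 2 fun i => w (Sum.inl i) with hu
  set v : EuclideanSpace ℂ (Fin d) := WithLp.toLp 2 fun i => w (Sum.inr i) with hv
  have hw : ‖w‖ ^ 2 = ‖u‖ ^ 2 + ‖v‖ ^ 2 := by
    rw [EuclideanSpace.norm_sq_eq, EuclideanSpace.norm_sq_eq, EuclideanSpace.norm_sq_eq,
      Fintype.sum_sum_type]
  have h1 : ‖(Matrix.toEuclideanLin (dil M)) w‖ ^ 2 =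
      ‖(WithLp.toLp 2 (M *ᵥ v.ofLp) : EuclideanSpace ℂ (Fin d))‖ ^ 2 +
      ‖(WithLp.toLp 2 (Mᴴ *ᵥ u.ofLp) : EuclideanSpace ℂ (Fin d))‖ ^ 2 := by
    rw [EuclideanSpace.norm_sq_eq, EuclideanSpace.norm_sq_eq, EuclideanSpace.norm_sq_eq,
      Fintype.sum_sum_type]
    have e1 : ∀ i : Fin d, (Matrix.toEuclideanLin (dil M)) w (Sum.inl i) = (M *ᵥ v.ofLp) i := by
      intro i
      change (dil M *ᵥ w.ofLp) (Sum.inl i) = _
      unfold dil
      rw [Matrix.fromBlocks_mulVec]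
      simp only [Matrix.zero_mulVec, zero_add, Sum.elim_inl]
      rfl
    have e2 : ∀ i : Fin d, (Matrix.toEuclideanLin (dil M)) w (Sum.inr i) = (Mᴴ *ᵥ u.ofLp) i := by
      intro i
      change (dil M *ᵥ w.ofLp) (Sum.inr i) = _
      unfold dil
      rw [Matrix.fromBlocks_mulVec]
      simp only [Matrix.zero_mulVec, add_zero, Sum.elim_inr]
      rfl
    simp only [e1, e2]
  have h2 : ‖(WithLp.toLp 2 (M *ᵥ v.ofLp) : EuclideanSpace ℂ (Fin d))‖ ≤ ‖M‖ * ‖v‖ :=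
    Matrix.l2_opNorm_mulVec M v
  have h3 : ‖(WithLp.toLp 2 (Mᴴ *ᵥ u.ofLp) : EuclideanSpace ℂ (Fin d))‖ ≤ ‖M‖ * ‖u‖ := by
    have := Matrix.l2_opNorm_mulVec Mᴴ u
    rw [Matrix.l2_opNorm_conjTranspose] at this
    exact this
  have h4 : ‖(Matrix.toEuclideanLin (dil M)) w‖ ^ 2 ≤ (‖M‖ * ‖w‖) ^ 2 := by
    rw [h1, mul_pow, hw]
    have h5 := pow_le_pow_left₀ (norm_nonneg _) h2 2
    have h6 := pow_le_pow_left₀ (norm_nonneg _) h3 2
    rw [mul_pow] at h5 h6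
    linarith
  exact abs_le_of_sq_le_sq' h4 (by positivity) |>.2

theorem le_dil_norm {d : ℕ} (M : Matrix (Fin d) (Fin d) ℂ) : ‖M‖ ≤ ‖dil M‖ := by
  rw [Matrix.l2_opNorm_def M]
  apply ContinuousLinearMap.opNorm_le_bound _ (norm_nonneg _)
  intro v
  set w : EuclideanSpace ℂ (Fin d ⊕ Fin d) := WithLp.toLp 2 (Sum.elim (fun _ => 0) v.ofLp) with hw
  have h1 := Matrix.l2_opNorm_mulVec (dil M) w
  have h2 : ‖w‖ = ‖v‖ := by
    have : ‖w‖ ^ 2 = ‖v‖ ^ 2 := by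
      rw [EuclideanSpace.norm_sq_eq, EuclideanSpace.norm_sq_eq, Fintype.sum_sum_type]
      simp [hw]
    exact (sq_eq_sq₀ (norm_nonneg _) (norm_nonneg _)).1 this
  have h3 : ‖(WithLp.toLp 2 (dil M *ᵥ w.ofLp) : EuclideanSpace ℂ (Fin d ⊕ Fin d))‖ =
      ‖(WithLp.toLp 2 (M *ᵥ v.ofLp) : EuclideanSpace ℂ (Fin d))‖ := by
    have : ‖(WithLp.toLp 2 (dil M *ᵥ w.ofLp) : EuclideanSpace ℂ (Fin d ⊕ Fin d))‖ ^ 2 =
        ‖(WithLp.toLp 2 (M *ᵥ v.ofLp) : EuclideanSpace ℂ (Fin d))‖ ^ 2 := by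
      rw [EuclideanSpace.norm_sq_eq, EuclideanSpace.norm_sq_eq, Fintype.sum_sum_type]
      have e1 : ∀ i : Fin d, (dil M *ᵥ w.ofLp) (Sum.inl i) = (M *ᵥ v.ofLp) i := by
        intro i
        unfold dil
        rw [Matrix.fromBlocks_mulVec]
        simp only [Matrix.zero_mulVec, zero_add, Sum.elim_inl]
        rfl
      have e2 : ∀ i : Fin d, (dil M *ᵥ w.ofLp) (Sum.inr i) = 0 := by
        intro i
        unfold dil
        rw [Matrix.fromBlocks_mulVec]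
        simp only [Matrix.zero_mulVec, add_zero, Sum.elim_inr]
        have : (w.ofLp ∘ Sum.inl : Fin d → ℂ) = 0 := by
          funext i
          rfl
        rw [this, Matrix.mulVec_zero]
        rfl
      simp only [e1, e2, norm_zero]
      simp
    exact (sq_eq_sq₀ (norm_nonneg _) (norm_nonneg _)).1 this
  have h4 : ‖(WithLp.toLp 2 (M *ᵥ v.ofLp) : EuclideanSpace ℂ (Fin d))‖ ≤ ‖dil M‖ * ‖v‖ := by
    rw [← h3, ← h2]
    exact h1
  exact h4

theorem dil_norm {d : ℕ} (M : Matrix (Fin d) (Fin d) ℂ) : ‖dil M‖ = ‖M‖ :=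
  le_antisymm (dil_norm_le M) (le_dil_norm M)

theorem dil_sum {m d : ℕ} (A : Fin m → Op d) (x : Fin m → Bool) :
    SS (fun i => dil (mat (A i))) x = dil (mat (XO A x)) := by
  have h1 : mat (XO A x) = ∑ i, ((sg (x i) : ℝ) : ℂ) • mat (A i) := by
    unfold mat XO
    rw [map_sum]
    refine Finset.sum_congr rfl fun i _ => ?_
    rw [map_smul]
  unfold SS
  rw [h1]
  unfold dil
  ext p q
  rw [Matrix.sum_apply]
  rcases p with p | p <;> rcases q with q | q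
  · simp only [Matrix.smul_apply, Matrix.fromBlocks_apply₁₁, Matrix.zero_apply, smul_zero,
      Finset.sum_const_zero]
  · simp only [Matrix.smul_apply, Matrix.fromBlocks_apply₁₂, Matrix.sum_apply]
  · simp only [Matrix.smul_apply, Matrix.fromBlocks_apply₂₁, Matrix.conjTranspose_apply,
      Matrix.sum_apply, star_sum, star_smul]
    refine Finset.sum_congr rfl fun i _ => ?_
    congr 1
    exact (Complex.conj_ofReal _).symm
  · simp only [Matrix.smul_apply, Matrix.fromBlocks_apply₂₂, Matrix.zero_apply, smul_zero,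
      Finset.sum_const_zero]

theorem trace_dil {d : ℕ} (M : Matrix (Fin d) (Fin d) ℂ)
    (Y : Matrix (Fin d ⊕ Fin d) (Fin d ⊕ Fin d) ℂ) :
    (dil M * Y).trace = ∑ a, ∑ b, Y (Sum.inr b) (Sum.inl a) * M a b +
      (starRingEnd ℂ) (∑ a, ∑ b, (starRingEnd ℂ) (Y (Sum.inl a) (Sum.inr b)) * M a b) := by
  unfold Matrix.trace dil
  rw [Fintype.sum_sum_type]
  congr 1
  · refine Finset.sum_congr rfl fun a _ => ?_
    rw [Matrix.diag_apply, Matrix.mul_apply, Fintype.sum_sum_type]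
    simp only [Matrix.fromBlocks_apply₁₁, Matrix.fromBlocks_apply₁₂, Matrix.zero_apply, zero_mul,
      Finset.sum_const_zero, zero_add]
    refine Finset.sum_congr rfl fun b _ => ?_
    ring
  · rw [map_sum]
    simp only [Matrix.diag_apply, Matrix.mul_apply, Fintype.sum_sum_type,
      Matrix.fromBlocks_apply₂₁, Matrix.fromBlocks_apply₂₂, Matrix.zero_apply, zero_mul,
      Finset.sum_const_zero, add_zero, Matrix.conjTranspose_apply, map_sum, map_mul,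
      Complex.conj_conj]
    rw [Finset.sum_comm]
    refine Finset.sum_congr rfl fun a _ => ?_
    refine Finset.sum_congr rfl fun b _ => ?_
    rw [mul_comm]
    rfl

theorem norm_add_sq (z w : ℂ) : ‖z + w‖ ^ 2 ≤ 2 * ‖z‖ ^ 2 + 2 * ‖w‖ ^ 2 := by
  have h1 := norm_add_le z w
  have h2 : ‖z + w‖ ^ 2 ≤ (‖z‖ + ‖w‖) ^ 2 := pow_le_pow_left₀ (norm_nonneg _) h1 2
  nlinarith [sq_nonneg (‖z‖ - ‖w‖)]

theorem hs_blocks {d : ℕ} (Y : Matrix (Fin d ⊕ Fin d) (Fin d ⊕ Fin d) ℂ) :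
    ∑ a : Fin d, ∑ b : Fin d, ‖Y (Sum.inr b) (Sum.inl a)‖ ^ 2 +
      ∑ a : Fin d, ∑ b : Fin d, ‖Y (Sum.inl a) (Sum.inr b)‖ ^ 2 ≤ hs Y := by
  unfold hs
  rw [Fintype.sum_sum_type]
  simp only [Fintype.sum_sum_type]
  rw [Finset.sum_add_distrib, Finset.sum_add_distrib]
  rw [Finset.sum_comm (f := fun a b : Fin d => ‖Y (Sum.inr b) (Sum.inl a)‖ ^ 2)]
  have h1 : 0 ≤ ∑ a : Fin d, ∑ b : Fin d, ‖Y (Sum.inl a) (Sum.inl b)‖ ^ 2 :=
    Finset.sum_nonneg fun a _ => Finset.sum_nonneg fun b _ => sq_nonneg _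
  have h2 : 0 ≤ ∑ a : Fin d, ∑ b : Fin d, ‖Y (Sum.inr a) (Sum.inr b)‖ ^ 2 :=
    Finset.sum_nonneg fun a _ => Finset.sum_nonneg fun b _ => sq_nonneg _
  linarith

end DILh

open DILh

theorem T_DIL : P_DIL := by
  intro m d A hA
  refine ⟨fun i => dil (mat (A i)), fun i => dil_herm _, fun i => ?_, fun x => ?_, ?_⟩
  · rw [dil_norm, norm_mat]
    exact hA i
  · rw [dil_sum, dil_norm, norm_mat]
  · intro c hc hcov Y
    have h1 := hcov (fun a b => Y (Sum.inr b) (Sum.inl a))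
    have h2 := hcov (fun a b => (starRingEnd ℂ) (Y (Sum.inl a) (Sum.inr b)))
    simp only [RCLike.norm_conj] at h2
    calc ∑ i, ‖(dil (mat (A i)) * Y).trace‖ ^ 2
        ≤ ∑ i, (2 * ‖∑ a, ∑ b, Y (Sum.inr b) (Sum.inl a) * mc (A i) a b‖ ^ 2 +
          2 * ‖∑ a, ∑ b, (starRingEnd ℂ) (Y (Sum.inl a) (Sum.inr b)) * mc (A i) a b‖ ^ 2) := by
          refine Finset.sum_le_sum fun i _ => ?_
          rw [trace_dil]
          simp only [mat_apply]
          refine (norm_add_sq _ _).trans ?_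
          rw [RCLike.norm_conj]
      _ = 2 * ∑ i, ‖∑ a, ∑ b, Y (Sum.inr b) (Sum.inl a) * mc (A i) a b‖ ^ 2 +
          2 * ∑ i, ‖∑ a, ∑ b, (starRingEnd ℂ) (Y (Sum.inl a) (Sum.inr b)) * mc (A i) a b‖ ^ 2 := by
          rw [Finset.sum_add_distrib, Finset.mul_sum, Finset.mul_sum]
      _ ≤ 2 * (c * ∑ a : Fin d, ∑ b : Fin d, ‖Y (Sum.inr b) (Sum.inl a)‖ ^ 2) +
          2 * (c * ∑ a : Fin d, ∑ b : Fin d, ‖Y (Sum.inl a) (Sum.inr b)‖ ^ 2) := by
          linarith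
      _ = 2 * c * (∑ a : Fin d, ∑ b : Fin d, ‖Y (Sum.inr b) (Sum.inl a)‖ ^ 2 +
          ∑ a : Fin d, ∑ b : Fin d, ‖Y (Sum.inl a) (Sum.inr b)‖ ^ 2) := by ring
      _ ≤ 2 * c * hs Y := mul_le_mul_of_nonneg_left (hs_blocks Y) (by linarith)

end Pool.Agent.H120R2.GS
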