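import Pool.Agent.H120R2.GS.Stubs2

set_option autoImplicit false

namespace Pool.Agent.H120R2.GS

open scoped BigOperators Matrix Matrix.Norms.L2Operator

theorem T_DIM : P_ORT → P_DIM := by
  intro hO G _ _ ι _ _ d σ hd hU hI hort
  classical
  let φ : (Σ j, Fin (d j) × Fin (d j)) → EuclideanSpace ℂ G :=
    fun x => WithLp.toLp 2 (fun g => mc (σ g x.1) x.2.1 x.2.2)
  have hin : ∀ x y, inner ℂ (φ x) (φ y) =
      ∑ g, mc (σ g y.1) y.2.1 y.2.2 * (starRingEnd ℂ) (mc (σ g x.1) x.2.1 x.2.2) := by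
    intro x y
    rw [PiLp.inner_apply]
    refine Finset.sum_congr rfl fun g _ => ?_
    rw [RCLike.inner_apply]
  have hcard : (0 : ℝ) < Fintype.card G := by exact_mod_cast Fintype.card_pos
  have hne : ∀ x, φ x ≠ 0 := by
    intro x h
    have h1 := hin x x
    rw [h, inner_zero_left, hO G (d x.1) (fun g => σ g x.1) (hd x.1) (hU x.1) (hI x.1) x.2.1 x.2.2
      x.2.1 x.2.2, if_pos ⟨rfl, rfl⟩] at h1
    have h2 : ((d x.1 : ℕ) : ℂ) ≠ 0 := by
      have := hd x.1
      exact_mod_cast (by omega : d x.1 ≠ 0)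
    have h3 : ((Fintype.card G : ℕ) : ℂ) ≠ 0 := by
      exact_mod_cast Fintype.card_ne_zero
    exact div_ne_zero h3 h2 h1.symm
  have hpw : Pairwise fun x y => inner ℂ (φ x) (φ y) = 0 := by
    rintro ⟨i, a, b⟩ ⟨j, a', b'⟩ hxy
    rw [hin]
    by_cases hij : i = j
    · subst hij
      rw [hO G (d i) (fun g => σ g i) (hd i) (hU i) (hI i) a' b' a b, if_neg]
      rintro ⟨h1, h2⟩
      apply hxy
      rw [h1, h2]
    · exact hort j i (Ne.symm hij) a' b' a b
  have hli := linearIndependent_of_ne_zero_of_inner_eq_zero hne hpw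
  have h := hli.fintype_card_le_finrank
  rw [finrank_euclideanSpace, Fintype.card_sigma] at h
  refine le_trans (le_of_eq (Finset.sum_congr rfl fun j _ => ?_)) h
  rw [Fintype.card_prod, Fintype.card_fin, sq]

end Pool.Agent.H120R2.GS
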