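import Pool.Agent.H120R2.GS.Stubs2

/-!
# Decomposition with bounded sum of squares of the dimensions
-/

set_option autoImplicit false

namespace Pool.Agent.H120R2.GS

open scoped BigOperators Matrix Matrix.Norms.L2Operator

theorem T_DUAL : P_IRR → P_EQ → P_DIM → P_DUAL := by
  classical
  intro hI hE hD G _ _ N π hπ
  obtain ⟨k, d, J, σ, hd1, hdn, hrep, hirr, hJ, hort, hspan⟩ := hI G N π hπ
  set f : Fin k → (G → ℂ) → ℝ := fun j z => ‖∑ g, z g • σ g j‖ with hf
  have hmin : ∀ j : Fin k, ∃ i : Fin k, f i = f j ∧ ∀ i', f i' = f i → i ≤ i' := by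
    intro j
    have hne : (Finset.univ.filter fun i => f i = f j).Nonempty := ⟨j, by simp⟩
    have h1 := Finset.min'_mem _ hne
    rw [Finset.mem_filter] at h1
    refine ⟨_, h1.2, fun i' hi' => Finset.min'_le _ _ ?_⟩
    rw [Finset.mem_filter]
    exact ⟨Finset.mem_univ _, hi'.trans h1.2⟩
  refine ⟨{j : Fin k // ∀ i' : Fin k, f i' = f j → j ≤ i'}, inferInstance, inferInstance,
    fun j => d j.1, fun g j => σ g j.1, fun j => hd1 j.1, ?_, fun j => hrep j.1,
    fun j => hirr j.1, ?_⟩
  · refine hD G {j : Fin k // ∀ i' : Fin k, f i' = f j → j ≤ i'} (fun j => d j.1)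
      (fun g j => σ g j.1) (fun j => hd1 j.1) (fun j => hrep j.1) (fun j => hirr j.1) ?_
    intro i j hij
    rcases hE G (d i.1) (d j.1) (fun g => σ g i.1) (fun g => σ g j.1) (hd1 _) (hd1 _) (hrep _)
      (hirr _) (hrep _) (hirr _) with h | h
    · exfalso
      have h1 : f i.1 = f j.1 := funext h
      exact hij (Subtype.ext (le_antisymm (i.2 _ h1.symm) (j.2 _ h1)))
    · exact h
  · intro z t ht hb
    have hb' : ∀ j : Fin k, ‖∑ g, z g • σ g j‖ ≤ t := by
      intro j
      obtain ⟨i, hi, hi'⟩ := hmin j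
      have h1 := hb ⟨i, hi'⟩
      have h2 : ‖∑ g, z g • σ g j‖ = ‖∑ g, z g • σ g i‖ := (congrFun hi z).symm
      rw [h2]
      exact h1
    have hOrt : OrthogonalFamily ℂ (fun j => E (d j)) J := fun i j hij u w => hort i j hij u w
    refine ContinuousLinearMap.opNorm_le_bound _ ht fun x => ?_
    obtain ⟨u, rfl⟩ := hspan x
    have h1 : (∑ g, z g • π g) (∑ j, J j (u j)) =
        ∑ j, J j ((∑ g, z g • σ g j) (u j)) := by
      rw [ContinuousLinearMap.sum_apply]
      have h2 : ∀ g, (z g • π g) (∑ j, J j (u j)) = ∑ j, J j (z g • σ g j (u j)) := by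
        intro g
        rw [ContinuousLinearMap.smul_apply, map_sum, Finset.smul_sum]
        refine Finset.sum_congr rfl fun j _ => ?_
        rw [hJ, map_smul]
      rw [Finset.sum_congr rfl fun g _ => h2 g, Finset.sum_comm]
      refine Finset.sum_congr rfl fun j _ => ?_
      rw [← map_sum, ContinuousLinearMap.sum_apply]
      rfl
    rw [h1]
    refine le_of_sq_le_sq ?_ (mul_nonneg ht (norm_nonneg _))
    rw [mul_pow, hOrt.norm_sum, hOrt.norm_sum, Finset.mul_sum]
    refine Finset.sum_le_sum fun j _ => ?_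
    rw [← mul_pow]
    refine pow_le_pow_left₀ (norm_nonneg _) ?_ 2
    exact (ContinuousLinearMap.le_opNorm _ _).trans
      (mul_le_mul_of_nonneg_right (hb' j) (norm_nonneg _))

end Pool.Agent.H120R2.GS
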