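import Mathlib

/-!
# Signed sums of matrices and finite groups: definitions
-/

set_option autoImplicit false

namespace Pool.Agent.H120R2.GS

/-- Complex Euclidean space. -/
abbrev E (d : ℕ) := EuclideanSpace ℂ (Fin d)

/-- Operators on complex Euclidean space. -/
abbrev Op (d : ℕ) := E d →L[ℂ] E d

/-- Sign of a Boolean. -/
def sg (b : Bool) : ℝ := if b then 1 else -1

/-- The iterated logarithm: the number of times the integer part of the binary logarithm must be
applied until the result is at most 1. -/
def lst (n : ℕ) : ℕ :=
  if h : n ≤ 1 then 0 else 1 + lst (Nat.log 2 n)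
termination_by n
decreasing_by exact Nat.log_lt_self 2 (by omega)

end Pool.Agent.H120R2.GS
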