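import Pool.Agent.H120R2.GS.Stubs2

/-! Variance on the cube (Efron-Stein). -/

set_option autoImplicit false

namespace Pool.Agent.H120R2.GS

open scoped BigOperators Matrix Matrix.Norms.L2Operator

namespace EFh

lemma Av_succ {m : ℕ} (f : (Fin (m + 1) → Bool) → ℝ) :
    Av f = (Av (fun x : Fin m → Bool => f (Fin.cons false x : Fin (m + 1) → Bool)) +
      Av (fun x : Fin m → Bool => f (Fin.cons true x : Fin (m + 1) → Bool))) / 2 := by
  have h : ∑ x, f x = ∑ p : Bool × (Fin m → Bool), f (Fin.cons p.1 p.2 : Fin (m + 1) → Bool) :=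
    (Fintype.sum_equiv (Fin.consEquiv (fun _ : Fin (m + 1) => Bool)) _ _ (fun p => rfl)).symm
  unfold Av
  rw [h, Fintype.sum_prod_type, Fintype.sum_bool, pow_succ]
  field_simp
  ring

lemma Av_sq_le {m : ℕ} (g : (Fin m → Bool) → ℝ) : (Av g) ^ 2 ≤ Av (fun x => g x ^ 2) := by
  unfold Av
  have h := sq_sum_le_card_mul_sum_sq (s := (Finset.univ : Finset (Fin m → Bool))) (f := g)
  have hc : ((Finset.univ : Finset (Fin m → Bool)).card : ℝ) = 2 ^ m := by
    simp
  rw [hc] at h
  have h2 : (0 : ℝ) < 2 ^ m := by positivity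
  rw [div_pow, div_le_div_iff₀ (by positivity) h2]
  calc (∑ x, g x) ^ 2 * 2 ^ m ≤ (2 ^ m * ∑ x, g x ^ 2) * 2 ^ m :=
        mul_le_mul_of_nonneg_right h h2.le
    _ = (∑ x, g x ^ 2) * (2 ^ m) ^ 2 := by ring

lemma Av_add {m : ℕ} (f g : (Fin m → Bool) → ℝ) :
    Av (fun x => f x + g x) = Av f + Av g := by
  unfold Av
  rw [Finset.sum_add_distrib, add_div]

lemma Av_sub {m : ℕ} (f g : (Fin m → Bool) → ℝ) :
    Av (fun x => f x - g x) = Av f - Av g := by
  unfold Av
  rw [Finset.sum_sub_distrib, sub_div]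

lemma Av_div {m : ℕ} (f : (Fin m → Bool) → ℝ) (c : ℝ) :
    Av (fun x => f x / c) = Av f / c := by
  unfold Av
  rw [← Finset.sum_div]
  ring

end EFh

open EFh in
theorem T_EF : P_EF := by
  intro m
  induction m with
  | zero =>
    intro f
    simp [Av]
  | succ m ih =>
    intro f
    set f0 : (Fin m → Bool) → ℝ := fun x => f (Fin.cons false x : Fin (m + 1) → Bool) with hf0
    set f1 : (Fin m → Bool) → ℝ := fun x => f (Fin.cons true x : Fin (m + 1) → Bool) with hf1
    have h0 := ih f0
    have h1 := ih f1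
    rw [Fin.sum_univ_succ]
    have e0 : Av (fun x => ((f x - f (Function.update x 0 (!(x 0)))) / 2) ^ 2) =
        Av (fun x => ((f0 x - f1 x) / 2) ^ 2) := by
      rw [Av_succ]
      have a1 : ∀ x : Fin m → Bool, ((f (Fin.cons false x : Fin (m + 1) → Bool) -
          f (Function.update (Fin.cons false x : Fin (m + 1) → Bool) 0
            (!((Fin.cons false x : Fin (m + 1) → Bool) 0)))) / 2) ^ 2 =
          ((f0 x - f1 x) / 2) ^ 2 := by
        intro x
        rw [Fin.cons_zero, Fin.update_cons_zero]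
        rfl
      have a2 : ∀ x : Fin m → Bool, ((f (Fin.cons true x : Fin (m + 1) → Bool) -
          f (Function.update (Fin.cons true x : Fin (m + 1) → Bool) 0
            (!((Fin.cons true x : Fin (m + 1) → Bool) 0)))) / 2) ^ 2 =
          ((f0 x - f1 x) / 2) ^ 2 := by
        intro x
        rw [Fin.cons_zero, Fin.update_cons_zero]
        simp only [hf0, hf1, Bool.not_true]
        ring
      simp only [a1, a2]
      ring
    have e1 : ∀ i : Fin m, Av (fun x => ((f x - f (Function.update x i.succ (!(x i.succ)))) / 2) ^ 2)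
        = (Av (fun x => ((f0 x - f0 (Function.update x i (!(x i)))) / 2) ^ 2) +
          Av (fun x => ((f1 x - f1 (Function.update x i (!(x i)))) / 2) ^ 2)) / 2 := by
      intro i
      rw [Av_succ]
      simp only [Fin.cons_succ, ← Fin.cons_update]
      rfl
    rw [e0]
    simp only [e1]
    rw [← Finset.sum_div, Finset.sum_add_distrib, Av_succ f, Av_succ (fun x => f x ^ 2)]
    have h2 := Av_sq_le (fun x => (f0 x - f1 x) / 2)
    rw [Av_div, Av_sub] at h2
    have e2 : Av (fun x => f0 x) = Av f0 := rfl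
    change (Av (fun x => f0 x ^ 2) + Av (fun x => f1 x ^ 2)) / 2 - ((Av f0 + Av f1) / 2) ^ 2 ≤ _
    nlinarith
  
end Pool.Agent.H120R2.GS
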