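import Pool.Agent.H120R2.GS.Stubs

/-!
# Schur orthogonality (helper77)
-/

set_option autoImplicit false

namespace Pool.Agent.H120R2.GS

namespace SCHURh

variable {G : Type} [Group G] [Fintype G] {d : ℕ} {π : G → Op d}

theorem inner_map (hπ : IsURep π) (h : G) (a b : E d) :
    inner ℂ (π h a) (π h b) = inner ℂ a b := by
  let f : E d →ₗᵢ[ℂ] E d := ⟨(π h).toLinearMap, fun x => hπ.2.2 h x⟩
  exact f.inner_map_map a b

theorem map_inv (hπ : IsURep π) (h : G) (x : E d) : π h (π h⁻¹ x) = x := by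
  have h1 := hπ.2.1 h h⁻¹
  rw [mul_inv_cancel, hπ.1] at h1
  have h2 := congrArg (fun T : Op d => T x) h1
  exact h2.symm

theorem inner_inv (hπ : IsURep π) (h : G) (x w : E d) :
    inner ℂ (π h⁻¹ x) w = inner ℂ x (π h w) := by
  rw [← inner_map hπ h, map_inv hπ]

/-- the operator `∑ ⟨π(g) u, .⟩ π(g) u` -/
noncomputable def T (π : G → Op d) (u : E d) : Op d :=
  ∑ g, (innerSL ℂ (π g u)).smulRight (π g u)

theorem T_apply (u w : E d) : T π u w = ∑ g, inner ℂ (π g u) w • π g u := by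
  unfold T
  simp

theorem T_comm (hπ : IsURep π) (u w : E d) (h : G) : T π u (π h w) = π h (T π u w) := by
  rw [T_apply, T_apply, map_sum]
  refine (Fintype.sum_equiv (Equiv.mulLeft h) _ _ fun g => ?_).symm
  have h1 : (π ((Equiv.mulLeft h) g)) u = π h (π g u) := by
    show π (h * g) u = _
    rw [hπ.2.1]
    rfl
  rw [h1, inner_map hπ, map_smul]

theorem inner_T (u w : E d) : inner ℂ w (T π u w) =
    ((∑ g, ‖inner ℂ w (π g u)‖ ^ 2 : ℝ) : ℂ) := by
  rw [T_apply, inner_sum, Complex.ofReal_sum]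
  refine Finset.sum_congr rfl fun g _ => ?_
  rw [inner_smul_right, ← inner_conj_symm, Complex.ofReal_pow]
  exact RCLike.conj_mul _

end SCHURh

open SCHURh in
theorem T_SCHUR : P_SCHUR := by
  intro G _ _ d π hd hπ hirr u v
  have hnt : Nontrivial (E d) := by
    apply Module.nontrivial_of_finrank_pos (R := ℂ)
    rw [finrank_euclideanSpace, Fintype.card_fin]
    omega
  obtain ⟨μ, hμ⟩ := Module.End.exists_eigenvalue (T π u : E d →ₗ[ℂ] E d)
  have hW := hirr (Module.End.eigenspace (T π u : E d →ₗ[ℂ] E d) μ) (by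
    intro g w hw
    rw [Module.End.mem_eigenspace_iff] at hw ⊢
    have hw' : T π u w = μ • w := hw
    show T π u (π g w) = μ • π g w
    rw [T_comm hπ, hw', map_smul])
  rcases hW with hW | hW
  · exact absurd hW hμ
  have hT : ∀ w, T π u w = μ • w := by
    intro w
    have : w ∈ Module.End.eigenspace (T π u : E d →ₗ[ℂ] E d) μ := by
      rw [hW]
      exact Submodule.mem_top
    exact Module.End.mem_eigenspace_iff.1 this
  have hF : ∀ w : E d, ∑ g, ‖inner ℂ w (π g u)‖ ^ 2 = μ.re * ‖w‖ ^ 2 := by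
    intro w
    have h1 := inner_T (π := π) u w
    rw [hT w, inner_smul_right, inner_self_eq_norm_sq_to_K] at h1
    have h2 := congrArg Complex.re h1
    rw [Complex.ofReal_re] at h2
    rw [← h2]
    have h3 : ((‖w‖ : ℂ)) ^ 2 = ((‖w‖ ^ 2 : ℝ) : ℂ) := by push_cast; rfl
    have h4 : (μ * ((‖w‖ : ℂ)) ^ 2).re = μ.re * ‖w‖ ^ 2 := by
      rw [h3, Complex.re_mul_ofReal]
    exact h4
  have hsum : ∑ i, ∑ g, ‖inner ℂ (EuclideanSpace.basisFun (Fin d) ℂ i) (π g u)‖ ^ 2 =
      (Fintype.card G : ℝ) * ‖u‖ ^ 2 := by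
    rw [Finset.sum_comm]
    have : ∀ g, ∑ i, ‖inner ℂ (EuclideanSpace.basisFun (Fin d) ℂ i) (π g u)‖ ^ 2 = ‖u‖ ^ 2 := by
      intro g
      rw [OrthonormalBasis.sum_sq_norm_inner_right, hπ.2.2]
    simp only [this, Finset.sum_const, Finset.card_univ, nsmul_eq_mul]
  have hsum2 : ∑ i, ∑ g, ‖inner ℂ (EuclideanSpace.basisFun (Fin d) ℂ i) (π g u)‖ ^ 2 =
      (d : ℝ) * μ.re := by
    have : ∀ i, ∑ g, ‖inner ℂ (EuclideanSpace.basisFun (Fin d) ℂ i) (π g u)‖ ^ 2 = μ.re := by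
      intro i
      rw [hF, (EuclideanSpace.basisFun (Fin d) ℂ).orthonormal.1 i]
      ring
    simp only [this, Finset.sum_const, Finset.card_univ, Fintype.card_fin, nsmul_eq_mul]
  have hd0 : (d : ℝ) ≠ 0 := by
    have : (0 : ℝ) < d := by exact_mod_cast hd
    exact this.ne'
  rw [hF v]
  have hμr : μ.re = (Fintype.card G : ℝ) / d * ‖u‖ ^ 2 := by
    field_simp
    linarith
  rw [hμr]

end Pool.Agent.H120R2.GS
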