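import Pool.Agent.H120R2.GS.Stubs2
import Pool.Agent.H120R2.GS.SCHUR

/-!
# Two irreducible unitary representations (helper154)
-/

set_option autoImplicit false

namespace Pool.Agent.H120R2.GS

open scoped BigOperators

namespace EQh

variable {G : Type} [Group G] [Fintype G] {d e : ℕ} {σ : G → Op d} {τ : G → Op e}

/-- the intertwining operator `∑ ⟨τ(g) u', .⟩ σ(g) u` -/
noncomputable def T (σ : G → Op d) (τ : G → Op e) (u : E d) (u' : E e) : E e →L[ℂ] E d :=
  ∑ g, (innerSL ℂ (τ g u')).smulRight (σ g u)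

theorem T_apply (u : E d) (u' w : E e) :
    T σ τ u u' w = ∑ g, inner ℂ (τ g u') w • σ g u := by
  unfold T
  simp

theorem T_comm (hσ : IsURep σ) (hτ : IsURep τ) (u : E d) (u' w : E e) (h : G) :
    T σ τ u u' (τ h w) = σ h (T σ τ u u' w) := by
  rw [T_apply, T_apply, map_sum]
  refine (Fintype.sum_equiv (Equiv.mulLeft h) _ _ fun g => ?_).symm
  have h1 : (σ ((Equiv.mulLeft h) g)) u = σ h (σ g u) := by
    show σ (h * g) u = _
    rw [hσ.2.1]
    rfl
  have h2 : (τ ((Equiv.mulLeft h) g)) u' = τ h (τ g u') := by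
    show τ (h * g) u' = _
    rw [hτ.2.1]
    rfl
  rw [h1, h2, SCHURh.inner_map hτ, map_smul]

theorem inner_T (v u : E d) (w u' : E e) : inner ℂ v (T σ τ u u' w) =
    ∑ g, inner ℂ v (σ g u) * (starRingEnd ℂ) (inner ℂ w (τ g u')) := by
  rw [T_apply, inner_sum]
  refine Finset.sum_congr rfl fun g _ => ?_
  rw [inner_smul_right, inner_conj_symm, mul_comm]

/-- a nonzero intertwining operator is a multiple of a surjective isometry -/
theorem main (he : 1 ≤ e) (hσ : IsURep σ) (hirσ : IsIrr σ) (hτ : IsURep τ)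
    (hirτ : IsIrr τ) (S : E e →L[ℂ] E d) (hS : S ≠ 0) (hc : ∀ h w, S (τ h w) = σ h (S w)) :
    ∀ z : G → ℂ, ‖∑ g, z g • σ g‖ = ‖∑ g, z g • τ g‖ := by
  have hnt : Nontrivial (E e) := by
    apply Module.nontrivial_of_finrank_pos (R := ℂ)
    rw [finrank_euclideanSpace, Fintype.card_fin]
    omega
  set Q : E e →L[ℂ] E e := (ContinuousLinearMap.adjoint S).comp S with hQ
  have hQc : ∀ h w, Q (τ h w) = τ h (Q w) := by
    intro h w
    refine ext_inner_left ℂ fun x => ?_
    show inner ℂ x (ContinuousLinearMap.adjoint S (S (τ h w))) = _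
    rw [ContinuousLinearMap.adjoint_inner_right, hc, ← SCHURh.inner_inv hσ, ← hc,
      ← SCHURh.inner_inv hτ]
    exact (ContinuousLinearMap.adjoint_inner_right S _ _).symm
  obtain ⟨μ, hμ⟩ := Module.End.exists_eigenvalue (Q : E e →ₗ[ℂ] E e)
  have hW := hirτ (Module.End.eigenspace (Q : E e →ₗ[ℂ] E e) μ) (by
    intro g w hw
    rw [Module.End.mem_eigenspace_iff] at hw ⊢
    have hw' : Q w = μ • w := hw
    show Q (τ g w) = μ • τ g w
    rw [hQc, hw', map_smul])
  rcases hW with hW | hW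
  · exact absurd hW hμ
  have hQ' : ∀ w, Q w = μ • w := by
    intro w
    have : w ∈ Module.End.eigenspace (Q : E e →ₗ[ℂ] E e) μ := by
      rw [hW]
      exact Submodule.mem_top
    exact Module.End.mem_eigenspace_iff.1 this
  have hnorm : ∀ w, ‖S w‖ ^ 2 = μ.re * ‖w‖ ^ 2 := by
    intro w
    have h1 : inner ℂ w (Q w) = inner ℂ (S w) (S w) :=
      ContinuousLinearMap.adjoint_inner_right S _ _
    rw [hQ', inner_smul_right, inner_self_eq_norm_sq_to_K, inner_self_eq_norm_sq_to_K] at h1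
    have h3 : ((‖w‖ : ℂ)) ^ 2 = ((‖w‖ ^ 2 : ℝ) : ℂ) := by push_cast; rfl
    have h4 : (μ * ((‖w‖ : ℂ)) ^ 2).re = μ.re * ‖w‖ ^ 2 := by
      rw [h3, Complex.re_mul_ofReal]
    have h5 : (((‖S w‖ : ℂ)) ^ 2).re = ‖S w‖ ^ 2 := by
      rw [← Complex.ofReal_pow, Complex.ofReal_re]
    rw [← h5, ← h4]
    exact (congrArg Complex.re h1).symm
  have hμ0 : 0 < μ.re := by
    obtain ⟨w, hw⟩ : ∃ w, S w ≠ 0 := by
      by_contra hcon
      push Not at hcon
      exact hS (ContinuousLinearMap.ext hcon)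
    have h1 : 0 < ‖S w‖ ^ 2 := pow_pos (norm_pos_iff.2 hw) 2
    rw [hnorm] at h1
    exact pos_of_mul_pos_left h1 (sq_nonneg _)
  have hsurj : ∀ v, ∃ w, S w = v := by
    have hR := hirσ (LinearMap.range (S : E e →ₗ[ℂ] E d)) (by
      rintro g _ ⟨w, rfl⟩
      exact ⟨τ g w, hc g w⟩)
    rcases hR with hR | hR
    · exfalso
      apply hS
      refine ContinuousLinearMap.ext fun w => ?_
      have : (S w) ∈ LinearMap.range (S : E e →ₗ[ℂ] E d) := ⟨w, rfl⟩
      rw [hR] at this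
      exact (Submodule.mem_bot ℂ).1 this
    · intro v
      have : v ∈ LinearMap.range (S : E e →ₗ[ℂ] E d) := by
        rw [hR]; exact Submodule.mem_top
      exact this
  intro z
  have hM : ∀ w, (∑ g, z g • σ g) (S w) = S ((∑ g, z g • τ g) w) := by
    intro w
    simp only [ContinuousLinearMap.sum_apply, ContinuousLinearMap.smul_apply, map_sum, map_smul,
      hc]
  set M : Op d := ∑ g, z g • σ g with hMdef
  set M' : Op e := ∑ g, z g • τ g with hM'def
  refine le_antisymm ?_ ?_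
  · refine ContinuousLinearMap.opNorm_le_bound _ (norm_nonneg _) fun v => ?_
    obtain ⟨w, rfl⟩ := hsurj v
    rw [hM]
    refine le_of_sq_le_sq ?_ (by positivity)
    rw [mul_pow, hnorm, hnorm]
    have h1 : ‖M' w‖ ^ 2 ≤ (‖M'‖ * ‖w‖) ^ 2 :=
      pow_le_pow_left₀ (norm_nonneg _) (M'.le_opNorm w) 2
    nlinarith
  · refine ContinuousLinearMap.opNorm_le_bound _ (norm_nonneg _) fun w => ?_
    refine le_of_sq_le_sq ?_ (by positivity)
    have h1 : ‖M (S w)‖ ^ 2 ≤ (‖M‖ * ‖S w‖) ^ 2 :=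
      pow_le_pow_left₀ (norm_nonneg _) (M.le_opNorm _) 2
    rw [hM, hnorm, mul_pow, hnorm] at h1
    rw [mul_pow]
    have h2 : μ.re * ‖M' w‖ ^ 2 ≤ μ.re * (‖M‖ ^ 2 * ‖w‖ ^ 2) := by nlinarith
    exact le_of_mul_le_mul_left h2 hμ0

end EQh

open EQh in
theorem T_EQ : P_EQ := by
  intro G _ _ d e σ τ hd he hσ hirσ hτ hirτ
  by_cases hT : ∀ (b : Fin d) (b' : Fin e), T σ τ (EuclideanSpace.single b (1 : ℂ))
      (EuclideanSpace.single b' (1 : ℂ)) = 0
  · right
    intro a b a' b'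
    have h1 := inner_T (σ := σ) (τ := τ) (EuclideanSpace.single a (1 : ℂ))
      (EuclideanSpace.single b (1 : ℂ)) (EuclideanSpace.single a' (1 : ℂ))
      (EuclideanSpace.single b' (1 : ℂ))
    rw [hT b b', ContinuousLinearMap.zero_apply, inner_zero_right] at h1
    exact h1.symm
  · left
    push Not at hT
    obtain ⟨b, b', hT⟩ := hT
    exact main he hσ hirσ hτ hirτ _ hT fun h w => T_comm hσ hτ _ _ w h

end Pool.Agent.H120R2.GS
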