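import Pool.Agent.H120R2.GS.Stubs

/-!
# A large set of sign vectors contains two almost antipodal ones
-/

set_option autoImplicit false

namespace Pool.Agent.H120R2.GS

namespace FARh

open Finset

theorem hd_cons {m : ℕ} (b : Bool) (z z' : Fin m → Bool) :
    hammingDist (Fin.cons b z : Fin (m + 1) → Bool) (Fin.cons b z') = hammingDist z z' := by
  unfold hammingDist
  rw [Finset.card_filter, Finset.card_filter, Fin.sum_univ_succ]
  simp

theorem hd_cons2 {m : ℕ} (b b' : Bool) (z : Fin m → Bool) :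
    hammingDist (Fin.cons b z : Fin (m + 1) → Bool) (Fin.cons b' z) ≤ 1 := by
  unfold hammingDist
  rw [Finset.card_filter, Fin.sum_univ_succ]
  simp only [Fin.cons_zero, Fin.cons_succ, ne_eq, not_true_eq_false, if_false,
    Finset.sum_const_zero, add_zero]
  split_ifs <;> simp

theorem two (s a b : ℝ) (h : |a - b| ≤ 1) :
    Real.exp (s * a) + Real.exp (s * b) ≤ 2 * Real.exp (s * ((a + b) / 2) + s ^ 2 / 8) := by
  have h1 : Real.exp (s * a) + Real.exp (s * b) =
      2 * (Real.exp (s * ((a + b) / 2)) * Real.cosh (s * (a - b) / 2)) := by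
    rw [Real.cosh_eq]
    have e1 : Real.exp (s * a) = Real.exp (s * ((a + b) / 2)) * Real.exp (s * (a - b) / 2) := by
      rw [← Real.exp_add]; congr 1; ring
    have e2 : Real.exp (s * b) = Real.exp (s * ((a + b) / 2)) * Real.exp (-(s * (a - b) / 2)) := by
      rw [← Real.exp_add]; congr 1; ring
    rw [e1, e2]; ring
  rw [h1, Real.exp_add]
  have h2 : Real.cosh (s * (a - b) / 2) ≤ Real.exp (s ^ 2 / 8) := by
    refine (Real.cosh_le_exp_half_sq _).trans ?_
    apply Real.exp_le_exp.2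
    have h3 : (a - b) ^ 2 ≤ 1 := by
      rw [← sq_abs]
      have := abs_nonneg (a - b)
      nlinarith
    have h4 : 0 ≤ s ^ 2 := sq_nonneg s
    nlinarith [mul_le_mul_of_nonneg_left h3 h4]
  have h5 : 0 ≤ Real.exp (s * ((a + b) / 2)) := (Real.exp_pos _).le
  nlinarith [mul_le_mul_of_nonneg_left h2 h5]

theorem sum_cons {m : ℕ} (f : (Fin (m + 1) → Bool) → ℝ) :
    ∑ z, f z = ∑ z : Fin m → Bool, (f (Fin.cons false z) + f (Fin.cons true z)) := by
  rw [← (Fin.consEquiv fun _ => Bool).sum_comp, Fintype.sum_prod_type, Finset.sum_comm]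
  refine Finset.sum_congr rfl fun z _ => ?_
  rw [Fintype.sum_bool, add_comm]
  rfl

theorem key (s : ℝ) : ∀ (m : ℕ) (f : (Fin m → Bool) → ℝ),
    (∀ z z', |f z - f z'| ≤ (hammingDist z z' : ℝ)) →
    ∑ z, Real.exp (s * f z) ≤
      2 ^ m * Real.exp (s * ((∑ z, f z) / 2 ^ m) + s ^ 2 * m / 8) := by
  intro m
  induction m with
  | zero =>
    intro f _
    simp
  | succ m ih =>
    intro f hf
    rw [sum_cons]
    set g : (Fin m → Bool) → ℝ := fun z => (f (Fin.cons false z) + f (Fin.cons true z)) / 2 with hg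
    have hgl : ∀ z z', |g z - g z'| ≤ (hammingDist z z' : ℝ) := by
      intro z z'
      have h1 := hf (Fin.cons false z) (Fin.cons false z')
      have h2 := hf (Fin.cons true z) (Fin.cons true z')
      rw [hd_cons] at h1 h2
      rw [abs_le] at h1 h2 ⊢
      simp only [hg]
      constructor <;> linarith [h1.1, h1.2, h2.1, h2.2]
    have hi := ih g hgl
    have hstep : ∀ z : Fin m → Bool, Real.exp (s * f (Fin.cons false z)) +
        Real.exp (s * f (Fin.cons true z)) ≤ 2 * Real.exp (s ^ 2 / 8) * Real.exp (s * g z) := by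
      intro z
      have h1 := hf (Fin.cons false z) (Fin.cons true z)
      have h2 : ((hammingDist (Fin.cons false z : Fin (m + 1) → Bool) (Fin.cons true z) : ℕ) : ℝ)
          ≤ 1 := by exact_mod_cast hd_cons2 false true z
      have h3 := two s _ _ (h1.trans h2)
      rw [Real.exp_add] at h3
      simp only [hg]
      linarith
    have hsum : ∑ z, f z = 2 * ∑ z, g z := by
      rw [sum_cons, Finset.mul_sum]
      refine Finset.sum_congr rfl fun z _ => ?_
      simp only [hg]; ring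
    calc ∑ z : Fin m → Bool, (Real.exp (s * f (Fin.cons false z)) +
          Real.exp (s * f (Fin.cons true z)))
        ≤ ∑ z : Fin m → Bool, 2 * Real.exp (s ^ 2 / 8) * Real.exp (s * g z) :=
          Finset.sum_le_sum fun z _ => hstep z
      _ = 2 * Real.exp (s ^ 2 / 8) * ∑ z, Real.exp (s * g z) := by rw [Finset.mul_sum]
      _ ≤ 2 * Real.exp (s ^ 2 / 8) *
          (2 ^ m * Real.exp (s * ((∑ z, g z) / 2 ^ m) + s ^ 2 * m / 8)) :=
          mul_le_mul_of_nonneg_left hi (by positivity)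
      _ = 2 ^ (m + 1) * Real.exp (s * ((∑ z, f z) / 2 ^ (m + 1)) +
          s ^ 2 * ((m + 1 : ℕ) : ℝ) / 8) := by
          rw [hsum]
          have : s * ((2 * ∑ z, g z) / 2 ^ (m + 1)) + s ^ 2 * ((m + 1 : ℕ) : ℝ) / 8 =
              s ^ 2 / 8 + (s * ((∑ z, g z) / 2 ^ m) + s ^ 2 * m / 8) := by
            push_cast
            rw [pow_succ]
            field_simp
            ring
          rw [this, Real.exp_add (s ^ 2 / 8), pow_succ]
          ring

/-- distance to a set -/
noncomputable def ds {m : ℕ} (F : Finset (Fin m → Bool)) (hF : F.Nonempty) (z : Fin m → Bool) : ℕ :=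
  F.inf' hF fun a => hammingDist z a

theorem ds_lip {m : ℕ} (F : Finset (Fin m → Bool)) (hF : F.Nonempty) (z z' : Fin m → Bool) :
    ds F hF z ≤ hammingDist z z' + ds F hF z' := by
  obtain ⟨a, ha, he⟩ := F.exists_mem_eq_inf' hF fun a => hammingDist z' a
  have h1 : ds F hF z ≤ hammingDist z a := Finset.inf'_le _ ha
  have h2 : ds F hF z' = hammingDist z' a := he
  rw [h2]
  exact h1.trans (hammingDist_triangle z z' a)

theorem ds_abs {m : ℕ} (F : Finset (Fin m → Bool)) (hF : F.Nonempty) (z z' : Fin m → Bool) :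
    |(ds F hF z : ℝ) - ds F hF z'| ≤ (hammingDist z z' : ℝ) := by
  rw [abs_le]
  have h1 : (ds F hF z : ℝ) ≤ hammingDist z z' + ds F hF z' := by exact_mod_cast ds_lip F hF z z'
  have h2 : (ds F hF z' : ℝ) ≤ hammingDist z' z + ds F hF z := by exact_mod_cast ds_lip F hF z' z
  rw [hammingDist_comm] at h2
  constructor <;> linarith

theorem ds_mem {m : ℕ} (F : Finset (Fin m → Bool)) (hF : F.Nonempty) (z : Fin m → Bool)
    (hz : z ∈ F) : ds F hF z = 0 := by
  have : ds F hF z ≤ hammingDist z z := Finset.inf'_le _ hz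
  rw [hammingDist_self] at this
  omega

/-- negation of all coordinates -/
def ng {m : ℕ} (z : Fin m → Bool) : Fin m → Bool := fun i => !(z i)

theorem ng_ng {m : ℕ} (z : Fin m → Bool) : ng (ng z) = z := by
  funext i; simp [ng]

def ngE (m : ℕ) : (Fin m → Bool) ≃ (Fin m → Bool) := ⟨ng, ng, ng_ng, ng_ng⟩

theorem mean_le {m : ℕ} (F : Finset (Fin m → Bool)) (hF : F.Nonempty) (ε : ℝ) (hε : 0 < ε)
    (h : 2 ^ m * Real.exp (-(ε * m)) ≤ (F.card : ℝ)) :
    (∑ z, (ds F hF z : ℝ)) / 2 ^ m ≤ √(2 * ε) / 2 * m := by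
  set s : ℝ := √(8 * ε) with hs
  have hs0 : 0 < s := Real.sqrt_pos.2 (by linarith)
  have hs2 : s ^ 2 = 8 * ε := Real.sq_sqrt (by linarith)
  have hk := key (-s) m (fun z => (ds F hF z : ℝ)) (ds_abs F hF)
  have h1 : (F.card : ℝ) ≤ ∑ z, Real.exp (-s * (ds F hF z : ℝ)) := by
    calc (F.card : ℝ) = ∑ z ∈ F, Real.exp (-s * (ds F hF z : ℝ)) := by
          rw [Finset.card_eq_sum_ones]
          push_cast
          refine Finset.sum_congr rfl fun z hz => ?_
          rw [ds_mem F hF z hz]; simp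
      _ ≤ ∑ z, Real.exp (-s * (ds F hF z : ℝ)) :=
          Finset.sum_le_sum_of_subset_of_nonneg (Finset.subset_univ _)
            fun _ _ _ => (Real.exp_pos _).le
  set M : ℝ := (∑ z, (ds F hF z : ℝ)) / 2 ^ m with hM
  have h2 : 2 ^ m * Real.exp (-(ε * m)) ≤ 2 ^ m * Real.exp (-s * M + (-s) ^ 2 * m / 8) :=
    h.trans (h1.trans hk)
  have h3 : Real.exp (-(ε * m)) ≤ Real.exp (-s * M + (-s) ^ 2 * m / 8) :=
    le_of_mul_le_mul_left h2 (by positivity)
  rw [Real.exp_le_exp] at h3
  have h4 : s * M ≤ 2 * ε * m := by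
    have : (-s) ^ 2 = 8 * ε := by rw [neg_sq, hs2]
    rw [this] at h3
    linarith
  have h5 : s = 2 * √(2 * ε) := by
    rw [hs, show (8 : ℝ) * ε = 2 ^ 2 * (2 * ε) by ring, Real.sqrt_mul (by norm_num),
      Real.sqrt_sq (by norm_num)]
  set q : ℝ := √(2 * ε) with hq
  have hq0 : 0 < q := Real.sqrt_pos.2 (by linarith)
  have hq2 : q ^ 2 = 2 * ε := Real.sq_sqrt (by linarith)
  rw [h5, ← hq2] at h4
  have h6 : q * (2 * M) ≤ q * (q * m) := by nlinarith
  have h7 := le_of_mul_le_mul_left h6 hq0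
  linarith

theorem mean_zero {m : ℕ} (F : Finset (Fin m → Bool)) (hF : F.Nonempty)
    (h : 2 ^ m * Real.exp (-((0 : ℝ) * m)) ≤ (F.card : ℝ)) :
    (∑ z, (ds F hF z : ℝ)) / 2 ^ m ≤ √(2 * 0) / 2 * m := by
  have hc : F = Finset.univ := by
    rw [← Finset.card_eq_iff_eq_univ]
    apply le_antisymm (Finset.card_le_univ _)
    have : ((Fintype.card (Fin m → Bool) : ℕ) : ℝ) ≤ (F.card : ℝ) := by
      simpa using h
    exact_mod_cast this
  have : ∀ z, (ds F hF z : ℝ) = 0 := by
    intro z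
    rw [ds_mem F hF z (by rw [hc]; exact Finset.mem_univ _)]
    simp
  simp [this]

end FARh

open FARh

theorem T_FAR : P_FAR := by
  intro m F ε hε h
  have hF : F.Nonempty := by
    rw [← Finset.card_pos]
    have h1 : (0 : ℝ) < 2 ^ m * Real.exp (-(ε * m)) := by positivity
    have h2 : (0 : ℝ) < F.card := lt_of_lt_of_le h1 h
    exact_mod_cast h2
  have hm : (∑ z, (ds F hF z : ℝ)) / 2 ^ m ≤ √(2 * ε) / 2 * m := by
    rcases hε.lt_or_eq with h0 | h0
    · exact mean_le F hF ε h0 h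
    · rw [← h0] at h ⊢
      exact mean_zero F hF h
  have hm2 : ∑ z, ((ds F hF z : ℝ) + ds F hF (ng z)) ≤ ∑ z : Fin m → Bool, √(2 * ε) * m := by
    rw [Finset.sum_add_distrib]
    have e1 : ∑ z, (ds F hF (ng z) : ℝ) = ∑ z, (ds F hF z : ℝ) :=
      (ngE m).sum_comp fun z => (ds F hF z : ℝ)
    rw [e1, Finset.sum_const, Finset.card_univ, nsmul_eq_mul]
    have e2 : ((Fintype.card (Fin m → Bool) : ℕ) : ℝ) = 2 ^ m := by simp
    rw [e2]
    have hp : (0 : ℝ) < 2 ^ m := by positivity
    rw [div_le_iff₀ hp] at hm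
    nlinarith
  obtain ⟨z, -, hz⟩ := Finset.exists_le_of_sum_le (s := Finset.univ) ⟨fun _ => true,
    Finset.mem_univ _⟩ hm2
  obtain ⟨a, ha, hae⟩ := F.exists_mem_eq_inf' hF fun a => hammingDist z a
  obtain ⟨b, hb, hbe⟩ := F.exists_mem_eq_inf' hF fun a => hammingDist (ng z) a
  refine ⟨a, ha, b, hb, le_trans ?_ hz⟩
  have h1 : ds F hF z = hammingDist z a := hae
  have h2 : ds F hF (ng z) = hammingDist (ng z) b := hbe
  rw [h1, h2]
  have h3 : (Finset.univ.filter (fun i => a i = b i)).card ≤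
      hammingDist z a + hammingDist (ng z) b := by
    unfold hammingDist
    refine le_trans (Finset.card_le_card ?_) (Finset.card_union_le _ _)
    intro i hi
    simp only [Finset.mem_filter, Finset.mem_univ, true_and, Finset.mem_union, ng] at hi ⊢
    revert hi
    cases z i <;> cases a i <;> cases b i <;> simp
  exact_mod_cast h3

end Pool.Agent.H120R2.GS
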