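import Pool.Agent.H120R2.GS.Stubs

/-!
# The theorem for groups
-/

set_option autoImplicit false

namespace Pool.Agent.H120R2.GS

namespace GRPh

variable {G : Type} [Group G] {n : ℕ} (e : Fin n ≃ G)

/-- the permutation of the indices given by left translation -/
def pm (g : G) : Fin n ≃ Fin n := (e.trans (Equiv.mulLeft g)).trans e.symm

/-- left translation -/
noncomputable def tr (g : G) : Op n :=
  ((LinearIsometryEquiv.piLpCongrLeft 2 ℂ ℂ (pm e g)).toContinuousLinearEquiv :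
    E n ≃L[ℂ] E n).toContinuousLinearMap

theorem tr_apply (g : G) (x : E n) (i : Fin n) : tr e g x i = x (e.symm (g⁻¹ * e i)) := by
  simp [tr, pm, LinearIsometryEquiv.piLpCongrLeft_apply, Equiv.piCongrLeft'_apply]

theorem tr_norm (g : G) (x : E n) : ‖tr e g x‖ = ‖x‖ :=
  (LinearIsometryEquiv.piLpCongrLeft 2 ℂ ℂ (pm e g)).norm_map x

theorem tr_rep : IsURep (tr e) := by
  refine ⟨?_, ?_, tr_norm e⟩
  · ext x i
    rw [tr_apply]
    simp
  · intro g h
    ext x i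
    rw [ContinuousLinearMap.mul_apply, tr_apply, tr_apply, tr_apply]
    simp [mul_assoc]

end GRPh

theorem T_GRP : P_ABS → P_SCHUR → P_IRR → P_GRP := by
  intro hA hS hI G _ _ _
  set n := Fintype.card G with hn
  let e : Fin n ≃ G := (Fintype.equivFin G).symm
  obtain ⟨k, d, J, σ, hd1, hdn, hrep, hirr, hJ, hort, hspan⟩ := hI G n (GRPh.tr e) (GRPh.tr_rep e)
  have hk : Fintype.card (Fin k) ≤ n := by
    rw [Fintype.card_fin]
    calc k = ∑ _j : Fin k, 1 := by simp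
      _ ≤ ∑ j, d j := Finset.sum_le_sum fun j _ => hd1 j
      _ = n := hdn
  obtain ⟨ε', hε', hb⟩ := hA n (Fin k) d (fun i j => σ (e i) j) hk hd1
    (fun i j => by
      refine ContinuousLinearMap.opNorm_le_bound _ zero_le_one fun u => ?_
      rw [(hrep j).2.2 (e i) u, one_mul])
    (fun j u v hu hv => by
      have h1 : ∑ i, ‖inner ℂ v (σ (e i) j u)‖ ^ 2 = ∑ g, ‖inner ℂ v (σ g j u)‖ ^ 2 :=
        Equiv.sum_comp e (fun g => ‖inner ℂ v (σ g j u)‖ ^ 2)
      rw [h1, hS G (d j) (fun g => σ g j) (hd1 j) (hrep j) (hirr j) u v]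
      have h2 : (0 : ℝ) ≤ (Fintype.card G : ℝ) / d j := by positivity
      have h3 : ‖u‖ ^ 2 ≤ 1 := pow_le_one₀ (norm_nonneg _) hu
      have h4 : ‖v‖ ^ 2 ≤ 1 := pow_le_one₀ (norm_nonneg _) hv
      have h5 : ‖u‖ ^ 2 * ‖v‖ ^ 2 ≤ 1 := mul_le_one₀ h3 (by positivity) h4
      calc (Fintype.card G : ℝ) / d j * ‖u‖ ^ 2 * ‖v‖ ^ 2
          = (Fintype.card G : ℝ) / d j * (‖u‖ ^ 2 * ‖v‖ ^ 2) := by ring
        _ ≤ (Fintype.card G : ℝ) / d j * 1 := mul_le_mul_of_nonneg_left h5 h2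
        _ = (n : ℝ) / d j := by rw [mul_one])
  refine ⟨fun g => ε' (e.symm g), fun g => hε' _, fun v => ?_⟩
  set t : ℝ := 30 * (1 + lst n) * √n with ht
  have ht0 : 0 ≤ t := by positivity
  have ht2 : t ^ 2 = (30 * (1 + lst n)) ^ 2 * (n : ℝ) := by
    rw [ht, mul_pow, Real.sq_sqrt (by positivity)]
  -- the operator
  have hOrt : OrthogonalFamily ℂ (fun j => E (d j)) J := fun i j hij u w => hort i j hij u w
  have hM : ∀ x : E n, ‖∑ i, ((ε' i : ℝ) : ℂ) • GRPh.tr e (e i) x‖ ^ 2 ≤ t ^ 2 * ‖x‖ ^ 2 := by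
    intro x
    obtain ⟨u, rfl⟩ := hspan x
    have h1 : ∑ i, ((ε' i : ℝ) : ℂ) • GRPh.tr e (e i) (∑ j, J j (u j)) =
        ∑ j, J j ((∑ i, ((ε' i : ℝ) : ℂ) • σ (e i) j) (u j)) := by
      have h2 : ∀ i, ((ε' i : ℝ) : ℂ) • GRPh.tr e (e i) (∑ j, J j (u j)) =
          ∑ j, J j (((ε' i : ℝ) : ℂ) • σ (e i) j (u j)) := by
        intro i
        rw [map_sum, Finset.smul_sum]
        refine Finset.sum_congr rfl fun j _ => ?_
        rw [hJ, map_smul]
      rw [Finset.sum_congr rfl fun i _ => h2 i, Finset.sum_comm]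
      refine Finset.sum_congr rfl fun j _ => ?_
      rw [← map_sum, ContinuousLinearMap.sum_apply]
      rfl
    rw [h1, hOrt.norm_sum, hOrt.norm_sum, Finset.mul_sum]
    refine Finset.sum_le_sum fun j _ => ?_
    rw [← mul_pow]
    refine pow_le_pow_left₀ (norm_nonneg _) ?_ 2
    exact (ContinuousLinearMap.le_opNorm _ _).trans
      (mul_le_mul_of_nonneg_right (hb j) (norm_nonneg _))
  let x : E n := WithLp.toLp 2 fun i => ((v (e i) : ℝ) : ℂ)
  have hx : ‖x‖ ^ 2 = ∑ a, v a ^ 2 := by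
    rw [EuclideanSpace.norm_sq_eq, ← Equiv.sum_comp e]
    refine Finset.sum_congr rfl fun i _ => ?_
    show ‖((v (e i) : ℝ) : ℂ)‖ ^ 2 = _
    rw [Complex.norm_real, Real.norm_eq_abs, sq_abs]
  have hval : ∀ a : G, (∑ g : G, ε' (e.symm g) • Matrix.of (fun x y : G =>
        if g * y = x then (1:ℝ) else 0)).mulVec v a = ∑ g : G, ε' (e.symm g) * v (g⁻¹ * a) := by
    intro a
    rw [Matrix.sum_mulVec, Finset.sum_apply]
    refine Finset.sum_congr rfl fun g _ => ?_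
    rw [Matrix.smul_mulVec, Pi.smul_apply, smul_eq_mul]
    congr 1
    rw [Matrix.mulVec, dotProduct]
    rw [Finset.sum_eq_single (g⁻¹ * a)]
    · simp
    · intro y _ hy
      rw [Matrix.of_apply, if_neg, zero_mul]
      rintro rfl
      exact hy (by simp)
    · intro h
      exact absurd (Finset.mem_univ _) h
  have hMx : ‖∑ i, ((ε' i : ℝ) : ℂ) • GRPh.tr e (e i) x‖ ^ 2 =
      ∑ a : G, ((∑ g : G, ε' (e.symm g) • Matrix.of (fun x y : G =>
        if g * y = x then (1:ℝ) else 0)).mulVec v a) ^ 2 := by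
    rw [EuclideanSpace.norm_sq_eq, ← Equiv.sum_comp e]
    refine Finset.sum_congr rfl fun l _ => ?_
    rw [hval]
    have h1 : (∑ i, ((ε' i : ℝ) : ℂ) • GRPh.tr e (e i) x) l =
        ((∑ g : G, ε' (e.symm g) * v (g⁻¹ * e l) : ℝ) : ℂ) := by
      rw [← Equiv.sum_comp e]
      push_cast
      rw [WithLp.ofLp_sum, Finset.sum_apply]
      refine Finset.sum_congr rfl fun i _ => ?_
      rw [PiLp.smul_apply, GRPh.tr_apply, Equiv.symm_apply_apply]
      show ((ε' i : ℝ) : ℂ) • ((v (e (e.symm ((e i)⁻¹ * e l))) : ℝ) : ℂ) = _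
      rw [Equiv.apply_symm_apply, smul_eq_mul]
    rw [h1, Complex.norm_real, Real.norm_eq_abs, sq_abs]
  rw [← hMx, ← hx, ← ht2]
  exact hM x

end Pool.Agent.H120R2.GS
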