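import Pool.Agent.H120R2.GS.Stubs2
import Pool.Agent.H120R2.GS.GRP

/-!
# The Group Spencer theorem from the block theorem
-/

set_option autoImplicit false

namespace Pool.Agent.H120R2.GS

open scoped BigOperators

theorem T_GRP2 : P_ABS2 → P_COV → P_DUAL → P_GRP2 := by
  rintro ⟨C, hC0, hA⟩ hS hD
  refine ⟨C, fun G _ _ _ => ?_⟩
  set n := Fintype.card G with hn
  let e : Fin n ≃ G := (Fintype.equivFin G).symm
  obtain ⟨ι, _, _, d, σ, hd1, hdn, hrep, hirr, hlast⟩ := hD G n (GRPh.tr e) (GRPh.tr_rep e)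
  obtain ⟨ε', hε', hb⟩ := hA n ι d (fun i j => σ (e i) j) hd1 hdn
    (fun i j => by
      refine ContinuousLinearMap.opNorm_le_bound _ zero_le_one fun u => ?_
      rw [(hrep j).2.2 (e i) u, one_mul])
    (fun j z => by
      have h1 : ∑ i, ‖∑ a, ∑ b, z a b * mc (σ (e i) j) a b‖ ^ 2 =
          ∑ g, ‖∑ a, ∑ b, z a b * mc (σ g j) a b‖ ^ 2 :=
        Equiv.sum_comp e (fun g => ‖∑ a, ∑ b, z a b * mc (σ g j) a b‖ ^ 2)
      show ∑ i, ‖∑ a, ∑ b, z a b * mc (σ (e i) j) a b‖ ^ 2 ≤ _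
      rw [h1]
      exact hS G (d j) (fun g => σ g j) (hd1 j) (hrep j) (hirr j) z)
  refine ⟨fun g => ε' (e.symm g), fun g => hε' _, fun v => ?_⟩
  set t : ℝ := C * √n with ht
  have ht0 : 0 ≤ t := by positivity
  have ht2 : t ^ 2 = C ^ 2 * (n : ℝ) := by
    rw [ht, mul_pow, Real.sq_sqrt (by positivity)]
  have hop : ‖∑ g, ((ε' (e.symm g) : ℝ) : ℂ) • GRPh.tr e g‖ ≤ t := by
    refine hlast (fun g => ((ε' (e.symm g) : ℝ) : ℂ)) t ht0 fun j => ?_
    have h1 : ∑ g, ((ε' (e.symm g) : ℝ) : ℂ) • σ g j = ∑ i, ((ε' i : ℝ) : ℂ) • σ (e i) j := by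
      rw [← Equiv.sum_comp e]
      refine Finset.sum_congr rfl fun i _ => ?_
      rw [Equiv.symm_apply_apply]
    rw [h1]
    exact hb j
  let x : E n := WithLp.toLp 2 fun i => ((v (e i) : ℝ) : ℂ)
  have hx : ‖x‖ ^ 2 = ∑ a, v a ^ 2 := by
    rw [EuclideanSpace.norm_sq_eq, ← Equiv.sum_comp e]
    refine Finset.sum_congr rfl fun i _ => ?_
    show ‖((v (e i) : ℝ) : ℂ)‖ ^ 2 = _
    rw [Complex.norm_real, Real.norm_eq_abs, sq_abs]
  have hval : ∀ a : G, (∑ g : G, ε' (e.symm g) • Matrix.of (fun x y : G =>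
        if g * y = x then (1:ℝ) else 0)).mulVec v a = ∑ g : G, ε' (e.symm g) * v (g⁻¹ * a) := by
    intro a
    rw [Matrix.sum_mulVec, Finset.sum_apply]
    refine Finset.sum_congr rfl fun g _ => ?_
    rw [Matrix.smul_mulVec, Pi.smul_apply, smul_eq_mul]
    congr 1
    rw [Matrix.mulVec, dotProduct]
    rw [Finset.sum_eq_single (g⁻¹ * a)]
    · simp
    · intro y _ hy
      rw [Matrix.of_apply, if_neg, zero_mul]
      rintro rfl
      exact hy (by simp)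
    · intro h
      exact absurd (Finset.mem_univ _) h
  have hMx : ‖(∑ g, ((ε' (e.symm g) : ℝ) : ℂ) • GRPh.tr e g) x‖ ^ 2 =
      ∑ a : G, ((∑ g : G, ε' (e.symm g) • Matrix.of (fun x y : G =>
        if g * y = x then (1:ℝ) else 0)).mulVec v a) ^ 2 := by
    rw [EuclideanSpace.norm_sq_eq, ← Equiv.sum_comp e (fun a : G =>
      ((∑ g : G, ε' (e.symm g) • Matrix.of (fun x y : G =>
        if g * y = x then (1:ℝ) else 0)).mulVec v a) ^ 2)]
    refine Finset.sum_congr rfl fun l _ => ?_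
    rw [hval]
    have h1 : ((∑ g, ((ε' (e.symm g) : ℝ) : ℂ) • GRPh.tr e g) x) l =
        ((∑ g : G, ε' (e.symm g) * v (g⁻¹ * e l) : ℝ) : ℂ) := by
      rw [sum_apply]
      push_cast
      rw [WithLp.ofLp_sum, Finset.sum_apply]
      refine Finset.sum_congr rfl fun g _ => ?_
      rw [Pi.smul_apply, PiLp.smul_apply, GRPh.tr_apply]
      show ((ε' (e.symm g) : ℝ) : ℂ) • ((v (e (e.symm (g⁻¹ * e l))) : ℝ) : ℂ) = _
      rw [Equiv.apply_symm_apply, smul_eq_mul]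
    rw [h1, Complex.norm_real, Real.norm_eq_abs, sq_abs]
  rw [← hMx, ← hx, ← ht2, ← mul_pow]
  refine pow_le_pow_left₀ (norm_nonneg _) ?_ 2
  exact (ContinuousLinearMap.le_opNorm _ _).trans
    (mul_le_mul_of_nonneg_right hop (norm_nonneg _))

end Pool.Agent.H120R2.GS
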