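import Pool.Agent.H120R2.GS.Stubs

/-!
# Hoeffding, counting form
-/

set_option autoImplicit false

namespace Pool.Agent.H120R2.GS

namespace HOEFFh

theorem sum_exp (m : ℕ) (a : Fin m → ℝ) (s : ℝ) :
    ∑ x : Fin m → Bool, Real.exp (s * ∑ i, sg (x i) * a i) =
      ∏ i, (2 * Real.cosh (s * a i)) := by
  have h1 : ∀ i : Fin m, 2 * Real.cosh (s * a i) =
      ∑ b ∈ (Finset.univ : Finset Bool), Real.exp (s * (sg b * a i)) := by
    intro i
    rw [Real.cosh_eq, Fintype.sum_bool]
    have e1 : s * (sg true * a i) = s * a i := by simp [sg]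
    have e2 : s * (sg false * a i) = -(s * a i) := by simp [sg]
    rw [e1, e2]
    ring
  rw [Finset.prod_congr rfl fun i _ => h1 i, Finset.prod_univ_sum, Fintype.piFinset_univ]
  refine Finset.sum_congr rfl fun x _ => ?_
  rw [Finset.mul_sum, Real.exp_sum]

theorem sum_exp_le (m : ℕ) (a : Fin m → ℝ) (V s : ℝ) (hV : ∑ i, a i ^ 2 ≤ V) :
    ∑ x : Fin m → Bool, Real.exp (s * ∑ i, sg (x i) * a i) ≤ 2 ^ m * Real.exp (s ^ 2 * V / 2) := by
  rw [sum_exp]
  have h1 : ∏ i, (2 * Real.cosh (s * a i)) ≤ ∏ i : Fin m, (2 * Real.exp ((s * a i) ^ 2 / 2)) := by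
    refine Finset.prod_le_prod (fun i _ => ?_) (fun i _ => ?_)
    · have := Real.cosh_pos (s * a i)
      positivity
    · have := Real.cosh_le_exp_half_sq (s * a i)
      linarith
  refine h1.trans ?_
  rw [Finset.prod_mul_distrib, Finset.prod_const, Finset.card_univ, Fintype.card_fin, ← Real.exp_sum]
  refine mul_le_mul_of_nonneg_left (Real.exp_le_exp.2 ?_) (by positivity)
  have h2 : ∑ i, (s * a i) ^ 2 / 2 = s ^ 2 * (∑ i, a i ^ 2) / 2 := by
    rw [Finset.mul_sum, Finset.sum_div]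
    refine Finset.sum_congr rfl fun i _ => ?_
    ring
  rw [h2]
  have := mul_le_mul_of_nonneg_left hV (sq_nonneg s)
  linarith

theorem one_side (m : ℕ) (a : Fin m → ℝ) (V t : ℝ) (hV0 : 0 < V) (ht : 0 ≤ t)
    (hV : ∑ i, a i ^ 2 ≤ V) :
    ((Finset.univ.filter (fun x : Fin m → Bool => t < ∑ i, sg (x i) * a i)).card : ℝ) ≤
      2 ^ m * Real.exp (-(t ^ 2 / (2 * V))) := by
  have hs : 0 ≤ t / V := div_nonneg ht hV0.le
  have h1 : ((Finset.univ.filter (fun x : Fin m → Bool => t < ∑ i, sg (x i) * a i)).card : ℝ) *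
      Real.exp (t / V * t) ≤ ∑ x : Fin m → Bool, Real.exp (t / V * ∑ i, sg (x i) * a i) := by
    rw [← nsmul_eq_mul, ← Finset.sum_const]
    refine le_trans (Finset.sum_le_sum fun x hx => ?_)
      (Finset.sum_le_sum_of_subset_of_nonneg (Finset.filter_subset _ _)
        (fun x _ _ => (Real.exp_pos _).le))
    exact Real.exp_le_exp.2 (mul_le_mul_of_nonneg_left (Finset.mem_filter.1 hx).2.le hs)
  have h2 := h1.trans (sum_exp_le m a V (t / V) hV)
  have h3 : (t / V) ^ 2 * V / 2 = t ^ 2 / (2 * V) := by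
    field_simp
  have h4 : t / V * t = t ^ 2 / (2 * V) + t ^ 2 / (2 * V) := by
    field_simp
    ring
  rw [h3, h4, Real.exp_add, ← mul_assoc] at h2
  have h5 := le_of_mul_le_mul_right h2 (Real.exp_pos _)
  rw [Real.exp_neg, ← div_eq_mul_inv, le_div_iff₀ (Real.exp_pos _)]
  exact h5

end HOEFFh

theorem T_HOEFF : P_HOEFF := by
  intro m a V t hV0 ht hV
  have h1 := HOEFFh.one_side m a V t hV0 ht hV
  have h2 := HOEFFh.one_side m (fun i => -a i) V t hV0 ht (by simpa using hV)
  have h3 : (Finset.univ.filter (fun x : Fin m → Bool => t < |∑ i, sg (x i) * a i|)) ⊆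
      (Finset.univ.filter (fun x : Fin m → Bool => t < ∑ i, sg (x i) * a i)) ∪
      (Finset.univ.filter (fun x : Fin m → Bool => t < ∑ i, sg (x i) * (-a i))) := by
    intro x hx
    rw [Finset.mem_union, Finset.mem_filter, Finset.mem_filter]
    have h4 := (Finset.mem_filter.1 hx).2
    rcases lt_abs.1 h4 with h | h
    · exact Or.inl ⟨Finset.mem_univ _, h⟩
    · refine Or.inr ⟨Finset.mem_univ _, ?_⟩
      rw [← Finset.sum_neg_distrib] at h
      simpa using h
  have h5 : ((Finset.univ.filter (fun x : Fin m → Bool => t < |∑ i, sg (x i) * a i|)).card : ℝ) ≤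
      ((Finset.univ.filter (fun x : Fin m → Bool => t < ∑ i, sg (x i) * a i)).card : ℝ) +
      ((Finset.univ.filter (fun x : Fin m → Bool => t < ∑ i, sg (x i) * (-a i))).card : ℝ) := by
    exact_mod_cast (Finset.card_le_card h3).trans (Finset.card_union_le _ _)
  linarith

end Pool.Agent.H120R2.GS
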