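import Pool.Agent.H120R2.GS.Stubs

/-!
# Decomposition of a unitary representation into irreducible ones
-/

set_option autoImplicit false

namespace Pool.Agent.H120R2.GS

open scoped BigOperators
open Module

namespace IRRh

variable {G V : Type} [Group G] [NormedAddCommGroup V] [InnerProductSpace ℂ V]
  [FiniteDimensional ℂ V]

/-- invariant submodules -/
def Inv (π : G → V →L[ℂ] V) (W : Submodule ℂ V) : Prop := ∀ g, ∀ w ∈ W, π g w ∈ W

theorem inner_eq {π : G → V →L[ℂ] V} (hπ : IsURep π) (g : G) (u v : V) :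
    inner ℂ (π g u) (π g v) = inner ℂ u v := by
  have h := (LinearMap.norm_map_iff_inner_map_map (𝕜 := ℂ) (π g)).1 (fun x => hπ.2.2 g x)
  exact h u v

theorem inv_perp {π : G → V →L[ℂ] V} (hπ : IsURep π) {W : Submodule ℂ V} (hW : Inv π W) :
    Inv π Wᗮ := by
  intro g w hw
  rw [Submodule.mem_orthogonal] at hw ⊢
  intro u hu
  have h1 : u = π g (π g⁻¹ u) := by
    have : (π g * π g⁻¹) u = u := by
      rw [← hπ.2.1, mul_inv_cancel, hπ.1]
      rfl
    exact this.symm
  rw [h1, inner_eq hπ]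
  exact hw _ (hW g⁻¹ u hu)

/-- an orthogonal decomposition of `W` into minimal invariant submodules -/
structure Dec (π : G → V →L[ℂ] V) (W : Submodule ℂ V) (ι : Type) [Fintype ι]
    (S : ι → Submodule ℂ V) : Prop where
  inv : ∀ i, Inv π (S i)
  ne : ∀ i, S i ≠ ⊥
  irr : ∀ i, ∀ U : Submodule ℂ V, U ≤ S i → Inv π U → U = ⊥ ∨ U = S i
  orth : ∀ i j, i ≠ j → ∀ x ∈ S i, ∀ y ∈ S j, inner ℂ x y = 0
  le : ∀ i, S i ≤ W
  dec : ∀ x ∈ W, ∃ u : ι → V, (∀ i, u i ∈ S i) ∧ x = ∑ i, u i
  dim : ∑ i, finrank ℂ (S i) = finrank ℂ W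

theorem exists_dec {π : G → V →L[ℂ] V} (hπ : IsURep π) (n : ℕ) :
    ∀ W : Submodule ℂ V, Inv π W → finrank ℂ W = n →
      ∃ (ι : Type) (_ : Fintype ι) (S : ι → Submodule ℂ V), Dec π W ι S := by
  induction n using Nat.strong_induction_on with
  | _ n ih =>
    intro W hW hn
    by_cases h0 : W = ⊥
    · subst h0
      refine ⟨Empty, inferInstance, fun e => e.elim, ?_⟩
      refine ⟨fun i => i.elim, fun i => i.elim, fun i => i.elim, fun i => i.elim,
        fun i => i.elim, ?_, by simp⟩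
      intro x hx
      refine ⟨fun e => e.elim, fun i => i.elim, ?_⟩
      rw [(Submodule.mem_bot ℂ).1 hx]
      simp
    by_cases hirr : ∀ U : Submodule ℂ V, U ≤ W → Inv π U → U = ⊥ ∨ U = W
    · refine ⟨Unit, inferInstance, fun _ => W, ?_⟩
      refine ⟨fun _ => hW, fun _ => h0, fun _ => hirr, fun i j hij => absurd rfl hij,
        fun _ => le_rfl, ?_, by simp⟩
      intro x hx
      exact ⟨fun _ => x, fun _ => hx, by simp⟩
    push Not at hirr
    obtain ⟨U, hUW, hU, hU0, hU1⟩ := hirr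
    have hU' : Inv π (Uᗮ ⊓ W) := fun g w hw => ⟨inv_perp hπ hU g w hw.1, hW g w hw.2⟩
    have hdim := Submodule.finrank_add_inf_finrank_orthogonal hUW
    have hpos : 0 < finrank ℂ U := by
      rw [Nat.pos_iff_ne_zero]
      intro h
      exact hU0 (Submodule.finrank_eq_zero.1 h)
    have hlt : finrank ℂ U < finrank ℂ W :=
      Submodule.finrank_lt_finrank_of_lt (lt_of_le_of_ne hUW hU1)
    obtain ⟨ι1, i1, S1, D1⟩ := ih (finrank ℂ U) (by omega) U hU rfl
    obtain ⟨ι2, i2, S2, D2⟩ := ih (finrank ℂ (Uᗮ ⊓ W : Submodule ℂ V)) (by omega) _ hU' rfl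
    refine ⟨ι1 ⊕ ι2, inferInstance, Sum.elim S1 S2, ?_⟩
    have ho : ∀ x ∈ U, ∀ y ∈ (Uᗮ ⊓ W : Submodule ℂ V), inner ℂ x y = 0 := by
      intro x hx y hy
      exact (Submodule.mem_orthogonal _ _).1 hy.1 x hx
    refine ⟨?_, ?_, ?_, ?_, ?_, ?_, ?_⟩
    · rintro (i | i)
      · exact D1.inv i
      · exact D2.inv i
    · rintro (i | i)
      · exact D1.ne i
      · exact D2.ne i
    · rintro (i | i)
      · exact D1.irr i
      · exact D2.irr i
    · rintro (i | i) (j | j) hij x hx y hy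
      · exact D1.orth i j (fun h => hij (by rw [h])) x hx y hy
      · exact ho x (D1.le i hx) y (D2.le j hy)
      · rw [← inner_conj_symm, ho y (D1.le j hy) x (D2.le i hx), map_zero]
      · exact D2.orth i j (fun h => hij (by rw [h])) x hx y hy
    · rintro (i | i)
      · exact (D1.le i).trans hUW
      · exact (D2.le i).trans inf_le_right
    · intro x hx
      obtain ⟨y, hy, z, hz, rfl⟩ := Submodule.exists_add_mem_mem_orthogonal (K := U) x
      have hz' : z ∈ (Uᗮ ⊓ W : Submodule ℂ V) := by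
        refine ⟨hz, ?_⟩
        have : z = (y + z) - y := by abel
        rw [this]
        exact W.sub_mem hx (hUW hy)
      obtain ⟨u1, hu1, e1⟩ := D1.dec y hy
      obtain ⟨u2, hu2, e2⟩ := D2.dec z hz'
      refine ⟨Sum.elim u1 u2, ?_, ?_⟩
      · rintro (i | i)
        · exact hu1 i
        · exact hu2 i
      · rw [Fintype.sum_sum_type]
        simp only [Sum.elim_inl, Sum.elim_inr]
        rw [← e1, ← e2]
    · rw [Fintype.sum_sum_type]
      have e1 : ∑ i, finrank ℂ (Sum.elim S1 S2 (Sum.inl i) : Submodule ℂ V) = finrank ℂ U :=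
        D1.dim
      have e2 : ∑ i, finrank ℂ (Sum.elim S1 S2 (Sum.inr i) : Submodule ℂ V) =
        finrank ℂ (Uᗮ ⊓ W : Submodule ℂ V) := D2.dim
      rw [e1, e2]
      exact hdim

/-- transport of an invariant submodule to Euclidean space -/
theorem transport {π : G → V →L[ℂ] V} (hπ : IsURep π) (S : Submodule ℂ V) (hS : Inv π S)
    (hirr : ∀ U : Submodule ℂ V, U ≤ S → Inv π U → U = ⊥ ∨ U = S) :
    ∃ (J : E (finrank ℂ S) →ₗᵢ[ℂ] V) (σ : G → Op (finrank ℂ S)), IsURep σ ∧ IsIrr σ ∧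
      (∀ g u, π g (J u) = J (σ g u)) ∧ (∀ u, J u ∈ S) ∧ ∀ x ∈ S, ∃ u, J u = x := by
  set r := (stdOrthonormalBasis ℂ S).repr with hr
  set J : E (finrank ℂ S) →ₗᵢ[ℂ] V := S.subtypeₗᵢ.comp r.symm.toLinearIsometry with hJ
  have hJa : ∀ u, J u = ((r.symm u : S) : V) := fun u => rfl
  have hJS : ∀ u, J u ∈ S := fun u => (r.symm u).2
  have hJsurj : ∀ x ∈ S, ∃ u, J u = x := by
    intro x hx
    refine ⟨r ⟨x, hx⟩, ?_⟩
    rw [hJa, LinearIsometryEquiv.symm_apply_apply]
  have hinj : Function.Injective J := J.injective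
  set σ : G → Op (finrank ℂ S) := fun g => LinearMap.toContinuousLinearMap
    ((r.toLinearEquiv : S →ₗ[ℂ] E (finrank ℂ S)) ∘ₗ
      ((π g : V →ₗ[ℂ] V).restrict (hS g)) ∘ₗ
      (r.symm.toLinearEquiv : E (finrank ℂ S) →ₗ[ℂ] S)) with hσ
  have hint : ∀ g u, π g (J u) = J (σ g u) := by
    intro g u
    rw [hJa, hJa]
    have : σ g u = r (((π g : V →ₗ[ℂ] V).restrict (hS g)) (r.symm u)) := rfl
    rw [this, LinearIsometryEquiv.symm_apply_apply]
    rfl
  refine ⟨J, σ, ⟨?_, ?_, ?_⟩, ?_, hint, hJS, hJsurj⟩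
  · refine ContinuousLinearMap.ext fun u => hinj ?_
    rw [← hint, hπ.1]
    rfl
  · intro g h
    refine ContinuousLinearMap.ext fun u => hinj ?_
    rw [← hint, hπ.2.1]
    show π g (π h (J u)) = J (σ g (σ h u))
    rw [hint, hint]
  · intro g u
    rw [← J.norm_map (σ g u), ← hint, hπ.2.2, J.norm_map]
  · intro W hW
    have h1 := hirr (W.map J.toLinearMap) ?_ ?_
    · rcases h1 with h1 | h1
      · left
        rw [Submodule.eq_bot_iff]
        intro x hx
        have : J x ∈ W.map J.toLinearMap := ⟨x, hx, rfl⟩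
        rw [h1, Submodule.mem_bot] at this
        exact hinj (by rw [this, map_zero])
      · right
        rw [Submodule.eq_top_iff']
        intro x
        have : J x ∈ W.map J.toLinearMap := by rw [h1]; exact hJS x
        obtain ⟨y, hy, e⟩ := this
        rw [← hinj e]
        exact hy
    · rintro _ ⟨x, hx, rfl⟩
      exact hJS x
    · rintro g _ ⟨x, hx, rfl⟩
      exact ⟨σ g x, hW g x hx, (hint g x).symm⟩

end IRRh

open IRRh in
theorem T_IRR : P_IRR := by
  intro G _ _ N π hπ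
  obtain ⟨ι, _, S, D⟩ := exists_dec hπ _ ⊤ (fun _ _ _ => trivial) rfl
  have e := (Fintype.equivFin ι).symm
  have ht := fun j : Fin (Fintype.card ι) =>
    transport hπ (S (e j)) (D.inv _) (D.irr _)
  choose J σ h1 h2 h3 h4 h5 using ht
  refine ⟨Fintype.card ι, fun j => finrank ℂ (S (e j)), J, fun g j => σ j g, ?_, ?_, h1, h2,
    fun g j u => h3 j g u, ?_, ?_⟩
  · intro j
    rw [Nat.one_le_iff_ne_zero]
    intro h
    exact D.ne (e j) (Submodule.finrank_eq_zero.1 h)
  · rw [e.sum_comp (fun i => finrank ℂ (S i)), D.dim, finrank_top, finrank_euclideanSpace_fin]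
  · intro i j hij u v
    exact D.orth (e i) (e j) (fun h => hij (e.injective h)) _ (h4 i u) _ (h4 j v)
  · intro x
    obtain ⟨u, hu, hx⟩ := D.dec x trivial
    choose v hv using fun j => h5 j (u (e j)) (hu (e j))
    refine ⟨v, ?_⟩
    rw [hx, ← e.sum_comp]
    exact Finset.sum_congr rfl fun j _ => (hv j).symm

end Pool.Agent.H120R2.GS
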