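import Pool.Agent.H120R2.GS.Stubs2

/-!
# Moments of signed sums of matrices, general bound
-/

set_option autoImplicit false

namespace Pool.Agent.H120R2.GS

open scoped BigOperators Matrix Matrix.Norms.L2Operator

namespace KHh

variable {m : ℕ} {κ : Type} [Fintype κ] [DecidableEq κ]

lemma Av_sum {ι : Type} (s : Finset ι) (f : ι → (Fin m → Bool) → ℝ) :
    Av (fun x => ∑ i ∈ s, f i x) = ∑ i ∈ s, Av (f i) := by
  unfold Av
  rw [Finset.sum_comm, Finset.sum_div]

lemma Av_mono {f g : (Fin m → Bool) → ℝ} (h : ∀ x, f x ≤ g x) : Av f ≤ Av g := by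
  unfold Av
  gcongr with x _
  exact h x

lemma Av_mul_const (f : (Fin m → Bool) → ℝ) (c : ℝ) : Av (fun x => f x * c) = Av f * c := by
  unfold Av
  rw [← Finset.sum_mul]; ring

lemma Av_add (f g : (Fin m → Bool) → ℝ) : Av (fun x => f x + g x) = Av f + Av g := by
  unfold Av
  rw [Finset.sum_add_distrib]; ring

lemma Av_prod (g : Fin m → Bool → ℝ) :
    Av (fun x => ∏ i, g i (x i)) = ∏ i, ((g i true + g i false) / 2) := by
  unfold Av
  have h : ∑ x : Fin m → Bool, ∏ i, g i (x i) = ∏ i, (g i true + g i false) := by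
    have h1 := Finset.prod_univ_sum (fun _ : Fin m => (Finset.univ : Finset Bool)) g
    rw [Fintype.piFinset_univ] at h1
    rw [← h1]
    refine Finset.prod_congr rfl fun i _ => ?_
    simp
  rw [h, Finset.prod_div_distrib]
  simp

lemma Av_w_nonneg (c : Fin m → ℕ) : 0 ≤ Av (fun x => ∏ i, sg (x i) ^ c i) := by
  rw [Av_prod (fun i b => sg b ^ c i)]
  refine Finset.prod_nonneg fun i _ => ?_
  simp only [sg]
  rcases Nat.even_or_odd (c i) with h | h
  · simp [h.neg_one_pow]
  · simp [h.neg_one_pow]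

omit [DecidableEq κ] in
lemma nt_add (M N : Matrix κ κ ℂ) : nt (M + N) = nt M + nt N := by
  unfold nt; rw [Matrix.trace_add, Complex.add_re]; ring

omit [DecidableEq κ] in
lemma nt_sum {ι : Type} (s : Finset ι) (M : ι → Matrix κ κ ℂ) :
    nt (∑ i ∈ s, M i) = ∑ i ∈ s, nt (M i) := by
  unfold nt; rw [Matrix.trace_sum, Complex.re_sum, Finset.sum_div]

omit [DecidableEq κ] in
lemma nt_smul (r : ℝ) (M : Matrix κ κ ℂ) : nt ((r : ℂ) • M) = r * nt M := by
  unfold nt
  rw [Matrix.trace_smul, smul_eq_mul, Complex.re_ofReal_mul]; ring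

lemma entry_le (M : Matrix κ κ ℂ) (a b : κ) : ‖M a b‖ ≤ ‖M‖ := by
  have h := Matrix.l2_opNorm_mulVec M (EuclideanSpace.single b (1 : ℂ))
  have h1 : ‖(EuclideanSpace.single b (1 : ℂ) : EuclideanSpace ℂ κ)‖ = 1 := by simp
  rw [h1, mul_one] at h
  refine le_trans ?_ h
  have h2 := PiLp.norm_apply_le ((EuclideanSpace.equiv κ ℂ).symm
    (M *ᵥ (EuclideanSpace.single b (1 : ℂ) : EuclideanSpace ℂ κ))) a
  refine le_trans (le_of_eq ?_) h2
  simp

lemma nt_le (M : Matrix κ κ ℂ) (h : ‖M‖ ≤ 1) : nt M ≤ 1 := by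
  unfold nt
  apply div_le_one_of_le₀ _ (by positivity)
  calc M.trace.re ≤ ‖M.trace‖ := Complex.re_le_norm _
    _ ≤ ∑ a, ‖M a a‖ := norm_sum_le _ _
    _ ≤ ∑ _a : κ, (1:ℝ) := Finset.sum_le_sum fun a _ => (entry_le M a a).trans h
    _ = _ := by simp

lemma dom (A : Fin m → Matrix κ κ ℂ) (hA : ∀ i, ‖A i‖ ≤ 1) : ∀ (N : ℕ) (B : Matrix κ κ ℂ)
    (_ : ‖B‖ ≤ 1) (c : Fin m → ℕ),
    Av (fun x => (∏ i, sg (x i) ^ c i) * nt (B * SS A x ^ N)) ≤
      Av (fun x => (∏ i, sg (x i) ^ c i) * (∑ i, sg (x i)) ^ N) := by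
  intro N
  induction N with
  | zero =>
    intro B hB c
    simp only [pow_zero, mul_one]
    rw [Av_mul_const]
    exact mul_le_of_le_one_right (Av_w_nonneg c) (nt_le B hB)
  | succ N ih =>
    intro B hB c
    have e1 : ∀ x : Fin m → Bool, (∏ i, sg (x i) ^ c i) * nt (B * SS A x ^ (N + 1)) =
        ∑ j, (∏ i, sg (x i) ^ (Function.update c j (c j + 1)) i) *
          nt ((B * A j) * SS A x ^ N) := by
      intro x
      have e2 : B * SS A x ^ (N + 1) = ∑ j, ((sg (x j) : ℝ) : ℂ) • ((B * A j) * SS A x ^ N) := by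
        rw [pow_succ', ← mul_assoc]
        conv_lhs => rw [SS]
        rw [Finset.mul_sum, Finset.sum_mul]
        refine Finset.sum_congr rfl fun j _ => ?_
        rw [Matrix.mul_smul, Matrix.smul_mul]
        rfl
      rw [e2, nt_sum, Finset.mul_sum]
      refine Finset.sum_congr rfl fun j _ => ?_
      rw [nt_smul]
      have e3 : ∏ i, sg (x i) ^ (Function.update c j (c j + 1)) i =
          (∏ i, sg (x i) ^ c i) * sg (x j) := by
        rw [← Finset.mul_prod_erase _ _ (Finset.mem_univ j),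
          ← Finset.mul_prod_erase (Finset.univ) (fun i => sg (x i) ^ c i) (Finset.mem_univ j)]
        rw [Function.update_self, pow_succ]
        have : ∏ i ∈ Finset.univ.erase j, sg (x i) ^ (Function.update c j (c j + 1)) i =
            ∏ i ∈ Finset.univ.erase j, sg (x i) ^ c i := by
          refine Finset.prod_congr rfl fun i hi => ?_
          rw [Function.update_of_ne (Finset.ne_of_mem_erase hi)]
        rw [this]; ring
      rw [e3]; ring
    have e4 : ∀ x : Fin m → Bool, (∏ i, sg (x i) ^ c i) * (∑ i, sg (x i)) ^ (N + 1) =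
        ∑ j, (∏ i, sg (x i) ^ (Function.update c j (c j + 1)) i) * (∑ i, sg (x i)) ^ N := by
      intro x
      rw [pow_succ', ← mul_assoc, Finset.mul_sum, Finset.sum_mul]
      refine Finset.sum_congr rfl fun j _ => ?_
      have e3 : ∏ i, sg (x i) ^ (Function.update c j (c j + 1)) i =
          (∏ i, sg (x i) ^ c i) * sg (x j) := by
        rw [← Finset.mul_prod_erase _ _ (Finset.mem_univ j),
          ← Finset.mul_prod_erase (Finset.univ) (fun i => sg (x i) ^ c i) (Finset.mem_univ j)]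
        rw [Function.update_self, pow_succ]
        have : ∏ i ∈ Finset.univ.erase j, sg (x i) ^ (Function.update c j (c j + 1)) i =
            ∏ i ∈ Finset.univ.erase j, sg (x i) ^ c i := by
          refine Finset.prod_congr rfl fun i hi => ?_
          rw [Function.update_of_ne (Finset.ne_of_mem_erase hi)]
        rw [this]; ring
      rw [e3]
    simp_rw [e1, e4]
    rw [Av_sum, Av_sum]
    refine Finset.sum_le_sum fun j _ => ih (B * A j) ?_ _
    exact (Matrix.l2_opNorm_mul B (A j)).trans (mul_le_one₀ hB (norm_nonneg _) (hA j))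

lemma Av_exp (t : ℝ) :
    Av (fun x : Fin m → Bool => Real.exp (t * ∑ i, sg (x i))) = Real.cosh t ^ m := by
  have e : ∀ x : Fin m → Bool, Real.exp (t * ∑ i, sg (x i)) = ∏ i, Real.exp (t * sg (x i)) := by
    intro x; rw [Finset.mul_sum, Real.exp_sum]
  simp_rw [e]
  rw [Av_prod (fun _ b => Real.exp (t * sg b))]
  simp [sg, Real.cosh_eq, div_pow]

lemma scalar (p : ℕ) (hm : 1 ≤ m) (hp : 1 ≤ p) :
    Av (fun x : Fin m → Bool => (∑ i, sg (x i)) ^ (2 * p)) ≤ (6 * p * m : ℝ) ^ p := by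
  have hm0 : (0:ℝ) < m := by exact_mod_cast hm
  have hp0 : (0:ℝ) < p := by exact_mod_cast hp
  set t : ℝ := √(2 * p / m) with ht
  have ht2 : t ^ 2 = 2 * p / m := Real.sq_sqrt (by positivity)
  have ht0 : 0 < t := Real.sqrt_pos.2 (by positivity)
  have h1 : ∀ y : ℝ, y ^ (2 * p) ≤ (Real.exp (t * y) + Real.exp (-t * y)) *
      ((2 * p).factorial / t ^ (2 * p)) := by
    intro y
    have h2 := Real.pow_div_factorial_le_exp (x := |t * y|) (abs_nonneg _) (2 * p)
    have h3 : Real.exp |t * y| ≤ Real.exp (t * y) + Real.exp (-t * y) := by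
      rcases abs_cases (t * y) with h | h
      · rw [h.1]; have := Real.exp_pos (-t * y); linarith
      · rw [h.1, neg_mul]; have := Real.exp_pos (t * y); linarith
    have h4 : |t * y| ^ (2 * p) = t ^ (2 * p) * y ^ (2 * p) := by
      rw [pow_mul, sq_abs, ← pow_mul, mul_pow]
    rw [h4, div_le_iff₀ (by positivity)] at h2
    rw [mul_div_assoc', le_div_iff₀ (by positivity)]
    calc y ^ (2 * p) * t ^ (2 * p) = t ^ (2 * p) * y ^ (2 * p) := by ring
      _ ≤ Real.exp |t * y| * (2 * p).factorial := h2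
      _ ≤ _ := by gcongr
  have h5 : Av (fun x : Fin m → Bool => (∑ i, sg (x i)) ^ (2 * p)) ≤
      (2 * Real.cosh t ^ m) * ((2 * p).factorial / t ^ (2 * p)) := by
    refine (Av_mono fun x => h1 (∑ i, sg (x i))).trans (le_of_eq ?_)
    rw [Av_mul_const, Av_add, Av_exp, Av_exp, Real.cosh_neg]
    ring
  refine h5.trans ?_
  have h6 : Real.cosh t ^ m ≤ Real.exp p := by
    calc Real.cosh t ^ m ≤ Real.exp (t ^ 2 / 2) ^ m :=
          pow_le_pow_left₀ (Real.cosh_pos t).le (Real.cosh_le_exp_half_sq t) m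
      _ = Real.exp p := by
          rw [← Real.exp_nat_mul, ht2]; congr 1; field_simp
  have h7 : ((2 * p).factorial : ℝ) ≤ (2 * p * p) ^ p := by
    have h8 : (2 * p).factorial ≤ (2 * p) ^ p * p.factorial := Nat.factorial_two_mul_le p
    have h9 : p.factorial ≤ p ^ p := Nat.factorial_le_pow p
    have h10 : (2 * p).factorial ≤ (2 * p * p) ^ p := by
      rw [mul_pow (2 * p) p p]
      exact h8.trans (Nat.mul_le_mul_left _ h9)
    exact_mod_cast h10
  have h11 : t ^ (2 * p) = (2 * p / m) ^ p := by rw [pow_mul, ht2]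
  rw [h11]
  have h12 : (2:ℝ) ≤ 2 ^ p := by
    calc (2:ℝ) = 2 ^ 1 := by norm_num
      _ ≤ 2 ^ p := pow_le_pow_right₀ (by norm_num) hp
  have h13 : Real.exp p = Real.exp 1 ^ p := by rw [← Real.exp_nat_mul, mul_one]
  have h14 : Real.exp 1 ≤ 3 := by linarith [Real.exp_one_lt_d9]
  calc (2 * Real.cosh t ^ m) * ((2 * p).factorial / (2 * p / m) ^ p)
      ≤ (2 ^ p * 3 ^ p) * ((2 * p * p) ^ p / (2 * p / m) ^ p) := by
        gcongr
        refine h6.trans ?_
        rw [h13]
        gcongr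
    _ = (6 * p * m : ℝ) ^ p := by
        rw [← mul_pow, ← div_pow, ← mul_pow]
        congr 1
        field_simp
        ring

end KHh

open KHh in
theorem T_KH : P_KH := by
  intro κ _ _ m p A hA hA1 hm hp
  refine le_trans ?_ (scalar (m := m) p hm hp)
  rcases isEmpty_or_nonempty κ with hκ | hκ
  · have e : ∀ M : Matrix κ κ ℂ, nt M = 0 := by
      intro M; unfold nt; simp
    simp_rw [e]
    unfold Av
    simp only [Finset.sum_const_zero, zero_div]
    apply div_nonneg _ (by positivity)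
    exact Finset.sum_nonneg fun x _ => (even_two_mul p).pow_nonneg _
  have h := dom A hA1 (2 * p) 1 (by simp) (fun _ => 0)
  simpa using h

end Pool.Agent.H120R2.GS
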