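import Pool.Agent.H120R2.GS.Stubs2

/-!
# Signed sums of matrices: general moments, operator form (helper804, project of helper120)
-/

set_option autoImplicit false

namespace Pool.Agent.H120R2.GS

open scoped BigOperators Matrix Matrix.Norms.L2Operator

namespace KH2h

lemma Av_mono {m : ℕ} {f g : (Fin m → Bool) → ℝ} (h : ∀ x, f x ≤ g x) : Av f ≤ Av g := by
  unfold Av
  exact div_le_div_of_nonneg_right (Finset.sum_le_sum fun x _ => h x) (by positivity)

lemma Av_const_mul {m : ℕ} (c : ℝ) (f : (Fin m → Bool) → ℝ) :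
    Av (fun x => c * f x) = c * Av f := by
  unfold Av
  rw [← Finset.mul_sum, mul_div_assoc]

lemma SS_herm {m : ℕ} {κ : Type} (A : Fin m → Matrix κ κ ℂ) (h : ∀ i, (A i).IsHermitian)
    (x : Fin m → Bool) : (SS A x).IsHermitian := by
  unfold SS Matrix.IsHermitian
  rw [Matrix.conjTranspose_sum]
  refine Finset.sum_congr rfl fun i _ => ?_
  rw [Matrix.conjTranspose_smul, (h i).eq]
  congr 1
  exact Complex.conj_ofReal _

end KH2h

theorem T_KH2 : P_KH → P_DIL → P_TRN → P_KH2 := by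
  intro hKH hD hT m d p A hd hA hm hp
  obtain ⟨B, h1, h2, h3, -⟩ := hD m d A hA
  have hne : Nonempty (Fin d ⊕ Fin d) := ⟨Sum.inl ⟨0, hd⟩⟩
  have hcard : ((Fintype.card (Fin d ⊕ Fin d) : ℕ) : ℝ) = 2 * d := by
    rw [Fintype.card_sum, Fintype.card_fin]
    push_cast
    ring
  have key : ∀ x, ‖XO A x‖ ^ (2 * p) ≤ 2 * d * nt (SS B x ^ (2 * p)) := by
    intro x
    have := hT (Fin d ⊕ Fin d) (SS B x) p hne (KH2h.SS_herm B h1 x)
    rwa [hcard, h3 x] at this
  calc Av (fun x => ‖XO A x‖ ^ (2 * p)) ≤ Av (fun x => 2 * d * nt (SS B x ^ (2 * p))) :=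
        KH2h.Av_mono key
    _ = 2 * d * Av (fun x => nt (SS B x ^ (2 * p))) := KH2h.Av_const_mul _ _
    _ ≤ 2 * d * (6 * p * m : ℝ) ^ p :=
        mul_le_mul_of_nonneg_left (hKH (Fin d ⊕ Fin d) m p B h1 h2 hm hp) (by positivity)

end Pool.Agent.H120R2.GS
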