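import Pool.Agent.H120R2.GS.Stubs2

set_option autoImplicit false

namespace Pool.Agent.H120R2.GS

open scoped BigOperators Matrix Matrix.Norms.L2Operator

namespace MOMh

lemma ss_herm {m : ℕ} {κ : Type} [Fintype κ] [DecidableEq κ] (A : Fin m → Matrix κ κ ℂ)
    (hA : ∀ i, (A i).IsHermitian) (x : Fin m → Bool) : (SS A x).IsHermitian := by
  unfold SS Matrix.IsHermitian
  rw [Matrix.conjTranspose_sum]
  refine Finset.sum_congr rfl fun i _ => ?_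
  rw [Matrix.conjTranspose_smul, (hA i).eq]
  congr 1
  simp [Complex.star_def, Complex.conj_ofReal]

lemma av_nonneg {m : ℕ} (f : (Fin m → Bool) → ℝ) (hf : ∀ x, 0 ≤ f x) : 0 ≤ Av f :=
  div_nonneg (Finset.sum_nonneg fun x _ => hf x) (by positivity)

lemma pow_bound (p P : ℕ) (B K D : ℝ) (hp : 1 ≤ p) (hpP : p ≤ P) (hK : 0 < K) (hKB : K ≤ B)
    (hD : 0 < D) (h : 200 * (P : ℝ) ^ 7 * B ^ P ≤ D ^ 2 * K ^ P) :
    22 * (p : ℝ) ^ 5 * B ^ p / D ^ 2 ≤ K ^ p / (2 * ((p : ℝ) + 1) ^ 2) := by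
  have hB : 0 < B := lt_of_lt_of_le hK hKB
  have hp1 : (1 : ℝ) ≤ p := by exact_mod_cast hp
  have hpPR : (p : ℝ) ≤ P := by exact_mod_cast hpP
  rw [div_le_div_iff₀ (by positivity) (by positivity)]
  have hKP : 0 < K ^ P := by positivity
  -- B^p K^P ≤ B^P K^p
  have h1 : B ^ p * K ^ P ≤ B ^ P * K ^ p := by
    obtain ⟨r, rfl⟩ := Nat.exists_eq_add_of_le hpP
    rw [pow_add, pow_add]
    have : K ^ r ≤ B ^ r := pow_le_pow_left₀ hK.le hKB r
    calc B ^ p * (K ^ p * K ^ r) = (B ^ p * K ^ p) * K ^ r := by ring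
      _ ≤ (B ^ p * K ^ p) * B ^ r := mul_le_mul_of_nonneg_left this (by positivity)
      _ = B ^ p * B ^ r * K ^ p := by ring
  have h2 : ((p : ℝ) + 1) ^ 2 ≤ 4 * (p : ℝ) ^ 2 := by nlinarith
  have h3 : (p : ℝ) ^ 7 ≤ (P : ℝ) ^ 7 := pow_le_pow_left₀ (by positivity) hpPR 7
  have h4 : 22 * (p : ℝ) ^ 5 * B ^ p * (2 * ((p : ℝ) + 1) ^ 2) ≤ 176 * (p : ℝ) ^ 7 * B ^ p := by
    have h5 : 0 ≤ 44 * (p : ℝ) ^ 5 * B ^ p := by positivity
    calc 22 * (p : ℝ) ^ 5 * B ^ p * (2 * ((p : ℝ) + 1) ^ 2)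
        = (44 * (p : ℝ) ^ 5 * B ^ p) * ((p : ℝ) + 1) ^ 2 := by ring
      _ ≤ (44 * (p : ℝ) ^ 5 * B ^ p) * (4 * (p : ℝ) ^ 2) := mul_le_mul_of_nonneg_left h2 h5
      _ = 176 * (p : ℝ) ^ 7 * B ^ p := by ring
  refine h4.trans ?_
  refine le_of_mul_le_mul_right ?_ hKP
  calc 176 * (p : ℝ) ^ 7 * B ^ p * K ^ P = (176 * (p : ℝ) ^ 7) * (B ^ p * K ^ P) := by ring
    _ ≤ (200 * (P : ℝ) ^ 7) * (B ^ P * K ^ p) := by
        refine mul_le_mul ?_ h1 (by positivity) (by positivity)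
        nlinarith [h3, (by positivity : (0:ℝ) ≤ (p : ℝ) ^ 7)]
    _ = (200 * (P : ℝ) ^ 7 * B ^ P) * K ^ p := by ring
    _ ≤ (D ^ 2 * K ^ P) * K ^ p := mul_le_mul_of_nonneg_right h (by positivity)
    _ = K ^ p * D ^ 2 * K ^ P := by ring

end MOMh

theorem T_MOM : P_STEP → P_SPM → P_REC → P_MOM := by
  intro hstep hspm hrec κ _ _ m P A N B K hctx hK1 hKB hP
  have hctx' := hctx
  obtain ⟨hne, hm1, hherm, hnorm, hmN, hNB, hDB, hcov, hmom⟩ := hctx'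
  haveI := hne
  have hm1R : (1 : ℝ) ≤ m := by exact_mod_cast hm1
  have hN0 : (0 : ℝ) < N := by linarith
  have hmNpos : (0 : ℝ) < m * N := by positivity
  have hK0 : 0 < K := lt_of_lt_of_le (by positivity) hK1
  have hDpos : (0 : ℝ) < (Fintype.card κ : ℝ) := by exact_mod_cast Fintype.card_pos
  have ha0 : ∀ k, 0 ≤ Av (fun x => nt (SS A x ^ (2 * k))) := by
    intro k
    refine MOMh.av_nonneg _ fun x => ?_
    have := (hspm κ (SS A x) 1 k 0 (MOMh.ss_herm A hherm x) Matrix.isHermitian_one).1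
    simpa using this
  have ha1 : Av (fun x => nt (SS A x ^ (2 * 0))) ≤ 1 := by
    have : (fun x => nt (SS A x ^ (2 * 0))) = fun _ => (1 : ℝ) := by
      funext x
      unfold nt
      simp
    rw [this]
    unfold Av
    simp
  have hsq : 200 * √((2 * m) * N) ≤ K := by
    refine le_trans ?_ hK1
    have h1 : √((2 * (m : ℝ)) * N) ≤ 3 / 2 * √(m * N) := by
      rw [Real.sqrt_le_iff]
      refine ⟨by positivity, ?_⟩
      rw [mul_pow, Real.sq_sqrt hmNpos.le]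
      nlinarith
    linarith
  have hfin := hrec P (fun k => Av (fun x => nt (SS A x ^ (2 * k))))
    (fun p => 22 * (p : ℝ) ^ 5 * B ^ p / (Fintype.card κ : ℝ) ^ 2) (2 * m) N K
    (by positivity) (by linarith) hsq ha0 ha1
    (fun p hp1 hpP => hstep κ m P A N B hctx p hp1 hpP)
    (fun p hp1 hpP => MOMh.pow_bound p P B K _ hp1 hpP hK0 hKB hDpos hP) P le_rfl
  refine hfin.trans ?_
  have h1 : (1 : ℝ) ≤ ((P : ℝ) + 1) ^ 2 := by
    have : (0 : ℝ) ≤ P := Nat.cast_nonneg P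
    nlinarith
  exact div_le_self (by positivity) h1

end Pool.Agent.H120R2.GS
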