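import Pool.Agent.H120R2.GS.Stubs2

/-! # Task MOM2: moments, operator form -/

set_option autoImplicit false

namespace Pool.Agent.H120R2.GS

open scoped BigOperators Matrix Matrix.Norms.L2Operator

namespace MOM2h

lemma Av_mono {m : ℕ} {f g : (Fin m → Bool) → ℝ} (h : ∀ x, f x ≤ g x) : Av f ≤ Av g := by
  unfold Av
  exact div_le_div_of_nonneg_right (Finset.sum_le_sum fun x _ => h x) (by positivity)

lemma Av_mul {m : ℕ} (c : ℝ) (f : (Fin m → Bool) → ℝ) : Av (fun x => c * f x) = c * Av f := by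
  unfold Av
  rw [← Finset.mul_sum, mul_div_assoc]

lemma SS_herm {m : ℕ} {κ : Type} (A : Fin m → Matrix κ κ ℂ) (h : ∀ i, (A i).IsHermitian)
    (x : Fin m → Bool) : (SS A x).IsHermitian := by
  unfold SS
  unfold Matrix.IsHermitian
  rw [Matrix.conjTranspose_sum]
  refine Finset.sum_congr rfl fun i _ => ?_
  rw [Matrix.conjTranspose_smul, (h i).eq]
  congr 1
  simp

end MOM2h

open MOM2h in
theorem T_MOM2 : P_MOM → P_APR → P_WV → P_DIL → P_TRN → P_MOM2 := by
  intro hMOM hAPR hWV hDIL hTRN n m d P A K hm hmn hd hdn hPd hA hCov hK1 hK2 hK3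
  obtain ⟨A', hH, hN, hS, hC⟩ := hDIL m d A hA
  have hn1 : 1 ≤ n := hm.trans hmn
  have hnr : (1 : ℝ) ≤ n := by exact_mod_cast hn1
  have hmr : (1 : ℝ) ≤ m := by exact_mod_cast hm
  have hmnr : (m : ℝ) ≤ n := by exact_mod_cast hmn
  have hdr : (1 : ℝ) ≤ d := by exact_mod_cast hd
  have hdnr : (d : ℝ) ^ 2 ≤ n := by exact_mod_cast hdn
  have hcard : (Fintype.card (Fin d ⊕ Fin d) : ℝ) = 2 * d := by
    rw [Fintype.card_sum, Fintype.card_fin]
    push_cast
    ring
  have hne : Nonempty (Fin d ⊕ Fin d) := ⟨Sum.inl ⟨0, hd⟩⟩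
  have hc0 : (0 : ℝ) ≤ (n : ℝ) / d := by positivity
  have hCtx : Ctx m P A' (4 * n) (10000 * n) := by
    refine ⟨hne, hm, hH, hN, by linarith, by linarith, ?_, ?_, ?_⟩
    · rw [hcard]
      nlinarith
    · have h1 := hC _ hc0 hCov
      rw [hcard]
      have e : 4 * (n : ℝ) / (2 * d) = 2 * ((n : ℝ) / d) := by
        field_simp
        ring
      rw [e]
      exact h1
    · intro k hk
      have h1 := hAPR n m d k A hn1 hd (by omega) (hWV (Fin m) d A _ hc0 hCov)
      have h2 : (fun x => (‖SS A' x‖ + 2) ^ (2 * k)) = fun x => (‖XO A x‖ + 2) ^ (2 * k) := by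
        funext x
        rw [hS]
      rw [h2]
      exact h1
  have hsq : √((m : ℝ) * (4 * n)) = 2 * √((m : ℝ) * n) := by
    have e : (m : ℝ) * (4 * n) = 2 ^ 2 * (m * n) := by ring
    rw [e, Real.sqrt_mul (by norm_num), Real.sqrt_sq (by norm_num)]
  have hs0 : 0 ≤ √((m : ℝ) * n) := Real.sqrt_nonneg _
  have hmain := hMOM (Fin d ⊕ Fin d) m P A' (4 * n) (10000 * n) K hCtx
    (by rw [hsq]; linarith) hK2 (by
      rw [hcard]
      have e : (2 * (d : ℝ)) ^ 2 * K ^ P = 4 * ((d : ℝ) ^ 2 * K ^ P) := by ring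
      rw [e]
      linarith)
  have h1 : Av (fun x => ‖XO A x‖ ^ (2 * P)) ≤
      Av (fun x => 2 * (d : ℝ) * nt (SS A' x ^ (2 * P))) := by
    apply Av_mono
    intro x
    rw [← hS, ← hcard]
    exact hTRN (Fin d ⊕ Fin d) (SS A' x) P hne (SS_herm A' hH x)
  rw [Av_mul] at h1
  refine h1.trans ?_
  exact mul_le_mul_of_nonneg_left hmain (by positivity)

end Pool.Agent.H120R2.GS
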