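import Pool.Agent.H120R2.GS.Stubs

/-! Task NET (helper862): finite net and the norm of an operator. -/

set_option autoImplicit false

open MeasureTheory Metric Set Module
open scoped ENNReal BigOperators

namespace Pool.Agent.H120R2.GS

namespace NETh

theorem card_sep {F : Type*} [NormedAddCommGroup F] [NormedSpace ℝ F] [FiniteDimensional ℝ F]
    (s : Finset F) (hs : ∀ c ∈ s, ‖c‖ ≤ 1)
    (h : ∀ c ∈ s, ∀ c' ∈ s, c ≠ c' → 1 / 4 ≤ ‖c - c'‖) : s.card ≤ 9 ^ finrank ℝ F := by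
  borelize F
  let μ : Measure F := Measure.addHaar
  let δ : ℝ := (1 : ℝ) / 8
  let ρ : ℝ := (9 : ℝ) / 8
  have ρpos : 0 < ρ := by norm_num [ρ]
  set A := ⋃ c ∈ s, ball (c : F) δ with hA
  have D : Set.Pairwise (s : Set F) (Function.onFun Disjoint fun c => ball (c : F) δ) := by
    rintro c hc d hd hcd
    apply ball_disjoint_ball
    rw [dist_eq_norm]
    have h1 := h c hc d hd hcd
    have h2 : δ + δ = 1 / 4 := by norm_num [δ]
    rw [h2]
    exact h1
  have A_subset : A ⊆ ball (0 : F) ρ := by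
    refine iUnion₂_subset fun x hx => ?_
    apply ball_subset_ball'
    calc
      δ + dist x 0 ≤ δ + 1 := by rw [dist_zero_right]; exact add_le_add le_rfl (hs x hx)
      _ = 9 / 8 := by norm_num [δ]
  have I :
    (s.card : ℝ≥0∞) * ENNReal.ofReal (δ ^ finrank ℝ F) * μ (ball 0 1) ≤
      ENNReal.ofReal (ρ ^ finrank ℝ F) * μ (ball 0 1) :=
    calc
      (s.card : ℝ≥0∞) * ENNReal.ofReal (δ ^ finrank ℝ F) * μ (ball 0 1) = μ A := by
        rw [hA, measure_biUnion_finset D fun c _ => measurableSet_ball]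
        have I : 0 < δ := by norm_num [δ]
        simp only [μ.addHaar_ball_of_pos _ I]
        simp only [Finset.sum_const, nsmul_eq_mul, mul_assoc]
      _ ≤ μ (ball (0 : F) ρ) := measure_mono A_subset
      _ = ENNReal.ofReal (ρ ^ finrank ℝ F) * μ (ball 0 1) := by
        simp only [μ.addHaar_ball_of_pos _ ρpos]
  have J : (s.card : ℝ≥0∞) * ENNReal.ofReal (δ ^ finrank ℝ F) ≤ ENNReal.ofReal (ρ ^ finrank ℝ F) :=
    (ENNReal.mul_le_mul_iff_left (measure_ball_pos _ _ zero_lt_one).ne' measure_ball_lt_top.ne).1 I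
  have K : (s.card : ℝ) ≤ (9 : ℝ) ^ finrank ℝ F := by
    have := ENNReal.toReal_le_of_le_ofReal (pow_nonneg ρpos.le _) J
    rw [ENNReal.toReal_mul, ENNReal.toReal_natCast, ENNReal.toReal_ofReal (by positivity)] at this
    have h2 : ρ = 9 * δ := by norm_num [ρ, δ]
    rw [h2, mul_pow] at this
    have h3 : 0 < δ ^ finrank ℝ F := pow_pos (by norm_num [δ]) _
    exact le_of_mul_le_mul_right this h3
  exact mod_cast K

theorem card_E (d : ℕ) (s : Finset (E d)) (hs : ∀ c ∈ s, ‖c‖ ≤ 1)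
    (h : ∀ c ∈ s, ∀ c' ∈ s, c ≠ c' → 1 / 4 ≤ ‖c - c'‖) : s.card ≤ 81 ^ d := by
  have h1 : finrank ℝ (E d) = 2 * d := by
    rw [finrank_real_of_complex, finrank_euclideanSpace_fin]
  have : FiniteDimensional ℝ (E d) := FiniteDimensional.complexToReal (E d)
  have h2 := card_sep s hs h
  rw [h1, pow_mul] at h2
  norm_num at h2
  exact h2

theorem exists_net (d : ℕ) : ∃ N : Finset (E d), N.card ≤ 81 ^ d ∧ (∀ u ∈ N, ‖u‖ ≤ 1) ∧
    ∀ x : E d, ‖x‖ ≤ 1 → ∃ u ∈ N, ‖x - u‖ ≤ 1 / 4 := by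
  classical
  set P : ℕ → Prop := fun k => ∃ s : Finset (E d), s.card = k ∧ (∀ c ∈ s, ‖c‖ ≤ 1) ∧
    ∀ c ∈ s, ∀ c' ∈ s, c ≠ c' → 1 / 4 ≤ ‖c - c'‖ with hP
  have hb : ∀ k, P k → k ≤ 81 ^ d := by
    rintro k ⟨s, rfl, h1, h2⟩
    exact card_E d s h1 h2
  have h0 : P 0 := ⟨∅, rfl, by simp, by simp⟩
  have hspec := Nat.findGreatest_spec (P := P) (Nat.zero_le (81 ^ d)) h0
  obtain ⟨s, hs, h1, h2⟩ := hspec
  refine ⟨s, card_E d s h1 h2, h1, ?_⟩
  intro x hx
  by_contra hcon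
  push Not at hcon
  have hxs : x ∉ s := by
    intro h
    have := hcon x h
    rw [sub_self, norm_zero] at this
    norm_num at this
  have h3 : P (s.card + 1) := by
    refine ⟨insert x s, Finset.card_insert_of_notMem hxs, ?_, ?_⟩
    · intro c hc
      rcases Finset.mem_insert.1 hc with rfl | hc
      · exact hx
      · exact h1 c hc
    · intro c hc c' hc' hne
      rcases Finset.mem_insert.1 hc with e | hc2
      · rcases Finset.mem_insert.1 hc' with e' | hc2'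
        · exact absurd (e.trans e'.symm) hne
        · rw [e]
          exact (hcon c' hc2').le
      · rcases Finset.mem_insert.1 hc' with e' | hc2'
        · rw [e', norm_sub_rev]
          exact (hcon c hc2).le
        · exact h2 c hc2 c' hc2' hne
  have h4 := Nat.le_findGreatest (hb _ h3) h3
  rw [← hs] at h4
  omega

end NETh

theorem T_NET : P_NET := by
  intro d
  obtain ⟨N, hN1, hN2, hN3⟩ := NETh.exists_net d
  refine ⟨N, hN1, hN2, fun M => ?_⟩
  have hne : (N ×ˢ N).Nonempty := by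
    obtain ⟨u, hu, _⟩ := hN3 0 (by simp)
    exact ⟨(u, u), Finset.mem_product.2 ⟨hu, hu⟩⟩
  obtain ⟨⟨u, v⟩, huv, hmax⟩ := Finset.exists_max_image (N ×ˢ N)
    (fun p => ‖inner ℂ p.2 (M p.1)‖) hne
  rw [Finset.mem_product] at huv
  refine ⟨u, huv.1, v, huv.2, ?_⟩
  set c : ℝ := ‖inner ℂ v (M u)‖ with hc
  have hc0 : 0 ≤ c := norm_nonneg _
  have hM0 : 0 ≤ ‖M‖ := norm_nonneg _
  have hmax' : ∀ u' ∈ N, ∀ v' ∈ N, ‖inner ℂ v' (M u')‖ ≤ c := fun u' hu' v' hv' =>
    hmax (u', v') (Finset.mem_product.2 ⟨hu', hv'⟩)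
  have key : ∀ x : E d, ‖x‖ ≤ 1 → ‖M x‖ ≤ c + ‖M‖ / 2 := by
    intro x hx
    by_cases hMx : M x = 0
    · rw [hMx, norm_zero]
      positivity
    have hn : 0 < ‖M x‖ := norm_pos_iff.2 hMx
    set y : E d := ((‖M x‖⁻¹ : ℝ) : ℂ) • M x with hy
    have hy1 : ‖y‖ = 1 := by
      rw [hy, norm_smul, Complex.norm_real, norm_inv, norm_norm, inv_mul_cancel₀ hn.ne']
    have hyM : inner ℂ y (M x) = ((‖M x‖ : ℝ) : ℂ) := by
      rw [hy, inner_smul_left, Complex.conj_ofReal, inner_self_eq_norm_sq_to_K]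
      have h5 : ‖M x‖⁻¹ * ‖M x‖ ^ 2 = ‖M x‖ := by
        field_simp
      have h6 : (((‖M x‖⁻¹ : ℝ) : ℂ)) * (((‖M x‖ : ℝ) : ℂ)) ^ 2 = ((‖M x‖⁻¹ * ‖M x‖ ^ 2 : ℝ) : ℂ) := by
        push_cast
        rfl
      exact h6.trans (by rw [h5])
    obtain ⟨u', hu', hxu⟩ := hN3 x hx
    obtain ⟨v', hv', hyv⟩ := hN3 y hy1.le
    have hdec : inner ℂ y (M x) = inner ℂ v' (M u') + inner ℂ v' (M (x - u')) +
        inner ℂ (y - v') (M x) := by
      rw [map_sub, inner_sub_right, inner_sub_left]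
      ring
    have hnorm : ‖M x‖ = ‖inner ℂ y (M x)‖ := by
      rw [hyM, Complex.norm_real, norm_norm]
    have b1 := hmax' u' hu' v' hv'
    have b2 : ‖inner ℂ v' (M (x - u'))‖ ≤ ‖M‖ / 4 := by
      calc ‖inner ℂ v' (M (x - u'))‖ ≤ ‖v'‖ * ‖M (x - u')‖ := norm_inner_le_norm _ _
        _ ≤ 1 * (‖M‖ * (1 / 4)) := by
            refine mul_le_mul (hN2 v' hv') ?_ (norm_nonneg _) (by norm_num)
            exact (M.le_opNorm _).trans (mul_le_mul_of_nonneg_left hxu hM0)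
        _ = ‖M‖ / 4 := by ring
    have b3 : ‖inner ℂ (y - v') (M x)‖ ≤ ‖M‖ / 4 := by
      calc ‖inner ℂ (y - v') (M x)‖ ≤ ‖y - v'‖ * ‖M x‖ := norm_inner_le_norm _ _
        _ ≤ 1 / 4 * (‖M‖ * 1) := by
            refine mul_le_mul hyv ?_ (norm_nonneg _) (by norm_num)
            exact (M.le_opNorm _).trans (mul_le_mul_of_nonneg_left hx hM0)
        _ = ‖M‖ / 4 := by ring
    rw [hnorm, hdec]
    have t1 := norm_add_le (inner ℂ v' (M u') + inner ℂ v' (M (x - u'))) (inner ℂ (y - v') (M x))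
    have t2 := norm_add_le (inner ℂ v' (M u')) (inner ℂ v' (M (x - u')))
    linarith
  have hop : ‖M‖ ≤ c + ‖M‖ / 2 := by
    refine M.opNorm_le_bound (by positivity) fun x => ?_
    by_cases hx : x = 0
    · rw [hx, map_zero, norm_zero, mul_zero]
    have hn : 0 < ‖x‖ := norm_pos_iff.2 hx
    have h1 := key (((‖x‖⁻¹ : ℝ) : ℂ) • x) (by
      rw [norm_smul, Complex.norm_real, norm_inv, norm_norm, inv_mul_cancel₀ hn.ne'])
    rw [map_smul, norm_smul, Complex.norm_real, norm_inv, norm_norm, inv_mul_le_iff₀ hn] at h1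
    linarith
  linarith

end Pool.Agent.H120R2.GS
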