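import Pool.Agent.H120R2.GS.Stubs

/-! Numerical inequality. -/

set_option autoImplicit false

namespace Pool.Agent.H120R2.GS

namespace NUMh

theorem geom (K : ℕ) : ∑ k ∈ Finset.Icc 1 K, (1 / 2 : ℝ) ^ k = 1 - (1 / 2) ^ K := by
  induction K with
  | zero => simp
  | succ K ih =>
    rw [Finset.sum_Icc_succ_top (by omega), ih, pow_succ]
    ring

theorem exp9 : (6561 : ℝ) ≤ Real.exp 9 := by
  have h1 : (2.7 : ℝ) ≤ Real.exp 1 := by
    have := Real.exp_one_gt_d9
    linarith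
  have h2 : Real.exp 9 = Real.exp 1 ^ 9 := by
    rw [← Real.exp_nat_mul]; norm_num
  rw [h2]
  calc (6561 : ℝ) ≤ 2.7 ^ 9 := by norm_num
    _ ≤ Real.exp 1 ^ 9 := pow_le_pow_left₀ (by norm_num) h1 9

theorem exp10 : 100 * Real.exp (-10) ≤ 1 / 2 := by
  have h1 : (2.7 : ℝ) ≤ Real.exp 1 := by
    have := Real.exp_one_gt_d9
    linarith
  have h2 : Real.exp 10 = Real.exp 1 ^ 10 := by
    rw [← Real.exp_nat_mul]; norm_num
  have h3 : (200 : ℝ) ≤ Real.exp 10 := by
    rw [h2]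
    calc (200 : ℝ) ≤ 2.7 ^ 10 := by norm_num
      _ ≤ Real.exp 1 ^ 10 := pow_le_pow_left₀ (by norm_num) h1 10
  have h4 : Real.exp (-10) * Real.exp 10 = 1 := by rw [← Real.exp_add]; norm_num
  have h5 := Real.exp_pos (-10)
  nlinarith

theorem pw4 (k : ℕ) (hk : 1 ≤ k) : (k : ℝ) ≤ 4 ^ (k - 1) := by
  obtain ⟨j, rfl⟩ : ∃ j, k = j + 1 := ⟨k - 1, by omega⟩
  rw [Nat.add_sub_cancel]
  have : j + 1 ≤ 4 ^ j := by
    induction j with
    | zero => simp
    | succ j ih =>
      have := ih (by omega)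
      rw [pow_succ]
      omega
  exact_mod_cast this

theorem poly_exp (s : ℝ) (hs : 0 ≤ s) : 2 * s ^ 3 + 6 * s ^ 2 + s ≤ 25 * Real.exp s := by
  have h1 : s ^ 3 / (Nat.factorial 3 : ℝ) ≤ Real.exp s := Real.pow_div_factorial_le_exp s hs 3
  have h2 : s ^ 2 / (Nat.factorial 2 : ℝ) ≤ Real.exp s := Real.pow_div_factorial_le_exp s hs 2
  have h3 : s + 1 ≤ Real.exp s := Real.add_one_le_exp s
  have e1 : (Nat.factorial 3 : ℝ) = 6 := by norm_num [Nat.factorial]
  have e2 : (Nat.factorial 2 : ℝ) = 2 := by norm_num [Nat.factorial]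
  rw [e1, div_le_iff₀ (by norm_num)] at h1
  rw [e2, div_le_iff₀ (by norm_num)] at h2
  linarith

theorem term (d k : ℕ) (β τ : ℝ) (hd : 1 ≤ d) (hk : 1 ≤ k) (hβ : 0 ≤ β)
    (hτ : 20 * d + 2 * β + 20 ≤ τ) :
    4 * (6561 : ℝ) ^ d * Real.exp (-(4 ^ (k - 1) * τ)) *
      (2 * d ^ 2 * Real.log (2 ^ (k + 3) * d) + k + β) ≤ (1 / 2) * Real.exp (-β) * (1 / 2) ^ k := by
  have hd1 : (1 : ℝ) ≤ d := by exact_mod_cast hd
  have hk1 : (1 : ℝ) ≤ k := by exact_mod_cast hk
  have hτ0 : 0 ≤ τ := by linarith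
  -- logarithm
  have hlog : Real.log (2 ^ (k + 3) * d) ≤ (k + 3) + d := by
    rw [Real.log_mul (by positivity) (by positivity), Real.log_pow]
    have h1 : Real.log 2 ≤ 1 := by
      have := Real.log_two_lt_d9
      linarith
    have h2 : Real.log d ≤ d := (Real.log_le_sub_one_of_pos (by linarith)).trans (by linarith)
    push_cast
    nlinarith
  have hfac : 2 * (d : ℝ) ^ 2 * Real.log (2 ^ (k + 3) * d) + k + β ≤
      25 * Real.exp (d + k + β) := by
    refine le_trans ?_ (poly_exp (d + k + β) (by positivity))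
    have h1 : 2 * (d : ℝ) ^ 2 * Real.log (2 ^ (k + 3) * d) ≤ 2 * (d : ℝ) ^ 2 * ((k + 3) + d) :=
      mul_le_mul_of_nonneg_left hlog (by positivity)
    have h2 : (d : ℝ) ^ 2 ≤ (d + k + β) ^ 2 := pow_le_pow_left₀ (by positivity) (by linarith) 2
    have h3 : (d : ℝ) ^ 2 * ((k + 3) + d) ≤ (d + k + β) ^ 2 * ((d + k + β) + 3) :=
      mul_le_mul h2 (by linarith) (by positivity) (by positivity)
    nlinarith
  have hfac0 : 0 ≤ 2 * (d : ℝ) ^ 2 * Real.log (2 ^ (k + 3) * d) + k + β := by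
    have : 0 ≤ Real.log (2 ^ (k + 3) * (d : ℝ)) := by
      refine Real.log_nonneg ?_
      have : (1 : ℝ) ≤ 2 ^ (k + 3) := one_le_pow₀ (by norm_num)
      nlinarith
    positivity
  have h6 : (6561 : ℝ) ^ d ≤ Real.exp (9 * d) := by
    have : Real.exp (9 * d) = Real.exp 9 ^ d := by
      rw [← Real.exp_nat_mul]; congr 1; ring
    rw [this]
    exact pow_le_pow_left₀ (by norm_num) exp9 d
  have hexp : Real.exp (-(4 ^ (k - 1) * τ)) ≤ Real.exp (-(20 * d + 2 * β + 20 * k)) := by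
    refine Real.exp_le_exp.2 ?_
    have h1 := pw4 k hk
    have h2 : (k : ℝ) * τ ≤ 4 ^ (k - 1) * τ := mul_le_mul_of_nonneg_right h1 hτ0
    have h3 : (k : ℝ) * (20 * d + 2 * β + 20) ≤ k * τ :=
      mul_le_mul_of_nonneg_left hτ (by positivity)
    nlinarith
  calc 4 * (6561 : ℝ) ^ d * Real.exp (-(4 ^ (k - 1) * τ)) *
      (2 * d ^ 2 * Real.log (2 ^ (k + 3) * d) + k + β)
      ≤ (4 * Real.exp (9 * d) * Real.exp (-(20 * d + 2 * β + 20 * k))) *
        (25 * Real.exp (d + k + β)) := by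
        refine mul_le_mul ?_ hfac hfac0 (by positivity)
        exact mul_le_mul (mul_le_mul_of_nonneg_left h6 (by norm_num)) hexp (by positivity)
          (by positivity)
    _ = 100 * Real.exp (-(10 * d + β + 19 * k)) := by
        have : Real.exp (9 * d) * Real.exp (-(20 * d + 2 * β + 20 * k)) * Real.exp (d + k + β) =
            Real.exp (-(10 * d + β + 19 * k)) := by
          rw [← Real.exp_add, ← Real.exp_add]; congr 1; ring
        rw [← this]; ring
    _ ≤ 100 * (Real.exp (-10) * Real.exp (-β) * Real.exp (-(1 : ℝ)) ^ k) := by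
        refine mul_le_mul_of_nonneg_left ?_ (by norm_num)
        rw [← Real.exp_nat_mul, ← Real.exp_add, ← Real.exp_add]
        refine Real.exp_le_exp.2 ?_
        nlinarith
    _ ≤ (1 / 2) * Real.exp (-β) * (1 / 2) ^ k := by
        have h1 : Real.exp (-(1 : ℝ)) ≤ 1 / 2 := by
          have h4 : Real.exp (-1) * Real.exp 1 = 1 := by rw [← Real.exp_add]; norm_num
          have h5 := Real.exp_pos (-1)
          have h6 : (2 : ℝ) ≤ Real.exp 1 := by
            have := Real.exp_one_gt_d9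
            linarith
          nlinarith
        have h2 : Real.exp (-(1 : ℝ)) ^ k ≤ (1 / 2) ^ k :=
          pow_le_pow_left₀ (Real.exp_pos _).le h1 k
        have h3 := exp10
        calc 100 * (Real.exp (-10) * Real.exp (-β) * Real.exp (-(1 : ℝ)) ^ k)
            = (100 * Real.exp (-10)) * Real.exp (-β) * Real.exp (-(1 : ℝ)) ^ k := by ring
          _ ≤ _ := by
            refine mul_le_mul (mul_le_mul_of_nonneg_right h3 (Real.exp_pos _).le) h2 ?_ ?_
            · positivity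
            · positivity

end NUMh

open NUMh in
theorem T_NUM : P_NUM := by
  intro d K β τ hd hβ hτ
  calc ∑ k ∈ Finset.Icc 1 K, 4 * (6561 : ℝ) ^ d * Real.exp (-(4 ^ (k - 1) * τ)) *
      (2 * d ^ 2 * Real.log (2 ^ (k + 3) * d) + k + β)
      ≤ ∑ k ∈ Finset.Icc 1 K, (1 / 2) * Real.exp (-β) * (1 / 2) ^ k :=
        Finset.sum_le_sum fun k hk => term d k β τ hd (Finset.mem_Icc.1 hk).1 hβ hτ
    _ = (1 / 2) * Real.exp (-β) * (1 - (1 / 2) ^ K) := by rw [← Finset.mul_sum, geom]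
    _ ≤ (1 / 2) * Real.exp (-β) * 1 := by
        refine mul_le_mul_of_nonneg_left ?_ (by positivity)
        have : (0 : ℝ) ≤ (1 / 2) ^ K := by positivity
        linarith
    _ = _ := mul_one _

end Pool.Agent.H120R2.GS
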