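import Pool.Agent.H120R2.GS.Stubs2

/-!
# Schur orthogonality in one irreducible representation (helper329)
-/

set_option autoImplicit false

namespace Pool.Agent.H120R2.GS

namespace ORTh

variable {G : Type} [Group G] [Fintype G] {d : ℕ} {π : G → Op d}

theorem inner_map (hπ : IsURep π) (h : G) (a b : E d) :
    inner ℂ (π h a) (π h b) = inner ℂ a b := by
  let f : E d →ₗᵢ[ℂ] E d := ⟨(π h).toLinearMap, fun x => hπ.2.2 h x⟩
  exact f.inner_map_map a b

/-- the operator `∑ ⟨π(g) u, .⟩ π(g) v` -/
noncomputable def T (π : G → Op d) (u v : E d) : Op d :=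
  ∑ g, (innerSL ℂ (π g u)).smulRight (π g v)

theorem T_apply (u v w : E d) : T π u v w = ∑ g, inner ℂ (π g u) w • π g v := by
  unfold T
  simp

theorem T_comm (hπ : IsURep π) (u v w : E d) (h : G) :
    T π u v (π h w) = π h (T π u v w) := by
  rw [T_apply, T_apply, map_sum]
  refine (Fintype.sum_equiv (Equiv.mulLeft h) _ _ fun g => ?_).symm
  have h1 : ∀ x, (π ((Equiv.mulLeft h) g)) x = π h (π g x) := by
    intro x
    show π (h * g) x = _
    rw [hπ.2.1]
    rfl
  rw [h1, h1, inner_map hπ, map_smul]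

theorem inner_T (u v a a' : E d) : inner ℂ a (T π u v a') =
    ∑ g, inner ℂ (π g u) a' * inner ℂ a (π g v) := by
  rw [T_apply, inner_sum]
  refine Finset.sum_congr rfl fun g _ => ?_
  rw [inner_smul_right]

end ORTh

open ORTh in
theorem T_ORT : P_ORT := by
  intro G _ _ d π hd hπ hirr a b a' b'
  have hnt : Nontrivial (E d) := by
    apply Module.nontrivial_of_finrank_pos (R := ℂ)
    rw [finrank_euclideanSpace, Fintype.card_fin]
    omega
  obtain ⟨u, hu⟩ : ∃ u : E d, u = EuclideanSpace.single b' (1 : ℂ) := ⟨_, rfl⟩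
  obtain ⟨v, hv⟩ : ∃ v : E d, v = EuclideanSpace.single b (1 : ℂ) := ⟨_, rfl⟩
  obtain ⟨μ, hμ⟩ := Module.End.exists_eigenvalue (T π u v : E d →ₗ[ℂ] E d)
  have hW := hirr (Module.End.eigenspace (T π u v : E d →ₗ[ℂ] E d) μ) (by
    intro g w hw
    rw [Module.End.mem_eigenspace_iff] at hw ⊢
    have hw' : T π u v w = μ • w := hw
    show T π u v (π g w) = μ • π g w
    rw [T_comm hπ, hw', map_smul])
  rcases hW with hW | hW
  · exact absurd hW hμ
  have hT : ∀ w, T π u v w = μ • w := by
    intro w
    have : w ∈ Module.End.eigenspace (T π u v : E d →ₗ[ℂ] E d) μ := by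
      rw [hW]
      exact Submodule.mem_top
    exact Module.End.mem_eigenspace_iff.1 this
  have hd0 : (d : ℂ) ≠ 0 := by
    have : d ≠ 0 := by omega
    exact_mod_cast this
  have hon : ∀ i j : Fin d, inner ℂ (EuclideanSpace.single i (1 : ℂ) : E d)
      (EuclideanSpace.single j (1 : ℂ) : E d) = if i = j then (1 : ℂ) else 0 := by
    intro i j
    have := orthonormal_iff_ite.mp (EuclideanSpace.basisFun (Fin d) ℂ).orthonormal i j
    simpa [EuclideanSpace.basisFun_apply] using this
  have key : ∀ i j : Fin d, ∑ g, inner ℂ (π g u) (EuclideanSpace.single j (1 : ℂ) : E d) *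
      inner ℂ (EuclideanSpace.single i (1 : ℂ) : E d) (π g v) = if i = j then μ else 0 := by
    intro i j
    rw [← inner_T, hT, inner_smul_right, hon]
    split_ifs <;> simp
  have htr : (d : ℂ) * μ = (Fintype.card G : ℂ) * (if b = b' then 1 else 0) := by
    have h1 : ∑ i : Fin d, ∑ g, inner ℂ (π g u) (EuclideanSpace.single i (1 : ℂ) : E d) *
        inner ℂ (EuclideanSpace.single i (1 : ℂ) : E d) (π g v) = (d : ℂ) * μ := by
      rw [Finset.sum_congr rfl fun i _ => key i i]
      simp
    rw [← h1, Finset.sum_comm]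
    have h2 : ∀ g, ∑ i : Fin d, inner ℂ (π g u) (EuclideanSpace.single i (1 : ℂ) : E d) *
        inner ℂ (EuclideanSpace.single i (1 : ℂ) : E d) (π g v) =
        if b = b' then 1 else 0 := by
      intro g
      have h3 := (EuclideanSpace.basisFun (Fin d) ℂ).sum_inner_mul_inner (π g u) (π g v)
      simp only [EuclideanSpace.basisFun_apply] at h3
      rw [h3, inner_map hπ, hu, hv, hon]
      by_cases h : b = b'
      · rw [if_pos h, if_pos h.symm]
      · rw [if_neg h, if_neg (fun h' => h h'.symm)]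
    rw [Finset.sum_congr rfl fun g _ => h2 g]
    simp
  have hk := key a a'
  have h4 : ∑ g, mc (π g) a b * (starRingEnd ℂ) (mc (π g) a' b') =
      ∑ g, inner ℂ (π g u) (EuclideanSpace.single a' (1 : ℂ) : E d) *
      inner ℂ (EuclideanSpace.single a (1 : ℂ) : E d) (π g v) := by
    refine Finset.sum_congr rfl fun g _ => ?_
    unfold mc
    rw [inner_conj_symm, hu, hv, mul_comm]
  rw [h4, hk]
  by_cases h1 : a = a'
  · rw [if_pos h1]
    by_cases h2 : b = b'
    · rw [if_pos ⟨h1, h2⟩]
      rw [if_pos h2] at htr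
      field_simp
      linear_combination htr
    · rw [if_neg (fun h => h2 h.2)]
      rw [if_neg h2, mul_zero] at htr
      rcases mul_eq_zero.mp htr with h | h
      · exact absurd h hd0
      · exact h
  · rw [if_neg h1, if_neg (fun h => h1 h.1)]

end Pool.Agent.H120R2.GS
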