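import Pool.Agent.H120R2.GS.Stubs

/-!
# Number of cheap patterns
-/

set_option autoImplicit false

namespace Pool.Agent.H120R2.GS

open scoped BigOperators

theorem T_PAT : P_PAT := by
  intro ι Λ _ _ _ o S w b L ho hb
  have h1 : (((Fintype.piFinset S).filter (fun f => ∑ j, w j (f j) ≤ L)).card : ℝ) ≤
      ∑ f ∈ Fintype.piFinset S, Real.exp (L - ∑ j, w j (f j)) := by
    calc (((Fintype.piFinset S).filter (fun f => ∑ j, w j (f j) ≤ L)).card : ℝ)
        = ∑ f ∈ (Fintype.piFinset S).filter (fun f => ∑ j, w j (f j) ≤ L), (1 : ℝ) := by simp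
      _ ≤ ∑ f ∈ (Fintype.piFinset S).filter (fun f => ∑ j, w j (f j) ≤ L),
            Real.exp (L - ∑ j, w j (f j)) := by
          apply Finset.sum_le_sum
          intro f hf
          rw [Finset.mem_filter] at hf
          exact Real.one_le_exp (by linarith [hf.2])
      _ ≤ ∑ f ∈ Fintype.piFinset S, Real.exp (L - ∑ j, w j (f j)) :=
          Finset.sum_le_sum_of_subset_of_nonneg (Finset.filter_subset _ _)
            fun f _ _ => (Real.exp_pos _).le
  have h2 : ∑ f ∈ Fintype.piFinset S, Real.exp (L - ∑ j, w j (f j)) =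
      Real.exp L * ∏ j, ∑ l ∈ S j, Real.exp (-(w j l)) := by
    rw [Finset.prod_univ_sum, Finset.mul_sum]
    refine Finset.sum_congr rfl fun f _ => ?_
    rw [← Real.exp_sum, ← Real.exp_add, Finset.sum_neg_distrib, sub_eq_add_neg]
  have h3 : ∀ j, ∑ l ∈ S j, Real.exp (-(w j l)) ≤ Real.exp b := by
    intro j
    have h4 : ∑ l ∈ S j, Real.exp (-(w j l)) ≤
        1 + ∑ l ∈ (S j).erase o, Real.exp (-(w j l)) := by
      by_cases hm : o ∈ S j
      · rw [← Finset.add_sum_erase _ _ hm, ho j, neg_zero, Real.exp_zero]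
      · rw [Finset.erase_eq_of_notMem hm]
        linarith
    have h5 := Real.add_one_le_exp b
    linarith [hb j]
  calc (((Fintype.piFinset S).filter (fun f => ∑ j, w j (f j) ≤ L)).card : ℝ)
      ≤ Real.exp L * ∏ j, ∑ l ∈ S j, Real.exp (-(w j l)) := h1.trans h2.le
    _ ≤ Real.exp L * ∏ _j : ι, Real.exp b := by
        apply mul_le_mul_of_nonneg_left _ (Real.exp_pos _).le
        exact Finset.prod_le_prod (fun j _ => Finset.sum_nonneg fun l _ => (Real.exp_pos _).le)
          fun j _ => h3 j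
    _ = Real.exp (L + Fintype.card ι * b) := by
        rw [Finset.prod_const, Finset.card_univ, ← Real.exp_nat_mul, ← Real.exp_add]

end Pool.Agent.H120R2.GS
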