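import Pool.Agent.H120R2.GS.Stubs

/-!
# Task PC: one stage, an almost complete partial colouring
-/

set_option autoImplicit false

namespace Pool.Agent.H120R2.GS

open scoped BigOperators

namespace PCh

/-- the cost of a label of level `k` -/
noncomputable def g (d k : ℕ) (β : ℝ) : ℝ :=
  2 * (d : ℝ) ^ 2 * Real.log (2 ^ (k + 3) * d) + k + β

lemma g_nonneg (d k : ℕ) (β : ℝ) (hd : 1 ≤ d) (hβ : 0 ≤ β) : 0 ≤ g d k β := by
  have hd' : (1 : ℝ) ≤ d := by exact_mod_cast hd
  have h2 : (1 : ℝ) ≤ 2 ^ (k + 3) := one_le_pow₀ (by norm_num)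
  have h1 : 0 ≤ Real.log (2 ^ (k + 3) * (d : ℝ)) := Real.log_nonneg (by nlinarith)
  unfold g
  positivity

lemma Kk_mul (d k : ℕ) (β : ℝ) (hd : 1 ≤ d) :
    (((2 ^ (k + 3) * d) ^ (2 * d ^ 2) : ℕ) : ℝ) * Real.exp (-(g d k β)) =
      Real.exp (-β) * Real.exp (-k) := by
  have hd' : (1 : ℝ) ≤ d := by exact_mod_cast hd
  have hpos : (0 : ℝ) < 2 ^ (k + 3) * d := by positivity
  have h1 : (((2 ^ (k + 3) * d) ^ (2 * d ^ 2) : ℕ) : ℝ) =
      Real.exp (2 * (d : ℝ) ^ 2 * Real.log (2 ^ (k + 3) * d)) := by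
    push_cast
    rw [show (2 * (d : ℝ) ^ 2) = ((2 * d ^ 2 : ℕ) : ℝ) by push_cast; ring, Real.exp_nat_mul,
      Real.exp_log hpos]
  rw [h1, ← Real.exp_add, ← Real.exp_add]
  congr 1
  unfold g
  ring

lemma geo (K : ℕ) : ∑ k ∈ Finset.Icc 1 K, Real.exp (-(k : ℝ)) ≤ 1 := by
  have h : ∀ k : ℕ, Real.exp (-(k : ℝ)) ≤ (1 / 2) ^ k := by
    intro k
    have h1 : Real.exp (-(k : ℝ)) = (Real.exp (-1)) ^ k := by
      rw [← Real.exp_nat_mul]; congr 1; ring
    rw [h1]
    apply pow_le_pow_left₀ (Real.exp_pos _).le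
    rw [Real.exp_neg, ← one_div]
    apply one_div_le_one_div_of_le (by norm_num)
    have := Real.add_one_le_exp 1
    linarith
  have h2 : ∀ K : ℕ, ∑ k ∈ Finset.Icc 1 K, ((1 : ℝ) / 2) ^ k = 1 - (1 / 2) ^ K := by
    intro K
    induction K with
    | zero => simp
    | succ K ih =>
      rw [Finset.sum_Icc_succ_top (by omega), ih]
      ring
  calc ∑ k ∈ Finset.Icc 1 K, Real.exp (-(k : ℝ)) ≤ ∑ k ∈ Finset.Icc 1 K, ((1 : ℝ) / 2) ^ k :=
        Finset.sum_le_sum fun k _ => h k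
    _ = 1 - (1 / 2) ^ K := h2 K
    _ ≤ 1 := by linarith [show (0 : ℝ) ≤ (1 / 2) ^ K by positivity]

/-- labels -/
abbrev Lb : Type := Option (Σ _ : ℕ, ℕ)

/-- cost of labels -/
noncomputable def wt (d : ℕ) (β : ℝ) : Lb → ℝ
  | none => 0
  | some p => g d p.1 β

/-- admissible labels -/
def Sj (d K : ℕ) : Finset Lb :=
  Finset.insertNone ((Finset.Icc 1 K).sigma fun k => Finset.range ((2 ^ (k + 3) * d) ^ (2 * d ^ 2)))

lemma sum_wt (d K : ℕ) (β : ℝ) (hd : 1 ≤ d) :
    ∑ l ∈ (Sj d K).erase none, Real.exp (-(wt d β l)) ≤ Real.exp (-β) := by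
  have h1 : (Sj d K).erase none = ((Finset.Icc 1 K).sigma fun k =>
      Finset.range ((2 ^ (k + 3) * d) ^ (2 * d ^ 2))).map Function.Embedding.some := by
    ext l
    cases l <;> simp [Sj]
  rw [h1, Finset.sum_map, Finset.sum_sigma]
  have h2 : ∀ k ∈ Finset.Icc 1 K, ∑ c ∈ Finset.range ((2 ^ (k + 3) * d) ^ (2 * d ^ 2)),
      Real.exp (-(wt d β (Function.Embedding.some (⟨k, c⟩ : Σ _ : ℕ, ℕ)))) =
        Real.exp (-β) * Real.exp (-k) := by
    intro k _
    rw [← Kk_mul d k β hd]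
    simp [wt]
  rw [Finset.sum_congr rfl h2, ← Finset.mul_sum]
  have := geo K
  have hp := Real.exp_pos (-β)
  nlinarith

section
variable {Ω : Type} [Fintype Ω] {d : ℕ} (X : Ω → Op d) (T : ℝ) (c : ℕ → Op d → ℕ)

open Classical in
/-- the level -/
noncomputable def lev (x : Ω) : ℕ := if h : ∃ k : ℕ, ‖X x‖ ≤ 2 ^ k * T then Nat.find h else 0

open Classical in
/-- the label -/
noncomputable def lab (x : Ω) : Lb := if ‖X x‖ ≤ T then none else some ⟨lev X T x, c (lev X T x) (X x)⟩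

lemma ex_lev (hT : 0 < T) (x : Ω) : ∃ k : ℕ, ‖X x‖ ≤ 2 ^ k * T := by
  obtain ⟨k, hk⟩ := pow_unbounded_of_one_lt (‖X x‖ / T) (by norm_num : (1 : ℝ) < 2)
  exact ⟨k, by rw [← div_le_iff₀ hT]; exact hk.le⟩

lemma lev_le (hT : 0 < T) (x : Ω) : ‖X x‖ ≤ 2 ^ (lev X T x) * T := by
  have h := ex_lev X T hT x
  unfold lev
  rw [dif_pos h]
  exact Nat.find_spec h

lemma lev_pos (hT : 0 < T) (x : Ω) (hx : ¬ ‖X x‖ ≤ T) : 1 ≤ lev X T x := by
  by_contra hcon
  have h0 : lev X T x = 0 := by omega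
  have := lev_le X T hT x
  rw [h0] at this
  exact hx (by simpa using this)

lemma lev_gt (hT : 0 < T) (x : Ω) (hx : ¬ ‖X x‖ ≤ T) : 2 ^ (lev X T x - 1) * T < ‖X x‖ := by
  have h := ex_lev X T hT x
  have h1 := lev_pos X T hT x hx
  by_contra hcon
  rw [not_lt] at hcon
  have h2 : lev X T x = Nat.find h := by unfold lev; rw [dif_pos h]
  have := Nat.find_min' h hcon
  omega

/-- points with the same label have close sums -/
lemma close (hT : 0 < T) (hc : ∀ k : ℕ, ∀ M : Op d, ‖M‖ ≤ 2 ^ k * T →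
    c k M < (2 ^ (k + 3) * d) ^ (2 * d ^ 2) ∧
    ∀ M' : Op d, ‖M'‖ ≤ 2 ^ k * T → c k M = c k M' → ‖M - M'‖ ≤ 2 * T) (x x' : Ω)
    (h : lab X T c x = lab X T c x') : ‖X x - X x'‖ ≤ 2 * T := by
  unfold lab at h
  by_cases h1 : ‖X x‖ ≤ T
  · rw [if_pos h1] at h
    by_cases h2 : ‖X x'‖ ≤ T
    · calc ‖X x - X x'‖ ≤ ‖X x‖ + ‖X x'‖ := norm_sub_le _ _
        _ ≤ 2 * T := by linarith
    · rw [if_neg h2] at h
      exact absurd h (by simp)
  · rw [if_neg h1] at h
    by_cases h2 : ‖X x'‖ ≤ T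
    · rw [if_pos h2] at h
      exact absurd h (by simp)
    · rw [if_neg h2] at h
      have h3 : lev X T x = lev X T x' ∧ c (lev X T x) (X x) = c (lev X T x') (X x') := by
        simpa using h
      obtain ⟨h4, h5⟩ := h3
      have h6 := lev_le X T hT x
      have h7 := lev_le X T hT x'
      rw [← h4] at h5 h7
      exact (hc _ _ h6).2 _ h7 h5

lemma lab_mem (hT : 0 < T) (K : ℕ) (hc : ∀ k : ℕ, ∀ M : Op d, ‖M‖ ≤ 2 ^ k * T →
    c k M < (2 ^ (k + 3) * d) ^ (2 * d ^ 2) ∧
    ∀ M' : Op d, ‖M'‖ ≤ 2 ^ k * T → c k M = c k M' → ‖M - M'‖ ≤ 2 * T) (x : Ω)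
    (hK : lev X T x ≤ K) : lab X T c x ∈ Sj d K := by
  unfold lab Sj
  by_cases h1 : ‖X x‖ ≤ T
  · rw [if_pos h1]; simp
  · rw [if_neg h1]
    rw [Finset.some_mem_insertNone, Finset.mem_sigma]
    exact ⟨Finset.mem_Icc.2 ⟨lev_pos X T hT x h1, hK⟩,
      Finset.mem_range.2 (hc _ _ (lev_le X T hT x)).1⟩

open Classical in
/-- the total cost of the labels -/
lemma sum_cost (hT : 0 < T) (K : ℕ) (β : ℝ) (hβ : 0 ≤ β) (hd : 1 ≤ d)
    (hK : ∀ x, lev X T x ≤ K) :
    ∑ x, wt d β (lab X T c x) ≤ ∑ k ∈ Finset.Icc 1 K,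
      ((Finset.univ.filter fun x : Ω => 2 ^ (k - 1) * T < ‖X x‖).card : ℝ) * g d k β := by
  have h1 : ∀ x, wt d β (lab X T c x) ≤ ∑ k ∈ Finset.Icc 1 K,
      (if 2 ^ (k - 1) * T < ‖X x‖ then (1 : ℝ) else 0) * g d k β := by
    intro x
    have hnn : ∀ k ∈ Finset.Icc 1 K,
        0 ≤ (if 2 ^ (k - 1) * T < ‖X x‖ then (1 : ℝ) else 0) * g d k β := by
      intro k _
      apply mul_nonneg
      · split_ifs <;> norm_num
      · exact g_nonneg d k β hd hβ
    by_cases hx : ‖X x‖ ≤ T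
    · have : lab X T c x = none := by unfold lab; rw [if_pos hx]
      rw [this]
      exact Finset.sum_nonneg hnn
    · have : lab X T c x = some ⟨lev X T x, c (lev X T x) (X x)⟩ := by unfold lab; rw [if_neg hx]
      rw [this]
      have h2 := Finset.single_le_sum hnn (Finset.mem_Icc.2 ⟨lev_pos X T hT x hx, hK x⟩)
      refine le_trans (le_of_eq ?_) h2
      rw [if_pos (lev_gt X T hT x hx), one_mul]
      rfl
  calc ∑ x, wt d β (lab X T c x) ≤ ∑ x, ∑ k ∈ Finset.Icc 1 K,
        (if 2 ^ (k - 1) * T < ‖X x‖ then (1 : ℝ) else 0) * g d k β :=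
        Finset.sum_le_sum fun x _ => h1 x
    _ = _ := by
        rw [Finset.sum_comm]
        refine Finset.sum_congr rfl fun k _ => ?_
        rw [← Finset.sum_mul]
        congr 1
        rw [Finset.sum_boole]

end

lemma sg_cases (a b : Bool) : (sg a - sg b) / 2 = 0 ∨ (sg a - sg b) / 2 = 1 ∨
    (sg a - sg b) / 2 = -1 := by
  cases a <;> cases b <;> norm_num [sg]

lemma sg_zero (a b : Bool) : (sg a - sg b) / 2 = 0 ↔ a = b := by
  cases a <;> cases b <;> norm_num [sg]

end PCh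

open PCh in
/-- the class of two almost antipodal sign vectors -/
theorem PC_core (hTail : P_TAIL) (hCell : P_CELL) (hPat : P_PAT) (hFar : P_FAR) (hNum : P_NUM)
    (m : ℕ) (ι : Type) [Fintype ι] [DecidableEq ι] (d : ι → ℕ)
    (A : Fin m → (j : ι) → Op (d j)) (V : ι → ℝ) (β r2 : ℝ) (hd : ∀ j, 1 ≤ d j)
    (hV : ∀ j, 0 < V j)
    (hvar : ∀ j (u v : E (d j)), ‖u‖ ≤ 1 → ‖v‖ ≤ 1 → ∑ i, ‖inner ℂ v (A i j u)‖ ^ 2 ≤ V j)
    (hβ : 0 ≤ β) (hr : 0 < r2) (hr3 : 3 * r2 ≤ m)
    (hb : (Fintype.card ι : ℝ) * Real.exp (-β) ≤ m / (8 * r2)) :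
    ∃ x x' : Fin m → Bool, ((Finset.univ.filter fun i => x i = x' i).card : ℝ) ≤ √(1 / r2) * m ∧
      ∀ j, ‖∑ i, ((sg (x i) : ℝ) : ℂ) • A i j - ∑ i, ((sg (x' i) : ℝ) : ℂ) • A i j‖ ≤
        2 * √(16 * V j * (20 * d j + 2 * β + 20)) := by
  classical
  have hmpos : (0 : ℝ) < m := by linarith
  set T : ι → ℝ := fun j => √(16 * V j * (20 * d j + 2 * β + 20)) with hTdef
  have hT2 : ∀ j, T j ^ 2 = 16 * V j * (20 * d j + 2 * β + 20) := by
    intro j
    have := hV j
    exact Real.sq_sqrt (by positivity)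
  have hT : ∀ j, 0 < T j := by
    intro j
    have := hV j
    exact Real.sqrt_pos.2 (by positivity)
  choose c hc using fun (j : ι) (k : ℕ) => hCell (d j) k (T j) (hd j) (hT j)
  set X : (j : ι) → (Fin m → Bool) → Op (d j) := fun j x => ∑ i, ((sg (x i) : ℝ) : ℂ) • A i j
    with hX
  obtain ⟨K, hK⟩ : ∃ K : ℕ, ∀ j x, lev (X j) (T j) x ≤ K := by
    refine ⟨Finset.univ.sup fun p : ι × (Fin m → Bool) => lev (X p.1) (T p.1) p.2, fun j x => ?_⟩
    exact Finset.le_sup (f := fun p : ι × (Fin m → Bool) => lev (X p.1) (T p.1) p.2)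
      (Finset.mem_univ (j, x))
  -- the total cost
  set cost : (Fin m → Bool) → ℝ := fun x => ∑ j, wt (d j) β (lab (X j) (T j) (c j) x) with hcost
  have hsum : ∀ j, ∑ x, wt (d j) β (lab (X j) (T j) (c j) x) ≤ 2 ^ m * (1 / 2 * Real.exp (-β)) := by
    intro j
    refine (sum_cost (X j) (T j) (c j) (hT j) K β hβ (hd j) (hK j)).trans ?_
    have h1 := hNum (d j) K β (20 * d j + 2 * β + 20) (hd j) hβ le_rfl
    refine le_trans ?_ (mul_le_mul_of_nonneg_left h1 (by positivity : (0 : ℝ) ≤ 2 ^ m))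
    rw [Finset.mul_sum]
    refine Finset.sum_le_sum fun k hk => ?_
    have hk1 : 1 ≤ k := (Finset.mem_Icc.1 hk).1
    have h2 := hTail m (d j) (fun i => A i j) (V j) (2 ^ (k - 1) * T j) (hV j)
      (by have := (hT j).le; positivity) (hvar j)
    have h3 : (2 ^ (k - 1) * T j) ^ 2 / (16 * V j) = 4 ^ (k - 1) * (20 * d j + 2 * β + 20) := by
      rw [mul_pow, hT2 j, ← pow_mul, mul_comm (k - 1) 2, pow_mul]
      have := (hV j).ne'
      field_simp
      norm_num
    rw [h3] at h2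
    have h4 := g_nonneg (d j) k β (hd j) hβ
    calc _ ≤ (4 * 6561 ^ (d j) * 2 ^ m * Real.exp (-(4 ^ (k - 1) * (20 * d j + 2 * β + 20)))) *
          g (d j) k β := mul_le_mul_of_nonneg_right h2 h4
      _ = _ := by unfold g; ring
  have htot : ∑ x, cost x ≤ 2 ^ m * (m / (8 * r2)) / 2 := by
    calc ∑ x, cost x = ∑ j, ∑ x, wt (d j) β (lab (X j) (T j) (c j) x) := by
          rw [hcost, Finset.sum_comm]
      _ ≤ ∑ _j : ι, 2 ^ m * (1 / 2 * Real.exp (-β)) := Finset.sum_le_sum fun j _ => hsum j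
      _ = 2 ^ m * ((Fintype.card ι : ℝ) * Real.exp (-β)) / 2 := by
          rw [Finset.sum_const, Finset.card_univ, nsmul_eq_mul]; ring
      _ ≤ _ := by
          have : (0 : ℝ) ≤ 2 ^ m := by positivity
          nlinarith [mul_le_mul_of_nonneg_left hb this]
  -- Markov
  set L : ℝ := m / (8 * r2) with hL
  have hLpos : 0 < L := by positivity
  set G : Finset (Fin m → Bool) := Finset.univ.filter fun x => cost x ≤ L with hG
  have hwt : ∀ j l, 0 ≤ wt (d j) β l := by
    intro j l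
    cases l with
    | none => exact le_rfl
    | some p => exact g_nonneg _ _ _ (hd j) hβ
  have hcost0 : ∀ x, 0 ≤ cost x := fun x => Finset.sum_nonneg fun j _ => hwt j _
  have hGc : ((Finset.univ.filter fun x => ¬ cost x ≤ L).card : ℝ) * L ≤ ∑ x, cost x := by
    calc ((Finset.univ.filter fun x => ¬ cost x ≤ L).card : ℝ) * L =
          ∑ _x ∈ Finset.univ.filter (fun x => ¬ cost x ≤ L), L := by
          rw [Finset.sum_const, nsmul_eq_mul]
      _ ≤ ∑ x ∈ Finset.univ.filter (fun x => ¬ cost x ≤ L), cost x :=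
          Finset.sum_le_sum fun x hx => (not_le.1 (Finset.mem_filter.1 hx).2).le
      _ ≤ ∑ x, cost x := Finset.sum_le_sum_of_subset_of_nonneg (Finset.filter_subset _ _)
          fun x _ _ => hcost0 x
  have hcardU : (G.card : ℝ) + ((Finset.univ.filter fun x => ¬ cost x ≤ L).card : ℝ) = 2 ^ m := by
    rw [hG]
    have := Finset.card_filter_add_card_filter_not (s := (Finset.univ : Finset (Fin m → Bool)))
      (fun x => cost x ≤ L)
    have h2 : (Finset.univ : Finset (Fin m → Bool)).card = 2 ^ m := by simp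
    rw [h2] at this
    exact_mod_cast this
  have hGcard : (2 : ℝ) ^ m / 2 ≤ G.card := by
    have h1 : ((Finset.univ.filter fun x => ¬ cost x ≤ L).card : ℝ) * L ≤ (2 ^ m / 2) * L := by
      refine hGc.trans (htot.trans (le_of_eq ?_))
      ring
    have h2 := le_of_mul_le_mul_right h1 hLpos
    linarith
  -- patterns
  set P : Finset (ι → Lb) := (Fintype.piFinset fun j => Sj (d j) K).filter
    (fun f => ∑ j, wt (d j) β (f j) ≤ L) with hP
  have hPcard : (P.card : ℝ) ≤ Real.exp (2 * L) := by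
    have h1 := hPat ι Lb none (fun j => Sj (d j) K) (fun j => wt (d j) β) (Real.exp (-β)) L
      (fun j => rfl) (fun j => sum_wt (d j) K β (hd j))
    refine h1.trans (Real.exp_le_exp.2 ?_)
    linarith
  have hmaps : ∀ x ∈ G, (fun x => fun j => lab (X j) (T j) (c j) x) x ∈ P := by
    intro x hx
    rw [hP, Finset.mem_filter, Fintype.mem_piFinset]
    refine ⟨fun j => lab_mem (X j) (T j) (c j) (hT j) K (hc j) x (hK j x), ?_⟩
    exact (Finset.mem_filter.1 hx).2
  have hPne : P.Nonempty := by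
    have : G.Nonempty := by
      rw [← Finset.card_pos]
      have : (0 : ℝ) < G.card := lt_of_lt_of_le (by positivity) hGcard
      exact_mod_cast this
    obtain ⟨x, hx⟩ := this
    exact ⟨_, hmaps x hx⟩
  have hhalf : Real.exp (-(2 * L)) ≤ 1 / 2 := by
    have h1 : Real.log 2 ≤ 2 * L := by
      have : (3 : ℝ) / 4 ≤ 2 * L := by
        rw [hL, show 2 * ((m : ℝ) / (8 * r2)) = m / (4 * r2) by ring, le_div_iff₀ (by positivity)]
        linarith
      have := Real.log_two_lt_d9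
      linarith
    calc Real.exp (-(2 * L)) ≤ Real.exp (-Real.log 2) := Real.exp_le_exp.2 (by linarith)
      _ = 1 / 2 := by rw [Real.exp_neg, Real.exp_log (by norm_num)]; norm_num
  obtain ⟨f, -, hf⟩ := Finset.exists_le_card_fiber_of_nsmul_le_card_of_maps_to (M := ℝ)
    (b := 2 ^ m * Real.exp (-(4 * L))) hmaps hPne (by
      rw [nsmul_eq_mul]
      refine le_trans ?_ hGcard
      calc (P.card : ℝ) * (2 ^ m * Real.exp (-(4 * L))) ≤
            Real.exp (2 * L) * (2 ^ m * Real.exp (-(4 * L))) :=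
            mul_le_mul_of_nonneg_right hPcard (by positivity)
        _ = 2 ^ m * Real.exp (-(2 * L)) := by
            rw [mul_left_comm, ← Real.exp_add]
            congr 2
            ring
        _ ≤ 2 ^ m * (1 / 2) := mul_le_mul_of_nonneg_left hhalf (by positivity)
        _ = 2 ^ m / 2 := by ring)
  obtain ⟨x, hx, x', hx', hxx⟩ := hFar m
    (G.filter fun x => (fun x => fun j => lab (X j) (T j) (c j) x) x = f) (1 / (2 * r2))
    (by positivity) (by
      refine le_trans (le_of_eq ?_) hf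
      congr 2
      rw [hL]
      field_simp
      norm_num)
  refine ⟨x, x', ?_, ?_⟩
  · convert hxx using 3
    field_simp
  · intro j
    have h1 := (Finset.mem_filter.1 hx).2
    have h2 := (Finset.mem_filter.1 hx').2
    have h3 : lab (X j) (T j) (c j) x = lab (X j) (T j) (c j) x' := by
      have h4 := congrFun h1 j
      have h5 := congrFun h2 j
      simp only at h4 h5
      rw [h4, h5]
    exact close (X j) (T j) (c j) (hT j) (hc j) x x' h3

theorem T_PC : P_TAIL → P_CELL → P_PAT → P_FAR → P_NUM → P_PC := by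
  intro hTail hCell hPat hFar hNum n m ι _ _ d A hm hmn hι hd hA hvar
  have hm' : (1 : ℝ) ≤ m := by exact_mod_cast hm
  have hmn' : (m : ℝ) ≤ n := by exact_mod_cast hmn
  have hn' : (1 : ℝ) ≤ n := hm'.trans hmn'
  have hι' : (Fintype.card ι : ℝ) ≤ n := by exact_mod_cast hι
  have hd' : ∀ j, (1 : ℝ) ≤ d j := fun j => by exact_mod_cast hd j
  set q := n / m with hq
  have hq1 : 1 ≤ q := (Nat.one_le_div_iff (by omega)).2 hmn
  have hqm : (q : ℝ) * m ≤ n := by exact_mod_cast Nat.div_mul_le_self n m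
  have hnq : (n : ℝ) ≤ (q + 1) * m := by
    have := Nat.lt_div_mul_add (a := n) (b := m) (by omega)
    have h2 : n ≤ (q + 1) * m := by rw [add_mul, one_mul]; exact this.le
    exact_mod_cast h2
  set r2 : ℝ := min (4 ^ q) (m / 3) with hr2
  have hr : 0 < r2 := lt_min (by positivity) (by positivity)
  have hr4 : r2 ≤ 4 ^ q := min_le_left _ _
  have hr3 : 3 * r2 ≤ m := by
    have : r2 ≤ m / 3 := min_le_right _ _
    linarith
  set β : ℝ := Real.log (8 * r2 * n / m) with hβd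
  have hY : 1 ≤ 8 * r2 * n / m := by
    rw [le_div_iff₀ (by positivity), one_mul]
    rcases min_choice ((4 : ℝ) ^ q) (m / 3) with h | h
    · have h1 : (1 : ℝ) ≤ 4 ^ q := one_le_pow₀ (by norm_num)
      rw [hr2, h]
      nlinarith
    · rw [hr2, h]
      nlinarith
  have hβ : 0 ≤ β := Real.log_nonneg hY
  have hexpβ : Real.exp (-β) = m / (8 * r2 * n) := by
    rw [Real.exp_neg, hβd, Real.exp_log (by linarith)]
    rw [inv_div]
  have hβup : β ≤ (q + 1) * (3 * Real.log 2) := by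
    have h1 : 8 * r2 * n / m ≤ 2 ^ (3 * (q + 1)) := by
      rw [div_le_iff₀ (by positivity)]
      have h2 : ((q : ℝ) + 1) ≤ 2 ^ q := by exact_mod_cast Nat.lt_two_pow_self (n := q)
      have h3 : (n : ℝ) ≤ 2 ^ q * m := hnq.trans (mul_le_mul_of_nonneg_right h2 (by positivity))
      have h4 : (2 : ℝ) ^ (3 * (q + 1)) = 8 * 4 ^ q * 2 ^ q := by
        rw [show (4 : ℝ) = 2 ^ 2 by norm_num, ← pow_mul, mul_assoc, ← pow_add,
          show (8 : ℝ) = 2 ^ 3 by norm_num, ← pow_add]
        congr 1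
        ring
      rw [h4]
      calc 8 * r2 * n ≤ 8 * 4 ^ q * (2 ^ q * m) := by
            apply mul_le_mul (by linarith) h3 (by positivity) (by positivity)
        _ = _ := by ring
    calc β ≤ Real.log (2 ^ (3 * (q + 1))) := Real.log_le_log (by linarith) h1
      _ = (q + 1) * (3 * Real.log 2) := by
          rw [Real.log_pow]; push_cast; ring
  set V : ι → ℝ := fun j => min (m : ℝ) (n / d j) with hV
  have hVpos : ∀ j, 0 < V j := fun j => lt_min (by positivity) (by
    have := hd' j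
    positivity)
  obtain ⟨x, x', hxx, hno⟩ := PC_core hTail hCell hPat hFar hNum m ι d A V β r2 hd hVpos
    (by
      intro j u v hu hv
      refine le_min ?_ (hvar j u v hu hv)
      calc ∑ i, ‖inner ℂ v (A i j u)‖ ^ 2 ≤ ∑ _i : Fin m, (1 : ℝ) := by
            refine Finset.sum_le_sum fun i _ => ?_
            have h1 : ‖inner ℂ v (A i j u)‖ ≤ 1 := by
              calc ‖inner ℂ v (A i j u)‖ ≤ ‖v‖ * ‖A i j u‖ := norm_inner_le_norm _ _
                _ ≤ ‖v‖ * (‖A i j‖ * ‖u‖) :=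
                  mul_le_mul_of_nonneg_left ((A i j).le_opNorm u) (norm_nonneg _)
                _ ≤ 1 * (1 * 1) := by
                  have := hA i j
                  gcongr
                _ = 1 := by norm_num
            exact pow_le_one₀ (norm_nonneg _) h1
        _ = m := by simp)
    hβ hr hr3 (by
      rw [hexpβ, mul_div_assoc', div_le_div_iff₀ (by positivity) (by positivity)]
      have : (0 : ℝ) ≤ m * (8 * r2) := by positivity
      nlinarith [mul_le_mul_of_nonneg_right hι' this])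
  have hTn : ∀ j, √(16 * V j * (20 * d j + 2 * β + 20)) ≤ 28 * √n := by
    intro j
    have h28 : 28 * √(n : ℝ) = √(784 * n) := by
      rw [Real.sqrt_mul (by norm_num), show (784 : ℝ) = 28 ^ 2 by norm_num,
        Real.sqrt_sq (by norm_num)]
    rw [h28]
    apply Real.sqrt_le_sqrt
    have hVm : V j ≤ m := min_le_left _ _
    have hVd : V j * d j ≤ n := by
      have h1 : V j ≤ n / d j := min_le_right _ _
      rwa [le_div_iff₀ (by have := hd' j; positivity)] at h1
    have hVn : V j ≤ n := hVm.trans hmn'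
    have hVq : V j * q ≤ n := by
      calc V j * q ≤ m * q := mul_le_mul_of_nonneg_right hVm (by positivity)
        _ ≤ n := by linarith
    have hlog := Real.log_two_lt_d9
    have hVβ : V j * β ≤ 2 * n * (3 * 0.6931471808) := by
      calc V j * β ≤ V j * ((q + 1) * (3 * Real.log 2)) :=
            mul_le_mul_of_nonneg_left hβup (hVpos j).le
        _ = (V j * q + V j) * (3 * Real.log 2) := by ring
        _ ≤ (2 * n) * (3 * 0.6931471808) := by
            apply mul_le_mul (by linarith) (by linarith) (by positivity) (by positivity)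
    nlinarith
  refine ⟨fun i => (sg (x i) - sg (x' i)) / 2, ?_, ?_, ?_⟩
  · intro i
    exact PCh.sg_cases _ _
  · intro j
    have h1 : ∑ i, ((((sg (x i) - sg (x' i)) / 2 : ℝ) : ℂ)) • A i j =
        ((1 / 2 : ℝ) : ℂ) • (∑ i, ((sg (x i) : ℝ) : ℂ) • A i j -
          ∑ i, ((sg (x' i) : ℝ) : ℂ) • A i j) := by
      rw [← Finset.sum_sub_distrib, Finset.smul_sum]
      refine Finset.sum_congr rfl fun i _ => ?_
      push_cast
      module
    rw [h1, norm_smul]
    have h2 := hno j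
    have h3 := hTn j
    have h4 : ‖((1 / 2 : ℝ) : ℂ)‖ = 1 / 2 := by
      rw [Complex.norm_real]; norm_num
    rw [h4]
    linarith
  · have hcard : (Finset.univ.filter fun i => (sg (x i) - sg (x' i)) / 2 = 0).card =
        (Finset.univ.filter fun i => x i = x' i).card := by
      congr 1
      ext i
      simp only [Finset.mem_filter, Finset.mem_univ, true_and]
      exact PCh.sg_zero _ _
    rw [hcard]
    set z := (Finset.univ.filter fun i => x i = x' i).card with hz
    rcases min_choice ((4 : ℝ) ^ q) (m / 3) with h | h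
    · left
      have h1 : √(1 / r2) = 1 / 2 ^ q := by
        rw [hr2, h, show (1 : ℝ) / 4 ^ q = (1 / 2 ^ q) ^ 2 by
          rw [div_pow, one_pow, ← pow_mul, mul_comm q 2, pow_mul]; norm_num]
        exact Real.sqrt_sq (by positivity)
      rw [h1] at hxx
      have h2 : (z : ℝ) * 2 ^ q ≤ m := by
        have : (0 : ℝ) < 2 ^ q := by positivity
        calc (z : ℝ) * 2 ^ q ≤ (1 / 2 ^ q * m) * 2 ^ q := mul_le_mul_of_nonneg_right hxx this.le
          _ = m := by field_simp
      exact_mod_cast h2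
    · right
      have h1 : (z : ℝ) ^ 2 ≤ 3 * m := by
        calc (z : ℝ) ^ 2 ≤ (√(1 / r2) * m) ^ 2 := pow_le_pow_left₀ (Nat.cast_nonneg z) hxx 2
          _ = 1 / r2 * m ^ 2 := by rw [mul_pow, Real.sq_sqrt (one_div_pos.2 hr).le]
          _ = 3 * m := by
            have h5 : r2 = m / 3 := hr2.trans h
            rw [h5]
            field_simp
      exact_mod_cast h1

end Pool.Agent.H120R2.GS
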