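import Pool.Agent.H120R2.GS.Stubs2
import Pool.Agent.H120R2.GS.PC

/-!
# Task PC2: partial colouring with a decreasing bound (helper303, after PC.lean)
-/

set_option autoImplicit false

namespace Pool.Agent.H120R2.GS

open scoped BigOperators

namespace PC2h

open PCh

/-- Markov's inequality -/
lemma tail {m d : ℕ} (A : Fin m → Op d) (T η : ℝ) (p : ℕ) (hp : 1 ≤ p) (hT : 0 < T)
    (hAv : Av (fun x => ‖XO A x‖ ^ (2 * p)) ≤ η * T ^ (2 * p)) (k : ℕ) :
    ((Finset.univ.filter fun x : Fin m → Bool => 2 ^ k * T < ‖XO A x‖).card : ℝ) ≤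
      2 ^ m * (η * (1 / 4) ^ k) := by
  classical
  set N := (Finset.univ.filter fun x : Fin m → Bool => 2 ^ k * T < ‖XO A x‖).card with hN
  have h1 : (N : ℝ) * (2 ^ k * T) ^ (2 * p) ≤ ∑ x : Fin m → Bool, ‖XO A x‖ ^ (2 * p) := by
    calc (N : ℝ) * (2 ^ k * T) ^ (2 * p) =
          ∑ _x ∈ Finset.univ.filter (fun x : Fin m → Bool => 2 ^ k * T < ‖XO A x‖), (2 ^ k * T) ^ (2 * p) := by
          rw [Finset.sum_const, nsmul_eq_mul]
      _ ≤ ∑ x ∈ Finset.univ.filter (fun x : Fin m → Bool => 2 ^ k * T < ‖XO A x‖), ‖XO A x‖ ^ (2 * p) :=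
          Finset.sum_le_sum fun x hx => pow_le_pow_left₀ (by positivity) (Finset.mem_filter.1 hx).2.le _
      _ ≤ ∑ x : Fin m → Bool, ‖XO A x‖ ^ (2 * p) :=
          Finset.sum_le_sum_of_subset_of_nonneg (Finset.filter_subset _ _) fun x _ _ => by positivity
  have h2 : ∑ x : Fin m → Bool, ‖XO A x‖ ^ (2 * p) ≤ 2 ^ m * (η * T ^ (2 * p)) := by
    unfold Av at hAv
    rw [div_le_iff₀ (by positivity)] at hAv
    linarith
  have hTp : 0 < T ^ (2 * p) := by positivity
  have h3 : (N : ℝ) * (2 ^ k) ^ (2 * p) ≤ 2 ^ m * η := by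
    have h4 : ((N : ℝ) * (2 ^ k) ^ (2 * p)) * T ^ (2 * p) ≤ (2 ^ m * η) * T ^ (2 * p) := by
      calc ((N : ℝ) * (2 ^ k) ^ (2 * p)) * T ^ (2 * p) = (N : ℝ) * (2 ^ k * T) ^ (2 * p) := by
            rw [mul_pow (2 ^ k) T]; ring
        _ ≤ 2 ^ m * (η * T ^ (2 * p)) := h1.trans h2
        _ = _ := by ring
    exact le_of_mul_le_mul_right h4 hTp
  have h5 : (4 : ℝ) ^ k ≤ (2 ^ k) ^ (2 * p) := by
    have e : ((2 : ℝ) ^ k) ^ (2 * p) = (4 ^ k) ^ p := by
      rw [← pow_mul, show (4 : ℝ) = 2 ^ 2 by norm_num, ← pow_mul, ← pow_mul]; congr 1; ring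
    rw [e]
    exact le_self_pow₀ (one_le_pow₀ (by norm_num)) (by omega)
  have h6 : (N : ℝ) * 4 ^ k ≤ 2 ^ m * η :=
    (mul_le_mul_of_nonneg_left h5 (Nat.cast_nonneg _)).trans h3
  have h7 : (2 : ℝ) ^ m * (η * (1 / 4) ^ k) = 2 ^ m * η / 4 ^ k := by
    rw [one_div, inv_pow]; field_simp
  rw [h7, le_div_iff₀ (by positivity)]
  exact h6

lemma geo2 (K : ℕ) : ∑ k ∈ Finset.Icc 1 K, (1 / 4 : ℝ) ^ (k - 1) * (12 / 5 * k + 77 / 10) ≤ 15 := by
  have h : ∀ K : ℕ, ∑ k ∈ Finset.Icc 1 K, (1 / 4 : ℝ) ^ (k - 1) * (12 / 5 * k + 77 / 10) =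
      218 / 15 - (1 / 4) ^ K * (4 / 3) * (12 / 5 * (K + 4 / 3) + 77 / 10) := by
    intro K
    induction K with
    | zero => norm_num
    | succ K ih =>
      rw [Finset.sum_Icc_succ_top (by omega), ih, Nat.add_sub_cancel]
      push_cast
      ring
  rw [h]
  have : (0 : ℝ) ≤ (1 / 4) ^ K * (4 / 3) * (12 / 5 * (K + 4 / 3) + 77 / 10) := by positivity
  linarith

lemma g_le (d k : ℕ) (R : ℝ) (hd : 1 ≤ d) (hR : 1 ≤ R) :
    g d k (Real.log (32 * R)) ≤ (d : ℝ) ^ 2 * (1 + Real.log d + Real.log R) * (12 / 5 * k + 77 / 10) := by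
  have hd' : (1 : ℝ) ≤ d := by exact_mod_cast hd
  have hd2 : (1 : ℝ) ≤ (d : ℝ) ^ 2 := one_le_pow₀ hd'
  have hld : 0 ≤ Real.log (d : ℝ) := Real.log_nonneg hd'
  have hlR : 0 ≤ Real.log R := Real.log_nonneg hR
  have h2 := Real.log_two_lt_d9
  have h20 : 0 < Real.log 2 := Real.log_pos (by norm_num)
  have e1 : Real.log (2 ^ (k + 3) * (d : ℝ)) = (k + 3) * Real.log 2 + Real.log d := by
    rw [Real.log_mul (by positivity) (by positivity), Real.log_pow]
    push_cast; ring
  have e2 : Real.log (32 * R) = 5 * Real.log 2 + Real.log R := by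
    rw [Real.log_mul (by norm_num) (by positivity), show (32 : ℝ) = 2 ^ 5 by norm_num, Real.log_pow]
    push_cast; ring
  unfold g
  rw [e1, e2]
  have hk : (0 : ℝ) ≤ k := Nat.cast_nonneg k
  generalize Real.log 2 = x at *
  generalize Real.log (d : ℝ) = y at *
  generalize Real.log R = z at *
  generalize (d : ℝ) ^ 2 = D at *
  generalize (k : ℝ) = t at *
  have a1 : 2 * D * ((t + 3) * x + y) ≤ D * (1.3863 * t + 4.159 + 2 * y) := by
    have : 2 * D * ((t + 3) * x + y) = D * ((t + 3) * (2 * x) + 2 * y) := by ring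
    rw [this]
    apply mul_le_mul_of_nonneg_left _ (by linarith)
    nlinarith
  have a2 : t + (5 * x + z) ≤ D * (t + 3.466) + D * z := by
    nlinarith [mul_nonneg (sub_nonneg.2 hd2) hk, mul_nonneg (sub_nonneg.2 hd2) hlR]
  have a3 : D * (1 + y + z) * (12 / 5 * t + 77 / 10) =
      D * (12 / 5 * t + 77 / 10) + D * y * (12 / 5 * t + 77 / 10) + D * z * (12 / 5 * t + 77 / 10) := by ring
  rw [a3]
  have a4 : 2 * (D * y) ≤ D * y * (12 / 5 * t + 77 / 10) := by
    have : 0 ≤ D * y := mul_nonneg (by linarith) hld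
    nlinarith [mul_nonneg this hk]
  have a5 : D * z ≤ D * z * (12 / 5 * t + 77 / 10) := by
    have : 0 ≤ D * z := mul_nonneg (by linarith) hlR
    nlinarith [mul_nonneg this hk]
  nlinarith [mul_nonneg (show (0 : ℝ) ≤ D by linarith) hk]

end PC2h

open PCh in
/-- the class of two sign vectors -/
theorem PC2_core (hCell : P_CELL) (hPat : P_PAT) (hFar : P_FAR)
    (m : ℕ) (ι : Type) [Fintype ι] [DecidableEq ι] (d : ι → ℕ)
    (A : Fin m → (j : ι) → Op (d j)) (T s : ι → ℝ) (β r2 : ℝ) (hd : ∀ j, 1 ≤ d j)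
    (hT : ∀ j, 0 < T j)
    (hβ : 0 ≤ β) (hr : 0 < r2) (hr3 : 3 * r2 ≤ m)
    (hb : (Fintype.card ι : ℝ) * Real.exp (-β) ≤ m / (8 * r2))
    (hs : ∀ (j : ι) (K : ℕ), ∑ k ∈ Finset.Icc 1 K,
      ((Finset.univ.filter fun x : Fin m → Bool => 2 ^ (k - 1) * T j <
        ‖∑ i, ((sg (x i) : ℝ) : ℂ) • A i j‖).card : ℝ) * g (d j) k β ≤ 2 ^ m * s j)
    (hs2 : ∑ j, s j ≤ m / (8 * r2) / 2) :
    ∃ x x' : Fin m → Bool, ((Finset.univ.filter fun i => x i = x' i).card : ℝ) ≤ √(1 / r2) * m ∧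
      ∀ j, ‖∑ i, ((sg (x i) : ℝ) : ℂ) • A i j - ∑ i, ((sg (x' i) : ℝ) : ℂ) • A i j‖ ≤
        2 * T j := by
  classical
  have hmpos : (0 : ℝ) < m := by linarith
  choose c hc using fun (j : ι) (k : ℕ) => hCell (d j) k (T j) (hd j) (hT j)
  set X : (j : ι) → (Fin m → Bool) → Op (d j) := fun j x => ∑ i, ((sg (x i) : ℝ) : ℂ) • A i j
    with hX
  obtain ⟨K, hK⟩ : ∃ K : ℕ, ∀ j x, lev (X j) (T j) x ≤ K := by
    refine ⟨Finset.univ.sup fun p : ι × (Fin m → Bool) => lev (X p.1) (T p.1) p.2, fun j x => ?_⟩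
    exact Finset.le_sup (f := fun p : ι × (Fin m → Bool) => lev (X p.1) (T p.1) p.2)
      (Finset.mem_univ (j, x))
  -- the total cost
  set cost : (Fin m → Bool) → ℝ := fun x => ∑ j, wt (d j) β (lab (X j) (T j) (c j) x) with hcost
  have hsum : ∀ j, ∑ x, wt (d j) β (lab (X j) (T j) (c j) x) ≤ 2 ^ m * s j := by
    intro j
    refine (sum_cost (X j) (T j) (c j) (hT j) K β hβ (hd j) (hK j)).trans ?_
    refine le_trans (le_of_eq ?_) (hs j K)
    refine Finset.sum_congr rfl fun k _ => ?_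
    congr 3
  have htot : ∑ x, cost x ≤ 2 ^ m * (m / (8 * r2)) / 2 := by
    calc ∑ x, cost x = ∑ j, ∑ x, wt (d j) β (lab (X j) (T j) (c j) x) := by
          rw [hcost, Finset.sum_comm]
      _ ≤ ∑ j : ι, 2 ^ m * s j := Finset.sum_le_sum fun j _ => hsum j
      _ = 2 ^ m * ∑ j, s j := by rw [Finset.mul_sum]
      _ ≤ _ := by
          have : (0 : ℝ) ≤ 2 ^ m := by positivity
          nlinarith [mul_le_mul_of_nonneg_left hs2 this]
  -- Markov
  set L : ℝ := m / (8 * r2) with hL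
  have hLpos : 0 < L := by positivity
  set G : Finset (Fin m → Bool) := Finset.univ.filter fun x => cost x ≤ L with hG
  have hwt : ∀ j l, 0 ≤ wt (d j) β l := by
    intro j l
    cases l with
    | none => exact le_rfl
    | some p => exact g_nonneg _ _ _ (hd j) hβ
  have hcost0 : ∀ x, 0 ≤ cost x := fun x => Finset.sum_nonneg fun j _ => hwt j _
  have hGc : ((Finset.univ.filter fun x => ¬ cost x ≤ L).card : ℝ) * L ≤ ∑ x, cost x := by
    calc ((Finset.univ.filter fun x => ¬ cost x ≤ L).card : ℝ) * L =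
          ∑ _x ∈ Finset.univ.filter (fun x => ¬ cost x ≤ L), L := by
          rw [Finset.sum_const, nsmul_eq_mul]
      _ ≤ ∑ x ∈ Finset.univ.filter (fun x => ¬ cost x ≤ L), cost x :=
          Finset.sum_le_sum fun x hx => (not_le.1 (Finset.mem_filter.1 hx).2).le
      _ ≤ ∑ x, cost x := Finset.sum_le_sum_of_subset_of_nonneg (Finset.filter_subset _ _)
          fun x _ _ => hcost0 x
  have hcardU : (G.card : ℝ) + ((Finset.univ.filter fun x => ¬ cost x ≤ L).card : ℝ) = 2 ^ m := by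
    rw [hG]
    have := Finset.card_filter_add_card_filter_not (s := (Finset.univ : Finset (Fin m → Bool)))
      (fun x => cost x ≤ L)
    have h2 : (Finset.univ : Finset (Fin m → Bool)).card = 2 ^ m := by simp
    rw [h2] at this
    exact_mod_cast this
  have hGcard : (2 : ℝ) ^ m / 2 ≤ G.card := by
    have h1 : ((Finset.univ.filter fun x => ¬ cost x ≤ L).card : ℝ) * L ≤ (2 ^ m / 2) * L := by
      refine hGc.trans (htot.trans (le_of_eq ?_))
      ring
    have h2 := le_of_mul_le_mul_right h1 hLpos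
    linarith
  -- patterns
  set P : Finset (ι → Lb) := (Fintype.piFinset fun j => Sj (d j) K).filter
    (fun f => ∑ j, wt (d j) β (f j) ≤ L) with hP
  have hPcard : (P.card : ℝ) ≤ Real.exp (2 * L) := by
    have h1 := hPat ι Lb none (fun j => Sj (d j) K) (fun j => wt (d j) β) (Real.exp (-β)) L
      (fun j => rfl) (fun j => sum_wt (d j) K β (hd j))
    refine h1.trans (Real.exp_le_exp.2 ?_)
    linarith
  have hmaps : ∀ x ∈ G, (fun x => fun j => lab (X j) (T j) (c j) x) x ∈ P := by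
    intro x hx
    rw [hP, Finset.mem_filter, Fintype.mem_piFinset]
    refine ⟨fun j => lab_mem (X j) (T j) (c j) (hT j) K (hc j) x (hK j x), ?_⟩
    exact (Finset.mem_filter.1 hx).2
  have hPne : P.Nonempty := by
    have : G.Nonempty := by
      rw [← Finset.card_pos]
      have : (0 : ℝ) < G.card := lt_of_lt_of_le (by positivity) hGcard
      exact_mod_cast this
    obtain ⟨x, hx⟩ := this
    exact ⟨_, hmaps x hx⟩
  have hhalf : Real.exp (-(2 * L)) ≤ 1 / 2 := by
    have h1 : Real.log 2 ≤ 2 * L := by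
      have : (3 : ℝ) / 4 ≤ 2 * L := by
        rw [hL, show 2 * ((m : ℝ) / (8 * r2)) = m / (4 * r2) by ring, le_div_iff₀ (by positivity)]
        linarith
      have := Real.log_two_lt_d9
      linarith
    calc Real.exp (-(2 * L)) ≤ Real.exp (-Real.log 2) := Real.exp_le_exp.2 (by linarith)
      _ = 1 / 2 := by rw [Real.exp_neg, Real.exp_log (by norm_num)]; norm_num
  obtain ⟨f, -, hf⟩ := Finset.exists_le_card_fiber_of_nsmul_le_card_of_maps_to (M := ℝ)
    (b := 2 ^ m * Real.exp (-(4 * L))) hmaps hPne (by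
      rw [nsmul_eq_mul]
      refine le_trans ?_ hGcard
      calc (P.card : ℝ) * (2 ^ m * Real.exp (-(4 * L))) ≤
            Real.exp (2 * L) * (2 ^ m * Real.exp (-(4 * L))) :=
            mul_le_mul_of_nonneg_right hPcard (by positivity)
        _ = 2 ^ m * Real.exp (-(2 * L)) := by
            rw [mul_left_comm, ← Real.exp_add]
            congr 2
            ring
        _ ≤ 2 ^ m * (1 / 2) := mul_le_mul_of_nonneg_left hhalf (by positivity)
        _ = 2 ^ m / 2 := by ring)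
  obtain ⟨x, hx, x', hx', hxx⟩ := hFar m
    (G.filter fun x => (fun x => fun j => lab (X j) (T j) (c j) x) x = f) (1 / (2 * r2))
    (by positivity) (by
      refine le_trans (le_of_eq ?_) hf
      congr 2
      rw [hL]
      field_simp
      norm_num)
  refine ⟨x, x', ?_, ?_⟩
  · convert hxx using 3
    field_simp
  · intro j
    have h1 := (Finset.mem_filter.1 hx).2
    have h2 := (Finset.mem_filter.1 hx').2
    have h3 : lab (X j) (T j) (c j) x = lab (X j) (T j) (c j) x' := by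
      have h4 := congrFun h1 j
      have h5 := congrFun h2 j
      simp only at h4 h5
      rw [h4, h5]
    exact close (X j) (T j) (c j) (hT j) (hc j) x x' h3

open PC2h in
theorem T_PC2 : P_Q → P_CELL → P_PAT → P_FAR → P_PC2 := by
  classical
  rintro ⟨C0, hC0, hQ⟩ hCell hPat hFar
  refine ⟨max C0 12, le_max_of_le_left hC0, ?_⟩
  intro n m ι _ _ d A hm hmn hd hsq hA hcov
  set C := max C0 12 with hC
  have hC12 : (12 : ℝ) ≤ C := le_max_right _ _
  have hCC0 : C0 ≤ C := le_max_left _ _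
  have hm' : (1 : ℝ) ≤ m := by exact_mod_cast hm
  have hmn' : (m : ℝ) ≤ n := by exact_mod_cast hmn
  have hn' : (1 : ℝ) ≤ n := hm'.trans hmn'
  have hmpos : (0 : ℝ) < m := by linarith
  have hnpos : (0 : ℝ) < n := by linarith
  have hd' : ∀ j, (1 : ℝ) ≤ d j := fun j => by exact_mod_cast hd j
  set ρ : ℝ := ((m : ℝ) / n) ^ ((1 : ℝ) / 16) with hρ
  have hρ0 : 0 < ρ := by positivity
  -- √n ρ ≥ 1
  have hbig : 1 ≤ √n * ρ := by
    have h1 : ((1 : ℝ) / n) ^ ((1 : ℝ) / 2) ≤ ρ := by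
      calc ((1 : ℝ) / n) ^ ((1 : ℝ) / 2) ≤ ((1 : ℝ) / n) ^ ((1 : ℝ) / 16) := by
            apply Real.rpow_le_rpow_of_exponent_ge (by positivity)
            · rw [div_le_one hnpos]; exact hn'
            · norm_num
        _ ≤ ρ := by
            apply Real.rpow_le_rpow (by positivity) _ (by norm_num)
            exact div_le_div_of_nonneg_right hm' hnpos.le
    have h2 : √(n : ℝ) * ((1 : ℝ) / n) ^ ((1 : ℝ) / 2) = 1 := by
      rw [← Real.sqrt_eq_rpow, ← Real.sqrt_mul hnpos.le, mul_one_div_cancel hnpos.ne', Real.sqrt_one]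
    calc 1 = √(n : ℝ) * ((1 : ℝ) / n) ^ ((1 : ℝ) / 2) := h2.symm
      _ ≤ √n * ρ := mul_le_mul_of_nonneg_left h1 (Real.sqrt_nonneg _)
  set T : ℝ := C * √n * ρ with hT
  have hTpos : 0 < T := by
    have : 0 < √n * ρ := by linarith
    rw [hT, mul_assoc]
    positivity
  by_cases hm12 : m < 12
  · refine ⟨fun _ => 1, fun _ => Or.inr (Or.inl rfl), ?_, ?_⟩
    · intro j
      calc ‖∑ i, (((1 : ℝ) : ℝ) : ℂ) • A i j‖ ≤ ∑ i : Fin m, ‖((1 : ℝ) : ℂ) • A i j‖ := norm_sum_le _ _
        _ ≤ ∑ _i : Fin m, (1 : ℝ) := by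
            refine Finset.sum_le_sum fun i _ => ?_
            rw [norm_smul]
            simpa using hA i j
        _ = m := by simp
        _ ≤ 12 := by
            have : m ≤ 12 := by omega
            exact_mod_cast this
        _ ≤ C * (√n * ρ) := by nlinarith
        _ = C * √n * ρ := by ring
    · simp
  · push Not at hm12
    have hm12' : (12 : ℝ) ≤ m := by exact_mod_cast hm12
    set R : ℝ := (n : ℝ) / m with hR
    have hR1 : 1 ≤ R := by rw [hR, le_div_iff₀ hmpos]; linarith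
    have hRpos : 0 < R := by linarith
    set β : ℝ := Real.log (32 * R) with hβd
    have hβ : 0 ≤ β := Real.log_nonneg (by linarith)
    have hexpβ : Real.exp (-β) = 1 / (32 * R) := by
      rw [Real.exp_neg, hβd, Real.exp_log (by positivity), one_div]
    have hsqr : ∑ j, (d j : ℝ) ^ 2 ≤ n := by exact_mod_cast hsq
    have hdn : ∀ j, d j ^ 2 ≤ n := fun j =>
      (Finset.single_le_sum (f := fun j => d j ^ 2) (fun i _ => Nat.zero_le _) (Finset.mem_univ j)).trans hsq
    have hι : (Fintype.card ι : ℝ) ≤ n := by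
      calc (Fintype.card ι : ℝ) = ∑ _j : ι, (1 : ℝ) := by simp
        _ ≤ ∑ j, (d j : ℝ) ^ 2 := Finset.sum_le_sum fun j _ => one_le_pow₀ (hd' j)
        _ ≤ n := hsqr
    -- the cost of one block
    have hcostj : ∀ (j : ι) (K : ℕ), ∑ k ∈ Finset.Icc 1 K,
        ((Finset.univ.filter fun x : Fin m → Bool => 2 ^ (k - 1) * T <
          ‖∑ i, ((sg (x i) : ℝ) : ℂ) • A i j‖).card : ℝ) * PCh.g (d j) k β ≤
          2 ^ m * ((d j : ℝ) ^ 2 / (64 * R)) := by
      intro j K
      obtain ⟨p, hp, hAv⟩ := hQ n m (d j) (fun i => A i j) hm hmn (hd j) (hdn j) (fun i => hA i j) (hcov j)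
      have hld : 0 ≤ Real.log (d j : ℝ) := Real.log_nonneg (hd' j)
      have hlR : 0 ≤ Real.log R := Real.log_nonneg hR1
      set ℓ : ℝ := 1 + Real.log (d j : ℝ) + Real.log R with hℓ
      have hℓ1 : 1 ≤ ℓ := by linarith
      set η : ℝ := ((m : ℝ) / n) / (1000 * ℓ) with hη
      have hη0 : 0 ≤ η := by positivity
      have hAv' : Av (fun x => ‖XO (fun i => A i j) x‖ ^ (2 * p)) ≤ η * T ^ (2 * p) := by
        refine hAv.trans ?_
        apply mul_le_mul_of_nonneg_left _ hη0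
        apply pow_le_pow_left₀ (by positivity)
        rw [hT]
        apply mul_le_mul_of_nonneg_right _ hρ0.le
        exact mul_le_mul_of_nonneg_right hCC0 (Real.sqrt_nonneg _)
      have hstep : ∀ k ∈ Finset.Icc 1 K, ((Finset.univ.filter fun x : Fin m → Bool => 2 ^ (k - 1) * T <
          ‖∑ i, ((sg (x i) : ℝ) : ℂ) • A i j‖).card : ℝ) * PCh.g (d j) k β ≤
          (2 ^ m * (η * ((d j : ℝ) ^ 2 * ℓ))) * ((1 / 4 : ℝ) ^ (k - 1) * (12 / 5 * k + 77 / 10)) := by
        intro k _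
        have h1 := tail (fun i => A i j) T η p hp hTpos hAv' (k - 1)
        have h2 := g_le (d j) k R (hd j) hR1
        have h3 : 0 ≤ PCh.g (d j) k β := PCh.g_nonneg (d j) k β (hd j) hβ
        calc _ ≤ (2 ^ m * (η * (1 / 4) ^ (k - 1))) * ((d j : ℝ) ^ 2 * ℓ * (12 / 5 * k + 77 / 10)) := by
              apply mul_le_mul h1 h2 h3 (by positivity)
          _ = _ := by ring
      calc _ ≤ ∑ k ∈ Finset.Icc 1 K, (2 ^ m * (η * ((d j : ℝ) ^ 2 * ℓ))) *
            ((1 / 4 : ℝ) ^ (k - 1) * (12 / 5 * k + 77 / 10)) := Finset.sum_le_sum hstep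
        _ = (2 ^ m * (η * ((d j : ℝ) ^ 2 * ℓ))) *
            ∑ k ∈ Finset.Icc 1 K, ((1 / 4 : ℝ) ^ (k - 1) * (12 / 5 * k + 77 / 10)) := by rw [Finset.mul_sum]
        _ ≤ (2 ^ m * (η * ((d j : ℝ) ^ 2 * ℓ))) * 15 :=
            mul_le_mul_of_nonneg_left (geo2 K) (by positivity)
        _ = 2 ^ m * ((d j : ℝ) ^ 2 * (15 / 1000) * ((m : ℝ) / n)) := by
            rw [hη]
            have : ℓ ≠ 0 := by linarith
            field_simp
        _ ≤ 2 ^ m * ((d j : ℝ) ^ 2 / (64 * R)) := by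
            apply mul_le_mul_of_nonneg_left _ (by positivity)
            have e1 : (d j : ℝ) ^ 2 / (64 * R) = (d j : ℝ) ^ 2 * (1 / 64) * ((m : ℝ) / n) := by
              rw [hR]; field_simp
            rw [e1]
            apply mul_le_mul_of_nonneg_right _ (by positivity)
            apply mul_le_mul_of_nonneg_left (by norm_num) (by positivity)
    obtain ⟨x, x', hxx, hno⟩ := PC2_core hCell hPat hFar m ι d A (fun _ => T)
      (fun j => (d j : ℝ) ^ 2 / (64 * R)) β 4 hd (fun _ => hTpos) hβ (by norm_num) (by linarith)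
      (by
        rw [hexpβ]
        have e1 : (m : ℝ) / (8 * 4) = n * (1 / (32 * R)) := by rw [hR]; field_simp; norm_num
        rw [e1]
        exact mul_le_mul_of_nonneg_right hι (by positivity))
      hcostj (by
        rw [← Finset.sum_div]
        have e1 : (m : ℝ) / (8 * 4) / 2 = n / (64 * R) := by rw [hR]; field_simp; norm_num
        rw [e1]
        exact div_le_div_of_nonneg_right hsqr (by positivity))
    refine ⟨fun i => (sg (x i) - sg (x' i)) / 2, ?_, ?_, ?_⟩
    · intro i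
      exact PCh.sg_cases _ _
    · intro j
      have h1 : ∑ i, ((((sg (x i) - sg (x' i)) / 2 : ℝ) : ℂ)) • A i j =
          ((1 / 2 : ℝ) : ℂ) • (∑ i, ((sg (x i) : ℝ) : ℂ) • A i j -
            ∑ i, ((sg (x' i) : ℝ) : ℂ) • A i j) := by
        rw [← Finset.sum_sub_distrib, Finset.smul_sum]
        refine Finset.sum_congr rfl fun i _ => ?_
        push_cast
        module
      rw [h1, norm_smul]
      have h2 := hno j
      have h4 : ‖((1 / 2 : ℝ) : ℂ)‖ = 1 / 2 := by
        rw [Complex.norm_real]; norm_num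
      rw [h4]
      show 1 / 2 * _ ≤ T
      linarith
    · have hcard : (Finset.univ.filter fun i => (sg (x i) - sg (x' i)) / 2 = 0).card =
          (Finset.univ.filter fun i => x i = x' i).card := by
        congr 1
        ext i
        simp only [Finset.mem_filter, Finset.mem_univ, true_and]
        exact PCh.sg_zero _ _
      rw [hcard]
      have h1 : √((1 : ℝ) / 4) = 1 / 2 := by
        rw [show (1 : ℝ) / 4 = (1 / 2) ^ 2 by norm_num]
        exact Real.sqrt_sq (by norm_num)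
      rw [h1] at hxx
      have h2 : 2 * ((Finset.univ.filter fun i => x i = x' i).card : ℝ) ≤ m := by linarith
      exact_mod_cast h2

end Pool.Agent.H120R2.GS
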