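import Pool.Agent.H120R2.GS.Stubs2

/-!
# Task Q: a good moment always exists
-/

set_option autoImplicit false

namespace Pool.Agent.H120R2.GS

open scoped BigOperators Matrix Matrix.Norms.L2Operator

namespace Qh

/-- the power of the bound -/
theorem bound_pow (C : ℝ) (n m p : ℕ) (hm : 1 ≤ m) (hmn : m ≤ n) :
    (C * √(n : ℝ) * ((m : ℝ) / n) ^ ((1 : ℝ) / 16)) ^ (2 * p) =
      C ^ (2 * p) * (n : ℝ) ^ p * Real.exp (-(p * Real.log ((n : ℝ) / m) / 8)) := by
  have hm0 : (0 : ℝ) < m := by exact_mod_cast (by omega : 0 < m)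
  have hn0 : (0 : ℝ) < n := by exact_mod_cast (by omega : 0 < n)
  have h1 : ((m : ℝ) / n) ^ ((1 : ℝ) / 16) = Real.exp (-(Real.log ((n : ℝ) / m)) / 16) := by
    rw [Real.rpow_def_of_pos (by positivity)]
    congr 1
    rw [Real.log_div hm0.ne' hn0.ne', Real.log_div hn0.ne' hm0.ne']
    ring
  rw [h1, mul_pow, mul_pow, pow_mul (√(n : ℝ)), Real.sq_sqrt hn0.le, ← Real.exp_nat_mul]
  congr 2
  push_cast
  ring

/-- elementary growth -/
theorem growth {L : ℝ} (hL : 10 ^ 20 ≤ L) : 200 * (5 * L) ^ 7 ≤ Real.exp (L / 3) ∧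
    2000 * (1 + 2 * L) ≤ Real.exp (L / 8) ∧ 20 * L ≤ Real.exp L := by
  have hL0 : 0 < L := lt_of_lt_of_le (by norm_num) hL
  refine ⟨?_, ?_, ?_⟩
  · have h1 := Real.pow_div_factorial_le_exp (L / 3) (by positivity) 8
    refine le_trans ?_ h1
    have h2 : (L / 3) ^ 8 / (Nat.factorial 8 : ℝ) = L ^ 7 * (L / (3 ^ 8 * 40320)) := by
      norm_num [Nat.factorial]
      ring
    rw [h2]
    have h3 : 200 * (5 * L) ^ 7 = L ^ 7 * (200 * 5 ^ 7) := by ring
    rw [h3]
    refine mul_le_mul_of_nonneg_left ?_ (by positivity)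
    rw [le_div_iff₀ (by norm_num)]
    refine le_trans ?_ hL
    norm_num
  · have h1 := Real.pow_div_factorial_le_exp (L / 8) (by positivity) 2
    refine le_trans ?_ h1
    norm_num [Nat.factorial]
    nlinarith
  · have h1 := Real.pow_div_factorial_le_exp L hL0.le 2
    refine le_trans ?_ h1
    norm_num [Nat.factorial]
    nlinarith

/-- the case of large dimension -/
theorem large (hMOM : P_MOM2) (n m d : ℕ) (A : Fin m → Op d) (hm : 1 ≤ m) (hmn : m ≤ n)
    (hd : 1 ≤ d) (hdn : d ^ 2 ≤ n) (hA : ∀ i, ‖A i‖ ≤ 1) (hCov : CovO A ((n : ℝ) / d)) (C : ℝ)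
    (hC : 100 ≤ C) (hbig : 10 ^ 20 + 16 * Real.log ((n : ℝ) / m) ≤ Real.log (d : ℝ)) :
    ∃ p : ℕ, 1 ≤ p ∧ Av (fun x => ‖XO A x‖ ^ (2 * p)) ≤
      ((m : ℝ) / n) / (1000 * (1 + Real.log d + Real.log ((n : ℝ) / m))) *
        (C * √n * ((m : ℝ) / n) ^ ((1 : ℝ) / 16)) ^ (2 * p) := by
  have hm0 : (0 : ℝ) < m := by exact_mod_cast (by omega : 0 < m)
  have hn0 : (0 : ℝ) < n := by exact_mod_cast (by omega : 0 < n)
  have hd0 : (0 : ℝ) < d := by exact_mod_cast (by omega : 0 < d)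
  have hd1 : (1 : ℝ) ≤ d := by exact_mod_cast hd
  have hmn' : (m : ℝ) ≤ n := by exact_mod_cast hmn
  obtain ⟨lR, hlR⟩ : ∃ x, x = Real.log ((n : ℝ) / m) := ⟨_, rfl⟩
  rw [← hlR] at hbig ⊢
  have hlR0 : 0 ≤ lR := by
    rw [hlR]
    exact Real.log_nonneg (by rw [le_div_iff₀ hm0]; linarith)
  have hR : (n : ℝ) / m = Real.exp lR := by
    rw [hlR]
    exact (Real.exp_log (by positivity)).symm
  have hr : (m : ℝ) / n = Real.exp (-lR) := by
    rw [Real.exp_neg, ← hR, inv_div]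
  have hmr : (m : ℝ) = Real.exp (-lR) * n := by
    rw [← hr]; field_simp
  obtain ⟨L, hL⟩ : ∃ x, x = Real.log (2 * (d : ℝ)) := ⟨_, rfl⟩
  have hexpL : Real.exp L = 2 * d := by
    rw [hL]
    exact Real.exp_log (by positivity)
  have hLd : Real.log (d : ℝ) ≤ L := by
    rw [hL]
    exact Real.log_le_log hd0 (by linarith)
  have hL20 : 10 ^ 20 ≤ L := by linarith
  have hL16 : 16 * lR ≤ L := by
    have : (0 : ℝ) ≤ 10 ^ 20 := by norm_num
    linarith
  have hL0 : 0 < L := lt_of_lt_of_le (by norm_num) hL20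
  obtain ⟨g1, g2, g3⟩ := growth hL20
  -- `ℓ = log max (R, 2)`
  have hlog2 : 2 / 3 < Real.log 2 := by
    have := Real.log_two_gt_d9
    linarith
  have hlog2' : Real.log 2 < 1 := by
    have := Real.log_two_lt_d9
    linarith
  obtain ⟨l, hl⟩ : ∃ x, x = max lR (Real.log 2) := ⟨_, rfl⟩
  have hl1 : lR ≤ l := by rw [hl]; exact le_max_left _ _
  have hl2 : Real.log 2 ≤ l := by rw [hl]; exact le_max_right _ _
  have hl3 : l ≤ Real.log 2 + lR := by
    rw [hl]
    exact max_le (by linarith) (by linarith)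
  have hl0 : 0 < l := by linarith
  have hlL : l ≤ L := by
    have : (1 : ℝ) ≤ 10 ^ 20 := by norm_num
    linarith
  -- the exponent
  obtain ⟨P, hP⟩ : ∃ P : ℕ, P = ⌊10 * L / (3 * l)⌋₊ := ⟨_, rfl⟩
  have hP1 : (P : ℝ) * l ≤ 10 * L / 3 := by
    have h1 : (P : ℝ) ≤ 10 * L / (3 * l) := by rw [hP]; exact Nat.floor_le (by positivity)
    calc (P : ℝ) * l ≤ 10 * L / (3 * l) * l := mul_le_mul_of_nonneg_right h1 hl0.le
      _ = 10 * L / 3 := by field_simp
  have hP2 : 10 * L / 3 - l ≤ P * l := by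
    have h1 : 10 * L / (3 * l) < P + 1 := by rw [hP]; exact Nat.lt_floor_add_one _
    have h2 : 10 * L / (3 * l) * l ≤ (P + 1) * l := mul_le_mul_of_nonneg_right h1.le hl0.le
    have h3 : 10 * L / (3 * l) * l = 10 * L / 3 := by field_simp
    rw [h3] at h2
    linarith
  have hP5 : (P : ℝ) ≤ 5 * L := by
    have h1 : (P : ℝ) * (2 / 3) ≤ P * l := mul_le_mul_of_nonneg_left (by linarith) (Nat.cast_nonneg _)
    linarith
  have hPpos : 1 ≤ P := by
    by_contra hcon
    have h0 : P = 0 := by omega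
    rw [h0] at hP2
    push_cast at hP2
    linarith
  have hP0 : (0 : ℝ) ≤ P := Nat.cast_nonneg P
  -- the parameter `K`
  obtain ⟨K, hK⟩ : ∃ K, K = 10000 * (n : ℝ) * Real.exp (-(l / 2)) := ⟨_, rfl⟩
  have hK1 : K ≤ 10000 * n := by
    have h1 : Real.exp (-(l / 2)) ≤ 1 := Real.exp_le_one_iff.2 (by linarith)
    rw [hK]
    calc 10000 * (n : ℝ) * Real.exp (-(l / 2)) ≤ 10000 * n * 1 := by gcongr
      _ = _ := by ring
  have hK0 : 0 < K := by rw [hK]; positivity
  have hexp2 : Real.exp (Real.log 2) = 2 := Real.exp_log (by norm_num)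
  have hK2 : 1000 * √((m : ℝ) * n) ≤ K := by
    have h1 : Real.exp (-l) ≥ Real.exp (-lR) / 2 := by
      have h2 : Real.exp (-lR) / 2 = Real.exp (-(Real.log 2 + lR)) := by
        rw [neg_add, Real.exp_add, Real.exp_neg (Real.log 2), hexp2]
        ring
      rw [h2]
      exact Real.exp_le_exp.2 (by linarith)
    have h3 : (1000 * √((m : ℝ) * n)) ^ 2 ≤ K ^ 2 := by
      rw [mul_pow, Real.sq_sqrt (by positivity), hK, mul_pow, mul_pow, ← Real.exp_nat_mul]
      have h4 : ((2 : ℕ) : ℝ) * -(l / 2) = -l := by push_cast; ring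
      rw [h4]
      have h5 : (m : ℝ) * n = Real.exp (-lR) * (n : ℝ) ^ 2 := by rw [hmr]; ring
      rw [h5]
      have h6 := Real.exp_pos (-lR)
      have h7 : 0 < (n : ℝ) ^ 2 := by positivity
      calc (1000 : ℝ) ^ 2 * (Real.exp (-lR) * (n : ℝ) ^ 2)
          ≤ 10000 ^ 2 * (n : ℝ) ^ 2 * (Real.exp (-lR) / 2) := by nlinarith [mul_pos h6 h7]
        _ ≤ _ := by gcongr
    exact le_of_sq_le_sq h3 hK0.le
  have hKP : K ^ P = (10000 * (n : ℝ)) ^ P * Real.exp (-(P * l / 2)) := by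
    rw [hK, mul_pow, ← Real.exp_nat_mul]
    congr 2
    ring
  have hd2 : (d : ℝ) ^ 2 = Real.exp (2 * L) / 4 := by
    rw [show 2 * L = L + L by ring, Real.exp_add, hexpL]
    ring
  have hMcond : 50 * (P : ℝ) ^ 7 * (10000 * n) ^ P ≤ (d : ℝ) ^ 2 * K ^ P := by
    rw [hKP]
    have h1 : 200 * (P : ℝ) ^ 7 ≤ Real.exp (L / 3) := by
      refine le_trans ?_ g1
      gcongr
    have h2 : Real.exp (L / 3) ≤ Real.exp (2 * L) * Real.exp (-(P * l / 2)) := by
      rw [← Real.exp_add]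
      exact Real.exp_le_exp.2 (by linarith)
    have h3 : 50 * (P : ℝ) ^ 7 ≤ (d : ℝ) ^ 2 * Real.exp (-(P * l / 2)) := by
      rw [hd2]
      linarith
    calc 50 * (P : ℝ) ^ 7 * (10000 * n) ^ P
        ≤ ((d : ℝ) ^ 2 * Real.exp (-(P * l / 2))) * (10000 * n) ^ P := by gcongr
      _ = _ := by ring
  have h2P : 2 * P ≤ d := by
    have h1 : (2 : ℝ) * P ≤ d := by
      have : 10 * L ≤ d := by linarith
      linarith
    exact_mod_cast h1
  refine ⟨P, hPpos, ?_⟩
  have hmain := hMOM n m d P A K hm hmn hd hdn h2P hA hCov hK2 hK1 hMcond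
  refine hmain.trans ?_
  rw [bound_pow C n m P hm hmn, ← hlR, hr, hKP]
  have hld0 : 0 ≤ Real.log (d : ℝ) := Real.log_nonneg hd1
  have hΛ : 1 + Real.log d + lR ≤ 1 + 2 * L := by linarith
  have hΛ0 : 0 < 1 + Real.log d + lR := by linarith
  have hCP : (10000 : ℝ) ^ P ≤ C ^ (2 * P) := by
    rw [pow_mul]
    have : (10000 : ℝ) ≤ C ^ 2 := by nlinarith
    gcongr
  -- the key comparison of exponentials
  have hkey : 1000 * (1 + Real.log d + lR) * (Real.exp L * Real.exp (-(P * l / 2))) ≤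
      Real.exp (-lR) * Real.exp (-(P * lR / 8)) := by
    have h1 : 1000 * (1 + Real.log d + lR) ≤ Real.exp (L / 8) / 2 := by linarith
    have h2 : Real.exp (L / 8) / 2 * (Real.exp L * Real.exp (-(P * l / 2))) ≤
        Real.exp (-lR) * Real.exp (-(P * lR / 8)) := by
      have h3 : Real.exp (L / 8) / 2 = Real.exp (L / 8 - Real.log 2) := by
        rw [Real.exp_sub, hexp2]
      rw [h3, ← Real.exp_add, ← Real.exp_add, ← Real.exp_add]
      refine Real.exp_le_exp.2 ?_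
      have h4 : (P : ℝ) * lR ≤ P * l := mul_le_mul_of_nonneg_left hl1 hP0
      linarith
    have h5 : 0 ≤ Real.exp L * Real.exp (-(P * l / 2)) := by positivity
    exact (mul_le_mul_of_nonneg_right h1 h5).trans h2
  have e1 : Real.exp (-lR) / (1000 * (1 + Real.log d + lR)) *
      (C ^ (2 * P) * (n : ℝ) ^ P * Real.exp (-(P * lR / 8))) =
      (C ^ (2 * P) * (n : ℝ) ^ P * (Real.exp (-lR) * Real.exp (-(P * lR / 8)))) /
        (1000 * (1 + Real.log d + lR)) := by ring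
  rw [e1, le_div_iff₀ (by positivity), ← hexpL, mul_pow]
  calc Real.exp L * ((10000 : ℝ) ^ P * (n : ℝ) ^ P * Real.exp (-(P * l / 2))) *
        (1000 * (1 + Real.log d + lR))
      = (10000 : ℝ) ^ P * (n : ℝ) ^ P * (1000 * (1 + Real.log d + lR) *
          (Real.exp L * Real.exp (-(P * l / 2)))) := by ring
    _ ≤ C ^ (2 * P) * (n : ℝ) ^ P * (Real.exp (-lR) * Real.exp (-(P * lR / 8))) := by
        refine mul_le_mul ?_ hkey ?_ ?_
        · gcongr
        · positivity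
        · positivity

end Qh

open Qh in
theorem T_Q : P_MOM2 → P_KH2 → P_Q := by
  intro hMOM hKH
  set C4 : ℝ := Real.exp (10 ^ 20) with hC4
  have hC41 : 1 ≤ C4 := Real.one_le_exp (by norm_num)
  set M : ℝ := 2000 * C4 * 192 ^ 32 * (18 + 10 ^ 20) with hM
  have hM0 : 0 < M := by positivity
  refine ⟨100 + M, by linarith, ?_⟩
  intro n m d A hm hmn hd hdn hA hCov
  have hm0 : (0 : ℝ) < m := by exact_mod_cast (by omega : 0 < m)
  have hn0 : (0 : ℝ) < n := by exact_mod_cast (by omega : 0 < n)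
  have hd0 : (0 : ℝ) < d := by exact_mod_cast (by omega : 0 < d)
  have hd1 : (1 : ℝ) ≤ d := by exact_mod_cast hd
  have hmn' : (m : ℝ) ≤ n := by exact_mod_cast hmn
  set lR : ℝ := Real.log ((n : ℝ) / m) with hlR
  have hlR0 : 0 ≤ lR := Real.log_nonneg (by rw [le_div_iff₀ hm0]; linarith)
  have hR : (n : ℝ) / m = Real.exp lR := (Real.exp_log (by positivity)).symm
  have hr : (m : ℝ) / n = Real.exp (-lR) := by
    rw [Real.exp_neg, ← hR, inv_div]
  have hmr : (m : ℝ) = Real.exp (-lR) * n := by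
    rw [← hr]; field_simp
  have hld0 : 0 ≤ Real.log (d : ℝ) := Real.log_nonneg hd1
  set Λ : ℝ := 1 + Real.log d + lR with hΛ
  have hΛ0 : 0 < Λ := by positivity
  set C : ℝ := 100 + M with hC
  have hC1 : 1 ≤ C := by linarith
  by_cases hcase : (d : ℝ) < C4 * Real.exp (16 * lR)
  · -- small dimension
    refine ⟨32, by norm_num, ?_⟩
    rw [bound_pow C n m 32 hm hmn, ← hlR, hr]
    have h1 := hKH m d 32 A hd hA hm (by norm_num)
    refine h1.trans ?_
    have hlogd : Real.log d ≤ 10 ^ 20 + 16 * lR := by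
      have h2 := Real.log_le_log hd0 hcase.le
      rw [hC4, ← Real.exp_add, Real.log_exp] at h2
      exact h2
    have hΛr : Λ * Real.exp (-lR) ≤ 18 + 10 ^ 20 := by
      have h2 : Λ ≤ 1 + 10 ^ 20 + 17 * lR := by rw [hΛ]; linarith
      have h3 : lR * Real.exp (-lR) ≤ 1 := by
        have h4 : lR ≤ Real.exp lR := by
          have := Real.add_one_le_exp lR
          linarith
        calc lR * Real.exp (-lR) ≤ Real.exp lR * Real.exp (-lR) :=
              mul_le_mul_of_nonneg_right h4 (Real.exp_pos _).le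
          _ = 1 := by rw [← Real.exp_add]; simp
      have h5 : Real.exp (-lR) ≤ 1 := Real.exp_le_one_iff.2 (by linarith)
      have h6 := Real.exp_pos (-lR)
      calc Λ * Real.exp (-lR) ≤ (1 + 10 ^ 20 + 17 * lR) * Real.exp (-lR) :=
            mul_le_mul_of_nonneg_right h2 h6.le
        _ = (1 + 10 ^ 20) * Real.exp (-lR) + 17 * (lR * Real.exp (-lR)) := by ring
        _ ≤ (1 + 10 ^ 20) * 1 + 17 * 1 := by gcongr
        _ = 18 + 10 ^ 20 := by norm_num
    have hdr : (d : ℝ) * Real.exp (-(16 * lR)) ≤ C4 := by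
      calc (d : ℝ) * Real.exp (-(16 * lR)) ≤ C4 * Real.exp (16 * lR) * Real.exp (-(16 * lR)) :=
            mul_le_mul_of_nonneg_right hcase.le (Real.exp_pos _).le
        _ = C4 := by rw [mul_assoc, ← Real.exp_add]; simp
    have hC64 : M ≤ C ^ (2 * 32) := by
      calc M ≤ C := by linarith
        _ = C ^ 1 := (pow_one C).symm
        _ ≤ C ^ (2 * 32) := pow_le_pow_right₀ hC1 (by norm_num)
    have e1 : (6 * ((32 : ℕ) : ℝ) * (m : ℝ)) ^ 32 = 192 ^ 32 * (Real.exp (-(32 * lR)) * (n : ℝ) ^ 32) := by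
      rw [hmr]
      push_cast
      rw [show (6 * 32 * (Real.exp (-lR) * (n : ℝ))) = 192 * (Real.exp (-lR) * n) by ring, mul_pow,
        mul_pow, ← Real.exp_nat_mul]
      push_cast
      rw [show (32 : ℝ) * -lR = -(32 * lR) by ring]
    rw [e1]
    have e2 : Real.exp (-lR) / (1000 * Λ) * (C ^ (2 * 32) * (n : ℝ) ^ 32 *
        Real.exp (-(((32 : ℕ) : ℝ) * lR / 8))) =
        (C ^ (2 * 32) * (n : ℝ) ^ 32 * Real.exp (-(5 * lR))) / (1000 * Λ) := by
      have e3 : Real.exp (-(5 * lR)) = Real.exp (-lR) * Real.exp (-(((32 : ℕ) : ℝ) * lR / 8)) := by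
        rw [← Real.exp_add]
        congr 1
        push_cast
        ring
      rw [e3]
      ring
    rw [e2, le_div_iff₀ (by positivity)]
    have e3 : Real.exp (-(32 * lR)) = Real.exp (-(16 * lR)) * (Real.exp (-lR) *
        (Real.exp (-(10 * lR)) * Real.exp (-(5 * lR)))) := by
      rw [← Real.exp_add, ← Real.exp_add, ← Real.exp_add]
      congr 1
      ring
    have h10 : Real.exp (-(10 * lR)) ≤ 1 := Real.exp_le_one_iff.2 (by linarith)
    have h5p := Real.exp_pos (-(5 * lR))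
    have hn32 : 0 < (n : ℝ) ^ 32 := by positivity
    rw [e3]
    calc 2 * (d : ℝ) * (192 ^ 32 * (Real.exp (-(16 * lR)) * (Real.exp (-lR) *
        (Real.exp (-(10 * lR)) * Real.exp (-(5 * lR)))) * (n : ℝ) ^ 32)) * (1000 * Λ)
        = 2000 * ((d : ℝ) * Real.exp (-(16 * lR))) * 192 ^ 32 * (Λ * Real.exp (-lR)) *
            Real.exp (-(10 * lR)) * ((n : ℝ) ^ 32 * Real.exp (-(5 * lR))) := by ring
      _ ≤ 2000 * C4 * 192 ^ 32 * (18 + 10 ^ 20) * 1 * ((n : ℝ) ^ 32 * Real.exp (-(5 * lR))) := by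
          gcongr
      _ = M * ((n : ℝ) ^ 32 * Real.exp (-(5 * lR))) := by rw [hM]; ring
      _ ≤ C ^ (2 * 32) * ((n : ℝ) ^ 32 * Real.exp (-(5 * lR))) :=
          mul_le_mul_of_nonneg_right hC64 (by positivity)
      _ = _ := by ring
  · -- large dimension
    push Not at hcase
    refine large hMOM n m d A hm hmn hd hdn hA hCov C (by linarith) ?_
    rw [← hlR]
    have h1 := Real.log_le_log (by positivity) hcase
    rw [hC4, ← Real.exp_add, Real.log_exp] at h1
    exact h1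

end Pool.Agent.H120R2.GS
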