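import Pool.Agent.H120R2.GS.Stubs2

/-! Task REC: a recursive inequality. -/

set_option autoImplicit false

namespace Pool.Agent.H120R2.GS

namespace RECh

open Finset

/-- tail function -/
noncomputable def FF (L x : ℝ) : ℝ := if x ≤ L then 2 * L - x else L ^ 2 / x

theorem FF_step {L : ℝ} (hL : 0 < L) (n : ℕ) :
    min 1 (L ^ 2 / ((n : ℝ) + 1) ^ 2) ≤ FF L n - FF L (n + 1) := by
  have hn : (0 : ℝ) ≤ n := Nat.cast_nonneg n
  have hn1 : (0 : ℝ) < (n : ℝ) + 1 := by linarith
  unfold FF
  by_cases h1 : (n : ℝ) + 1 ≤ L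
  · have h2 : (n : ℝ) ≤ L := by linarith
    rw [if_pos h2, if_pos h1]
    refine (min_le_left _ _).trans ?_
    linarith
  · push Not at h1
    rw [if_neg (not_le.2 h1)]
    refine (min_le_right _ _).trans ?_
    by_cases h2 : (n : ℝ) ≤ L
    · rw [if_pos h2]
      have e1 : (2 * L - n - L ^ 2 / ((n : ℝ) + 1)) - L ^ 2 / ((n : ℝ) + 1) ^ 2 =
          (((n : ℝ) + 1 - L) * ((n : ℝ) + 1 + L - ((n : ℝ) + 1 - L) * ((n : ℝ) + 1))) /
            ((n : ℝ) + 1) ^ 2 := by
        field_simp
        ring
      have e2 : 0 ≤ (((n : ℝ) + 1 - L) * ((n : ℝ) + 1 + L - ((n : ℝ) + 1 - L) * ((n : ℝ) + 1))) /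
            ((n : ℝ) + 1) ^ 2 := by
        apply div_nonneg _ (by positivity)
        apply mul_nonneg (by linarith)
        nlinarith
      linarith
    · push Not at h2
      rw [if_neg (not_le.2 h2)]
      have hn0 : (0 : ℝ) < n := by linarith
      have e1 : L ^ 2 / (n : ℝ) - L ^ 2 / ((n : ℝ) + 1) - L ^ 2 / ((n : ℝ) + 1) ^ 2 =
          L ^ 2 / ((n : ℝ) * ((n : ℝ) + 1) ^ 2) := by
        field_simp
        ring
      have e2 : 0 ≤ L ^ 2 / ((n : ℝ) * ((n : ℝ) + 1) ^ 2) := by positivity
      linarith

theorem sum_le {L : ℝ} (hL : 0 < L) (n : ℕ) :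
    ∑ i ∈ range n, min 1 (L ^ 2 / ((i : ℝ) + 1) ^ 2) ≤ 2 * L := by
  have h : ∀ n : ℕ, ∑ i ∈ range n, min 1 (L ^ 2 / ((i : ℝ) + 1) ^ 2) ≤ FF L 0 - FF L n := by
    intro n
    induction n with
    | zero => simp
    | succ n ih =>
      rw [sum_range_succ]
      have := FF_step hL n
      push_cast
      linarith
  have h0 : FF L 0 = 2 * L := by
    unfold FF
    rw [if_pos hL.le, sub_zero]
  have h1 : 0 ≤ FF L n := by
    have hn : (0 : ℝ) ≤ n := Nat.cast_nonneg n
    unfold FF
    split_ifs with h2
    · linarith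
    · positivity
  have := h n
  linarith

/-- weights -/
noncomputable def ww (j : ℕ) : ℝ := 1 / ((j : ℝ) + 1) ^ 2

theorem ww_pos (j : ℕ) : 0 < ww j := by
  unfold ww
  positivity

theorem sumg {m N : ℝ} (hm : 0 < m) (hN : 0 < N) (n : ℕ) :
    ∑ j ∈ range n, min m (4 * N * ww j) ≤ 4 * √(m * N) := by
  set L := √(4 * N / m) with hLdef
  have hL2 : L ^ 2 = 4 * N / m := Real.sq_sqrt (by positivity)
  have hL : 0 < L := Real.sqrt_pos.2 (by positivity)
  have h := sum_le hL n
  have e1 : ∀ j ∈ range n, min m (4 * N * ww j) = m * min 1 (L ^ 2 / ((j : ℝ) + 1) ^ 2) := by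
    intro j _
    rw [mul_min_of_nonneg _ _ hm.le, mul_one, hL2]
    congr 1
    unfold ww
    field_simp
  rw [sum_congr rfl e1, ← mul_sum]
  have e2 : m * L = 2 * √(m * N) := by
    have h1 : 0 ≤ m * L := by positivity
    have h2 : 0 ≤ 2 * √(m * N) := by positivity
    have h3 : (m * L) ^ 2 = (2 * √(m * N)) ^ 2 := by
      rw [mul_pow, mul_pow, hL2, Real.sq_sqrt (by positivity)]
      field_simp
      ring
    exact (pow_left_inj₀ h1 h2 two_ne_zero).1 h3
  calc _ ≤ m * (2 * L) := mul_le_mul_of_nonneg_left h hm.le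
    _ = 4 * √(m * N) := by linarith

theorem ww_half {q j : ℕ} (h : 2 * j ≤ q) : ww (q - j) ≤ 4 * ww q := by
  unfold ww
  have h1 : j ≤ q := by omega
  rw [Nat.cast_sub h1]
  have h2 : (2 : ℝ) * j ≤ q := by exact_mod_cast h
  have h3 : (0 : ℝ) ≤ j := Nat.cast_nonneg j
  have h4 : (0 : ℝ) < (q : ℝ) - j + 1 := by linarith
  have h5 : (0 : ℝ) < (q : ℝ) + 1 := by linarith
  rw [← mul_div_assoc, mul_one, div_le_div_iff₀ (by positivity) (by positivity), one_mul]
  have h6 : (q : ℝ) + 1 ≤ 2 * ((q : ℝ) - j + 1) := by linarith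
  calc ((q : ℝ) + 1) ^ 2 ≤ (2 * ((q : ℝ) - j + 1)) ^ 2 := pow_le_pow_left₀ h5.le h6 2
    _ = 4 * ((q : ℝ) - j + 1) ^ 2 := by ring

theorem term {a : ℕ → ℝ} {m N K : ℝ} (hm : 0 < m) (hN : 0 < N) (hK : 0 < K)
    (ha0 : ∀ k, 0 ≤ a k) {q : ℕ} (ih : ∀ j, j ≤ q → a j ≤ K ^ j * ww j) {j : ℕ}
    (hj : 2 * j ≤ q) :
    min (m * a q) (N * (a j * a (q - j))) ≤ K ^ q * ww q * min m (4 * N * ww j) := by
  have hw := ww_pos q
  have hwj := ww_pos j
  have hwqj := ww_pos (q - j)
  rw [mul_min_of_nonneg _ _ (by positivity)]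
  apply min_le_min
  · have := mul_le_mul_of_nonneg_left (ih q le_rfl) hm.le
    linarith
  · have h1 := ih j (by omega)
    have h2 := ih (q - j) (by omega)
    have h3 := ww_half hj
    have h4 : a j * a (q - j) ≤ (K ^ j * ww j) * (K ^ (q - j) * (4 * ww q)) := by
      apply mul_le_mul h1 _ (ha0 _) (by positivity)
      exact h2.trans (mul_le_mul_of_nonneg_left h3 (by positivity))
    have h5 : K ^ j * K ^ (q - j) = K ^ q := by
      rw [← pow_add]
      congr 1
      omega
    calc N * (a j * a (q - j)) ≤ N * ((K ^ j * ww j) * (K ^ (q - j) * (4 * ww q))) :=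
          mul_le_mul_of_nonneg_left h4 hN.le
      _ = (K ^ j * K ^ (q - j)) * ww q * (4 * N * ww j) := by ring
      _ = K ^ q * ww q * (4 * N * ww j) := by rw [h5]

end RECh

open RECh Finset in
theorem T_REC : P_REC := by
  intro P a e m N K hm hmN hK ha0 ha1 hrec he
  have hN : 0 < N := by linarith
  have hS : 0 < √(m * N) := Real.sqrt_pos.2 (by positivity)
  have hK0 : 0 < K := by linarith
  have main : ∀ p, p ≤ P → a p ≤ K ^ p * ww p := by
    intro p
    induction p using Nat.strong_induction_on with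
    | _ p ih =>
      intro hp
      rcases p with _ | q
      · have : ww 0 = 1 := by unfold ww; norm_num
        rw [this, pow_zero, mul_one]
        exact ha1
      · have ih' : ∀ j, j ≤ q → a j ≤ K ^ j * ww j := fun j hj => ih j (by omega) (by omega)
        have h1 := hrec (q + 1) (by omega) hp
        have h2 := he (q + 1) (by omega) hp
        simp only [Nat.add_sub_cancel] at h1
        have h3 : ∑ j ∈ range (q + 1), min (m * a q) (N * (a j * a (q - j))) ≤
            ∑ j ∈ range (q + 1), K ^ q * ww q *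
              (min m (4 * N * ww j) + min m (4 * N * ww (q + 1 - 1 - j))) := by
          apply sum_le_sum
          intro j hj
          rw [mem_range] at hj
          simp only [Nat.add_sub_cancel]
          have w0 := ww_pos q
          have g1 : 0 ≤ K ^ q * ww q * min m (4 * N * ww j) := by
            have := ww_pos j
            apply mul_nonneg (by positivity)
            exact le_min hm.le (by positivity)
          have g2 : 0 ≤ K ^ q * ww q * min m (4 * N * ww (q - j)) := by
            have := ww_pos (q - j)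
            apply mul_nonneg (by positivity)
            exact le_min hm.le (by positivity)
          rw [mul_add]
          rcases Nat.le_total (2 * j) q with h | h
          · have := term hm hN hK0 ha0 ih' h
            linarith
          · have h4 := term hm hN hK0 ha0 ih' (show 2 * (q - j) ≤ q by omega)
            have h5 : q - (q - j) = j := by omega
            rw [h5, mul_comm (a (q - j))] at h4
            linarith
        rw [← mul_sum, sum_add_distrib, sum_range_reflect (fun j => min m (4 * N * ww j))] at h3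
        have h4 := sumg hm hN (q + 1)
        have w0 := ww_pos q
        have h5 : K ^ q * ww q * (∑ j ∈ range (q + 1), min m (4 * N * ww j) +
            ∑ j ∈ range (q + 1), min m (4 * N * ww j)) ≤ K ^ q * ww q * (8 * √(m * N)) := by
          apply mul_le_mul_of_nonneg_left _ (by positivity)
          linarith
        have h6 : ww q ≤ 4 * ww (q + 1) := by
          unfold ww
          push_cast
          rw [← mul_div_assoc, mul_one, div_le_div_iff₀ (by positivity) (by positivity), one_mul]
          have hq : (0 : ℝ) ≤ q := Nat.cast_nonneg q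
          nlinarith
        have h7 : K ^ q * ww q * (16 * √(m * N)) ≤ K ^ q * (4 * ww (q + 1)) * (16 * √(m * N)) := by
          apply mul_le_mul_of_nonneg_right _ (by positivity)
          exact mul_le_mul_of_nonneg_left h6 (by positivity)
        have h8 : K ^ q * ww (q + 1) * (64 * √(m * N)) ≤ K ^ q * ww (q + 1) * (K / 2) := by
          have := ww_pos (q + 1)
          apply mul_le_mul_of_nonneg_left _ (by positivity)
          linarith
        have h9 : K ^ (q + 1) / (2 * (((q + 1 : ℕ) : ℝ) + 1) ^ 2) =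
            K ^ (q + 1) * ww (q + 1) / 2 := by
          unfold ww
          field_simp
        rw [h9] at h2
        have h10 : K ^ (q + 1) * ww (q + 1) = 2 * (K ^ q * ww (q + 1) * (K / 2)) := by
          rw [pow_succ]; ring
        linarith
  intro p hp
  have := main p hp
  unfold ww at this
  rwa [mul_one_div] at this

end Pool.Agent.H120R2.GS
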