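import Pool.Agent.H120R2.GS.Stubs2

/-!
# Second bound (covariance) for even exponents
-/

set_option autoImplicit false

namespace Pool.Agent.H120R2.GS

open scoped BigOperators Matrix Matrix.Norms.L2Operator

namespace SPDh

variable {κ : Type} [Fintype κ] [DecidableEq κ]

theorem col_one {U : Matrix κ κ ℂ} (hU : Uᴴ * U = 1) (a : κ) : ∑ p, ‖U p a‖ ^ 2 = 1 := by
  have h := congrFun (congrFun hU a) a
  rw [Matrix.mul_apply, Matrix.one_apply_eq] at h
  have h2 : ((∑ p, ‖U p a‖ ^ 2 : ℝ) : ℂ) = 1 := by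
    rw [← h]
    push_cast
    refine Finset.sum_congr rfl fun p _ => ?_
    rw [Matrix.conjTranspose_apply, ← Complex.conj_mul']
    rfl
  exact_mod_cast h2

theorem entry {U A : Matrix κ κ ℂ} (a b : κ) :
    (Uᴴ * A * U) a b =
      (A * Matrix.of fun q p => U q b * (starRingEnd ℂ) (U p a)).trace := by
  rw [Matrix.trace, Matrix.mul_assoc, Matrix.mul_apply]
  refine Finset.sum_congr rfl fun p _ => ?_
  rw [Matrix.diag_apply, Matrix.mul_apply, Matrix.mul_apply, Matrix.conjTranspose_apply,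
    Finset.mul_sum]
  refine Finset.sum_congr rfl fun q _ => ?_
  rw [Matrix.of_apply]
  have : star (U p a) = (starRingEnd ℂ) (U p a) := rfl
  rw [this]
  ring

theorem hs_one {U : Matrix κ κ ℂ} (hU : Uᴴ * U = 1) (a b : κ) :
    hs (Matrix.of fun q p => U q b * (starRingEnd ℂ) (U p a)) = 1 := by
  unfold hs
  have : ∀ q p : κ, ‖(Matrix.of fun q p => U q b * (starRingEnd ℂ) (U p a)) q p‖ ^ 2 =
      ‖U q b‖ ^ 2 * ‖U p a‖ ^ 2 := by
    intro q p
    rw [Matrix.of_apply, norm_mul, RCLike.norm_conj, mul_pow]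
  simp_rw [this]
  rw [← Finset.sum_mul_sum, col_one hU, col_one hU, one_mul]

end SPDh

open SPDh in
theorem T_SPD : P_SPEC → P_SPD := by
  intro hS κ _ _ m A c X j k hA hc hCov hX
  obtain ⟨U, s, _, hU, htr, hAX, _⟩ := hS κ X hX
  rcases isEmpty_or_nonempty κ with hκ | hκ
  · have h0 : (Fintype.card κ : ℝ) = 0 := by
      rw [Fintype.card_eq_zero]; simp
    have h1 : ∀ M : Matrix κ κ ℂ, nt M = 0 := fun M => by
      unfold nt
      rw [h0, div_zero]
    simp [h1]
  · have hD : (0 : ℝ) < Fintype.card κ := by exact_mod_cast Fintype.card_pos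
    have e1 : ∀ n : ℕ, nt (X ^ n) = (∑ a, s a ^ n) / Fintype.card κ := fun n => by
      unfold nt
      rw [htr n, Complex.ofReal_re]
    have e2 : ∀ i, nt (A i * X ^ (2 * j) * A i * X ^ (2 * k)) =
        (∑ a, ∑ b, s a ^ (2 * k) * s b ^ (2 * j) * ‖(Uᴴ * A i * U) a b‖ ^ 2) /
          Fintype.card κ := fun i => by
      unfold nt
      rw [hAX (A i) (hA i) (2 * k) (2 * j), Complex.ofReal_re]
    have e3 : ∀ a b, ∑ i, ‖(Uᴴ * A i * U) a b‖ ^ 2 ≤ c := by
      intro a b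
      have h := hCov (Matrix.of fun q p => U q b * (starRingEnd ℂ) (U p a))
      rw [hs_one hU a b, mul_one] at h
      refine le_of_eq_of_le ?_ h
      refine Finset.sum_congr rfl fun i _ => ?_
      rw [entry]
    simp_rw [e2, e1]
    rw [← Finset.sum_div, div_le_iff₀ hD]
    have e4 : ∑ i, ∑ a, ∑ b, s a ^ (2 * k) * s b ^ (2 * j) * ‖(Uᴴ * A i * U) a b‖ ^ 2 =
        ∑ a, ∑ b, s a ^ (2 * k) * s b ^ (2 * j) * ∑ i, ‖(Uᴴ * A i * U) a b‖ ^ 2 := by
      rw [Finset.sum_comm]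
      refine Finset.sum_congr rfl fun a _ => ?_
      rw [Finset.sum_comm]
      refine Finset.sum_congr rfl fun b _ => ?_
      rw [Finset.mul_sum]
    rw [e4]
    have e5 : ∑ a, ∑ b, s a ^ (2 * k) * s b ^ (2 * j) * ∑ i, ‖(Uᴴ * A i * U) a b‖ ^ 2 ≤
        ∑ a, ∑ b, s a ^ (2 * k) * s b ^ (2 * j) * c := by
      refine Finset.sum_le_sum fun a _ => Finset.sum_le_sum fun b _ => ?_
      refine mul_le_mul_of_nonneg_left (e3 a b) ?_
      rw [pow_mul, pow_mul]
      positivity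
    refine e5.trans (le_of_eq ?_)
    have e6 : ∑ a, ∑ b, s a ^ (2 * k) * s b ^ (2 * j) * c =
        (∑ a, s a ^ (2 * k)) * (∑ b, s b ^ (2 * j)) * c := by
      rw [Finset.sum_mul_sum, Finset.sum_mul]
      refine Finset.sum_congr rfl fun a _ => ?_
      rw [Finset.sum_mul]
    rw [e6]
    field_simp

end Pool.Agent.H120R2.GS
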