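import Pool.Agent.H120R2.GS.Stubs2

set_option autoImplicit false

namespace Pool.Agent.H120R2.GS

open scoped BigOperators Matrix Matrix.Norms.L2Operator

namespace SPEh

/-- the scalar inequality -/
theorem scal (x y : ℝ) (q : ℕ) :
    ∑ l ∈ Finset.range (2 * q + 1), x ^ (2 * q - l) * y ^ l ≤
      2 * (∑ j ∈ Finset.range (q + 1), x ^ (2 * (q - j)) * y ^ (2 * j)) -
        (x ^ (2 * q) + y ^ (2 * q)) / 2 := by
  induction q with
  | zero => norm_num
  | succ q ih =>
    have h1 : ∑ l ∈ Finset.range (2 * (q + 1) + 1), x ^ (2 * (q + 1) - l) * y ^ l =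
        x ^ 2 * (∑ l ∈ Finset.range (2 * q + 1), x ^ (2 * q - l) * y ^ l) +
          x * y ^ (2 * q + 1) + y ^ (2 * q + 2) := by
      rw [show 2 * (q + 1) + 1 = 2 * q + 1 + 1 + 1 by ring, Finset.sum_range_succ,
        Finset.sum_range_succ, Finset.mul_sum]
      have e1 : 2 * (q + 1) - (2 * q + 1) = 1 := by omega
      have e2 : 2 * (q + 1) - (2 * q + 1 + 1) = 0 := by omega
      rw [e1, e2, pow_one, pow_zero, one_mul]
      congr 2
      apply Finset.sum_congr rfl
      intro l hl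
      rw [Finset.mem_range] at hl
      have e3 : 2 * (q + 1) - l = 2 + (2 * q - l) := by omega
      rw [e3, pow_add]
      ring
    have h2 : ∑ j ∈ Finset.range (q + 1 + 1), x ^ (2 * (q + 1 - j)) * y ^ (2 * j) =
        x ^ 2 * (∑ j ∈ Finset.range (q + 1), x ^ (2 * (q - j)) * y ^ (2 * j)) +
          y ^ (2 * q + 2) := by
      rw [Finset.sum_range_succ, Finset.mul_sum]
      have e1 : 2 * (q + 1 - (q + 1)) = 0 := by omega
      rw [e1, pow_zero, one_mul]
      congr 1
      apply Finset.sum_congr rfl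
      intro j hj
      rw [Finset.mem_range] at hj
      have e3 : 2 * (q + 1 - j) = 2 + 2 * (q - j) := by omega
      rw [e3, pow_add]
      ring
    rw [h1, h2]
    have h3 := mul_le_mul_of_nonneg_left ih (sq_nonneg x)
    have h4 : 0 ≤ y ^ (2 * q) * (x - y) ^ 2 := by
      have : 0 ≤ y ^ (2 * q) := (even_two_mul q).pow_nonneg y
      positivity
    have e5 : x ^ (2 * (q + 1)) = x ^ 2 * x ^ (2 * q) := by ring
    have e6 : y ^ (2 * (q + 1)) = y ^ (2 * q) * y ^ 2 := by ring
    have e7 : y ^ (2 * q + 2) = y ^ (2 * q) * y ^ 2 := by ring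
    have e8 : x * y ^ (2 * q + 1) = y ^ (2 * q) * (x * y) := by ring
    rw [e5, e6, e7, e8]
    nlinarith [h3, h4]

theorem scal' (x y : ℝ) (q : ℕ) :
    ∑ l ∈ Finset.range (2 * q + 1), x ^ (2 * q - l) * y ^ l ≤
      2 * (∑ j ∈ Finset.range (q + 1), x ^ (2 * (q - j)) * y ^ (2 * j)) := by
  have h1 := scal x y q
  have h2 : 0 ≤ x ^ (2 * q) := (even_two_mul q).pow_nonneg x
  have h3 : 0 ≤ y ^ (2 * q) := (even_two_mul q).pow_nonneg y
  linarith

end SPEh

theorem T_SPE : P_SPEC → P_SPE := by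
  intro hspec κ _ _ X A q hX hA
  obtain ⟨U, s, -, -, -, hT, -⟩ := hspec κ X hX
  have hn : ∀ k l : ℕ, nt (A * X ^ l * A * X ^ k) =
      (∑ a, ∑ b, s a ^ k * s b ^ l * ‖(Uᴴ * A * U) a b‖ ^ 2) / Fintype.card κ := by
    intro k l
    unfold nt
    rw [hT A hA k l, Complex.ofReal_re]
  simp only [hn]
  rw [← Finset.sum_div, ← Finset.sum_div, mul_div_assoc']
  apply div_le_div_of_nonneg_right _ (Nat.cast_nonneg _)
  rw [Finset.sum_comm, Finset.sum_comm (s := Finset.range (q + 1)), Finset.mul_sum]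
  apply Finset.sum_le_sum
  intro a _
  rw [Finset.sum_comm, Finset.sum_comm (s := Finset.range (q + 1)), Finset.mul_sum]
  apply Finset.sum_le_sum
  intro b _
  rw [← Finset.sum_mul, ← Finset.sum_mul, ← mul_assoc]
  exact mul_le_mul_of_nonneg_right (SPEh.scal' (s a) (s b) q) (sq_nonneg _)

end Pool.Agent.H120R2.GS
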