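import Pool.Agent.H120R2.GS.Stubs2

/-!
# Spectral formulas for Hermitian matrices
-/

set_option autoImplicit false

namespace Pool.Agent.H120R2.GS

open scoped BigOperators Matrix Matrix.Norms.L2Operator

theorem T_SPEC : P_SPEC := by
  intro κ _ _ X hX
  obtain ⟨V, hV⟩ : ∃ V : unitary (Matrix κ κ ℂ), V = hX.eigenvectorUnitary := ⟨_, rfl⟩
  obtain ⟨s, hs⟩ : ∃ s : κ → ℝ, s = hX.eigenvalues := ⟨_, rfl⟩
  obtain ⟨U, hU⟩ : ∃ U : Matrix κ κ ℂ, U = (V : Matrix κ κ ℂ) := ⟨_, rfl⟩
  have h1 : U * Uᴴ = 1 := by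
    rw [hU, ← Matrix.star_eq_conjTranspose]
    exact Unitary.coe_mul_star_self V
  have h2 : Uᴴ * U = 1 := by
    rw [hU, ← Matrix.star_eq_conjTranspose]
    exact Unitary.coe_star_mul_self V
  have hsp : X = U * Matrix.diagonal (fun a => (s a : ℂ)) * Uᴴ := by
    have := hX.spectral_theorem
    rw [Unitary.conjStarAlgAut_apply, ← hV, ← hs] at this
    rw [hU, ← Matrix.star_eq_conjTranspose]
    exact this
  have hpow : ∀ k : ℕ, X ^ k = U * Matrix.diagonal (fun a => ((s a ^ k : ℝ) : ℂ)) * Uᴴ := by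
    intro k
    induction k with
    | zero => simp [h1]
    | succ k ih =>
      rw [pow_succ, ih]
      rw [hsp]
      calc U * Matrix.diagonal (fun a => ((s a ^ k : ℝ) : ℂ)) * Uᴴ *
            (U * Matrix.diagonal (fun a => (s a : ℂ)) * Uᴴ)
          = U * Matrix.diagonal (fun a => ((s a ^ k : ℝ) : ℂ)) * (Uᴴ * U) *
              Matrix.diagonal (fun a => (s a : ℂ)) * Uᴴ := by
            simp only [Matrix.mul_assoc]
        _ = U * (Matrix.diagonal (fun a => ((s a ^ k : ℝ) : ℂ)) *
              Matrix.diagonal (fun a => (s a : ℂ))) * Uᴴ := by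
            rw [h2, Matrix.mul_one, Matrix.mul_assoc U]
        _ = _ := by
            rw [Matrix.diagonal_mul_diagonal]
            congr 3
            ext a
            rw [pow_succ]
            push_cast
            rfl
  refine ⟨U, s, h1, h2, ?_, ?_, ?_⟩
  · intro k
    rw [hpow, Matrix.trace_mul_comm, ← Matrix.mul_assoc, h2, Matrix.one_mul,
      Matrix.trace_diagonal]
    push_cast
    rfl
  · intro A hA k l
    obtain ⟨B, hB⟩ : ∃ B : Matrix κ κ ℂ, B = Uᴴ * A * U := ⟨_, rfl⟩
    have hBh : Bᴴ = B := by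
      rw [hB, Matrix.conjTranspose_mul, Matrix.conjTranspose_mul, Matrix.conjTranspose_conjTranspose,
        hA.eq, Matrix.mul_assoc]
    have e : (A * X ^ l * A * X ^ k).trace =
        (B * Matrix.diagonal (fun a => ((s a ^ l : ℝ) : ℂ)) *
          (B * Matrix.diagonal (fun a => ((s a ^ k : ℝ) : ℂ)))).trace := by
      rw [hpow k, hpow l, ← Matrix.mul_assoc (A * _ * A), Matrix.trace_mul_comm, hB]
      congr 1
      simp only [Matrix.mul_assoc]
    rw [e, ← hB, Matrix.trace]
    push_cast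
    refine Finset.sum_congr rfl fun a _ => ?_
    rw [Matrix.diag_apply, Matrix.mul_apply]
    refine Finset.sum_congr rfl fun b _ => ?_
    rw [Matrix.mul_diagonal, Matrix.mul_diagonal]
    have hba : B b a = (starRingEnd ℂ) (B a b) := by
      have := congrFun (congrFun hBh b) a
      rw [Matrix.conjTranspose_apply] at this
      rw [← this]
      rfl
    have hn : (((‖B a b‖ : ℝ) : ℂ)) ^ 2 = B a b * (starRingEnd ℂ) (B a b) := by
      rw [Complex.mul_conj]
      rw [Complex.normSq_eq_norm_sq]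
      push_cast
      rfl
    rw [hn, hba]
    ring
  · intro a
    have e : ‖X‖ = ‖Matrix.diagonal (fun a => (s a : ℂ))‖ := by
      rw [hsp]
      have e1 : Uᴴ = ((star V : unitary (Matrix κ κ ℂ)) : Matrix κ κ ℂ) := by
        rw [hU]
        rfl
      rw [e1, hU, CStarRing.norm_mul_coe_unitary, CStarRing.norm_coe_unitary_mul]
    rw [e, Matrix.l2_opNorm_diagonal]
    have := norm_le_pi_norm (fun a => (s a : ℂ)) a
    simpa using this

end Pool.Agent.H120R2.GS
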