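import Pool.Agent.H120R2.GS.Stubs2

/-! SPM: first bound for even exponents. -/

set_option autoImplicit false

namespace Pool.Agent.H120R2.GS

open scoped BigOperators Matrix Matrix.Norms.L2Operator

namespace SPMh

variable {κ : Type} [Fintype κ] [DecidableEq κ]

theorem col_le (B : Matrix κ κ ℂ) (hB : ‖B‖ ≤ 1) (b : κ) : ∑ a, ‖B a b‖ ^ 2 ≤ 1 := by
  have h := Matrix.l2_opNorm_mulVec B (EuclideanSpace.single b (1 : ℂ))
  rw [EuclideanSpace.norm_single, norm_one, mul_one] at h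
  have h2 : ‖(WithLp.toLp 2 (B *ᵥ (EuclideanSpace.single b (1 : ℂ)).ofLp) :
      EuclideanSpace ℂ κ)‖ ^ 2 = ∑ a, ‖B a b‖ ^ 2 := by
    rw [EuclideanSpace.norm_sq_eq]
    refine Finset.sum_congr rfl (fun a _ => ?_)
    congr 2
    simp [Matrix.mulVec, dotProduct]
  have h3 : ‖(WithLp.toLp 2 (B *ᵥ (EuclideanSpace.single b (1 : ℂ)).ofLp) :
      EuclideanSpace ℂ κ)‖ ≤ 1 := h.trans hB
  rw [← h2]
  exact pow_le_one₀ (norm_nonneg _) h3

theorem row_le (B : Matrix κ κ ℂ) (hB : ‖B‖ ≤ 1) (a : κ) : ∑ b, ‖B a b‖ ^ 2 ≤ 1 := by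
  have h := col_le Bᴴ (by rwa [Matrix.l2_opNorm_conjTranspose]) a
  simpa [Matrix.conjTranspose_apply] using h

theorem pow_le' (x y : ℝ) (hx : 0 ≤ x) (hy : 0 ≤ y) (j k : ℕ) :
    x ^ k * y ^ j ≤ x ^ (j + k) + y ^ (j + k) := by
  have h1 : 0 ≤ x ^ (j + k) := pow_nonneg hx _
  have h2 : 0 ≤ y ^ (j + k) := pow_nonneg hy _
  rcases le_total x y with h | h
  · have : x ^ k * y ^ j ≤ y ^ k * y ^ j :=
      mul_le_mul_of_nonneg_right (pow_le_pow_left₀ hx h k) (pow_nonneg hy _)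
    rw [← pow_add, add_comm k j] at this
    linarith
  · have : x ^ k * y ^ j ≤ x ^ k * x ^ j :=
      mul_le_mul_of_nonneg_left (pow_le_pow_left₀ hy h j) (pow_nonneg hx _)
    rw [← pow_add, add_comm k j] at this
    linarith

end SPMh

open SPMh in
theorem T_SPM : P_SPEC → P_SPM := by
  intro hspec κ _ _ X A j k hX hA
  obtain ⟨U, s, hU1, hU2, htr, htr2, _⟩ := hspec κ X hX
  have h1 := htr2 A hA (2 * k) (2 * j)
  have hD : (0 : ℝ) ≤ Fintype.card κ := Nat.cast_nonneg _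
  have hnt : nt (A * X ^ (2 * j) * A * X ^ (2 * k)) =
      (∑ a, ∑ b, s a ^ (2 * k) * s b ^ (2 * j) * ‖(Uᴴ * A * U) a b‖ ^ 2) / Fintype.card κ := by
    unfold nt
    rw [h1, Complex.ofReal_re]
  have hnt2 : nt (X ^ (2 * (j + k))) = (∑ a, s a ^ (2 * (j + k))) / Fintype.card κ := by
    unfold nt
    rw [htr, Complex.ofReal_re]
  have he : ∀ (x : ℝ) (i : ℕ), x ^ (2 * i) = (x ^ 2) ^ i := fun x i => pow_mul x 2 i
  refine ⟨?_, fun hAn => ?_⟩
  · rw [hnt]
    apply div_nonneg _ hD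
    refine Finset.sum_nonneg (fun a _ => Finset.sum_nonneg (fun b _ => ?_))
    rw [he, he]
    positivity
  · rw [hnt, hnt2, ← mul_div_assoc]
    apply div_le_div_of_nonneg_right _ hD
    rcases isEmpty_or_nonempty κ with hκ | hκ
    · simp
    have hUn : ‖U‖ ≤ 1 := by
      have hmem : U ∈ unitary (Matrix κ κ ℂ) := by
        rw [Unitary.mem_iff]
        exact ⟨hU2, hU1⟩
      exact (CStarRing.norm_of_mem_unitary hmem).le
    have hUn' : ‖Uᴴ‖ ≤ 1 := by rwa [Matrix.l2_opNorm_conjTranspose]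
    set B := Uᴴ * A * U with hB
    have hBn : ‖B‖ ≤ 1 := by
      calc ‖B‖ ≤ ‖Uᴴ * A‖ * ‖U‖ := norm_mul_le _ _
        _ ≤ (‖Uᴴ‖ * ‖A‖) * ‖U‖ := by gcongr; exact norm_mul_le _ _
        _ ≤ (1 * 1) * 1 := by gcongr
        _ = 1 := by norm_num
    calc ∑ a, ∑ b, s a ^ (2 * k) * s b ^ (2 * j) * ‖B a b‖ ^ 2
        ≤ ∑ a, ∑ b, (s a ^ (2 * (j + k)) + s b ^ (2 * (j + k))) * ‖B a b‖ ^ 2 := by
          refine Finset.sum_le_sum (fun a _ => Finset.sum_le_sum (fun b _ => ?_))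
          apply mul_le_mul_of_nonneg_right _ (sq_nonneg _)
          rw [he, he, he, he]
          exact pow_le' _ _ (sq_nonneg _) (sq_nonneg _) j k
      _ = ∑ a, s a ^ (2 * (j + k)) * ∑ b, ‖B a b‖ ^ 2 +
          ∑ b, s b ^ (2 * (j + k)) * ∑ a, ‖B a b‖ ^ 2 := by
          have h5 : ∑ b, s b ^ (2 * (j + k)) * ∑ a, ‖B a b‖ ^ 2 =
              ∑ a, ∑ b, s b ^ (2 * (j + k)) * ‖B a b‖ ^ 2 := by
            rw [Finset.sum_comm]
            exact Finset.sum_congr rfl (fun b _ => Finset.mul_sum _ _ _)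
          rw [h5, ← Finset.sum_add_distrib]
          refine Finset.sum_congr rfl (fun a _ => ?_)
          rw [Finset.mul_sum, ← Finset.sum_add_distrib]
          refine Finset.sum_congr rfl (fun b _ => ?_)
          ring
      _ ≤ ∑ a, s a ^ (2 * (j + k)) * 1 + ∑ b, s b ^ (2 * (j + k)) * 1 := by
          have h6 : ∀ a, 0 ≤ s a ^ (2 * (j + k)) := fun a => by rw [he]; positivity
          apply add_le_add
          · exact Finset.sum_le_sum (fun a _ =>
              mul_le_mul_of_nonneg_left (row_le B hBn a) (h6 a))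
          · exact Finset.sum_le_sum (fun a _ =>
              mul_le_mul_of_nonneg_left (col_le B hBn a) (h6 a))
      _ = 2 * ∑ a, s a ^ (2 * (j + k)) := by
          simp only [mul_one]
          ring

end Pool.Agent.H120R2.GS
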