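import Pool.Agent.H120R2.GS.Stubs2

set_option autoImplicit false

namespace Pool.Agent.H120R2.GS

open scoped BigOperators Matrix Matrix.Norms.L2Operator

namespace STh

variable {κ : Type} [Fintype κ] [DecidableEq κ]

omit [DecidableEq κ] in
lemma nt_add (M N : Matrix κ κ ℂ) : nt (M + N) = nt M + nt N := by
  simp [nt, Matrix.trace_add, add_div]

omit [DecidableEq κ] in
lemma nt_sub (M N : Matrix κ κ ℂ) : nt (M - N) = nt M - nt N := by
  simp [nt, Matrix.trace_sub, sub_div]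

omit [DecidableEq κ] in
lemma nt_smul (c : ℝ) (M : Matrix κ κ ℂ) : nt ((c : ℂ) • M) = c * nt M := by
  simp [nt, Matrix.trace_smul, mul_div_assoc]

omit [DecidableEq κ] in
lemma nt_sum {ι : Type} (s : Finset ι) (f : ι → Matrix κ κ ℂ) :
    nt (∑ i ∈ s, f i) = ∑ i ∈ s, nt (f i) := by
  simp [nt, Matrix.trace_sum, Finset.sum_div]

omit [DecidableEq κ] in
lemma nt_comm (M N : Matrix κ κ ℂ) : nt (M * N) = nt (N * M) := by
  simp [nt, Matrix.trace_mul_comm M N]

lemma entry_le (Z : Matrix κ κ ℂ) (a : κ) : ‖Z a a‖ ≤ ‖Z‖ := by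
  have h := Matrix.l2_opNorm_mulVec Z (EuclideanSpace.single a (1 : ℂ))
  have h1 : ‖(EuclideanSpace.single a (1 : ℂ) : EuclideanSpace ℂ κ)‖ = 1 := by simp
  rw [h1, mul_one] at h
  refine le_trans ?_ h
  have h2 := PiLp.norm_apply_le ((EuclideanSpace.equiv κ ℂ).symm
    (Z *ᵥ (EuclideanSpace.single a (1 : ℂ)).ofLp)) a
  refine le_trans (le_of_eq ?_) h2
  congr 1
  simp [EuclideanSpace.equiv, Matrix.mulVec_single]

lemma nt_le (Z : Matrix κ κ ℂ) : |nt Z| ≤ ‖Z‖ := by
  unfold nt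
  rcases isEmpty_or_nonempty κ with hκ | hκ
  · simp
  have hc : (0 : ℝ) < Fintype.card κ := by exact_mod_cast Fintype.card_pos
  rw [abs_div, abs_of_pos hc, div_le_iff₀ hc]
  have h1 : ‖Z.trace‖ ≤ ∑ a : κ, ‖Z‖ := by
    unfold Matrix.trace
    refine (norm_sum_le _ _).trans (Finset.sum_le_sum fun a _ => ?_)
    exact entry_le Z a
  rw [Finset.sum_const, Finset.card_univ, nsmul_eq_mul] at h1
  calc |Z.trace.re| ≤ ‖Z.trace‖ := Complex.abs_re_le_norm _
    _ ≤ _ := by linarith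

lemma one_le : ‖(1 : Matrix κ κ ℂ)‖ ≤ 1 := by
  rcases isEmpty_or_nonempty κ with hκ | hκ
  · have : (1 : Matrix κ κ ℂ) = 0 := Subsingleton.elim _ _
    rw [this]; simp
  · have : Nontrivial (Matrix κ κ ℂ) := inferInstance
    exact le_of_eq (CStarRing.norm_one)

lemma pow_le (S : Matrix κ κ ℂ) (M : ℝ) (hM : ‖S‖ ≤ M) (l : ℕ) : ‖S ^ l‖ ≤ M ^ l := by
  have hM0 : 0 ≤ M := le_trans (norm_nonneg _) hM
  induction l with
  | zero => simpa using one_le
  | succ l ih =>
    rw [pow_succ, pow_succ]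
    exact (norm_mul_le _ _).trans (mul_le_mul ih hM (norm_nonneg _) (by positivity))

lemma tele (S T : Matrix κ κ ℂ) (N : ℕ) :
    S ^ N - T ^ N = ∑ l ∈ Finset.range N, S ^ l * (S - T) * T ^ (N - 1 - l) := by
  induction N with
  | zero => simp
  | succ N ih =>
    rw [Finset.sum_range_succ]
    have h1 : ∑ l ∈ Finset.range N, S ^ l * (S - T) * T ^ (N + 1 - 1 - l) =
        (∑ l ∈ Finset.range N, S ^ l * (S - T) * T ^ (N - 1 - l)) * T := by
      rw [Finset.sum_mul]
      refine Finset.sum_congr rfl fun l hl => ?_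
      have hl' := Finset.mem_range.mp hl
      have : N + 1 - 1 - l = (N - 1 - l) + 1 := by omega
      rw [this, pow_succ]
      simp only [mul_assoc]
    rw [h1, ← ih]
    simp only [Nat.add_sub_cancel, Nat.sub_self, pow_zero, mul_one]
    rw [pow_succ, pow_succ]
    noncomm_ring

lemma diff_le (S T : Matrix κ κ ℂ) (M : ℝ) (hS : ‖S‖ ≤ M) (hT : ‖T‖ ≤ M) (hD : ‖S - T‖ ≤ 2)
    (l : ℕ) : ‖S ^ l - T ^ l‖ ≤ 2 * l * M ^ (l - 1) := by
  have hM0 : 0 ≤ M := le_trans (norm_nonneg _) hS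
  rw [tele]
  refine (norm_sum_le _ _).trans ?_
  have : ∀ j ∈ Finset.range l, ‖S ^ j * (S - T) * T ^ (l - 1 - j)‖ ≤ 2 * M ^ (l - 1) := by
    intro j hj
    have hj' := Finset.mem_range.mp hj
    refine (norm_mul_le _ _).trans ?_
    refine (mul_le_mul (norm_mul_le _ _) (pow_le T M hT _) (norm_nonneg _) (by positivity)).trans ?_
    refine (mul_le_mul_of_nonneg_right (mul_le_mul (pow_le S M hS _) hD (norm_nonneg _)
      (by positivity)) (by positivity)).trans ?_
    have : l - 1 = j + (l - 1 - j) := by omega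
    conv_rhs => rw [this, pow_add]
    linarith
  refine (Finset.sum_le_sum this).trans ?_
  rw [Finset.sum_const, Finset.card_range, nsmul_eq_mul]
  linarith

/-- flip one sign -/
def fl {m : ℕ} (i : Fin m) (x : Fin m → Bool) : Fin m → Bool := Function.update x i (!(x i))

lemma fl_fl {m : ℕ} (i : Fin m) (x : Fin m → Bool) : fl i (fl i x) = x := by
  unfold fl
  ext j
  by_cases h : j = i
  · subst h; simp
  · simp [Function.update_of_ne h]

lemma Av_fl {m : ℕ} (i : Fin m) (f : (Fin m → Bool) → ℝ) :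
    Av (fun x => f (fl i x)) = Av f := by
  unfold Av
  congr 1
  exact Equiv.sum_comp (Function.Involutive.toPerm (fl i) (fl_fl i)) f

lemma Av_add {m : ℕ} (f g : (Fin m → Bool) → ℝ) :
    Av (fun x => f x + g x) = Av f + Av g := by
  unfold Av; rw [Finset.sum_add_distrib, add_div]

lemma Av_sub {m : ℕ} (f g : (Fin m → Bool) → ℝ) :
    Av (fun x => f x - g x) = Av f - Av g := by
  unfold Av; rw [Finset.sum_sub_distrib, sub_div]

lemma Av_smul {m : ℕ} (c : ℝ) (f : (Fin m → Bool) → ℝ) :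
    Av (fun x => c * f x) = c * Av f := by
  unfold Av; rw [← Finset.mul_sum, mul_div_assoc]

lemma Av_sum {m : ℕ} {ι : Type} (s : Finset ι) (f : ι → (Fin m → Bool) → ℝ) :
    Av (fun x => ∑ i ∈ s, f i x) = ∑ i ∈ s, Av (f i) := by
  unfold Av; rw [Finset.sum_comm, Finset.sum_div]

lemma Av_mono {m : ℕ} (f g : (Fin m → Bool) → ℝ) (h : ∀ x, f x ≤ g x) : Av f ≤ Av g := by
  unfold Av
  exact div_le_div_of_nonneg_right (Finset.sum_le_sum fun x _ => h x) (by positivity)

lemma sg_not (b : Bool) : sg (!b) = - sg b := by cases b <;> simp [sg]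

lemma sg_sq (b : Bool) : sg b * sg b = 1 := by cases b <;> simp [sg]

lemma SS_diff {m : ℕ} (A : Fin m → Matrix κ κ ℂ) (i : Fin m) (x : Fin m → Bool) :
    SS A x - SS A (fl i x) = ((2 * sg (x i) : ℝ) : ℂ) • A i := by
  unfold SS
  rw [← Finset.sum_sub_distrib, Finset.sum_eq_single i]
  · unfold fl
    rw [Function.update_self, sg_not, ← sub_smul]
    congr 1
    push_cast
    ring
  · intro j _ hj
    unfold fl
    rw [Function.update_of_ne hj, sub_self]
  · simp

lemma norm_smul_A {m : ℕ} (A : Fin m → Matrix κ κ ℂ) (hA : ∀ i, ‖A i‖ ≤ 1) (i : Fin m)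
    (x : Fin m → Bool) : ‖SS A x - SS A (fl i x)‖ ≤ 2 := by
  rw [SS_diff, norm_smul]
  have : ‖((2 * sg (x i) : ℝ) : ℂ)‖ = 2 := by
    rw [Complex.norm_real]
    cases x i <;> simp [sg]
  rw [this]
  linarith [hA i]

/-- pairwise identity -/
lemma pair {m : ℕ} (A : Fin m → Matrix κ κ ℂ) (i : Fin m) (x : Fin m → Bool) (q : ℕ) :
    sg (x i) * (nt (A i * SS A x ^ (q + 1)) - nt (A i * SS A (fl i x) ^ (q + 1))) =
      2 * ∑ l ∈ Finset.range (q + 1), nt (A i * SS A x ^ l * A i * SS A (fl i x) ^ (q - l)) := by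
  rw [← nt_sub, ← mul_sub, tele, SS_diff, Finset.mul_sum, nt_sum, Finset.mul_sum, Finset.mul_sum]
  refine Finset.sum_congr rfl fun l _ => ?_
  have : A i * (SS A x ^ l * (((2 * sg (x i) : ℝ) : ℂ) • A i) * SS A (fl i x) ^ (q + 1 - 1 - l)) =
      ((2 * sg (x i) : ℝ) : ℂ) • (A i * SS A x ^ l * A i * SS A (fl i x) ^ (q - l)) := by
    rw [Nat.add_sub_cancel, Matrix.mul_smul, Matrix.smul_mul, Matrix.mul_smul]
    simp only [mul_assoc]
  rw [this, nt_smul]
  have h := sg_sq (x i)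
  calc sg (x i) * (2 * sg (x i) * nt (A i * SS A x ^ l * A i * SS A (fl i x) ^ (q - l)))
      = 2 * (sg (x i) * sg (x i)) * nt (A i * SS A x ^ l * A i * SS A (fl i x) ^ (q - l)) := by ring
    _ = _ := by rw [h]; ring

lemma ident (A S T : Matrix κ κ ℂ) (q : ℕ) :
    2 * ∑ l ∈ Finset.range (q + 1), nt (A * S ^ l * A * T ^ (q - l)) =
      (∑ l ∈ Finset.range (q + 1), nt (A * S ^ l * A * S ^ (q - l))) +
      (∑ l ∈ Finset.range (q + 1), nt (A * T ^ l * A * T ^ (q - l))) -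
      ∑ l ∈ Finset.range (q + 1), nt (A * (S ^ l - T ^ l) * A * (S ^ (q - l) - T ^ (q - l))) := by
  have h1 : ∀ l, nt (A * (S ^ l - T ^ l) * A * (S ^ (q - l) - T ^ (q - l))) =
      nt (A * S ^ l * A * S ^ (q - l)) + nt (A * T ^ l * A * T ^ (q - l)) -
      nt (A * S ^ l * A * T ^ (q - l)) - nt (A * T ^ l * A * S ^ (q - l)) := by
    intro l
    have : A * (S ^ l - T ^ l) * A * (S ^ (q - l) - T ^ (q - l)) =
      A * S ^ l * A * S ^ (q - l) + A * T ^ l * A * T ^ (q - l) -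
      A * S ^ l * A * T ^ (q - l) - A * T ^ l * A * S ^ (q - l) := by noncomm_ring
    rw [this, nt_sub, nt_sub, nt_add]
  have h2 : ∑ l ∈ Finset.range (q + 1), nt (A * T ^ l * A * S ^ (q - l)) =
      ∑ l ∈ Finset.range (q + 1), nt (A * S ^ l * A * T ^ (q - l)) := by
    rw [← Finset.sum_range_reflect]
    refine Finset.sum_congr rfl fun l hl => ?_
    have hl' := Finset.mem_range.mp hl
    have e1 : q + 1 - 1 - l = q - l := by omega
    have e2 : q - (q - l) = l := by omega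
    rw [e1, e2, mul_assoc (A * T ^ (q - l)) A, nt_comm]
    simp only [mul_assoc]
  simp only [h1]
  rw [Finset.sum_sub_distrib, Finset.sum_sub_distrib, Finset.sum_add_distrib, h2]
  ring

lemma err (A S T : Matrix κ κ ℂ) (M : ℝ) (hA : ‖A‖ ≤ 1) (hS : ‖S‖ ≤ M) (hT : ‖T‖ ≤ M)
    (hD : ‖S - T‖ ≤ 2) (r : ℕ) :
    |∑ l ∈ Finset.range (2 * r + 1),
      nt (A * (S ^ l - T ^ l) * A * (S ^ (2 * r - l) - T ^ (2 * r - l)))| ≤
      4 * ((2 * r + 1) * r ^ 2) * M ^ (2 * r - 2) := by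
  have hM0 : 0 ≤ M := le_trans (norm_nonneg _) hS
  refine (Finset.abs_sum_le_sum_abs _ _).trans ?_
  have : ∀ l ∈ Finset.range (2 * r + 1),
      |nt (A * (S ^ l - T ^ l) * A * (S ^ (2 * r - l) - T ^ (2 * r - l)))| ≤
        4 * r ^ 2 * M ^ (2 * r - 2) := by
    intro l hl
    have hl' : l ≤ 2 * r := Nat.lt_succ_iff.mp (Finset.mem_range.mp hl)
    refine (nt_le _).trans ?_
    refine (norm_mul_le _ _).trans ?_
    have h1 : ‖A * (S ^ l - T ^ l) * A‖ ≤ 2 * l * M ^ (l - 1) := by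
      refine (norm_mul_le _ _).trans ?_
      have h2 : ‖A * (S ^ l - T ^ l)‖ ≤ 2 * l * M ^ (l - 1) := by
        refine (norm_mul_le _ _).trans ?_
        calc ‖A‖ * ‖S ^ l - T ^ l‖ ≤ 1 * ‖S ^ l - T ^ l‖ :=
              mul_le_mul_of_nonneg_right hA (norm_nonneg _)
          _ ≤ _ := by rw [one_mul]; exact diff_le S T M hS hT hD l
      calc ‖A * (S ^ l - T ^ l)‖ * ‖A‖ ≤ ‖A * (S ^ l - T ^ l)‖ * 1 :=
            mul_le_mul_of_nonneg_left hA (norm_nonneg _)
        _ ≤ _ := by rw [mul_one]; exact h2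
    have h3 := diff_le S T M hS hT hD (2 * r - l)
    refine (mul_le_mul h1 h3 (norm_nonneg _) (by positivity)).trans ?_
    rcases Nat.eq_zero_or_pos l with h0 | h0
    · subst h0; simp; positivity
    rcases Nat.eq_or_lt_of_le hl' with h4 | h4
    · subst h4; simp; positivity
    have e1 : 2 * r - 2 = (l - 1) + (2 * r - l - 1) := by omega
    have e2 : ((2 * r - l : ℕ) : ℝ) = 2 * r - l := by push_cast [Nat.cast_sub hl']; ring
    rw [e1, pow_add, e2]
    have h5 : (l : ℝ) * (2 * r - l) ≤ r ^ 2 := by nlinarith [sq_nonneg ((l : ℝ) - r)]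
    have h6 : 0 ≤ M ^ (l - 1) * M ^ (2 * r - l - 1) := by positivity
    calc 2 * (l : ℝ) * M ^ (l - 1) * (2 * (2 * r - l) * M ^ (2 * r - l - 1))
        = 4 * (l * (2 * r - l)) * (M ^ (l - 1) * M ^ (2 * r - l - 1)) := by ring
      _ ≤ 4 * r ^ 2 * (M ^ (l - 1) * M ^ (2 * r - l - 1)) := by
        apply mul_le_mul_of_nonneg_right _ h6
        linarith
  refine (Finset.sum_le_sum this).trans ?_
  rw [Finset.sum_const, Finset.card_range, nsmul_eq_mul]
  push_cast
  apply le_of_eq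
  ring

end STh

open STh in
theorem T_ST : P_ST := by
  intro κ _ _ m p A hp hA
  obtain ⟨r, rfl⟩ : ∃ r, p = r + 1 := ⟨p - 1, by omega⟩
  have e1 : 2 * (r + 1) - 1 = 2 * r + 1 := by omega
  have e2 : 2 * (r + 1) - 2 = 2 * r := by omega
  have e3 : 2 * (r + 1) - 4 = 2 * r - 2 := by omega
  rw [e1, e2, e3]
  -- expansion
  have hexp : ∀ x, nt (SS A x ^ (2 * (r + 1))) =
      ∑ i, sg (x i) * nt (A i * SS A x ^ (2 * r + 1)) := by
    intro x
    have : SS A x ^ (2 * (r + 1)) = SS A x * SS A x ^ (2 * r + 1) := by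
      rw [← pow_succ']; congr 1
    rw [this]
    conv_lhs => rw [show SS A x * SS A x ^ (2 * r + 1) =
      ∑ i, ((sg (x i) : ℝ) : ℂ) • (A i * SS A x ^ (2 * r + 1)) from by
        conv_lhs => lhs; unfold SS
        rw [Finset.sum_mul]
        exact Finset.sum_congr rfl fun i _ => Matrix.smul_mul _ _ _]
    rw [nt_sum]
    exact Finset.sum_congr rfl fun i _ => nt_smul _ _
  simp only [hexp]
  rw [Av_sum, Av_sum]
  have key : ∀ i, Av (fun x => sg (x i) * nt (A i * SS A x ^ (2 * r + 1))) ≤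
      Av (fun x => ∑ l ∈ Finset.range (2 * r + 1),
        nt (A i * SS A x ^ l * A i * SS A x ^ (2 * r - l))) +
      (4 * (((r + 1 : ℕ) : ℝ) - 1) * ((r + 1 : ℕ) : ℝ) ^ 2) *
        Av (fun x => (‖SS A x‖ + 2) ^ (2 * r - 2)) := by
    intro i
    -- symmetrise
    have h1 : Av (fun x => sg (x i) * nt (A i * SS A x ^ (2 * r + 1))) =
        Av (fun x => ∑ l ∈ Finset.range (2 * r + 1),
          nt (A i * SS A x ^ l * A i * SS A (fl i x) ^ (2 * r - l))) := by
      have h2 := Av_fl i (fun x => sg (x i) * nt (A i * SS A x ^ (2 * r + 1)))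
      have h3 : Av (fun x => sg (x i) * nt (A i * SS A x ^ (2 * r + 1)) +
          sg (fl i x i) * nt (A i * SS A (fl i x) ^ (2 * r + 1))) =
          2 * Av (fun x => sg (x i) * nt (A i * SS A x ^ (2 * r + 1))) := by
        rw [Av_add (fun x => sg (x i) * nt (A i * SS A x ^ (2 * r + 1)))
          (fun x => sg (fl i x i) * nt (A i * SS A (fl i x) ^ (2 * r + 1))), h2]
        ring
      have h4 : (fun x => sg (x i) * nt (A i * SS A x ^ (2 * r + 1)) +
          sg (fl i x i) * nt (A i * SS A (fl i x) ^ (2 * r + 1))) =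
          fun x => 2 * ∑ l ∈ Finset.range (2 * r + 1),
          nt (A i * SS A x ^ l * A i * SS A (fl i x) ^ (2 * r - l)) := by
        funext x
        rw [← pair A i x (2 * r)]
        have : sg (fl i x i) = - sg (x i) := by
          unfold fl; rw [Function.update_self, sg_not]
        rw [this]; ring
      rw [h4, Av_smul] at h3
      linarith
    rw [h1]
    have h5 : ∀ x, ∑ l ∈ Finset.range (2 * r + 1),
          nt (A i * SS A x ^ l * A i * SS A (fl i x) ^ (2 * r - l)) ≤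
        (1 / 2) * (∑ l ∈ Finset.range (2 * r + 1),
          nt (A i * SS A x ^ l * A i * SS A x ^ (2 * r - l))) +
        (1 / 2) * (∑ l ∈ Finset.range (2 * r + 1),
          nt (A i * SS A (fl i x) ^ l * A i * SS A (fl i x) ^ (2 * r - l))) +
        (4 * (((r + 1 : ℕ) : ℝ) - 1) * ((r + 1 : ℕ) : ℝ) ^ 2) *
          (‖SS A x‖ + 2) ^ (2 * r - 2) := by
      intro x
      have i1 := ident (A i) (SS A x) (SS A (fl i x)) (2 * r)
      have hD := norm_smul_A A hA i x
      have hT : ‖SS A (fl i x)‖ ≤ ‖SS A x‖ + 2 := by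
        have : SS A (fl i x) = SS A x - (SS A x - SS A (fl i x)) := by abel
        rw [this]
        exact (norm_sub_le _ _).trans (by linarith)
      have i2 := err (A i) (SS A x) (SS A (fl i x)) (‖SS A x‖ + 2) (hA i) (by linarith) hT hD r
      have i3 := neg_le_of_abs_le i2
      have hM : 0 ≤ (‖SS A x‖ + 2) ^ (2 * r - 2) := by positivity
      have i4 : 2 * ((2 * (r : ℝ) + 1) * r ^ 2) * (‖SS A x‖ + 2) ^ (2 * r - 2) ≤
          (4 * (((r + 1 : ℕ) : ℝ) - 1) * ((r + 1 : ℕ) : ℝ) ^ 2) *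
          (‖SS A x‖ + 2) ^ (2 * r - 2) := by
        apply mul_le_mul_of_nonneg_right _ hM
        push_cast
        have hr : (0 : ℝ) ≤ r := Nat.cast_nonneg r
        nlinarith [mul_nonneg hr hr, mul_nonneg (mul_nonneg hr hr) hr]
      linarith
    refine (Av_mono _ _ h5).trans ?_
    rw [Av_add, Av_add, Av_smul, Av_smul, Av_smul,
      Av_fl i (fun x => ∑ l ∈ Finset.range (2 * r + 1),
          nt (A i * SS A x ^ l * A i * SS A x ^ (2 * r - l)))]
    linarith
  refine (Finset.sum_le_sum fun i _ => key i).trans ?_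
  rw [Finset.sum_add_distrib, Finset.sum_const, Finset.card_univ, Fintype.card_fin, nsmul_eq_mul]
  apply le_of_eq
  ring

end Pool.Agent.H120R2.GS
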