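import Pool.Agent.H120R2.GS.Stubs2

/-! Task STEP: recursion for the trace moments. -/

set_option autoImplicit false

namespace Pool.Agent.H120R2.GS

open scoped BigOperators Matrix Matrix.Norms.L2Operator

namespace STEPh

theorem SS_herm {m : ℕ} {κ : Type} (A : Fin m → Matrix κ κ ℂ) (hA : ∀ i, (A i).IsHermitian)
    (x : Fin m → Bool) : (SS A x).IsHermitian := by
  unfold Matrix.IsHermitian SS
  rw [Matrix.conjTranspose_sum]
  refine Finset.sum_congr rfl fun i _ => ?_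
  rw [Matrix.conjTranspose_smul, (hA i).eq, Complex.star_def, Complex.conj_ofReal]

theorem Av_mono {m : ℕ} {f g : (Fin m → Bool) → ℝ} (h : ∀ x, f x ≤ g x) : Av f ≤ Av g := by
  unfold Av
  exact div_le_div_of_nonneg_right (Finset.sum_le_sum fun x _ => h x) (by positivity)

theorem Av_smul {m : ℕ} (c : ℝ) (f : (Fin m → Bool) → ℝ) : Av (fun x => c * f x) = c * Av f := by
  unfold Av
  rw [← Finset.mul_sum, mul_div_assoc]

theorem Av_sum {m : ℕ} (s : Finset ℕ) (f : ℕ → (Fin m → Bool) → ℝ) :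
    Av (fun x => ∑ j ∈ s, f j x) = ∑ j ∈ s, Av (f j) := by
  unfold Av
  rw [Finset.sum_comm, Finset.sum_div]

end STEPh

open STEPh in
theorem T_STEP : P_SPE → P_SPM → P_SPD → P_ST → P_DEC → P_STEP := by
  intro hSPE hSPM hSPD hST hDEC κ _ _ m P A N B hctx p hp1 hpP
  have hctx' := hctx
  obtain ⟨hne, hm, hH, hn, hmN, hNB, hDB, hCov, hmom⟩ := hctx
  obtain ⟨q, rfl⟩ : ∃ q, p = q + 1 := ⟨p - 1, by omega⟩
  have e1 : 2 * (q + 1) - 1 = 2 * q + 1 := by omega
  have e2 : 2 * (q + 1) - 2 = 2 * q := by omega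
  have e3 : q + 1 - 1 = q := by omega
  set D : ℝ := (Fintype.card κ : ℝ) with hD
  have hD1 : 1 ≤ D := by
    rw [hD]
    exact_mod_cast Fintype.card_pos
  have hD0 : 0 < D := lt_of_lt_of_le one_pos hD1
  have hB1 : 1 ≤ B := le_trans (by nlinarith) hDB
  have hB0 : 0 < B := lt_of_lt_of_le one_pos hB1
  have hm0 : (1 : ℝ) ≤ m := by exact_mod_cast hm
  have hN0 : 0 < N := lt_of_lt_of_le (by linarith) hmN
  have hst := hST κ m (q + 1) A hp1 hn
  rw [e1, e2] at hst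
  -- the functions H_j
  set H : ℕ → ℝ := fun j => Av (fun x => ∑ i, nt (A i * SS A x ^ (2 * j) * A i *
    SS A x ^ (2 * (q - j)))) with hHdef
  have hmain : Av (fun x => ∑ i, ∑ l ∈ Finset.range (2 * q + 1),
      nt (A i * SS A x ^ l * A i * SS A x ^ (2 * q - l))) ≤
      2 * ∑ j ∈ Finset.range (q + 1), H j := by
    rw [hHdef, ← Av_sum, ← Av_smul]
    refine Av_mono fun x => ?_
    have hc : 2 * ∑ j ∈ Finset.range (q + 1), ∑ i, nt (A i * SS A x ^ (2 * j) * A i *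
        SS A x ^ (2 * (q - j))) = ∑ i, 2 * ∑ j ∈ Finset.range (q + 1),
        nt (A i * SS A x ^ (2 * j) * A i * SS A x ^ (2 * (q - j))) := by
      rw [Finset.sum_comm, Finset.mul_sum]
    rw [hc]
    refine Finset.sum_le_sum fun i _ => ?_
    exact hSPE κ (SS A x) (A i) q (SS_herm A hH x) (hH i)
  have hH1 : ∀ j ∈ Finset.range (q + 1), H j ≤
      2 * m * Av (fun x => nt (SS A x ^ (2 * q))) := by
    intro j hj
    have hjq : j ≤ q := by
      have := Finset.mem_range.mp hj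
      omega
    rw [hHdef, ← Av_smul]
    refine Av_mono fun x => ?_
    calc ∑ i, nt (A i * SS A x ^ (2 * j) * A i * SS A x ^ (2 * (q - j))) ≤
        ∑ _i : Fin m, 2 * nt (SS A x ^ (2 * q)) := by
          refine Finset.sum_le_sum fun i _ => ?_
          have h := (hSPM κ (SS A x) (A i) j (q - j) (SS_herm A hH x) (hH i)).2 (hn i)
          rwa [Nat.add_sub_cancel' hjq] at h
      _ = 2 * m * nt (SS A x ^ (2 * q)) := by
          rw [Finset.sum_const, Finset.card_univ, Fintype.card_fin, nsmul_eq_mul]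
          ring
  have hH2 : ∀ j ∈ Finset.range (q + 1), H j ≤
      N * (Av (fun x => nt (SS A x ^ (2 * j))) * Av (fun x => nt (SS A x ^ (2 * (q - j))))) +
        9 * N * (q : ℝ) ^ 4 * B ^ q / D ^ 2 := by
    intro j hj
    have hjq : j ≤ q := by
      have := Finset.mem_range.mp hj
      omega
    have h1 : H j ≤ N * Av (fun x => nt (SS A x ^ (2 * j)) * nt (SS A x ^ (2 * (q - j)))) := by
      rw [hHdef, ← Av_smul]
      refine Av_mono fun x => ?_
      have h := hSPD κ m A (N / D) (SS A x) j (q - j) hH (by positivity) hCov (SS_herm A hH x)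
      rw [← hD, div_mul_cancel₀ _ hD0.ne'] at h
      exact h
    have h2 := hDEC κ m P A N B hctx' j (q - j) (by omega)
    rw [Nat.add_sub_cancel' hjq] at h2
    have h3 : (j : ℝ) + ((q - j : ℕ) : ℝ) = q := by
      rw [← Nat.cast_add, Nat.add_sub_cancel' hjq]
    rw [h3, ← hD] at h2
    refine le_trans h1 ?_
    refine le_trans (mul_le_mul_of_nonneg_left h2 hN0.le) (le_of_eq ?_)
    ring
  have herr0 : 0 ≤ 9 * N * (q : ℝ) ^ 4 * B ^ q / D ^ 2 := by positivity
  have hH3 : ∀ j ∈ Finset.range (q + 1), H j ≤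
      min (2 * m * Av (fun x => nt (SS A x ^ (2 * q))))
        (N * (Av (fun x => nt (SS A x ^ (2 * j))) *
          Av (fun x => nt (SS A x ^ (2 * (q - j)))))) +
        9 * N * (q : ℝ) ^ 4 * B ^ q / D ^ 2 := by
    intro j hj
    rw [← sub_le_iff_le_add]
    refine le_min ?_ ?_
    · linarith [hH1 j hj]
    · linarith [hH2 j hj]
  have hsum := Finset.sum_le_sum hH3
  rw [Finset.sum_add_distrib, Finset.sum_const, Finset.card_range, nsmul_eq_mul] at hsum
  have hBD : 1 ≤ B / D ^ 2 := by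
    rw [le_div_iff₀ (by positivity)]
    linarith
  -- error terms
  have herr1 : 2 * (((q + 1 : ℕ) : ℝ) * (9 * N * (q : ℝ) ^ 4 * B ^ q / D ^ 2)) ≤
      18 * ((q + 1 : ℕ) : ℝ) ^ 5 * B ^ (q + 1) / D ^ 2 := by
    have hq : (q : ℝ) ≤ ((q + 1 : ℕ) : ℝ) := by push_cast; linarith
    have hq4 : (q : ℝ) ^ 4 ≤ ((q + 1 : ℕ) : ℝ) ^ 4 := pow_le_pow_left₀ (by positivity) hq 4
    have h1 : 2 * (((q + 1 : ℕ) : ℝ) * (9 * N * (q : ℝ) ^ 4 * B ^ q / D ^ 2)) =
        18 * ((q + 1 : ℕ) : ℝ) * (q : ℝ) ^ 4 * (N * B ^ q) / D ^ 2 := by ring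
    have h2 : 18 * ((q + 1 : ℕ) : ℝ) ^ 5 * B ^ (q + 1) / D ^ 2 =
        18 * ((q + 1 : ℕ) : ℝ) * ((q + 1 : ℕ) : ℝ) ^ 4 * (B * B ^ q) / D ^ 2 := by ring
    rw [h1, h2]
    refine div_le_div_of_nonneg_right ?_ (by positivity)
    refine mul_le_mul ?_ (mul_le_mul_of_nonneg_right hNB (by positivity)) (by positivity)
      (by positivity)
    exact mul_le_mul_of_nonneg_left hq4 (by positivity)
  have herr2 : (m : ℝ) * (4 * (((q + 1 : ℕ) : ℝ) - 1) * ((q + 1 : ℕ) : ℝ) ^ 2) *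
      Av (fun x => (‖SS A x‖ + 2) ^ (2 * (q + 1) - 4)) ≤
      4 * ((q + 1 : ℕ) : ℝ) ^ 5 * B ^ (q + 1) / D ^ 2 := by
    rcases Nat.eq_zero_or_pos q with h0 | hq
    · subst h0
      have : (((0 + 1 : ℕ) : ℝ) - 1) = 0 := by norm_num
      rw [this]
      simp only [mul_zero, zero_mul]
      positivity
    · obtain ⟨r, rfl⟩ : ∃ r, q = r + 1 := ⟨q - 1, by omega⟩
      have e4 : 2 * (r + 1 + 1) - 4 = 2 * r := by omega
      rw [e4]
      have h1 := hmom r (by omega)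
      set p : ℝ := ((r + 1 + 1 : ℕ) : ℝ) with hp
      have hp1 : 1 ≤ p := by rw [hp]; push_cast; linarith [Nat.cast_nonneg (α := ℝ) r]
      have h2 : (m : ℝ) * (4 * (p - 1) * p ^ 2) * Av (fun x => (‖SS A x‖ + 2) ^ (2 * r)) ≤
          m * (4 * (p - 1) * p ^ 2) * B ^ r := by
        refine mul_le_mul_of_nonneg_left h1 ?_
        have : 0 ≤ p - 1 := by linarith
        positivity
      refine le_trans h2 ?_
      have h3 : (4 * (p - 1) * p ^ 2) ≤ 4 * p ^ 5 := by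
        have h4 : p ^ 3 ≤ p ^ 5 := pow_le_pow_right₀ hp1 (by norm_num)
        nlinarith [sq_nonneg p]
      have hmB : (m : ℝ) ≤ B := le_trans hmN hNB
      calc (m : ℝ) * (4 * (p - 1) * p ^ 2) * B ^ r ≤ B * (4 * p ^ 5) * B ^ r := by
            refine mul_le_mul_of_nonneg_right ?_ (by positivity)
            refine mul_le_mul hmB h3 ?_ hB0.le
            have : 0 ≤ p - 1 := by linarith
            positivity
        _ = 4 * p ^ 5 * B ^ (r + 1) * 1 := by ring
        _ ≤ 4 * p ^ 5 * B ^ (r + 1) * (B / D ^ 2) :=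
            mul_le_mul_of_nonneg_left hBD (by positivity)
        _ = 4 * p ^ 5 * B ^ (r + 1 + 1) / D ^ 2 := by ring
  rw [e3]
  have hfin : 22 * ((q + 1 : ℕ) : ℝ) ^ 5 * B ^ (q + 1) / D ^ 2 =
      18 * ((q + 1 : ℕ) : ℝ) ^ 5 * B ^ (q + 1) / D ^ 2 +
        4 * ((q + 1 : ℕ) : ℝ) ^ 5 * B ^ (q + 1) / D ^ 2 := by ring
  rw [hfin]
  linarith

end Pool.Agent.H120R2.GS
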