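import Pool.Agent.H120R2.GS.Defs

/-!
# Signed sums of matrices and finite groups: statements
-/

set_option autoImplicit false

namespace Pool.Agent.H120R2.GS

open scoped BigOperators

/-- nets: norm of an operator from finitely many matrix coefficients -/
def P_NET : Prop := ∀ d : ℕ, ∃ N : Finset (E d), N.card ≤ 81 ^ d ∧ (∀ u ∈ N, ‖u‖ ≤ 1) ∧
  ∀ M : Op d, ∃ u ∈ N, ∃ v ∈ N, ‖M‖ ≤ 2 * ‖inner ℂ v (M u)‖

/-- Hoeffding, counting form -/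
def P_HOEFF : Prop := ∀ (m : ℕ) (a : Fin m → ℝ) (V t : ℝ), 0 < V → 0 ≤ t → ∑ i, a i ^ 2 ≤ V →
  ((Finset.univ.filter (fun x : Fin m → Bool => t < |∑ i, sg (x i) * a i|)).card : ℝ) ≤
    2 * 2 ^ m * Real.exp (-(t ^ 2 / (2 * V)))

/-- tail bound for the norm of a random signed sum -/
def P_TAIL : Prop := ∀ (m d : ℕ) (A : Fin m → Op d) (V t : ℝ), 0 < V → 0 ≤ t →
  (∀ u v : E d, ‖u‖ ≤ 1 → ‖v‖ ≤ 1 → ∑ i, ‖inner ℂ v (A i u)‖ ^ 2 ≤ V) →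
  ((Finset.univ.filter (fun x : Fin m → Bool => t < ‖∑ i, ((sg (x i) : ℝ) : ℂ) • A i‖)).card : ℝ) ≤
    4 * 6561 ^ d * 2 ^ m * Real.exp (-(t ^ 2 / (16 * V)))

/-- cells in a ball of operators -/
def P_CELL : Prop := ∀ (d k : ℕ) (T : ℝ), 1 ≤ d → 0 < T → ∃ c : Op d → ℕ, ∀ M : Op d,
  ‖M‖ ≤ 2 ^ k * T → c M < (2 ^ (k + 3) * d) ^ (2 * d ^ 2) ∧
    ∀ M' : Op d, ‖M'‖ ≤ 2 ^ k * T → c M = c M' → ‖M - M'‖ ≤ 2 * T

/-- number of cheap patterns -/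
def P_PAT : Prop := ∀ (ι Λ : Type) [Fintype ι] [DecidableEq ι] [DecidableEq Λ] (o : Λ)
  (S : ι → Finset Λ) (w : ι → Λ → ℝ) (b L : ℝ), (∀ j, w j o = 0) →
  (∀ j, ∑ l ∈ (S j).erase o, Real.exp (-(w j l)) ≤ b) →
  (((Fintype.piFinset S).filter (fun f => ∑ j, w j (f j) ≤ L)).card : ℝ) ≤
    Real.exp (L + Fintype.card ι * b)

/-- a large set of sign vectors contains two that are almost antipodal -/
def P_FAR : Prop := ∀ (m : ℕ) (F : Finset (Fin m → Bool)) (ε : ℝ), 0 ≤ ε →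
  2 ^ m * Real.exp (-(ε * m)) ≤ (F.card : ℝ) →
  ∃ x ∈ F, ∃ x' ∈ F, ((Finset.univ.filter (fun i => x i = x' i)).card : ℝ) ≤ √(2 * ε) * m

/-- numerical inequality -/
def P_NUM : Prop := ∀ (d K : ℕ) (β τ : ℝ), 1 ≤ d → 0 ≤ β → 20 * d + 2 * β + 20 ≤ τ →
  ∑ k ∈ Finset.Icc 1 K, 4 * (6561 : ℝ) ^ d * Real.exp (-(4 ^ (k - 1) * τ)) *
    (2 * d ^ 2 * Real.log (2 ^ (k + 3) * d) + k + β) ≤ (1 / 2) * Real.exp (-β)

/-- partial colouring, almost everything is coloured -/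
def P_PC : Prop := ∀ (n m : ℕ) (ι : Type) [Fintype ι] [DecidableEq ι] (d : ι → ℕ)
  (A : Fin m → (j : ι) → Op (d j)), 1 ≤ m → m ≤ n → Fintype.card ι ≤ n → (∀ j, 1 ≤ d j) →
  (∀ i j, ‖A i j‖ ≤ 1) →
  (∀ j (u v : E (d j)), ‖u‖ ≤ 1 → ‖v‖ ≤ 1 → ∑ i, ‖inner ℂ v (A i j u)‖ ^ 2 ≤ (n : ℝ) / d j) →
  ∃ y : Fin m → ℝ, (∀ i, y i = 0 ∨ y i = 1 ∨ y i = -1) ∧
    (∀ j, ‖∑ i, ((y i : ℝ) : ℂ) • A i j‖ ≤ 28 * √n) ∧
    ((Finset.univ.filter (fun i => y i = 0)).card * 2 ^ (n / m) ≤ m ∨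
      (Finset.univ.filter (fun i => y i = 0)).card ^ 2 ≤ 3 * m)

/-- signed sums of spread block matrices -/
def P_ABS : Prop := ∀ (n : ℕ) (ι : Type) [Fintype ι] [DecidableEq ι] (d : ι → ℕ)
  (A : Fin n → (j : ι) → Op (d j)), Fintype.card ι ≤ n → (∀ j, 1 ≤ d j) →
  (∀ i j, ‖A i j‖ ≤ 1) →
  (∀ j (u v : E (d j)), ‖u‖ ≤ 1 → ‖v‖ ≤ 1 → ∑ i, ‖inner ℂ v (A i j u)‖ ^ 2 ≤ (n : ℝ) / d j) →
  ∃ ε : Fin n → ℝ, (∀ i, ε i = 1 ∨ ε i = -1) ∧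
    ∀ j, ‖∑ i, ((ε i : ℝ) : ℂ) • A i j‖ ≤ 30 * (1 + lst n) * √n

/-- a family of operators indexed by a finite group is a unitary representation -/
def IsURep {G V : Type} [Group G] [NormedAddCommGroup V] [InnerProductSpace ℂ V]
    (π : G → V →L[ℂ] V) : Prop :=
  π 1 = 1 ∧ (∀ g h, π (g * h) = π g * π h) ∧ ∀ g u, ‖π g u‖ = ‖u‖

/-- the only invariant subspaces are 0 and everything -/
def IsIrr {G V : Type} [Group G] [NormedAddCommGroup V] [InnerProductSpace ℂ V]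
    (π : G → V →L[ℂ] V) : Prop :=
  ∀ W : Submodule ℂ V, (∀ g, ∀ w ∈ W, π g w ∈ W) → W = ⊥ ∨ W = ⊤

/-- Schur orthogonality, norm form -/
def P_SCHUR : Prop := ∀ (G : Type) [Group G] [Fintype G] (d : ℕ) (π : G → Op d), 1 ≤ d →
  IsURep π → IsIrr π → ∀ u v : E d,
  ∑ g, ‖inner ℂ v (π g u)‖ ^ 2 = (Fintype.card G : ℝ) / d * ‖u‖ ^ 2 * ‖v‖ ^ 2

/-- decomposition of a unitary representation into irreducible ones -/
def P_IRR : Prop := ∀ (G : Type) [Group G] [Fintype G] (N : ℕ) (π : G → Op N), IsURep π →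
  ∃ (k : ℕ) (d : Fin k → ℕ) (J : (j : Fin k) → E (d j) →ₗᵢ[ℂ] E N)
    (σ : G → (j : Fin k) → Op (d j)),
    (∀ j, 1 ≤ d j) ∧ ∑ j, d j = N ∧
    (∀ j, IsURep (fun g => σ g j)) ∧ (∀ j, IsIrr (fun g => σ g j)) ∧
    (∀ g j u, π g (J j u) = J j (σ g j u)) ∧
    (∀ i j, i ≠ j → ∀ u v, inner ℂ (J i u) (J j v) = 0) ∧
    (∀ x : E N, ∃ u : (j : Fin k) → E (d j), x = ∑ j, J j (u j))

/-- the theorem for groups -/
def P_GRP : Prop := ∀ (G : Type) [Group G] [Fintype G] [DecidableEq G],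
  ∃ ε : G → ℝ, (∀ g, ε g = 1 ∨ ε g = -1) ∧
    ∀ v : G → ℝ,
      ∑ a : G, ((∑ g : G, ε g • Matrix.of (fun x y : G =>
        if g * y = x then (1:ℝ) else 0)).mulVec v a) ^ 2
      ≤ (30 * (1 + lst (Fintype.card G))) ^ 2 * (Fintype.card G : ℝ) * ∑ a : G, v a ^ 2

end Pool.Agent.H120R2.GS
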