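import Pool.Agent.H120R2.GS.Stubs

/-!
# Signed sums of matrices and finite groups: statements for the sharp bound
-/

set_option autoImplicit false

namespace Pool.Agent.H120R2.GS

open scoped BigOperators Matrix Matrix.Norms.L2Operator

/-- average over all sign vectors -/
noncomputable def Av {m : ℕ} (f : (Fin m → Bool) → ℝ) : ℝ := (∑ x, f x) / 2 ^ m

/-- signed sum of matrices -/
noncomputable def SS {m : ℕ} {κ : Type} (A : Fin m → Matrix κ κ ℂ) (x : Fin m → Bool) :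
    Matrix κ κ ℂ := ∑ i, ((sg (x i) : ℝ) : ℂ) • A i

/-- signed sum of operators -/
noncomputable def XO {m d : ℕ} (A : Fin m → Op d) (x : Fin m → Bool) : Op d :=
  ∑ i, ((sg (x i) : ℝ) : ℂ) • A i

/-- real part of the normalised trace -/
noncomputable def nt {κ : Type} [Fintype κ] (M : Matrix κ κ ℂ) : ℝ :=
  M.trace.re / Fintype.card κ

/-- squared Hilbert-Schmidt norm -/
noncomputable def hs {κ : Type} [Fintype κ] (M : Matrix κ κ ℂ) : ℝ := ∑ a, ∑ b, ‖M a b‖ ^ 2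

/-- covariance bound for matrices -/
def Cov {m : ℕ} {κ : Type} [Fintype κ] (A : Fin m → Matrix κ κ ℂ) (c : ℝ) : Prop :=
  ∀ Y : Matrix κ κ ℂ, ∑ i, ‖(A i * Y).trace‖ ^ 2 ≤ c * hs Y

/-- matrix coefficients of an operator -/
noncomputable def mc {d : ℕ} (T : Op d) (a b : Fin d) : ℂ :=
  inner ℂ (EuclideanSpace.single a (1 : ℂ)) (T (EuclideanSpace.single b (1 : ℂ)))

/-- covariance bound for operators -/
def CovO {μ : Type} [Fintype μ] {d : ℕ} (A : μ → Op d) (c : ℝ) : Prop :=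
  ∀ z : Fin d → Fin d → ℂ, ∑ i, ‖∑ a, ∑ b, z a b * mc (A i) a b‖ ^ 2 ≤
    c * ∑ a, ∑ b, ‖z a b‖ ^ 2

/-! ## Hermitian matrices -/

/-- spectral formulas -/
def P_SPEC : Prop := ∀ (κ : Type) [Fintype κ] [DecidableEq κ] (X : Matrix κ κ ℂ),
  X.IsHermitian → ∃ (U : Matrix κ κ ℂ) (s : κ → ℝ), U * Uᴴ = 1 ∧ Uᴴ * U = 1 ∧
    (∀ k : ℕ, (X ^ k).trace = ((∑ a, s a ^ k : ℝ) : ℂ)) ∧
    (∀ A : Matrix κ κ ℂ, A.IsHermitian → ∀ k l : ℕ, (A * X ^ l * A * X ^ k).trace =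
      ((∑ a, ∑ b, s a ^ k * s b ^ l * ‖(Uᴴ * A * U) a b‖ ^ 2 : ℝ) : ℂ)) ∧
    ∀ a, |s a| ≤ ‖X‖

/-- odd exponents reduce to even exponents -/
def P_SPE : Prop := ∀ (κ : Type) [Fintype κ] [DecidableEq κ] (X A : Matrix κ κ ℂ) (q : ℕ),
  X.IsHermitian → A.IsHermitian →
  ∑ l ∈ Finset.range (2 * q + 1), nt (A * X ^ l * A * X ^ (2 * q - l)) ≤
    2 * ∑ j ∈ Finset.range (q + 1), nt (A * X ^ (2 * j) * A * X ^ (2 * (q - j)))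

/-- first bound for even exponents -/
def P_SPM : Prop := ∀ (κ : Type) [Fintype κ] [DecidableEq κ] (X A : Matrix κ κ ℂ) (j k : ℕ),
  X.IsHermitian → A.IsHermitian → 0 ≤ nt (A * X ^ (2 * j) * A * X ^ (2 * k)) ∧
    (‖A‖ ≤ 1 → nt (A * X ^ (2 * j) * A * X ^ (2 * k)) ≤ 2 * nt (X ^ (2 * (j + k))))

/-- second bound for even exponents -/
def P_SPD : Prop := ∀ (κ : Type) [Fintype κ] [DecidableEq κ] (m : ℕ)
  (A : Fin m → Matrix κ κ ℂ) (c : ℝ) (X : Matrix κ κ ℂ) (j k : ℕ),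
  (∀ i, (A i).IsHermitian) → 0 ≤ c → Cov A c → X.IsHermitian →
  ∑ i, nt (A i * X ^ (2 * j) * A i * X ^ (2 * k)) ≤
    c * Fintype.card κ * (nt (X ^ (2 * j)) * nt (X ^ (2 * k)))

/-- norm and trace -/
def P_TRN : Prop := ∀ (κ : Type) [Fintype κ] [DecidableEq κ] (X : Matrix κ κ ℂ) (p : ℕ),
  Nonempty κ → X.IsHermitian → ‖X‖ ^ (2 * p) ≤ Fintype.card κ * nt (X ^ (2 * p))

/-! ## Moments of signed sums -/

/-- integration by parts for signs -/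
def P_ST : Prop := ∀ (κ : Type) [Fintype κ] [DecidableEq κ] (m p : ℕ)
  (A : Fin m → Matrix κ κ ℂ), 1 ≤ p → (∀ i, ‖A i‖ ≤ 1) →
  Av (fun x => nt (SS A x ^ (2 * p))) ≤
    Av (fun x => ∑ i, ∑ l ∈ Finset.range (2 * p - 1),
      nt (A i * SS A x ^ l * A i * SS A x ^ (2 * p - 2 - l))) +
    m * (4 * ((p : ℝ) - 1) * p ^ 2) * Av (fun x => (‖SS A x‖ + 2) ^ (2 * p - 4))

/-- variance on the cube -/
def P_EF : Prop := ∀ (m : ℕ) (f : (Fin m → Bool) → ℝ),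
  Av (fun x => f x ^ 2) - (Av f) ^ 2 ≤
    ∑ i, Av (fun x => ((f x - f (Function.update x i (!(x i)))) / 2) ^ 2)

/-- variance of trace moments -/
def P_VAR : Prop := ∀ (κ : Type) [Fintype κ] [DecidableEq κ] (m N : ℕ)
  (A : Fin m → Matrix κ κ ℂ) (c : ℝ), 2 ≤ N → 0 ≤ c → (∀ i, ‖A i‖ ≤ 1) → Cov A c →
  Av (fun x => nt (SS A x ^ N) ^ 2) - Av (fun x => nt (SS A x ^ N)) ^ 2 ≤
    2 * N ^ 2 * (c / Fintype.card κ) * Av (fun x => ‖SS A x‖ ^ (2 * N - 2)) +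
    8 * m * N ^ 4 * Av (fun x => (‖SS A x‖ + 2) ^ (2 * N - 4))

/-- a recursive inequality -/
def P_REC : Prop := ∀ (P : ℕ) (a e : ℕ → ℝ) (m N K : ℝ), 0 < m → m ≤ 2 * N →
  200 * √(m * N) ≤ K → (∀ k, 0 ≤ a k) → a 0 ≤ 1 →
  (∀ p, 1 ≤ p → p ≤ P → a p ≤ 2 * ∑ j ∈ Finset.range p,
    min (m * a (p - 1)) (N * (a j * a (p - 1 - j))) + e p) →
  (∀ p, 1 ≤ p → p ≤ P → e p ≤ K ^ p / (2 * ((p : ℝ) + 1) ^ 2)) →
  ∀ p, p ≤ P → a p ≤ K ^ p / ((p : ℝ) + 1) ^ 2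

/-- covariance inequality -/
def P_CS : Prop := ∀ (m : ℕ) (f g : (Fin m → Bool) → ℝ) (V W : ℝ), 0 ≤ V → 0 ≤ W →
  Av (fun x => f x ^ 2) - (Av f) ^ 2 ≤ V ^ 2 → Av (fun x => g x ^ 2) - (Av g) ^ 2 ≤ W ^ 2 →
  Av (fun x => f x * g x) ≤ Av f * Av g + V * W

/-- the standing assumptions: norm at most one, isotropic covariance, a priori moments -/
def Ctx {κ : Type} [Fintype κ] [DecidableEq κ] (m P : ℕ) (A : Fin m → Matrix κ κ ℂ)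
    (N B : ℝ) : Prop :=
  Nonempty κ ∧ 1 ≤ m ∧ (∀ i, (A i).IsHermitian) ∧ (∀ i, ‖A i‖ ≤ 1) ∧ (m : ℝ) ≤ N ∧ N ≤ B ∧
  (Fintype.card κ : ℝ) ^ 2 ≤ B ∧ Cov A (N / Fintype.card κ) ∧
  (∀ k : ℕ, k ≤ 2 * P → Av (fun x => (‖SS A x‖ + 2) ^ (2 * k)) ≤ B ^ k)

/-- trace moments are almost uncorrelated -/
def P_DEC : Prop := ∀ (κ : Type) [Fintype κ] [DecidableEq κ] (m P : ℕ)
  (A : Fin m → Matrix κ κ ℂ) (N B : ℝ), Ctx m P A N B → ∀ j k : ℕ, j + k + 1 ≤ P →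
  Av (fun x => nt (SS A x ^ (2 * j)) * nt (SS A x ^ (2 * k))) ≤
    Av (fun x => nt (SS A x ^ (2 * j))) * Av (fun x => nt (SS A x ^ (2 * k))) +
      9 * ((j : ℝ) + k) ^ 4 * B ^ (j + k) / (Fintype.card κ : ℝ) ^ 2

/-- recursion for the trace moments -/
def P_STEP : Prop := ∀ (κ : Type) [Fintype κ] [DecidableEq κ] (m P : ℕ)
  (A : Fin m → Matrix κ κ ℂ) (N B : ℝ), Ctx m P A N B → ∀ p : ℕ, 1 ≤ p → p ≤ P →
  Av (fun x => nt (SS A x ^ (2 * p))) ≤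
    2 * ∑ j ∈ Finset.range p, min (2 * m * Av (fun x => nt (SS A x ^ (2 * (p - 1)))))
      (N * (Av (fun x => nt (SS A x ^ (2 * j))) *
        Av (fun x => nt (SS A x ^ (2 * (p - 1 - j)))))) +
    22 * (p : ℝ) ^ 5 * B ^ p / (Fintype.card κ : ℝ) ^ 2

/-- moments of signed sums with small covariance -/
def P_MOM : Prop := ∀ (κ : Type) [Fintype κ] [DecidableEq κ] (m P : ℕ)
  (A : Fin m → Matrix κ κ ℂ) (N B K : ℝ), Ctx m P A N B →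
  300 * √(m * N) ≤ K → K ≤ B → 200 * (P : ℝ) ^ 7 * B ^ P ≤ (Fintype.card κ : ℝ) ^ 2 * K ^ P →
  Av (fun x => nt (SS A x ^ (2 * P))) ≤ K ^ P

/-- moments of signed sums, general -/
def P_KH : Prop := ∀ (κ : Type) [Fintype κ] [DecidableEq κ] (m p : ℕ)
  (A : Fin m → Matrix κ κ ℂ), (∀ i, (A i).IsHermitian) → (∀ i, ‖A i‖ ≤ 1) → 1 ≤ m → 1 ≤ p →
  Av (fun x => nt (SS A x ^ (2 * p))) ≤ (6 * p * m : ℝ) ^ p

/-! ## Operators -/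

/-- covariance bounds control single matrix coefficients -/
def P_WV : Prop := ∀ (μ : Type) [Fintype μ] (d : ℕ) (A : μ → Op d) (c : ℝ), 0 ≤ c → CovO A c →
  ∀ u v : E d, ‖u‖ ≤ 1 → ‖v‖ ≤ 1 → ∑ i, ‖inner ℂ v (A i u)‖ ^ 2 ≤ c

/-- a priori moments -/
def P_APR : Prop := ∀ (n m d k : ℕ) (A : Fin m → Op d), 1 ≤ n → 1 ≤ d → k ≤ d →
  (∀ u v : E d, ‖u‖ ≤ 1 → ‖v‖ ≤ 1 → ∑ i, ‖inner ℂ v (A i u)‖ ^ 2 ≤ (n : ℝ) / d) →
  Av (fun x => (‖XO A x‖ + 2) ^ (2 * k)) ≤ (10000 * n : ℝ) ^ k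

/-- Hermitian dilation -/
def P_DIL : Prop := ∀ (m d : ℕ) (A : Fin m → Op d), (∀ i, ‖A i‖ ≤ 1) →
  ∃ Â : Fin m → Matrix (Fin d ⊕ Fin d) (Fin d ⊕ Fin d) ℂ,
    (∀ i, (Â i).IsHermitian) ∧ (∀ i, ‖Â i‖ ≤ 1) ∧ (∀ x, ‖SS Â x‖ = ‖XO A x‖) ∧
    ∀ c : ℝ, 0 ≤ c → CovO A c → Cov Â (2 * c)

/-- moments, operator form, small covariance -/
def P_MOM2 : Prop := ∀ (n m d P : ℕ) (A : Fin m → Op d) (K : ℝ), 1 ≤ m → m ≤ n → 1 ≤ d →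
  d ^ 2 ≤ n → 2 * P ≤ d → (∀ i, ‖A i‖ ≤ 1) → CovO A ((n : ℝ) / d) →
  1000 * √((m : ℝ) * n) ≤ K → K ≤ 10000 * n →
  50 * (P : ℝ) ^ 7 * (10000 * n) ^ P ≤ (d : ℝ) ^ 2 * K ^ P →
  Av (fun x => ‖XO A x‖ ^ (2 * P)) ≤ 2 * d * K ^ P

/-- moments, operator form, general -/
def P_KH2 : Prop := ∀ (m d p : ℕ) (A : Fin m → Op d), 1 ≤ d → (∀ i, ‖A i‖ ≤ 1) → 1 ≤ m →
  1 ≤ p → Av (fun x => ‖XO A x‖ ^ (2 * p)) ≤ 2 * d * (6 * p * m : ℝ) ^ p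

/-- a good moment always exists -/
def P_Q : Prop := ∃ C : ℝ, 1 ≤ C ∧ ∀ (n m d : ℕ) (A : Fin m → Op d), 1 ≤ m → m ≤ n → 1 ≤ d →
  d ^ 2 ≤ n → (∀ i, ‖A i‖ ≤ 1) → CovO A ((n : ℝ) / d) → ∃ p : ℕ, 1 ≤ p ∧
  Av (fun x => ‖XO A x‖ ^ (2 * p)) ≤
    ((m : ℝ) / n) / (1000 * (1 + Real.log d + Real.log ((n : ℝ) / m))) *
      (C * √n * ((m : ℝ) / n) ^ ((1 : ℝ) / 16)) ^ (2 * p)

/-- partial colouring with a decreasing bound -/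
def P_PC2 : Prop := ∃ C : ℝ, 1 ≤ C ∧ ∀ (n m : ℕ) (ι : Type) [Fintype ι] [DecidableEq ι]
  (d : ι → ℕ) (A : Fin m → (j : ι) → Op (d j)), 1 ≤ m → m ≤ n → (∀ j, 1 ≤ d j) →
  ∑ j, d j ^ 2 ≤ n → (∀ i j, ‖A i j‖ ≤ 1) →
  (∀ j, CovO (fun i => A i j) ((n : ℝ) / d j)) →
  ∃ y : Fin m → ℝ, (∀ i, y i = 0 ∨ y i = 1 ∨ y i = -1) ∧
    (∀ j, ‖∑ i, ((y i : ℝ) : ℂ) • A i j‖ ≤ C * √n * ((m : ℝ) / n) ^ ((1 : ℝ) / 16)) ∧
    2 * (Finset.univ.filter (fun i => y i = 0)).card ≤ m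

/-- signed sums of isotropic block matrices -/
def P_ABS2 : Prop := ∃ C : ℝ, 0 < C ∧ ∀ (n : ℕ) (ι : Type) [Fintype ι] [DecidableEq ι]
  (d : ι → ℕ) (A : Fin n → (j : ι) → Op (d j)), (∀ j, 1 ≤ d j) →
  ∑ j, d j ^ 2 ≤ n → (∀ i j, ‖A i j‖ ≤ 1) →
  (∀ j, CovO (fun i => A i j) ((n : ℝ) / d j)) →
  ∃ ε : Fin n → ℝ, (∀ i, ε i = 1 ∨ ε i = -1) ∧
    ∀ j, ‖∑ i, ((ε i : ℝ) : ℂ) • A i j‖ ≤ C * √n

/-! ## Groups -/

/-- Schur orthogonality, covariance form -/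
def P_COV : Prop := ∀ (G : Type) [Group G] [Fintype G] (d : ℕ) (π : G → Op d), 1 ≤ d →
  IsURep π → IsIrr π → CovO π ((Fintype.card G : ℝ) / d)

/-- Schur orthogonality within one irreducible representation -/
def P_ORT : Prop := ∀ (G : Type) [Group G] [Fintype G] (d : ℕ) (π : G → Op d), 1 ≤ d →
  IsURep π → IsIrr π → ∀ a b a' b' : Fin d,
  ∑ g, mc (π g) a b * (starRingEnd ℂ) (mc (π g) a' b') =
    if a = a' ∧ b = b' then (Fintype.card G : ℂ) / d else 0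

/-- two irreducible unitary representations are equivalent or have orthogonal coefficients -/
def P_EQ : Prop := ∀ (G : Type) [Group G] [Fintype G] (d e : ℕ) (σ : G → Op d) (τ : G → Op e),
  1 ≤ d → 1 ≤ e → IsURep σ → IsIrr σ → IsURep τ → IsIrr τ →
  (∀ z : G → ℂ, ‖∑ g, z g • σ g‖ = ‖∑ g, z g • τ g‖) ∨
    ∀ (a b : Fin d) (a' b' : Fin e),
      ∑ g, mc (σ g) a b * (starRingEnd ℂ) (mc (τ g) a' b') = 0

/-- sum of squares of the dimensions -/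
def P_DIM : Prop := ∀ (G : Type) [Group G] [Fintype G] (ι : Type) [Fintype ι] [DecidableEq ι]
  (d : ι → ℕ) (σ : G → (j : ι) → Op (d j)), (∀ j, 1 ≤ d j) →
  (∀ j, IsURep (fun g => σ g j)) → (∀ j, IsIrr (fun g => σ g j)) →
  (∀ i j, i ≠ j → ∀ (a b : Fin (d i)) (a' b' : Fin (d j)),
    ∑ g, mc (σ g i) a b * (starRingEnd ℂ) (mc (σ g j) a' b') = 0) →
  ∑ j, d j ^ 2 ≤ Fintype.card G

/-- decomposition with bounded sum of squares of dimensions -/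
def P_DUAL : Prop := ∀ (G : Type) [Group G] [Fintype G] (N : ℕ) (π : G → Op N), IsURep π →
  ∃ (ι : Type) (_ : Fintype ι) (_ : DecidableEq ι) (d : ι → ℕ) (σ : G → (j : ι) → Op (d j)),
    (∀ j, 1 ≤ d j) ∧ ∑ j, d j ^ 2 ≤ Fintype.card G ∧
    (∀ j, IsURep (fun g => σ g j)) ∧ (∀ j, IsIrr (fun g => σ g j)) ∧
    ∀ (z : G → ℂ) (t : ℝ), 0 ≤ t → (∀ j, ‖∑ g, z g • σ g j‖ ≤ t) → ‖∑ g, z g • π g‖ ≤ t

/-- the Group Spencer theorem -/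
def P_GRP2 : Prop := ∃ C : ℝ, ∀ (G : Type) [Group G] [Fintype G] [DecidableEq G],
  ∃ ε : G → ℝ, (∀ g, ε g = 1 ∨ ε g = -1) ∧
    ∀ v : G → ℝ,
      ∑ a : G, ((∑ g : G, ε g • Matrix.of (fun x y : G =>
        if g * y = x then (1:ℝ) else 0)).mulVec v a) ^ 2
      ≤ C ^ 2 * (Fintype.card G : ℝ) * ∑ a : G, v a ^ 2

end Pool.Agent.H120R2.GS
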