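import Pool.Agent.H120R2.GS.Stubs

/-!
# Tail bound for the norm of a random signed sum of operators
-/

set_option autoImplicit false

namespace Pool.Agent.H120R2.GS

open scoped BigOperators

namespace TAILh

/-- the matrix coefficient of a signed sum -/
lemma coef {m d : ℕ} (A : Fin m → Op d) (x : Fin m → Bool) (u v : E d) :
    inner ℂ v ((∑ i, ((sg (x i) : ℝ) : ℂ) • A i) u) =
      ∑ i, ((sg (x i) : ℝ) : ℂ) * inner ℂ v (A i u) := by
  rw [_root_.sum_apply, inner_sum]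
  refine Finset.sum_congr rfl fun i _ => ?_
  rw [_root_.smul_apply, inner_smul_right]

lemma coef_re {m d : ℕ} (A : Fin m → Op d) (x : Fin m → Bool) (u v : E d) :
    (inner ℂ v ((∑ i, ((sg (x i) : ℝ) : ℂ) • A i) u)).re =
      ∑ i, sg (x i) * (inner ℂ v (A i u)).re := by
  rw [coef, Complex.re_sum]
  refine Finset.sum_congr rfl fun i _ => ?_
  rw [Complex.re_ofReal_mul]

lemma coef_im {m d : ℕ} (A : Fin m → Op d) (x : Fin m → Bool) (u v : E d) :
    (inner ℂ v ((∑ i, ((sg (x i) : ℝ) : ℂ) • A i) u)).im =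
      ∑ i, sg (x i) * (inner ℂ v (A i u)).im := by
  rw [coef, Complex.im_sum]
  refine Finset.sum_congr rfl fun i _ => ?_
  rw [Complex.im_ofReal_mul]

lemma re_or_im (z : ℂ) (t : ℝ) (ht : 0 ≤ t) (h : t < 2 * ‖z‖) :
    t / (2 * √2) < |z.re| ∨ t / (2 * √2) < |z.im| := by
  by_contra hc
  push Not at hc
  obtain ⟨h1, h2⟩ := hc
  have hs : (t / (2 * √2)) ^ 2 = t ^ 2 / 8 := by
    rw [div_pow, mul_pow, Real.sq_sqrt (by norm_num)]
    norm_num
  have h1' : z.re ^ 2 ≤ t ^ 2 / 8 := by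
    rw [← sq_abs, ← hs]
    exact pow_le_pow_left₀ (abs_nonneg _) h1 2
  have h2' : z.im ^ 2 ≤ t ^ 2 / 8 := by
    rw [← sq_abs, ← hs]
    exact pow_le_pow_left₀ (abs_nonneg _) h2 2
  have h3 : ‖z‖ ^ 2 = z.re ^ 2 + z.im ^ 2 := by
    rw [← Complex.normSq_eq_norm_sq, Complex.normSq_apply]
    ring
  have h4 : t ^ 2 < (2 * ‖z‖) ^ 2 := pow_lt_pow_left₀ h ht (by norm_num)
  nlinarith

lemma re_sq_le (z : ℂ) : z.re ^ 2 ≤ ‖z‖ ^ 2 := by
  rw [← Complex.normSq_eq_norm_sq, Complex.normSq_apply]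
  nlinarith [mul_self_nonneg z.im]

lemma im_sq_le (z : ℂ) : z.im ^ 2 ≤ ‖z‖ ^ 2 := by
  rw [← Complex.normSq_eq_norm_sq, Complex.normSq_apply]
  nlinarith [mul_self_nonneg z.re]

end TAILh

open TAILh in
theorem T_TAIL : P_NET → P_HOEFF → P_TAIL := by
  classical
  intro hN hH m d A V t hV ht hA
  obtain ⟨N, hNc, hN1, hNM⟩ := hN d
  set s : ℝ := t / (2 * √2) with hs
  have hs0 : 0 ≤ s := by positivity
  have hs2 : s ^ 2 / (2 * V) = t ^ 2 / (16 * V) := by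
    rw [hs, div_pow, mul_pow, Real.sq_sqrt (by norm_num)]
    field_simp
    ring
  set R : E d → E d → Finset (Fin m → Bool) := fun u v =>
    Finset.univ.filter (fun x : Fin m → Bool => s < |∑ i, sg (x i) * (inner ℂ v (A i u)).re|)
    with hR
  set I : E d → E d → Finset (Fin m → Bool) := fun u v =>
    Finset.univ.filter (fun x : Fin m → Bool => s < |∑ i, sg (x i) * (inner ℂ v (A i u)).im|)
    with hI
  have hsub : Finset.univ.filter
      (fun x : Fin m → Bool => t < ‖∑ i, ((sg (x i) : ℝ) : ℂ) • A i‖) ⊆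
      (N ×ˢ N).biUnion (fun p => R p.1 p.2 ∪ I p.1 p.2) := by
    intro x hx
    rw [Finset.mem_filter] at hx
    obtain ⟨u, hu, v, hv, hM⟩ := hNM (∑ i, ((sg (x i) : ℝ) : ℂ) • A i)
    have h1 := re_or_im _ t ht (lt_of_lt_of_le hx.2 hM)
    rw [coef_re, coef_im] at h1
    rw [Finset.mem_biUnion]
    refine ⟨(u, v), Finset.mem_product.2 ⟨hu, hv⟩, ?_⟩
    rw [Finset.mem_union, hR, hI]
    simp only [Finset.mem_filter, Finset.mem_univ, true_and]
    exact h1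
  have hb : ∀ p ∈ N ×ˢ N, ((R p.1 p.2 ∪ I p.1 p.2).card : ℝ) ≤
      4 * 2 ^ m * Real.exp (-(t ^ 2 / (16 * V))) := by
    intro p hp
    rw [Finset.mem_product] at hp
    have hV' := hA p.1 p.2 (hN1 _ hp.1) (hN1 _ hp.2)
    have e1 := hH m (fun i => (inner ℂ p.2 (A i p.1)).re) V s hV hs0
      ((Finset.sum_le_sum fun i _ => re_sq_le _).trans hV')
    have e2 := hH m (fun i => (inner ℂ p.2 (A i p.1)).im) V s hV hs0
      ((Finset.sum_le_sum fun i _ => im_sq_le _).trans hV')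
    rw [hs2] at e1 e2
    have e3 : ((R p.1 p.2 ∪ I p.1 p.2).card : ℝ) ≤
        ((R p.1 p.2).card : ℝ) + ((I p.1 p.2).card : ℝ) := by
      exact_mod_cast Finset.card_union_le _ _
    calc ((R p.1 p.2 ∪ I p.1 p.2).card : ℝ) ≤ _ := e3
      _ ≤ 2 * 2 ^ m * Real.exp (-(t ^ 2 / (16 * V))) +
          2 * 2 ^ m * Real.exp (-(t ^ 2 / (16 * V))) := add_le_add e1 e2
      _ = 4 * 2 ^ m * Real.exp (-(t ^ 2 / (16 * V))) := by ring
  have hNN : ((N ×ˢ N).card : ℝ) ≤ 6561 ^ d := by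
    rw [Finset.card_product]
    have : N.card * N.card ≤ 81 ^ d * 81 ^ d := Nat.mul_le_mul hNc hNc
    have h2 : (81 : ℕ) ^ d * 81 ^ d = 6561 ^ d := by
      rw [← mul_pow]; norm_num
    rw [h2] at this
    exact_mod_cast this
  calc ((Finset.univ.filter
      (fun x : Fin m → Bool => t < ‖∑ i, ((sg (x i) : ℝ) : ℂ) • A i‖)).card : ℝ)
      ≤ (((N ×ˢ N).biUnion (fun p => R p.1 p.2 ∪ I p.1 p.2)).card : ℝ) := by
        exact_mod_cast Finset.card_le_card hsub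
    _ ≤ ∑ p ∈ N ×ˢ N, ((R p.1 p.2 ∪ I p.1 p.2).card : ℝ) := by
        exact_mod_cast Finset.card_biUnion_le
    _ ≤ ∑ _p ∈ N ×ˢ N, 4 * 2 ^ m * Real.exp (-(t ^ 2 / (16 * V))) := Finset.sum_le_sum hb
    _ = ((N ×ˢ N).card : ℝ) * (4 * 2 ^ m * Real.exp (-(t ^ 2 / (16 * V)))) := by
        rw [Finset.sum_const, nsmul_eq_mul]
    _ ≤ 6561 ^ d * (4 * 2 ^ m * Real.exp (-(t ^ 2 / (16 * V)))) := by
        refine mul_le_mul_of_nonneg_right hNN ?_
        positivity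
    _ = 4 * 6561 ^ d * 2 ^ m * Real.exp (-(t ^ 2 / (16 * V))) := by ring

end Pool.Agent.H120R2.GS
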