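import Pool.Agent.H120R2.GS.Stubs2

set_option autoImplicit false

namespace Pool.Agent.H120R2.GS

open scoped BigOperators Matrix Matrix.Norms.L2Operator

namespace TRNh

lemma spec {κ : Type} [Fintype κ] [DecidableEq κ] (X : Matrix κ κ ℂ) (hX : X.IsHermitian) :
    ∃ s : κ → ℝ, (∀ k : ℕ, (X ^ k).trace = ((∑ a, s a ^ k : ℝ) : ℂ)) ∧
      ‖X‖ = ‖(fun a => (s a : ℂ))‖ := by
  refine ⟨hX.eigenvalues, ?_, ?_⟩
  · intro k
    have h1 : X ^ k = Unitary.conjStarAlgAut ℂ _ hX.eigenvectorUnitary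
        ((Matrix.diagonal ((RCLike.ofReal : ℝ → ℂ) ∘ hX.eigenvalues)) ^ k) := by
      rw [map_pow, ← hX.spectral_theorem]
    rw [h1, Unitary.conjStarAlgAut_apply, Matrix.trace_mul_comm, ← mul_assoc,
      Unitary.coe_star_mul_self, one_mul, Matrix.diagonal_pow, Matrix.trace_diagonal]
    push_cast
    rfl
  · conv_lhs => rw [hX.spectral_theorem, Unitary.conjStarAlgAut_apply]
    rw [← Unitary.coe_star, CStarRing.norm_mul_coe_unitary, CStarRing.norm_coe_unitary_mul,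
      Matrix.l2_opNorm_diagonal]
    rfl

end TRNh

theorem T_TRN : P_TRN := by
  intro κ _ _ X p hne hX
  obtain ⟨s, h1, h2⟩ := TRNh.spec X hX
  haveI := hne
  have hcard : (Fintype.card κ : ℝ) ≠ 0 := by
    have := Fintype.card_pos (α := κ)
    positivity
  have h3 : (Fintype.card κ : ℝ) * nt (X ^ (2 * p)) = ∑ a, s a ^ (2 * p) := by
    unfold nt
    rw [h1, Complex.ofReal_re]
    field_simp
  rw [h3, h2]
  obtain ⟨a, ha⟩ : ∃ a : κ, ‖(fun a => (s a : ℂ))‖ = |s a| := by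
    obtain ⟨a, -, ha⟩ := Finset.exists_mem_eq_sup' (Finset.univ_nonempty (α := κ))
      (fun a => ‖(s a : ℂ)‖₊)
    refine ⟨a, ?_⟩
    rw [Pi.norm_def, ← Finset.sup'_eq_sup Finset.univ_nonempty, ha]
    simp
  rw [ha, pow_mul, sq_abs, ← pow_mul]
  exact Finset.single_le_sum (f := fun a => s a ^ (2 * p))
    (fun i _ => by rw [pow_mul]; positivity) (Finset.mem_univ a)

end Pool.Agent.H120R2.GS
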