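import Pool.Agent.H120R2.GS.Stubs2

/-!
# Variance of trace moments
-/

set_option autoImplicit false

namespace Pool.Agent.H120R2.GS

open scoped BigOperators Matrix Matrix.Norms.L2Operator

namespace VARh

variable {κ : Type} [Fintype κ] [DecidableEq κ]

/-! ### norms -/

theorem col_le (Y : Matrix κ κ ℂ) (b : κ) : ∑ a, ‖Y a b‖ ^ 2 ≤ ‖Y‖ ^ 2 := by
  have h := Y.l2_opNorm_mulVec (EuclideanSpace.single b (1 : ℂ))
  have h1 : ‖(EuclideanSpace.single b (1 : ℂ) : EuclideanSpace ℂ κ)‖ = 1 := by simp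
  rw [h1, mul_one] at h
  have h2 := pow_le_pow_left₀ (norm_nonneg _) h 2
  rw [EuclideanSpace.norm_sq_eq] at h2
  refine le_trans (le_of_eq ?_) h2
  refine Finset.sum_congr rfl fun a _ => ?_
  congr 2
  simp [Matrix.mulVec, dotProduct]

theorem hs_le (Y : Matrix κ κ ℂ) : hs Y ≤ Fintype.card κ * ‖Y‖ ^ 2 := by
  unfold hs
  rw [Finset.sum_comm]
  calc ∑ b, ∑ a, ‖Y a b‖ ^ 2 ≤ ∑ _b : κ, ‖Y‖ ^ 2 := Finset.sum_le_sum fun b _ => col_le Y b
    _ = Fintype.card κ * ‖Y‖ ^ 2 := by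
      rw [Finset.sum_const, Finset.card_univ, nsmul_eq_mul]

theorem entry_le (Y : Matrix κ κ ℂ) (a b : κ) : ‖Y a b‖ ≤ ‖Y‖ := by
  have h1 : ‖Y a b‖ ^ 2 ≤ ∑ a', ‖Y a' b‖ ^ 2 :=
    Finset.single_le_sum (f := fun a' => ‖Y a' b‖ ^ 2) (fun _ _ => by positivity)
      (Finset.mem_univ a)
  exact (pow_le_pow_iff_left₀ (norm_nonneg _) (norm_nonneg _) two_ne_zero).1
    (h1.trans (col_le Y b))

theorem nt_le (Z : Matrix κ κ ℂ) : |nt Z| ≤ ‖Z‖ := by
  unfold nt
  rw [abs_div, Nat.abs_cast]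
  apply div_le_of_le_mul₀ (Nat.cast_nonneg _) (norm_nonneg _)
  calc |Z.trace.re| ≤ ‖Z.trace‖ := Complex.abs_re_le_norm _
    _ ≤ ∑ a, ‖Z a a‖ := norm_sum_le _ _
    _ ≤ ∑ _a : κ, ‖Z‖ := Finset.sum_le_sum fun a _ => entry_le Z a a
    _ = ‖Z‖ * Fintype.card κ := by
      rw [Finset.sum_const, Finset.card_univ, nsmul_eq_mul, mul_comm]

theorem one_le : ‖(1 : Matrix κ κ ℂ)‖ ≤ 1 := by
  have h := Matrix.l2_opNorm_conjTranspose_mul_self (1 : Matrix κ κ ℂ)
  rw [Matrix.conjTranspose_one, mul_one] at h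
  by_contra hcon
  push Not at hcon
  nlinarith [norm_nonneg (1 : Matrix κ κ ℂ)]

theorem pow_le (X : Matrix κ κ ℂ) {M : ℝ} (hX : ‖X‖ ≤ M) (k : ℕ) : ‖X ^ k‖ ≤ M ^ k := by
  have hM : 0 ≤ M := (norm_nonneg _).trans hX
  induction k with
  | zero => rw [pow_zero, pow_zero]; exact one_le
  | succ k ih =>
    rw [pow_succ, pow_succ]
    exact (Matrix.l2_opNorm_mul _ _).trans (mul_le_mul ih hX (norm_nonneg _) (pow_nonneg hM k))

/-! ### the normalised trace -/

theorem nt_mul_comm (X Y : Matrix κ κ ℂ) : nt (X * Y) = nt (Y * X) := by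
  unfold nt
  rw [Matrix.trace_mul_comm]

theorem nt_sub (X Y : Matrix κ κ ℂ) : nt (X - Y) = nt X - nt Y := by
  unfold nt
  rw [Matrix.trace_sub, Complex.sub_re, sub_div]

theorem nt_smul (r : ℝ) (X : Matrix κ κ ℂ) : nt ((r : ℂ) • X) = r * nt X := by
  unfold nt
  rw [Matrix.trace_smul, smul_eq_mul, Complex.re_ofReal_mul, mul_div_assoc]

theorem nt_sum {ι : Type} (s : Finset ι) (X : ι → Matrix κ κ ℂ) :
    nt (∑ i ∈ s, X i) = ∑ i ∈ s, nt (X i) := by
  unfold nt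
  rw [Matrix.trace_sum, Complex.re_sum, Finset.sum_div]

theorem tele (S T : Matrix κ κ ℂ) (k : ℕ) :
    S ^ k - T ^ k = ∑ l ∈ Finset.range k, S ^ l * (S - T) * T ^ (k - 1 - l) := by
  induction k with
  | zero => simp
  | succ k ih =>
    rw [Finset.sum_range_succ]
    have h1 : ∑ l ∈ Finset.range k, S ^ l * (S - T) * T ^ (k + 1 - 1 - l) =
        (∑ l ∈ Finset.range k, S ^ l * (S - T) * T ^ (k - 1 - l)) * T := by
      rw [Finset.sum_mul]
      refine Finset.sum_congr rfl fun l hl => ?_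
      rw [Finset.mem_range] at hl
      rw [show k + 1 - 1 - l = (k - 1 - l) + 1 by omega, pow_succ]
      simp only [Matrix.mul_assoc]
    rw [h1, ← ih, show k + 1 - 1 - k = 0 by omega, pow_zero, Matrix.mul_one, pow_succ, pow_succ,
      Matrix.sub_mul, Matrix.mul_sub]
    abel

theorem pow_sub_le {S T : Matrix κ κ ℂ} {M : ℝ} (hS : ‖S‖ ≤ M) (hT : ‖T‖ ≤ M)
    (hd : ‖T - S‖ ≤ 2) (k : ℕ) : ‖T ^ k - S ^ k‖ ≤ 2 * k * M ^ (k - 1) := by
  have hM : 0 ≤ M := (norm_nonneg _).trans hS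
  rw [tele]
  refine (norm_sum_le _ _).trans ?_
  calc ∑ l ∈ Finset.range k, ‖T ^ l * (T - S) * S ^ (k - 1 - l)‖
      ≤ ∑ l ∈ Finset.range k, 2 * M ^ (k - 1) := by
        refine Finset.sum_le_sum fun l hl => ?_
        rw [Finset.mem_range] at hl
        calc ‖T ^ l * (T - S) * S ^ (k - 1 - l)‖ ≤ ‖T ^ l * (T - S)‖ * ‖S ^ (k - 1 - l)‖ :=
              Matrix.l2_opNorm_mul _ _
          _ ≤ (‖T ^ l‖ * ‖T - S‖) * ‖S ^ (k - 1 - l)‖ :=
              mul_le_mul_of_nonneg_right (Matrix.l2_opNorm_mul _ _) (norm_nonneg _)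
          _ ≤ (M ^ l * 2) * M ^ (k - 1 - l) := by
              apply mul_le_mul (mul_le_mul (pow_le T hT l) hd (norm_nonneg _) (pow_nonneg hM l))
                (pow_le S hS _) (norm_nonneg _) (by positivity)
          _ = 2 * M ^ (k - 1) := by
              rw [mul_comm (M ^ l) 2, mul_assoc, ← pow_add]
              congr 2
              omega
    _ = 2 * k * M ^ (k - 1) := by
        rw [Finset.sum_const, Finset.card_range, nsmul_eq_mul]
        ring

theorem sg_abs (b : Bool) : |sg b| = 1 := by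
  cases b <;> simp [sg]

theorem SS_sub {m : ℕ} (A : Fin m → Matrix κ κ ℂ) (x : Fin m → Bool) (i : Fin m) :
    SS A x - SS A (Function.update x i (!(x i))) = ((2 * sg (x i) : ℝ) : ℂ) • A i := by
  unfold SS
  rw [← Finset.sum_sub_distrib, Finset.sum_eq_single i]
  · rw [Function.update_self, ← sub_smul]
    congr 1
    cases x i <;> simp [sg] <;> norm_num
  · intro j _ hj
    rw [Function.update_of_ne hj, sub_self]
  · intro h
    exact absurd (Finset.mem_univ i) h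

/-- the main estimate -/
theorem key {m N : ℕ} {A : Fin m → Matrix κ κ ℂ} (hN : 2 ≤ N) (hA : ∀ i, ‖A i‖ ≤ 1)
    (x : Fin m → Bool) (i : Fin m) :
    |(nt (SS A x ^ N) - nt (SS A (Function.update x i (!(x i))) ^ N)) / 2 -
      sg (x i) * (N * nt (A i * SS A x ^ (N - 1)))| ≤
      2 * N ^ 2 * (‖SS A x‖ + 2) ^ (N - 2) := by
  set S := SS A x with hS
  set T := SS A (Function.update x i (!(x i))) with hT
  set e := sg (x i) with he
  set M := ‖S‖ + 2 with hM
  have hM0 : 0 ≤ M := by positivity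
  have hST : S - T = ((2 * e : ℝ) : ℂ) • A i := SS_sub A x i
  have hn : ‖S - T‖ ≤ 2 := by
    rw [hST, norm_smul, Complex.norm_real, Real.norm_eq_abs, abs_mul, he, sg_abs]
    have := hA i
    norm_num
    linarith
  have hSM : ‖S‖ ≤ M := by linarith
  have hTM : ‖T‖ ≤ M := by
    have h1 : ‖T‖ ≤ ‖S‖ + ‖S - T‖ := by
      have : T = S - (S - T) := by abel
      calc ‖T‖ = ‖S - (S - T)‖ := by rw [← this]
        _ ≤ ‖S‖ + ‖S - T‖ := norm_sub_le _ _
    linarith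
  have hTS : ‖T - S‖ ≤ 2 := by rw [norm_sub_rev]; exact hn
  have e1 : nt (S ^ N) - nt (T ^ N) =
      2 * e * ∑ l ∈ Finset.range N, nt (S ^ l * A i * T ^ (N - 1 - l)) := by
    rw [← nt_sub, tele, nt_sum, Finset.mul_sum]
    refine Finset.sum_congr rfl fun l _ => ?_
    rw [hST, Matrix.mul_smul, Matrix.smul_mul, nt_smul]
  have e2 : N * nt (A i * S ^ (N - 1)) =
      ∑ l ∈ Finset.range N, nt (S ^ l * A i * S ^ (N - 1 - l)) := by
    have : ∀ l ∈ Finset.range N, nt (S ^ l * A i * S ^ (N - 1 - l)) =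
        nt (A i * S ^ (N - 1)) := by
      intro l hl
      rw [Finset.mem_range] at hl
      rw [Matrix.mul_assoc, nt_mul_comm, Matrix.mul_assoc, ← pow_add]
      congr 3
      omega
    rw [Finset.sum_congr rfl this, Finset.sum_const, Finset.card_range, nsmul_eq_mul]
  have e3 : (nt (S ^ N) - nt (T ^ N)) / 2 - e * (N * nt (A i * S ^ (N - 1))) =
      e * ∑ l ∈ Finset.range N, nt (S ^ l * A i * (T ^ (N - 1 - l) - S ^ (N - 1 - l))) := by
    rw [e1, e2]
    have : ∀ l ∈ Finset.range N, nt (S ^ l * A i * (T ^ (N - 1 - l) - S ^ (N - 1 - l))) =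
        nt (S ^ l * A i * T ^ (N - 1 - l)) - nt (S ^ l * A i * S ^ (N - 1 - l)) := by
      intro l _
      rw [Matrix.mul_sub, nt_sub]
    rw [Finset.sum_congr rfl this, Finset.sum_sub_distrib]
    ring
  rw [e3, abs_mul, he, sg_abs, one_mul]
  refine (Finset.abs_sum_le_sum_abs _ _).trans ?_
  calc ∑ l ∈ Finset.range N, |nt (S ^ l * A i * (T ^ (N - 1 - l) - S ^ (N - 1 - l)))|
      ≤ ∑ l ∈ Finset.range N, 2 * N * M ^ (N - 2) := by
        refine Finset.sum_le_sum fun l hl => ?_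
        rw [Finset.mem_range] at hl
        refine (nt_le _).trans ?_
        by_cases hc : l = N - 1
        · subst hc
          rw [show N - 1 - (N - 1) = 0 by omega, pow_zero, pow_zero, sub_self, Matrix.mul_zero,
            norm_zero]
          positivity
        · have hp := pow_sub_le hSM hTM hTS (N - 1 - l)
          calc ‖S ^ l * A i * (T ^ (N - 1 - l) - S ^ (N - 1 - l))‖
              ≤ ‖S ^ l * A i‖ * ‖T ^ (N - 1 - l) - S ^ (N - 1 - l)‖ := Matrix.l2_opNorm_mul _ _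
            _ ≤ (‖S ^ l‖ * ‖A i‖) * ‖T ^ (N - 1 - l) - S ^ (N - 1 - l)‖ :=
                mul_le_mul_of_nonneg_right (Matrix.l2_opNorm_mul _ _) (norm_nonneg _)
            _ ≤ (M ^ l * 1) * (2 * ((N - 1 - l : ℕ) : ℝ) * M ^ (N - 1 - l - 1)) := by
                apply mul_le_mul (mul_le_mul (pow_le S hSM l) (hA i) (norm_nonneg _)
                  (pow_nonneg hM0 l)) hp (norm_nonneg _) (by positivity)
            _ = 2 * ((N - 1 - l : ℕ) : ℝ) * M ^ (N - 2) := by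
                have : M ^ (N - 2) = M ^ l * M ^ (N - 1 - l - 1) := by
                  rw [← pow_add]
                  congr 1
                  omega
                rw [this]
                ring
            _ ≤ 2 * N * M ^ (N - 2) := by
                have : ((N - 1 - l : ℕ) : ℝ) ≤ N := by
                  exact_mod_cast (by omega : N - 1 - l ≤ N)
                gcongr
    _ = 2 * N ^ 2 * M ^ (N - 2) := by
        rw [Finset.sum_const, Finset.card_range, nsmul_eq_mul]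
        ring

theorem cov_le {m N : ℕ} {A : Fin m → Matrix κ κ ℂ} {c : ℝ} (hc : 0 ≤ c) (hC : Cov A c)
    (S : Matrix κ κ ℂ) :
    ∑ i, nt (A i * S ^ (N - 1)) ^ 2 ≤ c / Fintype.card κ * ‖S‖ ^ (2 * N - 2) := by
  have h1 : ∑ i, nt (A i * S ^ (N - 1)) ^ 2 ≤
      (∑ i, ‖(A i * S ^ (N - 1)).trace‖ ^ 2) / (Fintype.card κ : ℝ) ^ 2 := by
    rw [Finset.sum_div]
    refine Finset.sum_le_sum fun i _ => ?_
    unfold nt
    rw [div_pow]
    apply div_le_div_of_nonneg_right _ (by positivity)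
    rw [← sq_abs]
    exact pow_le_pow_left₀ (abs_nonneg _) (Complex.abs_re_le_norm _) 2
  have h2 : hs (S ^ (N - 1)) ≤ Fintype.card κ * ‖S‖ ^ (2 * N - 2) := by
    refine (hs_le _).trans ?_
    have h3 := pow_le_pow_left₀ (norm_nonneg _) (pow_le S le_rfl (N - 1)) 2
    rw [← pow_mul] at h3
    rw [show 2 * N - 2 = (N - 1) * 2 by omega]
    gcongr
  have h4 := hC (S ^ (N - 1))
  by_cases hD : (Fintype.card κ : ℝ) = 0
  · rw [hD] at h1 ⊢
    simpa using h1
  · have hD' : 0 < (Fintype.card κ : ℝ) := lt_of_le_of_ne (Nat.cast_nonneg _) (Ne.symm hD)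
    refine h1.trans ?_
    rw [div_le_iff₀ (by positivity)]
    calc ∑ i, ‖(A i * S ^ (N - 1)).trace‖ ^ 2 ≤ c * hs (S ^ (N - 1)) := h4
      _ ≤ c * (Fintype.card κ * ‖S‖ ^ (2 * N - 2)) := mul_le_mul_of_nonneg_left h2 hc
      _ = c / Fintype.card κ * ‖S‖ ^ (2 * N - 2) * (Fintype.card κ : ℝ) ^ 2 := by
        field_simp

theorem Av_mono {m : ℕ} {f g : (Fin m → Bool) → ℝ} (h : ∀ x, f x ≤ g x) : Av f ≤ Av g := by
  unfold Av
  gcongr with x
  exact h x

end VARh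

open VARh in
theorem T_VAR : P_EF → P_VAR := by
  intro hEF κ _ _ m N A c hN hc hA hC
  refine (hEF m fun x => nt (SS A x ^ N)).trans ?_
  have h1 : ∑ i, Av (fun x => ((nt (SS A x ^ N) -
      nt (SS A (Function.update x i (!(x i))) ^ N)) / 2) ^ 2) =
      Av (fun x => ∑ i, ((nt (SS A x ^ N) -
        nt (SS A (Function.update x i (!(x i))) ^ N)) / 2) ^ 2) := by
    unfold Av
    rw [← Finset.sum_div, Finset.sum_comm]
  have h2 : 2 * N ^ 2 * (c / Fintype.card κ) * Av (fun x => ‖SS A x‖ ^ (2 * N - 2)) +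
      8 * m * N ^ 4 * Av (fun x => (‖SS A x‖ + 2) ^ (2 * N - 4)) =
      Av (fun x => 2 * N ^ 2 * (c / Fintype.card κ) * ‖SS A x‖ ^ (2 * N - 2) +
        8 * m * N ^ 4 * (‖SS A x‖ + 2) ^ (2 * N - 4)) := by
    unfold Av
    rw [Finset.sum_add_distrib, ← Finset.mul_sum, ← Finset.mul_sum]
    ring
  rw [h1, h2]
  apply Av_mono
  intro x
  have h3 : ∀ i, ((nt (SS A x ^ N) - nt (SS A (Function.update x i (!(x i))) ^ N)) / 2) ^ 2 ≤
      2 * N ^ 2 * nt (A i * SS A x ^ (N - 1)) ^ 2 +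
        8 * N ^ 4 * (‖SS A x‖ + 2) ^ (2 * N - 4) := by
    intro i
    have hk := key hN hA x i
    set u := (nt (SS A x ^ N) - nt (SS A (Function.update x i (!(x i))) ^ N)) / 2 with hu
    set w := sg (x i) * (N * nt (A i * SS A x ^ (N - 1))) with hw
    have hb : (u - w) ^ 2 ≤ 4 * N ^ 4 * (‖SS A x‖ + 2) ^ (2 * N - 4) := by
      rw [← sq_abs]
      calc |u - w| ^ 2 ≤ (2 * N ^ 2 * (‖SS A x‖ + 2) ^ (N - 2)) ^ 2 :=
            pow_le_pow_left₀ (abs_nonneg _) hk 2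
        _ = 4 * N ^ 4 * (‖SS A x‖ + 2) ^ (2 * N - 4) := by
            rw [mul_pow, ← pow_mul, show (N - 2) * 2 = 2 * N - 4 by omega]
            ring
    have hw2 : w ^ 2 = N ^ 2 * nt (A i * SS A x ^ (N - 1)) ^ 2 := by
      rw [hw, mul_pow, mul_pow]
      have : sg (x i) ^ 2 = 1 := by
        rw [← sq_abs, sg_abs, one_pow]
      rw [this, one_mul]
    nlinarith [sq_nonneg (u - 2 * w)]
  calc ∑ i, ((nt (SS A x ^ N) - nt (SS A (Function.update x i (!(x i))) ^ N)) / 2) ^ 2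
      ≤ ∑ i : Fin m, (2 * N ^ 2 * nt (A i * SS A x ^ (N - 1)) ^ 2 +
        8 * N ^ 4 * (‖SS A x‖ + 2) ^ (2 * N - 4)) := Finset.sum_le_sum fun i _ => h3 i
    _ = 2 * N ^ 2 * ∑ i, nt (A i * SS A x ^ (N - 1)) ^ 2 +
        8 * m * N ^ 4 * (‖SS A x‖ + 2) ^ (2 * N - 4) := by
      rw [Finset.sum_add_distrib, ← Finset.mul_sum, Finset.sum_const, Finset.card_univ,
        Fintype.card_fin, nsmul_eq_mul]
      ring
    _ ≤ 2 * N ^ 2 * (c / Fintype.card κ * ‖SS A x‖ ^ (2 * N - 2)) +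
        8 * m * N ^ 4 * (‖SS A x‖ + 2) ^ (2 * N - 4) := by
      have := cov_le (N := N) hc hC (SS A x)
      gcongr
    _ = _ := by ring

end Pool.Agent.H120R2.GS
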