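import Pool.Agent.H120R2.GS.Stubs2

/-!
Task WV: covariance bounds control single matrix coefficients.
-/

set_option autoImplicit false

open scoped BigOperators Matrix Matrix.Norms.L2Operator

namespace Pool.Agent.H120R2.GS

namespace WVh

theorem expand {d : ℕ} (u : E d) : u = ∑ b, u b • (EuclideanSpace.single b (1 : ℂ) : E d) := by
  ext i
  simp [Finset.sum_apply, Pi.single_apply]

theorem inner_expand {d : ℕ} (T : Op d) (u v : E d) :
    inner ℂ v (T u) = ∑ a, ∑ b, ((starRingEnd ℂ) (v a) * u b) * mc T a b := by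
  conv_lhs => rw [expand u, expand v]
  rw [map_sum, sum_inner]
  refine Finset.sum_congr rfl fun a _ => ?_
  rw [inner_sum]
  refine Finset.sum_congr rfl fun b _ => ?_
  rw [map_smul, inner_smul_left, inner_smul_right]
  unfold mc
  ring

end WVh

open WVh in
theorem T_WV : P_WV := by
  intro μ _ d A c hc hA u v hu hv
  have h := hA (fun a b => (starRingEnd ℂ) (v a) * u b)
  simp only [← inner_expand] at h
  refine h.trans ?_
  have h1 : ∑ a, ∑ b, ‖(starRingEnd ℂ) (v a) * u b‖ ^ 2 = ‖v‖ ^ 2 * ‖u‖ ^ 2 := by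
    rw [EuclideanSpace.norm_sq_eq, EuclideanSpace.norm_sq_eq, Finset.sum_mul_sum]
    refine Finset.sum_congr rfl fun a _ => Finset.sum_congr rfl fun b _ => ?_
    rw [norm_mul, mul_pow, RCLike.norm_conj]
  rw [h1]
  have h2 : ‖v‖ ^ 2 * ‖u‖ ^ 2 ≤ 1 := by
    have e1 : ‖v‖ ^ 2 ≤ 1 := pow_le_one₀ (norm_nonneg _) hv
    have e2 : ‖u‖ ^ 2 ≤ 1 := pow_le_one₀ (norm_nonneg _) hu
    exact mul_le_one₀ e1 (sq_nonneg _) e2
  calc c * (‖v‖ ^ 2 * ‖u‖ ^ 2) ≤ c * 1 := mul_le_mul_of_nonneg_left h2 hc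
    _ = c := mul_one c

end Pool.Agent.H120R2.GS
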